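import Pool.Agent.LibNT29.Defs
import Pool.Agent.LibBT65.A2

set_option autoImplicit false

/-!
[NT29 A1] MEDIUM. Dimensions of orthogonal spaces. Everything from `Sys`; `LinearMap.BilinForm.finrank_orthogonal`,
`orthogonal_orthogonal` as in LibBT65/A1.lean (`pp B X = LinearMap.BilinForm.orthogonal B X` by `symm`, see `K_eq` there).
`pp_inter2`: `pp B a ⊓ pp B b = pp B (a ⊔ b)`, `a ⊓ b = ⊥` (`disj`: `v ∈ a` is orthogonal to `a` by `sing`, so `opp`
gives `v = 0`), so `a ⊔ b` has dimension 6. `pp_inter3`: `ind` gives `(a ⊔ b) ⊓ c = ⊥`, so `a ⊔ b ⊔ c` has dimension 9.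
`pp_im`: for an isometry, `B (g v - v) w = B v (g⁻¹ w - w)`... : `v ∈ eg g 1` iff `v` is orthogonal to `im g`:
`B v (g w - w) = B (g⁻¹ v - v) w`.
-/

namespace Pool.Agent.LibNT29

open Module Pool.Agent.LibBT65

variable {F V : Type*} [Field F] [Fintype F] [AddCommGroup V] [Module F V]
  {B : V →ₗ[F] V →ₗ[F] F} {M : Finset (Submodule F V)}

theorem fin (hS : Sys B M) : FiniteDimensional F V := by
  apply FiniteDimensional.of_finrank_pos
  rw [hS.dimV]
  norm_num

private theorem A1_refl (hS : Sys B M) : LinearMap.IsRefl B := by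
  intro x y h
  rw [hS.symm]
  exact h

private theorem A1_nd (hS : Sys B M) : LinearMap.Nondegenerate B := by
  refine ⟨fun x hx => hS.nondeg x hx, fun y hy => hS.nondeg y fun w => ?_⟩
  rw [hS.symm]
  exact hy w

private theorem A1_eq (hS : Sys B M) (X : Submodule F V) :
    pp B X = LinearMap.BilinForm.orthogonal B X := by
  ext v
  rw [mem_pp, LinearMap.BilinForm.mem_orthogonal_iff]
  constructor
  · intro h u hu
    rw [hS.symm]
    exact h u hu
  · intro h u hu
    rw [hS.symm]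
    exact h u hu

theorem base {π : Submodule F V} (hπ : π ∈ M) : Base B M π (pp B π) := by
  exact ⟨hπ, fun v => Iff.rfl⟩

theorem pp_finrank (hS : Sys B M) (X : Submodule F V) : finrank F (pp B X) + finrank F X = 10 := by
  have := fin hS
  have h := LinearMap.BilinForm.finrank_orthogonal (B := B) (A1_nd hS) X
  have h2 := Submodule.finrank_le X
  rw [A1_eq hS, h]
  rw [hS.dimV] at h2 ⊢
  omega

theorem pp_pp (hS : Sys B M) (X : Submodule F V) : pp B (pp B X) = X := by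
  have := fin hS
  rw [A1_eq hS, A1_eq hS]
  exact LinearMap.BilinForm.orthogonal_orthogonal (A1_nd hS) (A1_refl hS) X

theorem pp_sup (X Y : Submodule F V) : pp B (X ⊔ Y) = pp B X ⊓ pp B Y := by
  ext v
  rw [Submodule.mem_inf, mem_pp, mem_pp, mem_pp]
  constructor
  · intro h
    exact ⟨fun u hu => h u (Submodule.mem_sup_left hu),
      fun u hu => h u (Submodule.mem_sup_right hu)⟩
  · rintro ⟨h1, h2⟩ u hu
    obtain ⟨x, hx, y, hy, rfl⟩ := Submodule.mem_sup.1 hu
    rw [map_add, h1 x hx, h2 y hy, add_zero]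

theorem pp_inf (hS : Sys B M) (X Y : Submodule F V) : pp B (X ⊓ Y) = pp B X ⊔ pp B Y := by
  have h := pp_sup (B := B) (pp B X) (pp B Y)
  rw [pp_pp hS, pp_pp hS] at h
  rw [← h, pp_pp hS]

theorem disj (hS : Sys B M) {a b : Submodule F V} (ha : a ∈ M) (hb : b ∈ M) (hab : a ≠ b) {v : V}
    (hva : v ∈ a) (hvb : v ∈ b) : v = 0 := by
  exact hS.opp a ha b hb hab v hvb fun w hw => hS.sing a ha v hva w hw

theorem le_pp (hS : Sys B M) {a : Submodule F V} (ha : a ∈ M) : a ≤ pp B a := by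
  intro v hv u hu
  exact hS.sing a ha v hv u hu

theorem eq_of_mem_pp (hS : Sys B M) {a b : Submodule F V} (ha : a ∈ M) (hb : b ∈ M) {v : V} (hv : v ≠ 0)
    (hva : v ∈ a) (hvb : v ∈ pp B b) : a = b := by
  by_contra h
  exact hv (hS.opp b hb a ha (Ne.symm h) v hva fun w hw => hvb w hw)

theorem pp_dim (hS : Sys B M) {a : Submodule F V} (ha : a ∈ M) : finrank F (pp B a) = 7 := by
  have h := pp_finrank hS a
  rw [hS.dim a ha] at h
  omega

private theorem A1_sup2 (hS : Sys B M) {a b : Submodule F V} (ha : a ∈ M) (hb : b ∈ M)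
    (hab : a ≠ b) : finrank F (a ⊔ b : Submodule F V) = 6 := by
  have := fin hS
  have hinf : a ⊓ b = ⊥ := by
    rw [Submodule.eq_bot_iff]
    intro x hx
    exact disj hS ha hb hab hx.1 hx.2
  have h1 := Submodule.finrank_sup_add_finrank_inf_eq a b
  rw [hinf, finrank_bot, hS.dim a ha, hS.dim b hb] at h1
  omega

theorem pp_inter2 (hS : Sys B M) {a b : Submodule F V} (ha : a ∈ M) (hb : b ∈ M) (hab : a ≠ b) :
    finrank F (pp B a ⊓ pp B b : Submodule F V) = 4 := by
  have h := pp_finrank hS (a ⊔ b)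
  rw [A1_sup2 hS ha hb hab] at h
  rw [← pp_sup]
  omega

theorem pp_inter3 (hS : Sys B M) {a b c : Submodule F V} (ha : a ∈ M) (hb : b ∈ M) (hc : c ∈ M)
    (hab : a ≠ b) (hac : a ≠ c) (hbc : b ≠ c) :
    finrank F (pp B a ⊓ pp B b ⊓ pp B c : Submodule F V) = 1 := by
  have := fin hS
  have hinf : (a ⊔ b) ⊓ c = ⊥ := by
    rw [Submodule.eq_bot_iff]
    rintro x ⟨hx, hxc⟩
    obtain ⟨y, hy, z, hz, hyz⟩ := Submodule.mem_sup.1 hx
    have h1 := hS.ind a ha b hb c hc hab hac hbc y hy z hz (-x) (c.neg_mem hxc)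
      (by rw [hyz, add_neg_cancel])
    exact neg_eq_zero.1 h1.2.2
  have h1 := Submodule.finrank_sup_add_finrank_inf_eq (a ⊔ b) c
  rw [hinf, finrank_bot, A1_sup2 hS ha hb hab, hS.dim c hc] at h1
  have h2 := pp_finrank hS (a ⊔ b ⊔ c)
  rw [← pp_sup, ← pp_sup]
  omega

theorem pp_im (hS : Sys B M) {g : V ≃ₗ[F] V} (hg : Simi B M 1 g) : pp B (im g) = eg g 1 := by
  ext v
  rw [mem_pp, mem_eg, one_smul]
  constructor
  · intro h
    rw [← sub_eq_zero]
    refine hS.nondeg _ fun w' => ?_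
    obtain ⟨w, rfl⟩ := g.surjective w'
    have h1 := h (g w - w) ⟨w, rfl⟩
    have h2 := hg.sim v w
    rw [map_sub, sub_eq_zero] at h1
    rw [map_sub, LinearMap.sub_apply, h2, one_mul, h1, sub_self]
  · rintro h u ⟨w, rfl⟩
    have h2 := hg.sim v w
    rw [h, one_mul] at h2
    show B v (g w - w) = 0
    rw [map_sub, h2, sub_self]

/-- the unique member with `v ∈ U ⊔ π` -/
theorem F2' (hS : Sys B M) {U : Submodule F V} (hU : U ∈ M) {v : V} (hv : v ∉ pp B U) :
    ∃ π ∈ M, π ≠ U ∧ ∃ u ∈ U, ∃ s ∈ π, v = u + s := by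
  obtain ⟨π, hπ, hne, s, hs, h⟩ := F2 hS (base hU) hv
  exact ⟨π, hπ, hne, v - s, h, s, hs, (sub_add_cancel v s).symm⟩

theorem F2_unique (hS : Sys B M) {U a b : Submodule F V} (hU : U ∈ M) (ha : a ∈ M) (hb : b ∈ M) (haU : a ≠ U)
    (hbU : b ≠ U) {u s u' s' : V} (hu : u ∈ U) (hs : s ∈ a) (hu' : u' ∈ U) (hs' : s' ∈ b) (hs0 : s ≠ 0)
    (h : u + s = u' + s') : a = b ∧ u = u' ∧ s = s' := by
  have hd : s - s' ∈ U := by
    have h1 : s - s' = u' - u := by
      rw [sub_eq_sub_iff_add_eq_add, add_comm s u, h]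
    rw [h1]
    exact U.sub_mem hu' hu
  have hab : a = b := by
    by_contra hne
    exact hs0 (F1 hS (base hU) ha hb haU hbU hne hs hs' hd).1
  subst hab
  have hss : s = s' := sub_eq_zero.1 (disj hS ha hU haU (a.sub_mem hs hs') hd)
  subst hss
  exact ⟨rfl, add_right_cancel h, rfl⟩

end Pool.Agent.LibNT29
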