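import Pool.Agent.LibNT29.A2a

set_option autoImplicit false

/-!
[NT29 A2] SHORT/MEDIUM. `tt` takes the values 0 and `q+1` outside the members: by A2a
`∑ t (t - q - 1)^2 = T3 + (1 - 2 q) T2 + q^2 T1 = 0` (`t (t-q-1)^2 = t(t-1)(t-2) + (1-2q) t(t-1) + q^2 t`, `ring`), a sum
of nonnegative terms. `Finset.sum_eq_zero_iff_of_nonneg`. (`V` is finite: `fin hS`, `Module.finite_of_finite F`, `Fintype.ofFinite`.)
`tt_mem`: `eq_of_mem_pp`, `le_pp`.
-/

namespace Pool.Agent.LibNT29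

open Module Pool.Agent.LibBT65

variable {F V : Type*} [Field F] [Fintype F] [AddCommGroup V] [Module F V]
  {B : V →ₗ[F] V →ₗ[F] F} {M : Finset (Submodule F V)}

theorem tt_mem (hS : Sys B M) {v : V} (hv : v ≠ 0) (hm : Mem M v) : tt B M v = 1 := by
  classical
  obtain ⟨π, hπ, hvπ⟩ := hm
  unfold tt
  rw [Finset.card_eq_one]
  refine ⟨π, ?_⟩
  ext π'
  rw [Finset.mem_filter, Finset.mem_singleton]
  constructor
  · rintro ⟨h1, h2⟩
    exact (eq_of_mem_pp hS hπ h1 hv hvπ h2).symm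
  · rintro rfl
    exact ⟨hπ, le_pp hS hπ hvπ⟩

theorem tt_val (hS : Sys B M) {v : V} (hv : v ≠ 0) (hm : ¬ Mem M v) :
    tt B M v = 0 ∨ tt B M v = Fintype.card F + 1 := by
  classical
  have hfd : FiniteDimensional F V := fin hS
  have hfin : Finite V := Module.finite_of_finite F
  have hft : Fintype V := Fintype.ofFinite V
  have h0 : ∑ v ∈ (Finset.univ.filter fun v : V => v ≠ 0 ∧ ¬ Mem M v),
      (tt B M v : ℤ) * ((tt B M v : ℤ) - Fintype.card F - 1) ^ 2 = 0 := by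
    have h1 := sum1 hS
    have h2 := sum2 hS
    have h3 := sum3 hS
    have h4 : ∑ v ∈ (Finset.univ.filter fun v : V => v ≠ 0 ∧ ¬ Mem M v),
        (tt B M v : ℤ) * ((tt B M v : ℤ) - Fintype.card F - 1) ^ 2 =
        (∑ v ∈ (Finset.univ.filter fun v : V => v ≠ 0 ∧ ¬ Mem M v),
          (tt B M v : ℤ) * ((tt B M v : ℤ) - 1) * ((tt B M v : ℤ) - 2)) +
        (1 - 2 * (Fintype.card F : ℤ)) *
          (∑ v ∈ (Finset.univ.filter fun v : V => v ≠ 0 ∧ ¬ Mem M v),
            (tt B M v : ℤ) * ((tt B M v : ℤ) - 1)) +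
        (Fintype.card F : ℤ) ^ 2 *
          ∑ v ∈ (Finset.univ.filter fun v : V => v ≠ 0 ∧ ¬ Mem M v), (tt B M v : ℤ) := by
      rw [Finset.mul_sum, Finset.mul_sum, ← Finset.sum_add_distrib, ← Finset.sum_add_distrib]
      refine Finset.sum_congr rfl fun v _ => ?_
      ring
    rw [h4, h1, h2, h3]
    ring
  rw [Finset.sum_eq_zero_iff_of_nonneg (fun v _ =>
    mul_nonneg (Int.natCast_nonneg _) (sq_nonneg _))] at h0
  have h5 := h0 v (Finset.mem_filter.2 ⟨Finset.mem_univ v, hv, hm⟩)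
  rcases mul_eq_zero.1 h5 with h6 | h6
  · left
    exact_mod_cast h6
  · right
    have h7 := pow_eq_zero_iff (two_ne_zero) |>.1 h6
    have h8 : (tt B M v : ℤ) = ((Fintype.card F + 1 : ℕ) : ℤ) := by
      push_cast
      linarith
    exact_mod_cast h8

theorem tt_le (hS : Sys B M) {v : V} (hv : v ≠ 0) : tt B M v ≤ Fintype.card F + 1 := by
  by_cases hm : Mem M v
  · rw [tt_mem hS hv hm]
    exact Nat.le_add_left 1 _
  · rcases tt_val hS hv hm with h | h
    · rw [h]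
      exact Nat.zero_le _
    · exact h.le

theorem tt_two (hS : Sys B M) {a b : Submodule F V} (ha : a ∈ M) (hb : b ∈ M) (hab : a ≠ b) {v : V}
    (hv : v ≠ 0) (hva : v ∈ pp B a) (hvb : v ∈ pp B b) : ¬ Mem M v ∧ tt B M v = Fintype.card F + 1 := by
  classical
  have hm : ¬ Mem M v := by
    rintro ⟨π, hπ, hvπ⟩
    exact hab ((eq_of_mem_pp hS hπ ha hv hvπ hva).symm.trans (eq_of_mem_pp hS hπ hb hv hvπ hvb))
  refine ⟨hm, ?_⟩
  rcases tt_val hS hv hm with h | h
  · exfalso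
    unfold tt at h
    rw [Finset.card_eq_zero] at h
    have h1 : a ∈ M.filter fun π => v ∈ pp B π := Finset.mem_filter.2 ⟨ha, hva⟩
    rw [h] at h1
    exact Finset.notMem_empty a h1
  · exact h

theorem tt_zero_mem (hS : Sys B M) : tt B M 0 = Fintype.card F ^ 4 + 1 := by
  classical
  have hq : M.card = Fintype.card F ^ 4 + 1 := by
    exact hS.card
  rw [← hq]
  unfold tt
  rw [Finset.filter_true_of_mem]
  intro π _
  exact (pp B π).zero_mem

end Pool.Agent.LibNT29
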