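import Pool.Agent.LibNT29.A1

set_option autoImplicit false

/-!
[NT29 A2a] MEDIUM/STRONG. Three counts over the nonzero vectors `v` which lie in no member (call them ordinary).
A nonzero vector of a member `π` lies in exactly one `pp B π'`, namely `π' = π` (`eq_of_mem_pp`, `le_pp`).
`sum1`: double counting of the pairs `(v, π)`, `v ∈ pp B π` ordinary: for every `π` there are `q^7 - q^3` (`pp B π` has
`q^7` elements, `Module.card_eq_pow_finrank`; those in a member are those of `π`, `q^3`). `sum2`: ordered pairs `(π, π')` of different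
members, `pp B π ⊓ pp B π'` has `q^4` elements, no nonzero one lies in a member. `sum3`: ordered triples of different
members, `q - 1`. Number of pairs `(q^4+1) q^4`, of triples `(q^4+1) q^4 (q^4-1)`. Hint: `t (t-1)` is the number of
ordered pairs of different members orthogonal to `v` (`Finset.offDiag_card`), `t (t-1) (t-2)` of triples: for fixed
`π ≠ π'` with `v` in both, `t - 2` is the number of the other members. All in `ℤ` to avoid subtraction.
-/

namespace Pool.Agent.LibNT29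

open Module Pool.Agent.LibBT65

variable {F V : Type*} [Field F] [Fintype F] [AddCommGroup V] [Module F V]
  {B : V →ₗ[F] V →ₗ[F] F} {M : Finset (Submodule F V)}

private theorem a2a_two {α : Type*} [∀ a b : α, Decidable (a ≠ b)] (S : Finset α) :
    ∑ a ∈ S, ∑ b ∈ S, (if a ≠ b then (1 : ℤ) else 0) = (S.card : ℤ) * ((S.card : ℤ) - 1) := by
  classical
  have h : ∀ a ∈ S, ∑ b ∈ S, (if a ≠ b then (1 : ℤ) else 0) = (S.card : ℤ) - 1 := by
    intro a ha
    have e : ∀ b ∈ S, (if a ≠ b then (1 : ℤ) else 0) = 1 - (if a = b then 1 else 0) := by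
      intro b _
      by_cases hab : a = b
      · simp [hab]
      · simp [hab]
    rw [Finset.sum_congr rfl e, Finset.sum_sub_distrib, Finset.sum_ite_eq, if_pos ha]
    simp
  rw [Finset.sum_congr rfl h, Finset.sum_const, nsmul_eq_mul]

private theorem a2a_three {α : Type*} [∀ a b : α, Decidable (a ≠ b)]
    [∀ a b c : α, Decidable (a ≠ b ∧ a ≠ c ∧ b ≠ c)] (S : Finset α) :
    ∑ a ∈ S, ∑ b ∈ S, ∑ c ∈ S, (if a ≠ b ∧ a ≠ c ∧ b ≠ c then (1 : ℤ) else 0) =
      (S.card : ℤ) * ((S.card : ℤ) - 1) * ((S.card : ℤ) - 2) := by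
  classical
  have h : ∀ a ∈ S, ∀ b ∈ S, ∑ c ∈ S, (if a ≠ b ∧ a ≠ c ∧ b ≠ c then (1 : ℤ) else 0) =
      (if a ≠ b then (1 : ℤ) else 0) * ((S.card : ℤ) - 2) := by
    intro a ha b hb
    by_cases hab : a = b
    · simp [hab]
    · have e : ∀ c ∈ S, (if a ≠ b ∧ a ≠ c ∧ b ≠ c then (1 : ℤ) else 0) =
          1 - (if a = c then 1 else 0) - (if b = c then 1 else 0) := by
        intro c _
        by_cases hac : a = c
        · have hbc : ¬ b = c := fun h ↦ hab (hac.trans h.symm)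
          simp [hac, hbc]
        · by_cases hbc : b = c
          · simp [hac, hbc]
          · simp [hab, hac, hbc]
      rw [Finset.sum_congr rfl e, Finset.sum_sub_distrib, Finset.sum_sub_distrib,
        Finset.sum_ite_eq, Finset.sum_ite_eq, if_pos ha, if_pos hb, if_pos hab]
      simp
      ring
  have h' : ∀ a ∈ S, ∑ b ∈ S, ∑ c ∈ S, (if a ≠ b ∧ a ≠ c ∧ b ≠ c then (1 : ℤ) else 0) =
      (∑ b ∈ S, (if a ≠ b then (1 : ℤ) else 0)) * ((S.card : ℤ) - 2) := by
    intro a ha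
    rw [Finset.sum_mul]
    exact Finset.sum_congr rfl (h a ha)
  rw [Finset.sum_congr rfl h', ← Finset.sum_mul, a2a_two]

open scoped Classical in
private theorem a2a_card [Fintype V] (W : Submodule F V) :
    ((Finset.univ.filter fun v : V => v ∈ W).card : ℤ) = (Fintype.card F : ℤ) ^ finrank F W := by
  have h1 : Nat.card W = (Finset.univ.filter fun v : V => v ∈ W).card :=
    Nat.subtype_card _ (fun x ↦ by simp)
  rw [← h1, Module.natCard_eq_pow_finrank (K := F), Nat.card_eq_fintype_card]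
  push_cast
  rfl

open scoped Classical in
private theorem a2a_c1 (hS : Sys B M) [Fintype V] {a : Submodule F V} (ha : a ∈ M) :
    (((Finset.univ.filter fun v : V => v ≠ 0 ∧ ¬ Mem M v).filter fun v => v ∈ pp B a).card : ℤ) =
      (Fintype.card F : ℤ) ^ 7 - (Fintype.card F : ℤ) ^ 3 := by
  have e : ((Finset.univ.filter fun v : V => v ≠ 0 ∧ ¬ Mem M v).filter fun v => v ∈ pp B a) =
      (Finset.univ.filter fun v : V => v ∈ pp B a) \ (Finset.univ.filter fun v : V => v ∈ a) := by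
    ext v
    simp only [Finset.mem_filter, Finset.mem_univ, true_and, Finset.mem_sdiff]
    constructor
    · rintro ⟨⟨_, h2⟩, h3⟩
      exact ⟨h3, fun h ↦ h2 ⟨a, ha, h⟩⟩
    · rintro ⟨h1, h2⟩
      have h0 : v ≠ 0 := by
        rintro rfl
        exact h2 a.zero_mem
      refine ⟨⟨h0, ?_⟩, h1⟩
      rintro ⟨b, hb, hvb⟩
      have := eq_of_mem_pp hS hb ha h0 hvb h1
      rw [this] at hvb
      exact h2 hvb
  have hsub : (Finset.univ.filter fun v : V => v ∈ a) ⊆ (Finset.univ.filter fun v : V => v ∈ pp B a) := by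
    intro v hv
    simp only [Finset.mem_filter, Finset.mem_univ, true_and] at hv ⊢
    exact le_pp hS ha hv
  have h := Finset.card_sdiff_add_card_eq_card hsub
  have h' : (((Finset.univ.filter fun v : V => v ∈ pp B a) \
      (Finset.univ.filter fun v : V => v ∈ a)).card : ℤ) +
      ((Finset.univ.filter fun v : V => v ∈ a).card : ℤ) =
      ((Finset.univ.filter fun v : V => v ∈ pp B a).card : ℤ) := by exact_mod_cast h
  rw [a2a_card, a2a_card, pp_dim hS ha, hS.dim a ha] at h'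
  rw [e]
  linarith

private theorem a2a_c0 [Fintype V] (W : Submodule F V) (P : V → Prop) [DecidablePred P]
    (hP : ∀ v, P v ↔ (v ≠ 0 ∧ v ∈ W)) :
    ((Finset.univ.filter fun v : V => P v).card : ℤ) = (Fintype.card F : ℤ) ^ finrank F W - 1 := by
  classical
  have e : (Finset.univ.filter fun v : V => P v) =
      (Finset.univ.filter fun v : V => v ∈ W) \ {0} := by
    ext v
    simp only [Finset.mem_filter, Finset.mem_univ, true_and, Finset.mem_sdiff,
      Finset.mem_singleton, hP]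
    exact and_comm
  have hsub : ({0} : Finset V) ⊆ (Finset.univ.filter fun v : V => v ∈ W) := by
    intro v hv
    rw [Finset.mem_singleton] at hv
    rw [hv]
    simp
  have h := Finset.card_sdiff_add_card_eq_card hsub
  rw [Finset.card_singleton] at h
  have h' : (((Finset.univ.filter fun v : V => v ∈ W) \ {0}).card : ℤ) + 1 =
      ((Finset.univ.filter fun v : V => v ∈ W).card : ℤ) := by exact_mod_cast h
  rw [a2a_card] at h'
  rw [e]
  linarith

open scoped Classical in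
private theorem a2a_c2 (hS : Sys B M) [Fintype V] {a b : Submodule F V} (ha : a ∈ M) (hb : b ∈ M)
    (hab : a ≠ b) :
    (((Finset.univ.filter fun v : V => v ≠ 0 ∧ ¬ Mem M v).filter
      fun v => v ∈ pp B a ∧ v ∈ pp B b).card : ℤ) = (Fintype.card F : ℤ) ^ 4 - 1 := by
  rw [← pp_inter2 hS ha hb hab, Finset.filter_filter]
  apply a2a_c0 (pp B a ⊓ pp B b)
  intro v
  constructor
  · rintro ⟨⟨h1, _⟩, h2, h3⟩
    exact ⟨h1, h2, h3⟩
  · rintro ⟨h1, h2, h3⟩
    refine ⟨⟨h1, ?_⟩, h2, h3⟩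
    rintro ⟨c, hc, hvc⟩
    exact hab ((eq_of_mem_pp hS hc ha h1 hvc h2).symm.trans (eq_of_mem_pp hS hc hb h1 hvc h3))

open scoped Classical in
private theorem a2a_c3 (hS : Sys B M) [Fintype V] {a b c : Submodule F V} (ha : a ∈ M) (hb : b ∈ M)
    (hc : c ∈ M) (hab : a ≠ b) (hac : a ≠ c) (hbc : b ≠ c) :
    (((Finset.univ.filter fun v : V => v ≠ 0 ∧ ¬ Mem M v).filter
      fun v => v ∈ pp B a ∧ v ∈ pp B b ∧ v ∈ pp B c).card : ℤ) = (Fintype.card F : ℤ) - 1 := by
  have h1 := pp_inter3 hS ha hb hc hab hac hbc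
  have h2 : (Fintype.card F : ℤ) = (Fintype.card F : ℤ) ^
    finrank F (pp B a ⊓ pp B b ⊓ pp B c : Submodule F V) := by rw [h1, pow_one]
  conv_rhs => rw [h2]
  rw [Finset.filter_filter]
  apply a2a_c0 (pp B a ⊓ pp B b ⊓ pp B c)
  intro v
  constructor
  · rintro ⟨⟨h1, _⟩, h2, h3, h4⟩
    exact ⟨h1, ⟨h2, h3⟩, h4⟩
  · rintro ⟨h1, ⟨h2, h3⟩, h4⟩
    refine ⟨⟨h1, ?_⟩, h2, h3, h4⟩
    rintro ⟨d, hd, hvd⟩
    exact hab ((eq_of_mem_pp hS hd ha h1 hvd h2).symm.trans (eq_of_mem_pp hS hd hb h1 hvd h3))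

open scoped Classical in
theorem sum1 (hS : Sys B M) [Fintype V] :
    ∑ v ∈ (Finset.univ.filter fun v : V => v ≠ 0 ∧ ¬ Mem M v), (tt B M v : ℤ) =
      ((Fintype.card F : ℤ) ^ 4 + 1) * ((Fintype.card F : ℤ) ^ 7 - (Fintype.card F : ℤ) ^ 3) := by
  have h1 : ∀ v ∈ (Finset.univ.filter fun v : V => v ≠ 0 ∧ ¬ Mem M v), (tt B M v : ℤ) =
      ∑ a ∈ M, (if v ∈ pp B a then (1 : ℤ) else 0) := by
    intro v _
    unfold tt
    rw [Finset.card_filter]
    push_cast
    rfl
  rw [Finset.sum_congr rfl h1, Finset.sum_comm]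
  have h2 : ∀ a ∈ M, ∑ v ∈ (Finset.univ.filter fun v : V => v ≠ 0 ∧ ¬ Mem M v),
      (if v ∈ pp B a then (1 : ℤ) else 0) = (Fintype.card F : ℤ) ^ 7 - (Fintype.card F : ℤ) ^ 3 := by
    intro a ha
    rw [← a2a_c1 hS ha, Finset.card_filter]
    push_cast
    rfl
  rw [Finset.sum_congr rfl h2, Finset.sum_const, nsmul_eq_mul, hS.card]
  push_cast
  ring

open scoped Classical in
theorem sum2 (hS : Sys B M) [Fintype V] :
    ∑ v ∈ (Finset.univ.filter fun v : V => v ≠ 0 ∧ ¬ Mem M v), (tt B M v : ℤ) * ((tt B M v : ℤ) - 1) =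
      ((Fintype.card F : ℤ) ^ 4 + 1) * (Fintype.card F : ℤ) ^ 4 * ((Fintype.card F : ℤ) ^ 4 - 1) := by
  have h1 : ∀ v ∈ (Finset.univ.filter fun v : V => v ≠ 0 ∧ ¬ Mem M v),
      (tt B M v : ℤ) * ((tt B M v : ℤ) - 1) =
      ∑ a ∈ M, ∑ b ∈ M, (if v ∈ pp B a ∧ v ∈ pp B b then (if a ≠ b then (1 : ℤ) else 0) else 0) := by
    intro v _
    have ht : tt B M v = (M.filter fun π => v ∈ pp B π).card := rfl
    rw [ht, ← a2a_two, Finset.sum_filter]
    refine Finset.sum_congr rfl fun a _ ↦ ?_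
    by_cases ha : v ∈ pp B a
    · rw [if_pos ha, Finset.sum_filter]
      refine Finset.sum_congr rfl fun b _ ↦ ?_
      by_cases hb : v ∈ pp B b
      · rw [if_pos hb]
        exact (if_pos ⟨ha, hb⟩).symm
      · rw [if_neg hb]
        exact (if_neg fun h ↦ hb h.2).symm
    · rw [if_neg ha]
      symm
      exact Finset.sum_eq_zero fun b _ ↦ if_neg fun h ↦ ha h.1
  rw [Finset.sum_congr rfl h1, Finset.sum_comm]
  have h2 : ∀ a ∈ M, ∑ v ∈ (Finset.univ.filter fun v : V => v ≠ 0 ∧ ¬ Mem M v),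
      ∑ b ∈ M, (if v ∈ pp B a ∧ v ∈ pp B b then (if a ≠ b then (1 : ℤ) else 0) else 0) =
      ∑ b ∈ M, (if a ≠ b then (1 : ℤ) else 0) * ((Fintype.card F : ℤ) ^ 4 - 1) := by
    intro a ha
    rw [Finset.sum_comm]
    refine Finset.sum_congr rfl fun b hb ↦ ?_
    by_cases hab : a = b
    · simp [hab]
    · rw [← a2a_c2 hS ha hb hab, Finset.card_filter]
      simp [hab]
  rw [Finset.sum_congr rfl h2]
  have h3 : ∀ a ∈ M, ∑ b ∈ M, (if a ≠ b then (1 : ℤ) else 0) * ((Fintype.card F : ℤ) ^ 4 - 1) =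
      (∑ b ∈ M, (if a ≠ b then (1 : ℤ) else 0)) * ((Fintype.card F : ℤ) ^ 4 - 1) := by
    intro a _
    rw [Finset.sum_mul]
  rw [Finset.sum_congr rfl h3, ← Finset.sum_mul, a2a_two, hS.card]
  push_cast
  ring

open scoped Classical in
theorem sum3 (hS : Sys B M) [Fintype V] :
    ∑ v ∈ (Finset.univ.filter fun v : V => v ≠ 0 ∧ ¬ Mem M v),
      (tt B M v : ℤ) * ((tt B M v : ℤ) - 1) * ((tt B M v : ℤ) - 2) =
      ((Fintype.card F : ℤ) ^ 4 + 1) * (Fintype.card F : ℤ) ^ 4 * ((Fintype.card F : ℤ) ^ 4 - 1) *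
        ((Fintype.card F : ℤ) - 1) := by
  have h1 : ∀ v ∈ (Finset.univ.filter fun v : V => v ≠ 0 ∧ ¬ Mem M v),
      (tt B M v : ℤ) * ((tt B M v : ℤ) - 1) * ((tt B M v : ℤ) - 2) =
      ∑ a ∈ M, ∑ b ∈ M, ∑ c ∈ M, (if v ∈ pp B a ∧ v ∈ pp B b ∧ v ∈ pp B c then
        (if a ≠ b ∧ a ≠ c ∧ b ≠ c then (1 : ℤ) else 0) else 0) := by
    intro v _
    have ht : tt B M v = (M.filter fun π => v ∈ pp B π).card := rfl
    rw [ht, ← a2a_three, Finset.sum_filter]
    refine Finset.sum_congr rfl fun a _ ↦ ?_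
    by_cases ha : v ∈ pp B a
    · rw [if_pos ha, Finset.sum_filter]
      refine Finset.sum_congr rfl fun b _ ↦ ?_
      by_cases hb : v ∈ pp B b
      · rw [if_pos hb, Finset.sum_filter]
        refine Finset.sum_congr rfl fun c _ ↦ ?_
        by_cases hc : v ∈ pp B c
        · rw [if_pos hc]
          exact (if_pos ⟨ha, hb, hc⟩).symm
        · rw [if_neg hc]
          exact (if_neg fun h ↦ hc h.2.2).symm
      · rw [if_neg hb]
        symm
        exact Finset.sum_eq_zero fun c _ ↦ if_neg fun h ↦ hb h.2.1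
    · rw [if_neg ha]
      symm
      exact Finset.sum_eq_zero fun b _ ↦ Finset.sum_eq_zero fun c _ ↦ if_neg fun h ↦ ha h.1
  rw [Finset.sum_congr rfl h1, Finset.sum_comm]
  have h2 : ∀ a ∈ M, ∑ v ∈ (Finset.univ.filter fun v : V => v ≠ 0 ∧ ¬ Mem M v),
      ∑ b ∈ M, ∑ c ∈ M, (if v ∈ pp B a ∧ v ∈ pp B b ∧ v ∈ pp B c then
        (if a ≠ b ∧ a ≠ c ∧ b ≠ c then (1 : ℤ) else 0) else 0) =
      ∑ b ∈ M, ∑ c ∈ M, (if a ≠ b ∧ a ≠ c ∧ b ≠ c then (1 : ℤ) else 0) *
        ((Fintype.card F : ℤ) - 1) := by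
    intro a ha
    rw [Finset.sum_comm]
    refine Finset.sum_congr rfl fun b hb ↦ ?_
    rw [Finset.sum_comm]
    refine Finset.sum_congr rfl fun c hc ↦ ?_
    by_cases habc : a ≠ b ∧ a ≠ c ∧ b ≠ c
    · rw [← a2a_c3 hS ha hb hc habc.1 habc.2.1 habc.2.2, Finset.card_filter]
      simp only [if_pos habc]
      push_cast
      rw [one_mul]
    · simp only [if_neg habc]
      simp
  rw [Finset.sum_congr rfl h2]
  have h3 : ∀ a ∈ M, ∑ b ∈ M, ∑ c ∈ M, (if a ≠ b ∧ a ≠ c ∧ b ≠ c then (1 : ℤ) else 0) *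
        ((Fintype.card F : ℤ) - 1) =
      (∑ b ∈ M, ∑ c ∈ M, (if a ≠ b ∧ a ≠ c ∧ b ≠ c then (1 : ℤ) else 0)) *
        ((Fintype.card F : ℤ) - 1) := by
    intro a _
    rw [Finset.sum_mul]
    refine Finset.sum_congr rfl fun b _ ↦ ?_
    rw [Finset.sum_mul]
  rw [Finset.sum_congr rfl h3, ← Finset.sum_mul, a2a_three, hS.card]
  push_cast
  ring

end Pool.Agent.LibNT29
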