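import Pool.Agent.LibNT29.A1

set_option autoImplicit false

/-!
[NT29 A3a] MEDIUM/STRONG. Number of singular vectors (`B v v = 0`) of `pp B a ⊓ pp B b` and of `pp B a`, for
different members `a`, `b`. `q = card F`, `D = pp B a ⊓ pp B b` (dimension 4).
`V = a ⊕ b ⊕ D` (orthogonal to `a ⊕ b`): every `v` is uniquely `u + u' + d`, and `B v v = 2 B u u' + B d d`. For `c : F` the
number `n(c)` of pairs `(u, u') ∈ a × b` with `B u u' = c`: for `u ≠ 0` the map `B u : b → F` is surjective (`opp`), so
`q^2` solutions; for `u = 0`: `q^3` if `c = 0`, none otherwise. `n(0) = q^3 + (q^3-1) q^2`, `n(c) = (q^3-1) q^2` for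
`c ≠ 0`. Let `s` be the number of singular `d ∈ D`. Hyp: `q^9 + q^5 - q^4 = s n(0) + (q^4 - s) (q^3-1) q^2`, that is
`s q^3 = q^9 + q^5 - q^4 - q^4 (q^3 - 1) q^2`, `s = q^3 + q^2 - q`.
`sing_pp`: `pp B a = a ⊕ D` (dimension 3 + 4, `a ⊓ D = ⊥` by `opp`), `B (u+d) (u+d) = B d d`.
-/

namespace Pool.Agent.LibNT29

open Module Pool.Agent.LibBT65

variable {F V : Type*} [Field F] [Fintype F] [AddCommGroup V] [Module F V]
  {B : V →ₗ[F] V →ₗ[F] F} {M : Finset (Submodule F V)}

private theorem a3a_ker {W : Type*} [AddCommGroup W] [Module F W] [FiniteDimensional F W]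
    (f : W →ₗ[F] F) (h0 : ∃ w, f w ≠ 0) (c : F) :
    Nat.card {w : W // f w = c} * Fintype.card F = Fintype.card F ^ finrank F W := by
  obtain ⟨w0, hw0⟩ := h0
  have hs : Function.Surjective f := by
    intro x
    refine ⟨(x / f w0) • w0, ?_⟩
    rw [map_smul, smul_eq_mul, div_mul_cancel₀ _ hw0]
  obtain ⟨w1, hw1⟩ := hs c
  let e : {w : W // f w = c} ≃ LinearMap.ker f :=
    { toFun := fun w ↦ ⟨w.1 - w1, by rw [LinearMap.mem_ker, map_sub, w.2, hw1, sub_self]⟩
      invFun := fun w ↦ ⟨w.1 + w1, by rw [map_add, w.2, hw1, zero_add]⟩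
      left_inv := fun w ↦ Subtype.ext (sub_add_cancel _ _)
      right_inv := fun w ↦ Subtype.ext (add_sub_cancel_right _ _) }
  rw [Nat.card_congr e, Module.natCard_eq_pow_finrank (K := F), Nat.card_eq_fintype_card]
  have h1 := LinearMap.finrank_range_add_finrank_ker f
  rw [LinearMap.range_eq_top.mpr hs, finrank_top, Module.finrank_self] at h1
  rw [← h1, pow_add, pow_one, mul_comm]

open scoped Classical in
private theorem a3a_main (hS : Sys B M) {a b : Submodule F V} (ha : a ∈ M) (hb : b ∈ M) (hab : a ≠ b) :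
    Nat.card {v : V // B v v = 0} + Fintype.card F ^ 6 =
      Fintype.card F ^ 9 +
        Fintype.card F ^ 3 * Nat.card {v : V // v ∈ pp B a ⊓ pp B b ∧ B v v = 0} := by
  have hfd := fin hS
  have hVfin : Finite V := Module.finite_of_finite F
  have : Fintype V := Fintype.ofFinite V
  let D : Submodule F V := pp B a ⊓ pp B b
  let φ : (a × b × D) →ₗ[F] V := a.subtype.coprod (b.subtype.coprod D.subtype)
  have hφ : ∀ (u : a) (w : b) (d : D), φ (u, w, d) = (u : V) + ((w : V) + (d : V)) := by
    intro u w d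
    rfl
  have hinj : Function.Injective φ := by
    rw [injective_iff_map_eq_zero]
    rintro ⟨u, w, d⟩ h
    rw [hφ] at h
    have hw : (w : V) = 0 := by
      apply hS.opp a ha b hb hab w w.2
      intro x hx
      have h1 : B ((u : V) + ((w : V) + (d : V))) x = 0 := by rw [h, map_zero, LinearMap.zero_apply]
      rw [map_add, map_add, LinearMap.add_apply, LinearMap.add_apply, hS.sing a ha u u.2 x hx,
        d.2.1 x hx, zero_add, add_zero] at h1
      exact h1
    have hu : (u : V) = 0 := by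
      apply hS.opp b hb a ha hab.symm u u.2
      intro x hx
      have h1 : B ((u : V) + ((w : V) + (d : V))) x = 0 := by rw [h, map_zero, LinearMap.zero_apply]
      rw [map_add, map_add, LinearMap.add_apply, LinearMap.add_apply, hS.sing b hb w w.2 x hx,
        d.2.2 x hx, add_zero, add_zero] at h1
      exact h1
    have hd : (d : V) = 0 := by
      rw [hu, hw, zero_add, zero_add] at h
      exact h
    refine Prod.ext (Subtype.ext hu) (Prod.ext (Subtype.ext hw) (Subtype.ext hd))
  have hdim : finrank F (a × b × D) = finrank F V := by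
    rw [finrank_prod, finrank_prod, hS.dim a ha, hS.dim b hb, pp_inter2 hS ha hb hab, hS.dimV]
  have hsurj : Function.Surjective φ :=
    (LinearMap.injective_iff_surjective_of_finrank_eq_finrank hdim).mp hinj
  have hval : ∀ (u : a) (w : b) (d : D), B (φ (u, w, d)) (φ (u, w, d)) =
      2 * B (u : V) (w : V) + B (d : V) (d : V) := by
    intro u w d
    rw [hφ]
    simp only [map_add, LinearMap.add_apply]
    have e1 := hS.sing a ha u u.2 u u.2
    have e2 := hS.sing b hb w w.2 w w.2
    have e3 : B (d : V) (u : V) = 0 := d.2.1 u u.2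
    have e4 : B (d : V) (w : V) = 0 := d.2.2 w w.2
    have e5 : B (u : V) (d : V) = 0 := by rw [hS.symm]; exact e3
    have e6 : B (w : V) (d : V) = 0 := by rw [hS.symm]; exact e4
    have e7 : B (w : V) (u : V) = B (u : V) (w : V) := hS.symm _ _
    rw [e1, e2, e3, e4, e5, e6, e7]
    ring
  let e : (a × b × D) ≃ V := Equiv.ofBijective φ ⟨hinj, hsurj⟩
  have hcard : Nat.card {v : V // B v v = 0} =
      Nat.card {p : a × b × D // 2 * B (p.1 : V) (p.2.1 : V) + B (p.2.2 : V) (p.2.2 : V) = 0} := by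
    refine (Nat.card_congr (Equiv.subtypeEquiv e ?_)).symm
    rintro ⟨u, w, d⟩
    change _ ↔ B (φ (u, w, d)) (φ (u, w, d)) = 0
    rw [hval]
  have : Fintype D := Fintype.ofFinite _
  have : Fintype a := Fintype.ofFinite _
  have : Fintype b := Fintype.ofFinite _
  -- the sum
  have hsum : Nat.card {p : a × b × D // 2 * B (p.1 : V) (p.2.1 : V) + B (p.2.2 : V) (p.2.2 : V) = 0} =
      ∑ u : a, ∑ d : D, Nat.card {w : b // 2 * B (u : V) (w : V) + B (d : V) (d : V) = 0} := by
    rw [Nat.card_eq_fintype_card, Fintype.card_subtype, Finset.card_filter, Fintype.sum_prod_type]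
    refine Finset.sum_congr rfl fun u _ ↦ ?_
    rw [Fintype.sum_prod_type, Finset.sum_comm]
    refine Finset.sum_congr rfl fun d _ ↦ ?_
    rw [Nat.card_eq_fintype_card, Fintype.card_subtype, Finset.card_filter]
  have hq := Fintype.one_lt_card (α := F)
  have hq0 : 0 < Fintype.card F := by omega
  have h1 : ∀ u : a, u ≠ 0 → ∑ d : D, Nat.card {w : b // 2 * B (u : V) (w : V) + B (d : V) (d : V) = 0} =
      Fintype.card F ^ 6 := by
    intro u hu
    have h2 : ∀ d : D, Nat.card {w : b // 2 * B (u : V) (w : V) + B (d : V) (d : V) = 0} =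
        Fintype.card F ^ 2 := by
      intro d
      let f : b →ₗ[F] F := (2 : F) • ((B (u : V)).comp b.subtype)
      have hf : ∀ w : b, f w = 2 * B (u : V) (w : V) := fun w ↦ rfl
      have hex : ∃ w, f w ≠ 0 := by
        by_contra hcon
        push Not at hcon
        apply hu
        apply Subtype.ext
        apply hS.opp b hb a ha hab.symm u u.2
        intro w hw
        have h3 := hcon ⟨w, hw⟩
        rw [hf] at h3
        exact (mul_eq_zero.mp h3).resolve_left hS.two
      have h3 := a3a_ker f hex (-(B (d : V) (d : V)))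
      have h4 : Nat.card {w : b // 2 * B (u : V) (w : V) + B (d : V) (d : V) = 0} =
          Nat.card {w : b // f w = -(B (d : V) (d : V))} := by
        refine Nat.card_congr (Equiv.subtypeEquivRight fun w ↦ ?_)
        rw [hf, add_eq_zero_iff_eq_neg]
      rw [← h4, hS.dim b hb, pow_succ] at h3
      exact Nat.eq_of_mul_eq_mul_right hq0 h3
    rw [Finset.sum_congr rfl fun d _ ↦ h2 d, Finset.sum_const, Finset.card_univ, smul_eq_mul,
      ← Nat.card_eq_fintype_card, Module.natCard_eq_pow_finrank (K := F), Nat.card_eq_fintype_card,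
      pp_inter2 hS ha hb hab, ← pow_add]
  have h0 : ∑ d : D, Nat.card {w : b // 2 * B ((0 : a) : V) (w : V) + B (d : V) (d : V) = 0} =
      Fintype.card F ^ 3 * Nat.card {v : V // v ∈ pp B a ⊓ pp B b ∧ B v v = 0} := by
    have h2 : ∀ d : D, Nat.card {w : b // 2 * B ((0 : a) : V) (w : V) + B (d : V) (d : V) = 0} =
        Fintype.card F ^ 3 * (if B (d : V) (d : V) = 0 then 1 else 0) := by
      intro d
      by_cases hd : B (d : V) (d : V) = 0
      · rw [if_pos hd, mul_one]
        have e1 : {w : b // 2 * B ((0 : a) : V) (w : V) + B (d : V) (d : V) = 0} ≃ b :=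
          Equiv.subtypeUnivEquiv (fun w ↦ by
            rw [hd, ZeroMemClass.coe_zero, map_zero, LinearMap.zero_apply, mul_zero, add_zero])
        rw [Nat.card_congr e1, Module.natCard_eq_pow_finrank (K := F), Nat.card_eq_fintype_card,
          hS.dim b hb]
      · rw [if_neg hd, mul_zero]
        have : IsEmpty {w : b // 2 * B ((0 : a) : V) (w : V) + B (d : V) (d : V) = 0} := by
          refine ⟨?_⟩
          rintro ⟨w, hw⟩
          rw [ZeroMemClass.coe_zero, map_zero, LinearMap.zero_apply, mul_zero, zero_add] at hw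
          exact hd hw
        exact Nat.card_of_isEmpty
    rw [Finset.sum_congr rfl fun d _ ↦ h2 d, ← Finset.mul_sum]
    congr 1
    have e2 : {v : V // v ∈ pp B a ⊓ pp B b ∧ B v v = 0} ≃ {d : D // B (d : V) (d : V) = 0} :=
      (Equiv.subtypeSubtypeEquivSubtypeInter (fun v : V ↦ v ∈ pp B a ⊓ pp B b)
        (fun v : V ↦ B v v = 0)).symm
    rw [Nat.card_congr e2, Nat.card_eq_fintype_card, Fintype.card_subtype, Finset.card_filter]
  rw [hcard, hsum, ← Finset.add_sum_erase Finset.univ _ (Finset.mem_univ (0 : a)), h0]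
  have h3 : ∑ u ∈ Finset.univ.erase (0 : a), ∑ d : D,
      Nat.card {w : b // 2 * B (u : V) (w : V) + B (d : V) (d : V) = 0} =
      (Fintype.card F ^ 3 - 1) * Fintype.card F ^ 6 := by
    rw [Finset.sum_congr rfl fun u hu ↦ h1 u (Finset.ne_of_mem_erase hu), Finset.sum_const,
      Finset.card_erase_of_mem (Finset.mem_univ _), Finset.card_univ, smul_eq_mul,
      ← Nat.card_eq_fintype_card, Module.natCard_eq_pow_finrank (K := F), Nat.card_eq_fintype_card,
      hS.dim a ha]
  rw [h3]
  have h4 : 1 ≤ Fintype.card F ^ 3 := Nat.one_le_pow _ _ hq0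
  have h5 : (Fintype.card F ^ 3 - 1) * Fintype.card F ^ 6 + Fintype.card F ^ 6 = Fintype.card F ^ 9 := by
    rw [← Nat.succ_mul, Nat.succ_eq_add_one, Nat.sub_add_cancel h4, ← pow_add]
  rw [add_assoc, h5, add_comm]

theorem sing_inter (hS : Sys B M) (hH : Hyp B) {a b : Submodule F V} (ha : a ∈ M) (hb : b ∈ M) (hab : a ≠ b) :
    Nat.card {v : V // v ∈ pp B a ⊓ pp B b ∧ B v v = 0} =
      Fintype.card F ^ 3 + Fintype.card F ^ 2 - Fintype.card F := by
  have h := a3a_main hS ha hb hab
  have hH' : Nat.card {v : V // B v v = 0} = Fintype.card F ^ 9 + Fintype.card F ^ 5 - Fintype.card F ^ 4 := hH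
  rw [hH'] at h
  set s := Nat.card {v : V // v ∈ pp B a ⊓ pp B b ∧ B v v = 0} with hs
  set q := Fintype.card F with hqd
  have hq : 1 < q := Fintype.one_lt_card (α := F)
  have hq0 : 0 < q := by omega
  have h45 : q ^ 4 ≤ q ^ 9 + q ^ 5 := by
    have := Nat.pow_le_pow_right hq0 (show 4 ≤ 5 by norm_num)
    omega
  have h1 : q ^ 3 * s + q ^ 4 = q ^ 6 + q ^ 5 := by omega
  have h2 : q ^ 3 * (s + q) = q ^ 3 * (q ^ 3 + q ^ 2) := by
    calc q ^ 3 * (s + q) = q ^ 3 * s + q ^ 4 := by ring
      _ = q ^ 6 + q ^ 5 := h1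
      _ = q ^ 3 * (q ^ 3 + q ^ 2) := by ring
  have h3 := Nat.eq_of_mul_eq_mul_left (Nat.pow_pos hq0) h2
  omega

theorem sing_pp (hS : Sys B M) (hH : Hyp B) {a : Submodule F V} (ha : a ∈ M) :
    Nat.card {v : V // v ∈ pp B a ∧ B v v = 0} =
      Fintype.card F ^ 3 * (Fintype.card F ^ 3 + Fintype.card F ^ 2 - Fintype.card F) := by
  classical
  -- another member
  obtain ⟨b, hb, hba⟩ : ∃ b ∈ M, b ≠ a := by
    apply Finset.exists_mem_ne
    rw [hS.card]
    have : 0 < Fintype.card F ^ 4 := Nat.pow_pos Fintype.card_pos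
    omega
  have hab : a ≠ b := hba.symm
  have hfd := fin hS
  have hVfin : Finite V := Module.finite_of_finite F
  rw [← sing_inter hS hH ha hb hab]
  let D : Submodule F V := pp B a ⊓ pp B b
  let φ : (a × D) →ₗ[F] pp B a :=
    ((Submodule.inclusion (le_pp hS ha)).coprod (Submodule.inclusion (inf_le_left : D ≤ pp B a)))
  have hφ : ∀ (u : a) (d : D), ((φ (u, d) : pp B a) : V) = (u : V) + (d : V) := by
    intro u d
    rfl
  have hinj : Function.Injective φ := by
    rw [injective_iff_map_eq_zero]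
    rintro ⟨u, d⟩ h
    have h' : (u : V) + (d : V) = 0 := by rw [← hφ, h]; rfl
    have hu : (u : V) = 0 := by
      apply hS.opp b hb a ha hab.symm u u.2
      intro x hx
      have h1 : B ((u : V) + (d : V)) x = 0 := by rw [h', map_zero, LinearMap.zero_apply]
      rw [map_add, LinearMap.add_apply, d.2.2 x hx, add_zero] at h1
      exact h1
    have hd : (d : V) = 0 := by
      rw [hu, zero_add] at h'
      exact h'
    exact Prod.ext (Subtype.ext hu) (Subtype.ext hd)
  have hdim : finrank F (a × D) = finrank F (pp B a) := by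
    rw [finrank_prod, hS.dim a ha, pp_inter2 hS ha hb hab, pp_dim hS ha]
  have hsurj : Function.Surjective φ :=
    (LinearMap.injective_iff_surjective_of_finrank_eq_finrank hdim).mp hinj
  have hval : ∀ (u : a) (d : D), B ((φ (u, d) : pp B a) : V) ((φ (u, d) : pp B a) : V) =
      B (d : V) (d : V) := by
    intro u d
    rw [hφ]
    simp only [map_add, LinearMap.add_apply]
    have e1 := hS.sing a ha u u.2 u u.2
    have e3 : B (d : V) (u : V) = 0 := d.2.1 u u.2
    have e5 : B (u : V) (d : V) = 0 := by rw [hS.symm]; exact e3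
    rw [e1, e3, e5]
    ring
  let e : (a × D) ≃ pp B a := Equiv.ofBijective φ ⟨hinj, hsurj⟩
  have e1 : {v : V // v ∈ pp B a ∧ B v v = 0} ≃ {v : pp B a // B (v : V) (v : V) = 0} :=
    (Equiv.subtypeSubtypeEquivSubtypeInter (fun v : V ↦ v ∈ pp B a) (fun v : V ↦ B v v = 0)).symm
  have e2 : {p : a × D // B (p.2 : V) (p.2 : V) = 0} ≃ {v : pp B a // B (v : V) (v : V) = 0} := by
    refine Equiv.subtypeEquiv e ?_
    rintro ⟨u, d⟩
    change _ ↔ B ((φ (u, d) : pp B a) : V) ((φ (u, d) : pp B a) : V) = 0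
    rw [hval]
  have e3 : {p : a × D // B (p.2 : V) (p.2 : V) = 0} ≃ a × {d : D // B (d : V) (d : V) = 0} :=
    { toFun := fun p ↦ (p.1.1, ⟨p.1.2, p.2⟩)
      invFun := fun p ↦ ⟨(p.1, p.2.1), p.2.2⟩
      left_inv := fun p ↦ rfl
      right_inv := fun p ↦ rfl }
  have e4 : {v : V // v ∈ pp B a ⊓ pp B b ∧ B v v = 0} ≃ {d : D // B (d : V) (d : V) = 0} :=
    (Equiv.subtypeSubtypeEquivSubtypeInter (fun v : V ↦ v ∈ pp B a ⊓ pp B b)
      (fun v : V ↦ B v v = 0)).symm
  rw [Nat.card_congr e1, ← Nat.card_congr e2, Nat.card_congr e3, Nat.card_prod,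
    Module.natCard_eq_pow_finrank (K := F), Nat.card_eq_fintype_card, hS.dim a ha, Nat.card_congr e4]

end Pool.Agent.LibNT29
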