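import Pool.Agent.LibNT29.A2
import Pool.Agent.LibNT29.A3a

set_option autoImplicit false

/-!
[NT29 A3] MEDIUM. Singular vectors outside the members are orthogonal to `q+1` members. The number of nonzero singular vectors
outside the members is `X = (q^9 + q^5 - q^4 - 1) - (q^4+1)(q^3-1) = (q^4+1) q^3 (q^2-1)` (members: `sing`, disjoint:
`disj`). Double counting with `sing_pp`: `∑ t = (q^4+1) (q^3 (q^3+q^2-q) - q^3) = (q+1) X` (the vectors of `pp B a` in members
are those of `a`, `eq_of_mem_pp`). As `t ≤ q+1` (`tt_le`) all are equal.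
`exists_sing`: a nonzero singular vector in every subspace of dimension `≥ 3`: `isotropic` in LibBT65/A5.lean.
-/

namespace Pool.Agent.LibNT29

open Module Pool.Agent.LibBT65

variable {F V : Type*} [Field F] [Fintype F] [AddCommGroup V] [Module F V]
  {B : V →ₗ[F] V →ₗ[F] F} {M : Finset (Submodule F V)}

open scoped Classical in
private theorem A3_card_member (hS : Sys B M) [Fintype V] {a : Submodule F V} (ha : a ∈ M) :
    (Finset.univ.filter fun v : V => v ∈ a).card = Fintype.card F ^ 3 := by
  rw [← Fintype.card_subtype]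
  have h := Module.card_eq_pow_finrank (K := F) (V := a)
  rw [hS.dim a ha] at h
  rw [← h]

open scoped Classical in
private theorem A3_card_member' (hS : Sys B M) [Fintype V] {a : Submodule F V} (ha : a ∈ M) :
    (Finset.univ.filter fun v : V => v ≠ 0 ∧ v ∈ a).card + 1 = Fintype.card F ^ 3 := by
  rw [← A3_card_member hS ha]
  have h : (Finset.univ.filter fun v : V => v ∈ a) =
      insert 0 (Finset.univ.filter fun v : V => v ≠ 0 ∧ v ∈ a) := by
    ext v
    simp only [Finset.mem_filter, Finset.mem_univ, true_and, Finset.mem_insert]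
    constructor
    · intro hv
      by_cases h0 : v = 0
      · exact Or.inl h0
      · exact Or.inr ⟨h0, hv⟩
    · rintro (rfl | ⟨-, hv⟩)
      · exact a.zero_mem
      · exact hv
  rw [h, Finset.card_insert_of_notMem]
  simp

open scoped Classical in
/-- the nonzero singular vectors outside the members -/
private noncomputable def A3_S (B : V →ₗ[F] V →ₗ[F] F) (M : Finset (Submodule F V)) [Fintype V] :
    Finset V := Finset.univ.filter fun v : V => v ≠ 0 ∧ ¬ Mem M v ∧ B v v = 0

open scoped Classical in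
private theorem A3_card_S (hS : Sys B M) (hH : Hyp B) [Fintype V] :
    ((A3_S B M).card : ℤ) =
      ((Fintype.card F : ℤ) ^ 4 + 1) * ((Fintype.card F : ℤ) ^ 3 * ((Fintype.card F : ℤ) ^ 2 - 1)) := by
  have h1 : (Finset.univ.filter fun v : V => B v v = 0).card =
      Fintype.card F ^ 9 + Fintype.card F ^ 5 - Fintype.card F ^ 4 := by
    rw [← hH, Nat.card_eq_fintype_card, Fintype.card_subtype]
  have h2 : (Finset.univ.filter fun v : V => B v v = 0) =
      insert 0 (M.biUnion (fun a => Finset.univ.filter fun v : V => v ≠ 0 ∧ v ∈ a) ∪ A3_S B M) := by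
    ext v
    simp only [Finset.mem_filter, Finset.mem_univ, true_and, Finset.mem_insert, Finset.mem_union,
      Finset.mem_biUnion, A3_S]
    constructor
    · intro hv
      by_cases h0 : v = 0
      · exact Or.inl h0
      · by_cases hm : Mem M v
        · obtain ⟨a, ha, hva⟩ := hm
          exact Or.inr (Or.inl ⟨a, ha, h0, hva⟩)
        · exact Or.inr (Or.inr ⟨h0, hm, hv⟩)
    · rintro (rfl | ⟨a, ha, -, hva⟩ | ⟨-, -, hv⟩)
      · simp
      · exact hS.sing a ha v hva v hva
      · exact hv
  have h3 : (M.biUnion (fun a => Finset.univ.filter fun v : V => v ≠ 0 ∧ v ∈ a)).card =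
      ∑ a ∈ M, (Finset.univ.filter fun v : V => v ≠ 0 ∧ v ∈ a).card := by
    apply Finset.card_biUnion
    intro a ha b hb hab
    show Disjoint (Finset.univ.filter fun v : V => v ≠ 0 ∧ v ∈ a)
      (Finset.univ.filter fun v : V => v ≠ 0 ∧ v ∈ b)
    rw [Finset.disjoint_left]
    intro v hva hvb
    simp only [Finset.mem_filter, Finset.mem_univ, true_and] at hva hvb
    exact hva.1 (disj hS ha hb hab hva.2 hvb.2)
  have h4 : ((M.biUnion (fun a => Finset.univ.filter fun v : V => v ≠ 0 ∧ v ∈ a)).card : ℤ) =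
      ((Fintype.card F : ℤ) ^ 4 + 1) * ((Fintype.card F : ℤ) ^ 3 - 1) := by
    rw [h3]
    push_cast
    rw [Finset.sum_congr rfl (fun a ha => ?_), Finset.sum_const, hS.card, nsmul_eq_mul]
    · push_cast
      rfl
    · have := A3_card_member' hS ha
      have h5 : ((Finset.univ.filter fun v : V => v ≠ 0 ∧ v ∈ a).card : ℤ) + 1 =
        (Fintype.card F : ℤ) ^ 3 := by exact_mod_cast this
      linarith
  have h5 : (insert 0 (M.biUnion (fun a => Finset.univ.filter fun v : V => v ≠ 0 ∧ v ∈ a) ∪
      A3_S B M)).card = (M.biUnion (fun a => Finset.univ.filter fun v : V => v ≠ 0 ∧ v ∈ a)).card +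
      (A3_S B M).card + 1 := by
    rw [Finset.card_insert_of_notMem, Finset.card_union_of_disjoint]
    · rw [Finset.disjoint_left]
      intro v hv hv'
      simp only [Finset.mem_biUnion, Finset.mem_filter, Finset.mem_univ, true_and, A3_S] at hv hv'
      obtain ⟨a, ha, -, hva⟩ := hv
      exact hv'.2.1 ⟨a, ha, hva⟩
    · simp [A3_S]
  rw [h2, h5] at h1
  have hq : 1 ≤ Fintype.card F := Fintype.card_pos
  have hle : Fintype.card F ^ 4 ≤ Fintype.card F ^ 9 + Fintype.card F ^ 5 :=
    le_trans (Nat.pow_le_pow_right hq (by norm_num : 4 ≤ 5)) (Nat.le_add_left _ _)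
  have h6 : ((M.biUnion (fun a => Finset.univ.filter fun v : V => v ≠ 0 ∧ v ∈ a)).card : ℤ) +
      ((A3_S B M).card : ℤ) + 1 =
      (Fintype.card F : ℤ) ^ 9 + (Fintype.card F : ℤ) ^ 5 - (Fintype.card F : ℤ) ^ 4 := by
    have := congrArg (fun n : ℕ => (n : ℤ)) h1
    rw [Nat.cast_sub hle] at this
    push_cast at this
    linarith
  rw [h4] at h6
  linear_combination h6

open scoped Classical in
private theorem A3_card_pp (hS : Sys B M) (hH : Hyp B) [Fintype V] {a : Submodule F V} (ha : a ∈ M) :
    (((A3_S B M).filter fun v : V => v ∈ pp B a).card : ℤ) =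
      (Fintype.card F : ℤ) ^ 3 * (((Fintype.card F : ℤ) + 1) * ((Fintype.card F : ℤ) ^ 2 - 1)) := by
  have h1 : (Finset.univ.filter fun v : V => v ∈ pp B a ∧ B v v = 0).card =
      Fintype.card F ^ 3 * (Fintype.card F ^ 3 + Fintype.card F ^ 2 - Fintype.card F) := by
    rw [← sing_pp hS hH ha, Nat.card_eq_fintype_card, Fintype.card_subtype]
  have h2 : (Finset.univ.filter fun v : V => v ∈ pp B a ∧ B v v = 0) =
      (Finset.univ.filter fun v : V => v ∈ a) ∪ ((A3_S B M).filter fun v : V => v ∈ pp B a) := by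
    ext v
    simp only [Finset.mem_filter, Finset.mem_univ, true_and, Finset.mem_union, A3_S]
    constructor
    · rintro ⟨hv, hs⟩
      by_cases h0 : v = 0
      · left
        rw [h0]
        exact a.zero_mem
      · by_cases hm : Mem M v
        · obtain ⟨b, hb, hvb⟩ := hm
          left
          rw [← eq_of_mem_pp hS hb ha h0 hvb hv]
          exact hvb
        · exact Or.inr ⟨⟨h0, hm, hs⟩, hv⟩
    · rintro (hva | ⟨⟨-, -, hs⟩, hv⟩)
      · exact ⟨le_pp hS ha hva, hS.sing a ha v hva v hva⟩
      · exact ⟨hv, hs⟩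
  have h3 : Disjoint (Finset.univ.filter fun v : V => v ∈ a)
      ((A3_S B M).filter fun v : V => v ∈ pp B a) := by
    rw [Finset.disjoint_left]
    intro v hv hv'
    simp only [Finset.mem_filter, Finset.mem_univ, true_and, A3_S] at hv hv'
    exact hv'.1.2.1 ⟨a, ha, hv⟩
  rw [h2, Finset.card_union_of_disjoint h3, A3_card_member hS ha] at h1
  have hq : 1 ≤ Fintype.card F := Fintype.card_pos
  have hle : Fintype.card F ≤ Fintype.card F ^ 3 + Fintype.card F ^ 2 :=
    le_trans (Nat.le_self_pow (by norm_num : (2 : ℕ) ≠ 0) _) (Nat.le_add_left _ _)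
  have h4 := congrArg (fun n : ℕ => (n : ℤ)) h1
  rw [Nat.cast_mul, Nat.cast_sub hle] at h4
  push_cast at h4
  linear_combination h4

open scoped Classical in
private theorem A3_sum (hS : Sys B M) (hH : Hyp B) [Fintype V] :
    ∑ v ∈ A3_S B M, (tt B M v : ℤ) =
      ∑ _v ∈ A3_S B M, ((Fintype.card F : ℤ) + 1) := by
  have h1 : ∑ v ∈ A3_S B M, tt B M v = ∑ a ∈ M, ((A3_S B M).filter fun v : V => v ∈ pp B a).card := by
    unfold tt
    simp only [Finset.card_filter]
    rw [Finset.sum_comm]
  have h2 : ∑ v ∈ A3_S B M, (tt B M v : ℤ) =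
      ∑ a ∈ M, (((A3_S B M).filter fun v : V => v ∈ pp B a).card : ℤ) := by
    exact_mod_cast h1
  rw [h2, Finset.sum_congr rfl (fun a ha => A3_card_pp hS hH ha), Finset.sum_const, Finset.sum_const,
    hS.card, nsmul_eq_mul, nsmul_eq_mul, A3_card_S hS hH]
  push_cast
  ring

theorem tt_sing (hS : Sys B M) (hH : Hyp B) {v : V} (hv : v ≠ 0) (hm : ¬ Mem M v) (h0 : B v v = 0) :
    tt B M v = Fintype.card F + 1 := by
  classical
  have := fin hS
  have hfin : Finite V := Module.finite_of_finite F
  have : Fintype V := Fintype.ofFinite V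
  have hle : ∀ w ∈ A3_S B M, (tt B M w : ℤ) ≤ (Fintype.card F : ℤ) + 1 := by
    intro w hw
    simp only [A3_S, Finset.mem_filter, Finset.mem_univ, true_and] at hw
    have := tt_le hS hw.1
    exact_mod_cast this
  have hall := (Finset.sum_eq_sum_iff_of_le hle).1 (A3_sum hS hH)
  have := hall v (by
    simp only [A3_S, Finset.mem_filter, Finset.mem_univ, true_and]
    exact ⟨hv, hm, h0⟩)
  exact_mod_cast this

end Pool.Agent.LibNT29
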