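import Pool.Agent.LibNT29.Defs
import Pool.Agent.LibBT65.D1

set_option autoImplicit false

/-!
[NT29 A4] SHORT/MEDIUM. The model is hyperbolic: `bil F v v = 2 Q v`, `Q v = ∑ v_{1i} v_{2i}`. Number of pairs
`(x, y) ∈ F^5 × F^5` with `x · y = 0`: `x = 0`: `q^5`; `x ≠ 0`: the functional `y ↦ x · y` is surjective, its kernel has
`q^4` elements. Total `q^5 + (q^5 - 1) q^4`.
-/

namespace Pool.Agent.LibNT29

open Module Pool.Agent.LibBT65

private theorem A4_ker {F : Type*} [Field F] [Fintype F] (x : Fin 5 → F) (hx : x ≠ 0) :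
    Nat.card {y : Fin 5 → F // ∑ i, x i * y i = 0} = Fintype.card F ^ 4 := by
  classical
  obtain ⟨f, hf⟩ : ∃ f : (Fin 5 → F) →ₗ[F] F, ∀ y, f y = ∑ i, x i * y i := by
    refine ⟨{ toFun := fun y => ∑ i, x i * y i, map_add' := ?_, map_smul' := ?_ }, fun y => rfl⟩
    · intro y z
      rw [← Finset.sum_add_distrib]
      exact Finset.sum_congr rfl fun i _ => by rw [Pi.add_apply, mul_add]
    · intro c y
      rw [RingHom.id_apply, smul_eq_mul, Finset.mul_sum]
      exact Finset.sum_congr rfl fun i _ => by rw [Pi.smul_apply, smul_eq_mul]; ring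
  have hsurj : Function.Surjective f := by
    obtain ⟨i, hi⟩ := Function.ne_iff.1 hx
    intro c
    refine ⟨Pi.single i ((x i)⁻¹ * c), ?_⟩
    rw [hf, Finset.sum_eq_single i]
    · rw [Pi.single_eq_same, ← mul_assoc, mul_inv_cancel₀ hi, one_mul]
    · intro j _ hj
      rw [Pi.single_eq_of_ne hj, mul_zero]
    · intro h
      exact absurd (Finset.mem_univ i) h
  have h1 : finrank F (LinearMap.ker f) = 4 := by
    have h2 := f.finrank_range_add_finrank_ker
    rw [LinearMap.range_eq_top.2 hsurj, finrank_top, Module.finrank_self, Module.finrank_fin_fun] at h2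
    omega
  have h3 : Nat.card {y : Fin 5 → F // ∑ i, x i * y i = 0} = Nat.card (LinearMap.ker f) :=
    Nat.card_congr (Equiv.subtypeEquivRight fun y => by rw [LinearMap.mem_ker, hf])
  rw [h3, Nat.card_eq_fintype_card, Module.card_eq_pow_finrank (K := F) (V := LinearMap.ker f), h1]

private theorem A4_zero {F : Type*} [Field F] [Fintype F] :
    Nat.card {y : Fin 5 → F // ∑ i, (0 : Fin 5 → F) i * y i = 0} = Fintype.card F ^ 5 := by
  classical
  have h3 : Nat.card {y : Fin 5 → F // ∑ i, (0 : Fin 5 → F) i * y i = 0} = Nat.card (Fin 5 → F) :=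
    Nat.card_congr (Equiv.subtypeUnivEquiv fun y => by simp)
  rw [h3, Nat.card_eq_fintype_card, Fintype.card_fun, Fintype.card_fin]

theorem hyp_bil {F : Type*} [Field F] [Fintype F] (two : (2 : F) ≠ 0) : Hyp (bil F) := by
  classical
  unfold Hyp
  have h1 : Nat.card {v : Sp F // bil F v v = 0} =
      Nat.card (Σ x : Fin 5 → F, {y : Fin 5 → F // ∑ i, x i * y i = 0}) := by
    refine Nat.card_congr ⟨fun v => ⟨v.1.1, v.1.2, ?_⟩, fun w => ⟨(w.1, w.2.1), ?_⟩, ?_, ?_⟩
    · have h := v.2
      rw [bil_apply] at h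
      unfold polar at h
      have h2 : ∑ i, (v.1.1 i * v.1.2 i + v.1.1 i * v.1.2 i) = 2 * ∑ i, v.1.1 i * v.1.2 i := by
        rw [Finset.mul_sum]
        exact Finset.sum_congr rfl fun i _ => by ring
      rw [h2] at h
      exact (mul_eq_zero.1 h).resolve_left two
    · rw [bil_apply]
      unfold polar
      have h2 : ∑ i, (w.1 i * w.2.1 i + w.1 i * w.2.1 i) = 2 * ∑ i, w.1 i * w.2.1 i := by
        rw [Finset.mul_sum]
        exact Finset.sum_congr rfl fun i _ => by ring
      change ∑ i, (w.1 i * w.2.1 i + w.1 i * w.2.1 i) = 0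
      rw [h2, w.2.2, mul_zero]
    · intro v
      rfl
    · intro w
      rfl
  rw [h1, Nat.card_sigma, ← Finset.add_sum_erase _ _ (Finset.mem_univ (0 : Fin 5 → F)), A4_zero,
    Finset.sum_congr rfl (fun x hx => A4_ker x (Finset.ne_of_mem_erase hx)), Finset.sum_const,
    Finset.card_erase_of_mem (Finset.mem_univ _), Finset.card_univ, Fintype.card_fun, Fintype.card_fin,
    smul_eq_mul]
  have hq : 1 ≤ Fintype.card F := Fintype.card_pos
  generalize Fintype.card F = q at hq
  have h5 : 1 ≤ q ^ 5 := Nat.one_le_pow _ _ hq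
  rw [Nat.sub_mul, one_mul, ← pow_add]
  have h9 : q ^ 4 ≤ q ^ (5 + 4) := Nat.pow_le_pow_right hq (by norm_num)
  norm_num at h9 ⊢
  omega

end Pool.Agent.LibNT29
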