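import Pool.Agent.LibNT29.A1

set_option autoImplicit false

/-!
[NT29 B1] MEDIUM/STRONG. Determinants on fixed members and normalisation. `q = card F`.
`det_pair`: for `a ≠ b` fixed by `g`: the pairing `P : a × b → F`, `P x y = B x y`, is perfect (`opp`, dimension 3 both) and
`P (g x) (g y) = μ P x y`. With bases of `a`, `b`: `A₁ᵀ P A₂ = μ P`, `det P ≠ 0`, so `det A₁ det A₂ = μ ^ 3`.
(Or: `LinearMap.BilinForm` / `LinearMap.det` of the composite `a → b^* → a`: `g_b^* ∘ φ ∘ g_a = μ φ` with `φ : a ≃ Module.Dual F b`,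
`LinearMap.det_dualMap`, `LinearMap.det_conj`.)
`norm_exists`: let `d_a = det (g|a)`. Three fixed members `a, b, c`: `d_a d_b = d_a d_c = d_b d_c = μ^3`; all `d` equal
(any two fixed members have a third one), `d^2 = μ^3`, `μ ≠ 0` (as `g` is bijective and `B ≠ 0`), `κ = d / μ`, `κ^2 = μ`,
`g' = κ⁻¹ • g` (`LinearEquiv.smulOfNeZero` or `g.trans (LinearEquiv.smulOfNeZero ..)`), `det (g'|a) = d / κ^3 = 1`.
`nrm_of`: if one member (other than `a`) fixed by the isometry `g` has determinant 1 then the determinant on `a` is 1.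
-/

namespace Pool.Agent.LibNT29

open Module Pool.Agent.LibBT65

variable {F V : Type*} [Field F] [Fintype F] [AddCommGroup V] [Module F V]
  {B : V →ₗ[F] V →ₗ[F] F} {M : Finset (Submodule F V)}

theorem mu_ne (hS : Sys B M) {μ : F} {g : V ≃ₗ[F] V} (hg : Simi B M μ g) : μ ≠ 0 := by
  intro h0
  have h1 : ∀ v w, B v w = 0 := by
    intro v w
    have h2 := hg.sim (g.symm v) (g.symm w)
    rw [g.apply_symm_apply, g.apply_symm_apply, h0, zero_mul] at h2
    exact h2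
  have h3 : Subsingleton V := ⟨fun v w => by
    rw [hS.nondeg v (fun u => h1 v u), hS.nondeg w (fun u => h1 w u)]⟩
  have h4 := hS.dimV
  rw [Module.finrank_zero_of_subsingleton] at h4
  exact absurd h4 (by norm_num)

theorem mem_fx {g : V ≃ₗ[F] V} {a : Submodule F V} : a ∈ fx M g ↔ a ∈ M ∧ a.map (g : V →ₗ[F] V) = a := by
  classical
  unfold fx
  rw [Finset.mem_filter]

theorem fx_apply {g : V ≃ₗ[F] V} {a : Submodule F V} (ha : a ∈ fx M g) : ∀ x ∈ a, (g : V →ₗ[F] V) x ∈ a := by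
  intro x hx
  have h1 := (mem_fx.1 ha).2
  rw [← h1]
  exact Submodule.mem_map_of_mem hx

theorem det_pair (hS : Sys B M) {μ : F} {g : V ≃ₗ[F] V} (hg : Simi B M μ g) {a b : Submodule F V}
    (ha : a ∈ fx M g) (hb : b ∈ fx M g) (hab : a ≠ b) (h1 : ∀ x ∈ a, (g : V →ₗ[F] V) x ∈ a)
    (h2 : ∀ x ∈ b, (g : V →ₗ[F] V) x ∈ b) :
    LinearMap.det ((g : V →ₗ[F] V).restrict h1) * LinearMap.det ((g : V →ₗ[F] V).restrict h2) = μ ^ 3 := by
  have haM := (mem_fx.1 ha).1
  have hbM := (mem_fx.1 hb).1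
  have hV : FiniteDimensional F V := fin hS
  let φ : a →ₗ[F] Module.Dual F b :=
    (LinearMap.lcomp F F b.subtype) ∘ₗ B ∘ₗ a.subtype
  have hφ : ∀ (x : a) (y : b), φ x y = B (x : V) (y : V) := fun _ _ => rfl
  have hinj : Function.Injective φ := by
    rw [← LinearMap.ker_eq_bot, LinearMap.ker_eq_bot']
    intro x hx
    apply Subtype.ext
    refine hS.opp b hbM a haM hab.symm x x.2 fun w hw => ?_
    have h3 := hφ x ⟨w, hw⟩
    rw [hx] at h3
    exact h3.symm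
  have hdim : finrank F a = finrank F (Module.Dual F b) := by
    rw [Subspace.dual_finrank_eq, hS.dim a haM, hS.dim b hbM]
  let e : a ≃ₗ[F] Module.Dual F b := LinearEquiv.ofInjectiveOfFinrankEq φ hinj hdim
  have he : ∀ (x : a) (y : b), e x y = B (x : V) (y : V) := fun x y => by
    rw [← hφ]
    rfl
  have hrel : (((e.symm : Module.Dual F b →ₗ[F] a) ∘ₗ
      ((g : V →ₗ[F] V).restrict h2).dualMap ∘ₗ (e : a →ₗ[F] Module.Dual F b)) ∘ₗ
      (g : V →ₗ[F] V).restrict h1) = μ • (LinearMap.id : a →ₗ[F] a) := by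
    ext1 x
    show e.symm (((g : V →ₗ[F] V).restrict h2).dualMap (e ((g : V →ₗ[F] V).restrict h1 x))) = μ • x
    rw [LinearEquiv.symm_apply_eq, map_smul]
    ext1 y
    rw [LinearMap.dualMap_apply, he, LinearMap.smul_apply, he, smul_eq_mul]
    exact hg.sim x y
  have hdet := congrArg LinearMap.det hrel
  rw [LinearMap.det_comp, LinearMap.det_smul, LinearMap.det_id, mul_one, hS.dim a haM] at hdet
  have hconj : LinearMap.det ((e.symm : Module.Dual F b →ₗ[F] a) ∘ₗ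
      ((g : V →ₗ[F] V).restrict h2).dualMap ∘ₗ (e : a →ₗ[F] Module.Dual F b)) =
      LinearMap.det ((g : V →ₗ[F] V).restrict h2) := by
    have h3 := LinearMap.det_conj ((g : V →ₗ[F] V).restrict h2).dualMap e.symm
    rw [LinearEquiv.symm_symm] at h3
    rw [h3, LinearMap.det_dualMap]
  rw [hconj] at hdet
  rw [mul_comm]
  exact hdet

theorem norm_exists (hS : Sys B M) {μ : F} {g : V ≃ₗ[F] V} (hg : Simi B M μ g) (h3 : 3 ≤ (fx M g).card) :
    ∃ (κ : F) (g' : V ≃ₗ[F] V), κ ≠ 0 ∧ (∀ v, g v = κ • g' v) ∧ Simi B M 1 g' ∧ fx M g' = fx M g ∧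
      Nrm M g' := by
  classical
  have hμ := mu_ne hS hg
  obtain ⟨a, ha, b, hb, c, hc, hab, hac, hbc⟩ := Finset.two_lt_card.1 (show 2 < (fx M g).card by omega)
  have eab := det_pair hS hg ha hb hab (fx_apply ha) (fx_apply hb)
  have eac := det_pair hS hg ha hc hac (fx_apply ha) (fx_apply hc)
  have ebc := det_pair hS hg hb hc hbc (fx_apply hb) (fx_apply hc)
  have hall : ∀ π, ∀ hπ : π ∈ fx M g, ∀ h : ∀ x ∈ π, (g : V →ₗ[F] V) x ∈ π, π ≠ a →
      LinearMap.det ((g : V →ₗ[F] V).restrict h) *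
        LinearMap.det ((g : V →ₗ[F] V).restrict (fx_apply ha)) = μ ^ 3 :=
    fun π hπ h hπa => det_pair hS hg hπ ha hπa h (fx_apply ha)
  set d := LinearMap.det ((g : V →ₗ[F] V).restrict (fx_apply ha)) with hd
  have hμ3 : μ ^ 3 ≠ 0 := pow_ne_zero 3 hμ
  have hd0 : d ≠ 0 := by
    intro h0
    rw [h0, zero_mul] at eab
    exact hμ3 eab.symm
  have hdb : LinearMap.det ((g : V →ₗ[F] V).restrict (fx_apply hb)) ≠ 0 := by
    intro h0
    rw [h0, mul_zero] at eab
    exact hμ3 eab.symm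
  have hbc' : LinearMap.det ((g : V →ₗ[F] V).restrict (fx_apply hb)) =
      LinearMap.det ((g : V →ₗ[F] V).restrict (fx_apply hc)) := by
    apply mul_left_cancel₀ hd0
    rw [eab, eac]
  have hda : d = LinearMap.det ((g : V →ₗ[F] V).restrict (fx_apply hb)) := by
    apply mul_right_cancel₀ hdb
    rw [eab, ← ebc, ← hbc']
  have hdd : d * d = μ ^ 3 := by
    rw [← hda] at eab
    exact eab
  have hdet : ∀ π, ∀ hπ : π ∈ fx M g, ∀ h : ∀ x ∈ π, (g : V →ₗ[F] V) x ∈ π,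
      LinearMap.det ((g : V →ₗ[F] V).restrict h) = d := by
    intro π hπ h
    by_cases hπa : π = a
    · subst hπa
      rfl
    · apply mul_right_cancel₀ hd0
      rw [hall π hπ h hπa, hdd]
  have hκ : d / μ ≠ 0 := div_ne_zero hd0 hμ
  have hκ2 : (d / μ) * (d / μ) = μ := by
    field_simp
    linear_combination hdd
  set κ := d / μ with hκd
  let g' : V ≃ₗ[F] V := g.trans (LinearEquiv.smulOfNeZero F V κ⁻¹ (inv_ne_zero hκ))
  have hg' : ∀ v, g' v = κ⁻¹ • g v := fun _ => rfl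
  have hgl : (g' : V →ₗ[F] V) = κ⁻¹ • (g : V →ₗ[F] V) := by
    ext v
    rfl
  have hmap : ∀ π : Submodule F V, π.map (g' : V →ₗ[F] V) = π.map (g : V →ₗ[F] V) := by
    intro π
    rw [hgl]
    exact Submodule.map_smul _ _ _ (inv_ne_zero hκ)
  have hfx : fx M g' = fx M g := by
    ext π
    rw [mem_fx, mem_fx, hmap]
  refine ⟨κ, g', hκ, ?_, ⟨?_, ?_⟩, hfx, ?_⟩
  · intro v
    rw [hg', smul_smul, mul_inv_cancel₀ hκ, one_smul]
  · intro v w
    rw [hg', hg', map_smul, map_smul, LinearMap.smul_apply, hg.sim, smul_eq_mul, smul_eq_mul, one_mul]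
    have h4 : κ⁻¹ * (κ⁻¹ * μ) = 1 := by
      rw [← mul_assoc, ← mul_inv, hκ2, inv_mul_cancel₀ hμ]
    calc κ⁻¹ * (κ⁻¹ * (μ * B v w)) = (κ⁻¹ * (κ⁻¹ * μ)) * B v w := by ring
      _ = B v w := by rw [h4, one_mul]
  · intro π hπ
    rw [hmap]
    exact hg.pres π hπ
  · intro π hπ h
    have hπ' : π ∈ fx M g := by rw [← hfx]; exact hπ
    have h5 : (g' : V →ₗ[F] V).restrict h = κ⁻¹ • (g : V →ₗ[F] V).restrict (fx_apply hπ') := by
      ext x
      rfl
    rw [h5, LinearMap.det_smul, hS.dim π (mem_fx.1 hπ').1, hdet π hπ' (fx_apply hπ')]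
    have h6 : κ ^ 3 = d := by
      calc κ ^ 3 = (κ * κ) * κ := by ring
        _ = d := by rw [hκ2, hκd]; field_simp
    rw [inv_pow, h6, inv_mul_cancel₀ hd0]

/-- the square of a normalised isometry is normalised -/
theorem nrm_sq (hS : Sys B M) {g : V ≃ₗ[F] V} (hg : Simi B M 1 g) (hn : Nrm M g) (h3 : 3 ≤ (fx M g).card) :
    Simi B M 1 (g * g) ∧ fx M g ⊆ fx M (g * g) ∧ Nrm M (g * g) := by
  classical
  have hmap : ∀ π : Submodule F V, π.map ((g * g : V ≃ₗ[F] V) : V →ₗ[F] V) =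
      (π.map (g : V →ₗ[F] V)).map (g : V →ₗ[F] V) := by
    intro π
    rw [← Submodule.map_comp]
    rfl
  have hgg : Simi B M 1 (g * g) := by
    refine ⟨fun v w => ?_, fun π hπ => ?_⟩
    · show B (g (g v)) (g (g w)) = 1 * B v w
      rw [hg.sim, hg.sim]
      ring
    · rw [hmap]
      exact hg.pres _ (hg.pres π hπ)
  have hsub : fx M g ⊆ fx M (g * g) := by
    intro π hπ
    obtain ⟨h1, h2⟩ := mem_fx.1 hπ
    rw [mem_fx, hmap, h2, h2]
    exact ⟨h1, rfl⟩
  refine ⟨hgg, hsub, fun π hπ h => ?_⟩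
  obtain ⟨a, ha, b, hb, hab⟩ := Finset.one_lt_card.1 (show 1 < (fx M g).card by omega)
  obtain ⟨c, hc, hcπ⟩ : ∃ c, c ∈ fx M g ∧ π ≠ c := by
    by_cases h3 : π = a
    · exact ⟨b, hb, by rw [h3]; exact hab⟩
    · exact ⟨a, ha, h3⟩
  have h4 := det_pair hS hgg hπ (hsub hc) hcπ h (fx_apply (hsub hc))
  have h5 : ((g * g : V ≃ₗ[F] V) : V →ₗ[F] V).restrict (fx_apply (hsub hc)) =
      (g : V →ₗ[F] V).restrict (fx_apply hc) ∘ₗ (g : V →ₗ[F] V).restrict (fx_apply hc) := by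
    ext x
    rfl
  rw [h5, LinearMap.det_comp, hn c hc, mul_one, mul_one, one_pow] at h4
  exact h4

end Pool.Agent.LibNT29
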