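import Pool.Agent.LibNT29.B1

set_option autoImplicit false

/-!
[NT29 B2] MEDIUM/STRONG. Eigenspaces on fixed members of an isometry `g` (`μ = 1`). `ε = ±1`.
Matrices: `A₁ᵀ P A₂ = P` for the pairing `P` of `a`, `b`, so `(A₁ - ε)ᵀ P A₂ = P - ε P A₂ = - ε P (A₂ - ε)` (`ε² = 1`).
`pair_dim`: so `rank (A₁ - ε) = rank (A₂ - ε)`. Without matrices: for `x ∈ a`, `y ∈ b`: `B (g x - ε x) (g y) = B x y - ε B x (g y)
= - ε B x (g y - ε y)`. So `y ∈ ker (g - ε)` iff `g y` is orthogonal to `(g - ε) a`, and `g` is an isomorphism of `b`, so the dimension of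
`ker (g - ε) ∩ b` is `3 - dim (g - ε) a = dim (ker (g - ε) ∩ a)` (perfect pairing of `a` and `b`).
`one_le`: `det (A₁ - 1) det A₂ = (-1)^3 det (A₂ - 1)` and `det A₂ = 1` (`Nrm`): `det (A_a - 1) = - det (A_b - 1)` for all `a ≠ b`
fixed; three members: `x = -y`, `x = -z`, `y = -z`, so `2 x = 0`, `det (A_a - 1) = 0`, so `g` has a nonzero fixed vector in `a`.
-/

namespace Pool.Agent.LibNT29

open Module Pool.Agent.LibBT65

variable {F V : Type*} [Field F] [Fintype F] [AddCommGroup V] [Module F V]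
  {B : V →ₗ[F] V →ₗ[F] F} {M : Finset (Submodule F V)}

private theorem B2_core (hS : Sys B M) {g : V ≃ₗ[F] V} (hg : Simi B M 1 g) {ε : F} (hε : ε ^ 2 = 1)
    {a b : Submodule F V} (ha : a ∈ M) (hb : b ∈ M) (hab : a ≠ b)
    (h1 : ∀ x ∈ a, (g : V →ₗ[F] V) x ∈ a) (h2 : ∀ x ∈ b, (g : V →ₗ[F] V) x ∈ b) :
    ∃ e : a ≃ₗ[F] Dual F b,
      (((g : V →ₗ[F] V).restrict h2).dualMap) ∘ₗ
        (e.conj ((g : V →ₗ[F] V).restrict h1 - ε • LinearMap.id)) =
      (-ε) • ((g : V →ₗ[F] V).restrict h2 - ε • LinearMap.id).dualMap := by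
  have := fin hS
  have hinj : Function.Injective (B.domRestrict₁₂ a b : a →ₗ[F] b →ₗ[F] F) := by
    rw [injective_iff_map_eq_zero]
    intro x hx
    apply Subtype.ext
    refine hS.opp b hb a ha hab.symm x x.2 fun w hw => ?_
    have h3 := LinearMap.congr_fun hx ⟨w, hw⟩
    exact h3
  have hdim : finrank F a = finrank F (b →ₗ[F] F) := by
    have h4 : finrank F (b →ₗ[F] F) = finrank F b := Subspace.dual_finrank_eq
    rw [h4, hS.dim a ha, hS.dim b hb]
  let e : a ≃ₗ[F] Dual F b := LinearMap.linearEquivOfInjective (B.domRestrict₁₂ a b) hinj hdim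
  have he : ∀ (x : a) (y : b), e x y = B x y := fun x y => rfl
  refine ⟨e, ?_⟩
  apply LinearMap.ext
  intro ψ
  obtain ⟨x, rfl⟩ := e.surjective ψ
  apply LinearMap.ext
  intro y
  rw [LinearMap.comp_apply, LinearEquiv.conj_apply_apply, e.symm_apply_apply,
    LinearMap.dualMap_apply, LinearMap.smul_apply, LinearMap.smul_apply, LinearMap.dualMap_apply,
    he, he]
  have e1 : (((g : V →ₗ[F] V).restrict h1 - ε • LinearMap.id : a →ₗ[F] a) x : V) =
      g x - ε • (x : V) := rfl
  have e2 : (((g : V →ₗ[F] V).restrict h2) y : V) = g y := rfl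
  have e3 : (((g : V →ₗ[F] V).restrict h2 - ε • LinearMap.id : b →ₗ[F] b) y : V) =
      g y - ε • (y : V) := rfl
  rw [e1, e2, e3, map_sub, map_sub, map_smul, map_smul, LinearMap.sub_apply, LinearMap.smul_apply,
    hg.sim, smul_eq_mul, smul_eq_mul, smul_eq_mul]
  linear_combination (-(B x y)) * hε

omit [Fintype F] in
private theorem B2_ker {g : V ≃ₗ[F] V} {ε : F} {a : Submodule F V}
    (h1 : ∀ x ∈ a, (g : V →ₗ[F] V) x ∈ a) :
    finrank F (eg g ε ⊓ a : Submodule F V) =
      finrank F (LinearMap.ker ((g : V →ₗ[F] V).restrict h1 - ε • LinearMap.id)) := by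
  have h2 : LinearMap.ker ((g : V →ₗ[F] V).restrict h1 - ε • LinearMap.id) =
      Submodule.comap a.subtype (eg g ε) := by
    ext x
    rw [LinearMap.mem_ker, Submodule.mem_comap, eg, LinearMap.mem_ker]
    exact Subtype.ext_iff
  rw [h2, ← Submodule.finrank_map_subtype_eq, Submodule.map_comap_subtype, inf_comm]

private theorem B2_det (hS : Sys B M) {g : V ≃ₗ[F] V} (hg : Simi B M 1 g) (hn : Nrm M g)
    {a b : Submodule F V} (ha : a ∈ fx M g) (hb : b ∈ fx M g) (hab : a ≠ b) :
    LinearMap.det ((g : V →ₗ[F] V).restrict (fx_apply ha) - (1 : F) • LinearMap.id) =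
      - LinearMap.det ((g : V →ₗ[F] V).restrict (fx_apply hb) - (1 : F) • LinearMap.id) := by
  have := fin hS
  have hbM := (mem_fx.1 hb).1
  obtain ⟨e, he⟩ := B2_core hS hg (one_pow 2) (mem_fx.1 ha).1 hbM hab (fx_apply ha) (fx_apply hb)
  have h1 := congrArg LinearMap.det he
  have h4 : finrank F (Dual F b) = 3 := by
    rw [Subspace.dual_finrank_eq, hS.dim b hbM]
  rw [LinearMap.det_comp, LinearMap.det_smul, LinearMap.det_dualMap, LinearMap.det_dualMap,
    hn b hb (fx_apply hb), one_mul, LinearEquiv.conj_apply, LinearMap.comp_assoc,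
    LinearMap.det_conj, h4] at h1
  rw [h1]
  ring

theorem pair_dim (hS : Sys B M) {g : V ≃ₗ[F] V} (hg : Simi B M 1 g) {ε : F} (hε : ε ^ 2 = 1)
    {a b : Submodule F V} (ha : a ∈ fx M g) (hb : b ∈ fx M g) (hab : a ≠ b) :
    finrank F (eg g ε ⊓ a : Submodule F V) = finrank F (eg g ε ⊓ b : Submodule F V) := by
  have := fin hS
  have haM := (mem_fx.1 ha).1
  have hbM := (mem_fx.1 hb).1
  have h1 := fx_apply ha
  have h2 := fx_apply hb
  rw [B2_ker h1, B2_ker h2]
  obtain ⟨e, he⟩ := B2_core hS hg hε haM hbM hab h1 h2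
  set A := (g : V →ₗ[F] V).restrict h1 - ε • LinearMap.id with hA
  set C := (g : V →ₗ[F] V).restrict h2 - ε • LinearMap.id with hC
  have hε0 : -ε ≠ 0 := by
    rw [neg_ne_zero]
    rintro rfl
    rw [zero_pow two_ne_zero] at hε
    exact zero_ne_one hε
  have hgb : Function.Injective ((g : V →ₗ[F] V).restrict h2) := fun x y h =>
    Subtype.ext (g.injective (congrArg Subtype.val h))
  have hgs : Function.Surjective ((g : V →ₗ[F] V).restrict h2) :=
    LinearMap.injective_iff_surjective.1 hgb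
  have hgd : Function.Injective ((g : V →ₗ[F] V).restrict h2).dualMap :=
    LinearMap.dualMap_injective_of_surjective hgs
  have hk1 : LinearMap.ker (e.conj A) = LinearMap.ker C.dualMap := by
    have h3 : LinearMap.ker ((((g : V →ₗ[F] V).restrict h2).dualMap) ∘ₗ (e.conj A)) =
        LinearMap.ker (e.conj A) := LinearMap.ker_comp_of_ker_eq_bot _ (LinearMap.ker_eq_bot.2 hgd)
    rw [← h3, he, LinearMap.ker_smul _ _ hε0]
  have hk2 : finrank F (LinearMap.ker (e.conj A)) = finrank F (LinearMap.ker A) := by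
    have h5 : LinearMap.ker (e.conj A) = (LinearMap.ker A).map (e : a →ₗ[F] Dual F b) := by
      ext ψ
      obtain ⟨x, rfl⟩ := e.surjective ψ
      rw [LinearMap.mem_ker, LinearEquiv.conj_apply_apply, e.symm_apply_apply,
        LinearEquiv.map_eq_zero_iff, Submodule.mem_map]
      constructor
      · intro h
        exact ⟨x, h, rfl⟩
      · rintro ⟨y, hy, hxy⟩
        rw [← e.injective hxy]
        exact hy
    rw [h5]
    exact LinearEquiv.finrank_map_eq e _
  have hr1 := LinearMap.finrank_range_add_finrank_ker C.dualMap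
  have hr2 := LinearMap.finrank_range_add_finrank_ker C
  rw [LinearMap.finrank_range_dualMap_eq_finrank_range, Subspace.dual_finrank_eq] at hr1
  rw [← hk2, hk1]
  omega

theorem one_le (hS : Sys B M) {g : V ≃ₗ[F] V} (hg : Simi B M 1 g) (hn : Nrm M g) (h3 : 3 ≤ (fx M g).card)
    {a : Submodule F V} (ha : a ∈ fx M g) : 1 ≤ finrank F (eg g 1 ⊓ a : Submodule F V) := by
  classical
  have := fin hS
  have hc : 1 < ((fx M g).erase a).card := by
    rw [Finset.card_erase_of_mem ha]
    omega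
  obtain ⟨b, hb, c, hc', hbc⟩ := Finset.one_lt_card.1 hc
  obtain ⟨hba, hb⟩ := Finset.mem_erase.1 hb
  obtain ⟨hca, hc'⟩ := Finset.mem_erase.1 hc'
  have d1 := B2_det hS hg hn ha hb hba.symm
  have d2 := B2_det hS hg hn ha hc' hca.symm
  have d3 := B2_det hS hg hn hb hc' hbc
  have h0 : LinearMap.det ((g : V →ₗ[F] V).restrict (fx_apply ha) - (1 : F) • LinearMap.id) = 0 := by
    have h4 : (2 : F) * LinearMap.det
        ((g : V →ₗ[F] V).restrict (fx_apply ha) - (1 : F) • LinearMap.id) = 0 := by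
      linear_combination d1 + d2 - d3
    exact (mul_eq_zero.1 h4).resolve_left hS.two
  rw [B2_ker (fx_apply ha), Submodule.one_le_finrank_iff]
  exact (LinearMap.bot_lt_ker_of_det_eq_zero h0).ne'

end Pool.Agent.LibNT29
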