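import Pool.Agent.LibNT29.B1

set_option autoImplicit false

/-!
[NT29 B3] MEDIUM/STRONG. The count. `g` isometry, `ε = ±1`, `N = eg g ε`, `n = dim N`, `dim (N ∩ a) = p ≥ 1` for all fixed members `a`,
at least two of them. `q = card F`.
`inter_pp`: `N ∩ pp B a` has dimension `n - p`. The map `N → a^*`, `v ↦ B v |a`, has kernel `N ∩ pp B a`; its image annihilates
`(g - ε) a` (`B v (g x - ε x) = B (ε g v) (g x) - ε B v x = ε B v x - ε B v x = 0`, as `g v = ε v`, `ε² = 1`), so its dimension is `≤ 3 - (3 - p) = p`;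
on `N ∩ b`, `b` another fixed member, it is injective (`opp`), so it is `≥ p`.
`count`: take `U` fixed. If `v ∈ N`, `v ∉ pp B U` then `v = u + s`, `u ∈ U`, `s ∈ π ≠ U` (`F2'`), `g v = g u + g s`, `ε v = ε u + ε s`: by
`F2_unique` (`g s ∈ g π`, `g π ≠ U`) `g π = π`, `g u = ε u`, `g s = ε s`: `v ∈ (N ∩ U) + (N ∩ π)`. Conversely for fixed `π ≠ U`, `u ∈ N ∩ U`, `s ∈ N ∩ π`, `s ≠ 0`,
`u + s ∈ N` is not in `pp B U`. So `q^n - q^(n-p) = (f - 1) q^p (q^p - 1)`, `f` the number of fixed members, and `f - 1 = q^(n - 2 p)`, in the form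
`(f - 1) q^(2 p) = q^n` (multiply; `q^p ≥ 2`).
`fix_inter`: a member `π` which is not fixed has `N ∩ π = 0` (`disj`).
`triple`: three fixed members: `N ∩ a`, `N ∩ b`, `N ∩ c` are independent (`ind`): `3 p ≤ n`. And `a ⊔ b ⊔ c` has dimension 9, so
`dim (N ∩ (a ⊔ b ⊔ c)) ≥ n - 1`; `v = x + y + z` in it: `g v = ε v` gives `g x = ε x` etc. (`ind`), so this intersection has dimension `3 p`.
-/

namespace Pool.Agent.LibNT29

open Module Pool.Agent.LibBT65

variable {F V : Type*} [Field F] [Fintype F] [AddCommGroup V] [Module F V]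
  {B : V →ₗ[F] V →ₗ[F] F} {M : Finset (Submodule F V)}

omit [Fintype F] in
private theorem b3_map {f : V →ₗ[F] V} [FiniteDimensional F V] (a : Submodule F V) :
    finrank F (a.map f) + finrank F (LinearMap.ker f ⊓ a : Submodule F V) = finrank F a := by
  have h := LinearMap.finrank_range_add_finrank_ker (f.domRestrict a)
  rw [LinearMap.range_domRestrict] at h
  have h2 : finrank F (LinearMap.ker (f.domRestrict a)) = finrank F (LinearMap.ker f ⊓ a : Submodule F V) := by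
    have e1 : LinearMap.ker (f.domRestrict a) = (LinearMap.ker f).comap a.subtype := rfl
    rw [e1, ← Submodule.finrank_map_subtype_eq a, Submodule.map_comap_subtype, inf_comm]
  rw [h2] at h
  exact h

omit [Fintype F] in
private theorem b3_eps {ε : F} (hε : ε ^ 2 = 1) : ε ≠ 0 := by
  rintro rfl
  norm_num at hε

private theorem b3_card {W : Type*} [AddCommGroup W] [Module F W] [FiniteDimensional F W] :
    Nat.card {s : W // s ≠ 0} = Fintype.card F ^ finrank F W - 1 := by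
  classical
  have : Finite W := Module.finite_of_finite F
  have h1 : Nat.card (Option {s : W // s ≠ 0}) = Nat.card W :=
    Nat.card_congr (Equiv.optionSubtypeNe (0 : W))
  rw [Finite.card_option, Module.natCard_eq_pow_finrank (K := F) (V := W),
    Nat.card_eq_fintype_card (α := F)] at h1
  omega

theorem fix_inter (hS : Sys B M) {μ : F} {g : V ≃ₗ[F] V} (hg : Simi B M μ g) {c : F} (hc : c ≠ 0)
    {π : Submodule F V} (hπ : π ∈ M) (hn : π ∉ fx M g) : (eg g c ⊓ π : Submodule F V) = ⊥ := by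
  rw [Submodule.eq_bot_iff]
  rintro v ⟨hv1', hv2⟩
  by_contra hv
  have hv1 : g v = c • v := mem_eg.mp hv1'
  have hm := hg.pres π hπ
  have hne : π ≠ π.map (g : V →ₗ[F] V) := by
    intro h
    exact hn (mem_fx.mpr ⟨hπ, h.symm⟩)
  have h1 : g v ∈ π.map (g : V →ₗ[F] V) := ⟨v, hv2, rfl⟩
  have h2 : g v ∈ π := by rw [hv1]; exact π.smul_mem _ hv2
  have h3 := disj hS hπ hm hne h2 h1
  rw [hv1] at h3
  rcases smul_eq_zero.mp h3 with h | h
  · exact hc h
  · exact hv h

theorem inter_pp (hS : Sys B M) {g : V ≃ₗ[F] V} (hg : Simi B M 1 g) {ε : F} (hε : ε ^ 2 = 1) {p : ℕ}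
    (hall : ∀ a ∈ fx M g, finrank F (eg g ε ⊓ a : Submodule F V) = p) (h2 : 2 ≤ (fx M g).card)
    {a : Submodule F V} (ha : a ∈ fx M g) :
    finrank F (eg g ε ⊓ pp B a : Submodule F V) + p = finrank F (eg g ε) := by
  have hfd := fin hS
  have haM : a ∈ M := (mem_fx.mp ha).1
  obtain ⟨b, hb, hba⟩ := Finset.exists_mem_ne (by omega : 1 < (fx M g).card) a
  have hbM : b ∈ M := (mem_fx.mp hb).1
  have hε0 := b3_eps hε
  let f : V →ₗ[F] V := (g : V →ₗ[F] V) - ε • LinearMap.id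
  have hf : ∀ x, f x = g x - ε • x := fun x ↦ rfl
  have hker : LinearMap.ker f = eg g ε := rfl
  have hmap := b3_map (f := f) a
  rw [hker, hall a ha, hS.dim a haM] at hmap
  -- N ≤ pp (a.map f)
  have hN : eg g ε ≤ pp B (a.map f) := by
    rintro v hv _ ⟨x, hx, rfl⟩
    rw [mem_eg] at hv
    rw [hf, map_sub, map_smul]
    have e1 : B v (g x) = ε * B v x := by
      have h1 := hg.sim v x
      rw [one_mul, hv, map_smul, LinearMap.smul_apply, smul_eq_mul] at h1
      calc B v (g x) = ε ^ 2 * B v (g x) := by rw [hε, one_mul]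
        _ = ε * (ε * B v (g x)) := by ring
        _ = ε * B v x := by rw [h1]
    rw [e1, smul_eq_mul, sub_self]
  have ha1 : a.map f ≤ a := by
    rintro _ ⟨x, hx, rfl⟩
    rw [hf]
    exact a.sub_mem (fx_apply ha x hx) (a.smul_mem _ hx)
  have hpa : pp B a ≤ pp B (a.map f) := by
    intro v hv u hu
    exact hv u (ha1 hu)
  have hd1 := pp_finrank hS (a.map f)
  have hd2 := pp_dim hS haM
  have hsup : finrank F (eg g ε ⊔ pp B a : Submodule F V) ≤ finrank F (pp B (a.map f)) :=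
    Submodule.finrank_mono (sup_le hN hpa)
  have hsi := Submodule.finrank_sup_add_finrank_inf_eq (eg g ε) (pp B a)
  -- upper bound
  have hdis : (eg g ε ⊓ pp B a) ⊓ (eg g ε ⊓ b) = ⊥ := by
    rw [Submodule.eq_bot_iff]
    rintro v ⟨⟨_, h1⟩, ⟨_, h2⟩⟩
    by_contra hv
    exact hba (eq_of_mem_pp hS hbM haM hv h2 h1)
  have hsi2 := Submodule.finrank_sup_add_finrank_inf_eq (eg g ε ⊓ pp B a) (eg g ε ⊓ b)
  rw [hdis, finrank_bot, hall b hb] at hsi2
  have hle : finrank F ((eg g ε ⊓ pp B a) ⊔ (eg g ε ⊓ b) : Submodule F V) ≤ finrank F (eg g ε) :=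
    Submodule.finrank_mono (sup_le inf_le_left inf_le_left)
  omega

theorem count (hS : Sys B M) {g : V ≃ₗ[F] V} (hg : Simi B M 1 g) {ε : F} (hε : ε ^ 2 = 1) {p : ℕ}
    (hp : 1 ≤ p) (hall : ∀ a ∈ fx M g, finrank F (eg g ε ⊓ a : Submodule F V) = p)
    (h2 : 2 ≤ (fx M g).card) :
    ((fx M g).card - 1) * Fintype.card F ^ (2 * p) = Fintype.card F ^ finrank F (eg g ε) := by
  classical
  have hfd := fin hS
  have hVfin : Finite V := Module.finite_of_finite F
  obtain ⟨U, hU⟩ : (fx M g).Nonempty := Finset.card_pos.mp (by omega)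
  have hUM : U ∈ M := (mem_fx.mp hU).1
  have hε0 := b3_eps hε
  let N := eg g ε
  have hip := inter_pp hS hg hε hall h2 hU
  let T := Σ π : {π // π ∈ (fx M g).erase U}, ↥(N ⊓ U) × {s : ↥(N ⊓ π.1) // s ≠ 0}
  let R := {v : ↥N // (v : V) ∉ pp B U}
  have hπM : ∀ π : {π // π ∈ (fx M g).erase U}, π.1 ∈ M ∧ π.1 ≠ U ∧ π.1 ∈ fx M g := by
    intro π
    have h := Finset.mem_erase.mp π.2
    exact ⟨(mem_fx.mp h.2).1, h.1, h.2⟩
  let φ : T → R := fun t ↦ ⟨⟨(t.2.1 : V) + (t.2.2.1 : V), N.add_mem t.2.1.2.1 t.2.2.1.2.1⟩, by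
    intro h
    have h1 : (t.2.2.1 : V) ∈ pp B U := by
      have := (pp B U).sub_mem h (le_pp hS hUM t.2.1.2.2)
      have e : (t.2.1 : V) + (t.2.2.1 : V) - (t.2.1 : V) = (t.2.2.1 : V) := by abel
      rwa [e] at this
    have h0 : (t.2.2.1 : V) ≠ 0 := fun h ↦ t.2.2.2 (Subtype.ext h)
    exact (hπM t.1).2.1 (eq_of_mem_pp hS (hπM t.1).1 hUM h0 t.2.2.1.2.2 h1)⟩
  have hφ : Function.Bijective φ := by
    constructor
    · rintro ⟨π, u, s, hs⟩ ⟨π', u', s', hs'⟩ h
      have h1 : (u : V) + (s : V) = (u' : V) + (s' : V) := congrArg (fun r : R ↦ ((r.1 : N) : V)) h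
      have h0 : (s : V) ≠ 0 := fun h ↦ hs (Subtype.ext h)
      obtain ⟨e1, e2, e3⟩ := F2_unique hS hUM (hπM π).1 (hπM π').1 (hπM π).2.1 (hπM π').2.1
        u.2.2 s.2.2 u'.2.2 s'.2.2 h0 h1
      obtain ⟨π, hπ⟩ := π
      obtain ⟨π', hπ'⟩ := π'
      change π = π' at e1
      subst e1
      have e2' : u = u' := Subtype.ext e2
      have e3' : s = s' := Subtype.ext e3
      subst e2'
      subst e3'
      rfl
    · rintro ⟨⟨v, hvN⟩, hvU'⟩
      have hvU : v ∉ pp B U := hvU'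
      obtain ⟨π, hπ, hπU, u, hu, s, hs, hv⟩ := F2' hS hUM hvU
      have hs0 : s ≠ 0 := by
        rintro rfl
        apply hvU
        rw [hv, add_zero]
        exact le_pp hS hUM hu
      have hgv : g v = ε • v := mem_eg.mp hvN
      have hm := hg.pres π hπ
      have hmU : π.map (g : V →ₗ[F] V) ≠ U := by
        intro h
        apply hπU
        have h' := (mem_fx.mp hU).2
        rw [← h'] at h
        exact Submodule.map_injective_of_injective g.injective h
      have h1 : ε • u + ε • s = g u + g s := by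
        rw [← smul_add, ← hv, ← map_add, ← hv, hgv]
      obtain ⟨e1, e2, e3⟩ := F2_unique hS hUM hπ hm hπU hmU (U.smul_mem ε hu) (π.smul_mem ε hs)
        (fx_apply hU u hu) ⟨s, hs, rfl⟩ (smul_ne_zero hε0 hs0) h1
      have hπf : π ∈ fx M g := mem_fx.mpr ⟨hπ, e1.symm⟩
      refine ⟨⟨⟨π, Finset.mem_erase.mpr ⟨hπU, hπf⟩⟩, ⟨u, mem_eg.mpr e2.symm, hu⟩,
        ⟨⟨s, mem_eg.mpr e3.symm, hs⟩, fun h ↦ hs0 (congrArg Subtype.val h)⟩⟩, ?_⟩
      apply Subtype.ext
      apply Subtype.ext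
      exact hv.symm
  have hT : Nat.card T = ((fx M g).card - 1) * (Fintype.card F ^ p * (Fintype.card F ^ p - 1)) := by
    rw [Nat.card_sigma]
    have h1 : ∀ π : {π // π ∈ (fx M g).erase U},
        Nat.card (↥(N ⊓ U) × {s : ↥(N ⊓ π.1) // s ≠ 0}) =
          Fintype.card F ^ p * (Fintype.card F ^ p - 1) := by
      intro π
      have hfd2 : FiniteDimensional F ↥(N ⊓ π.1) := inferInstance
      rw [Nat.card_prod, b3_card (F := F) (W := ↥(N ⊓ π.1)), Module.natCard_eq_pow_finrank (K := F),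
        Nat.card_eq_fintype_card, hall U hU, hall π.1 (hπM π).2.2]
    rw [Finset.sum_congr rfl fun π _ ↦ h1 π, Finset.sum_const, Finset.card_univ, smul_eq_mul,
      Fintype.card_coe, Finset.card_erase_of_mem hU]
  have hR : Nat.card R + Fintype.card F ^ finrank F (eg g ε ⊓ pp B U : Submodule F V) =
      Fintype.card F ^ finrank F (eg g ε) := by
    have e1 : {v : ↥N // (v : V) ∈ pp B U} ≃ ↥(N ⊓ pp B U) :=
      Equiv.subtypeSubtypeEquivSubtypeInter (fun v : V ↦ v ∈ N) (fun v : V ↦ v ∈ pp B U)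
    have e2 := Nat.card_congr (Equiv.sumCompl (fun v : ↥N ↦ (v : V) ∈ pp B U))
    rw [Nat.card_sum, Nat.card_congr e1, Module.natCard_eq_pow_finrank (K := F),
      Module.natCard_eq_pow_finrank (K := F) (V := N), Nat.card_eq_fintype_card] at e2
    rw [add_comm]
    exact e2
  have hTR : Nat.card T = Nat.card R := Nat.card_congr (Equiv.ofBijective φ hφ)
  rw [← hTR, hT] at hR
  set q := Fintype.card F with hq
  have hq1 : 1 < q := Fintype.one_lt_card (α := F)
  set m := finrank F (eg g ε ⊓ pp B U : Submodule F V) with hm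
  rw [← hip] at hR ⊢
  have hqp : 2 ≤ q ^ p := by
    calc 2 ≤ q := hq1
      _ = q ^ 1 := (pow_one q).symm
      _ ≤ q ^ p := Nat.pow_le_pow_right (by omega) hp
  obtain ⟨k, hk⟩ : ∃ k, q ^ p = k + 1 := ⟨q ^ p - 1, by omega⟩
  have hk1 : 1 ≤ k := by omega
  have hpp : q ^ (2 * p) = (k + 1) * (k + 1) := by rw [two_mul, pow_add, hk]
  rw [pow_add, hk] at hR ⊢
  rw [hpp]
  have h5 : ((fx M g).card - 1) * (k + 1) * k = q ^ m * k := by
    have : (k + 1 - 1) = k := by omega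
    rw [this] at hR
    nlinarith [hR]
  have h6 := Nat.eq_of_mul_eq_mul_right hk1 h5
  calc ((fx M g).card - 1) * ((k + 1) * (k + 1)) = ((fx M g).card - 1) * (k + 1) * (k + 1) := by ring
    _ = q ^ m * (k + 1) := by rw [h6]

theorem triple (hS : Sys B M) {g : V ≃ₗ[F] V} (hg : Simi B M 1 g) {ε : F} (hε : ε ^ 2 = 1) {p : ℕ}
    (hall : ∀ a ∈ fx M g, finrank F (eg g ε ⊓ a : Submodule F V) = p) (h3 : 3 ≤ (fx M g).card) :
    3 * p ≤ finrank F (eg g ε) ∧ finrank F (eg g ε) ≤ 3 * p + 1 := by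
  have hfd := fin hS
  obtain ⟨a, b, c, ha, hb, hc, hab, hac, hbc⟩ := Finset.two_lt_card_iff.mp (by omega : 2 < (fx M g).card)
  have haM : a ∈ M := (mem_fx.mp ha).1
  have hbM : b ∈ M := (mem_fx.mp hb).1
  have hcM : c ∈ M := (mem_fx.mp hc).1
  set N := eg g ε with hNdef
  have gen : ∀ X Y Z : Submodule F V, X ≤ a → Y ≤ b → Z ≤ c →
      finrank F (X ⊔ Y ⊔ Z : Submodule F V) = finrank F X + finrank F Y + finrank F Z := by
    intro X Y Z hX hY hZ
    have h1 : X ⊓ Y = ⊥ := by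
      rw [Submodule.eq_bot_iff]
      rintro v ⟨hv1, hv2⟩
      exact disj hS haM hbM hab (hX hv1) (hY hv2)
    have h2 : (X ⊔ Y) ⊓ Z = ⊥ := by
      rw [Submodule.eq_bot_iff]
      rintro v ⟨hv1, hv2⟩
      obtain ⟨x, hx, y, hy, rfl⟩ := Submodule.mem_sup.mp hv1
      have h := hS.ind a haM b hbM c hcM hab hac hbc x (hX hx) y (hY hy) (-(x + y))
        (c.neg_mem (hZ hv2)) (by abel)
      have := h.2.2
      rwa [neg_eq_zero] at this
    have e1 := Submodule.finrank_sup_add_finrank_inf_eq X Y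
    have e2 := Submodule.finrank_sup_add_finrank_inf_eq (X ⊔ Y) Z
    rw [h1, finrank_bot] at e1
    rw [h2, finrank_bot] at e2
    omega
  have g1 := gen (N ⊓ a) (N ⊓ b) (N ⊓ c) inf_le_right inf_le_right inf_le_right
  rw [hall a ha, hall b hb, hall c hc] at g1
  have g2 := gen a b c le_rfl le_rfl le_rfl
  rw [hS.dim a haM, hS.dim b hbM, hS.dim c hcM] at g2
  constructor
  · have h1 : finrank F ((N ⊓ a) ⊔ (N ⊓ b) ⊔ (N ⊓ c) : Submodule F V) ≤ finrank F N :=
      Submodule.finrank_mono (sup_le (sup_le inf_le_left inf_le_left) inf_le_left)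
    omega
  · have h1 : N ⊓ (a ⊔ b ⊔ c) ≤ (N ⊓ a) ⊔ (N ⊓ b) ⊔ (N ⊓ c) := by
      rintro v ⟨hvN, hv⟩
      obtain ⟨w, hw, z, hz, rfl⟩ := Submodule.mem_sup.mp hv
      obtain ⟨x, hx, y, hy, rfl⟩ := Submodule.mem_sup.mp hw
      have hgv : g (x + y + z) = ε • (x + y + z) := mem_eg.mp hvN
      have h2 : (g x - ε • x) + (g y - ε • y) + (g z - ε • z) = 0 := by
        rw [map_add, map_add, smul_add, smul_add] at hgv
        have : (g x - ε • x) + (g y - ε • y) + (g z - ε • z) =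
          (g x + g y + g z) - (ε • x + ε • y + ε • z) := by abel
        rw [this, hgv, sub_self]
      have h3 := hS.ind a haM b hbM c hcM hab hac hbc _
        (a.sub_mem (fx_apply ha x hx) (a.smul_mem ε hx)) _
        (b.sub_mem (fx_apply hb y hy) (b.smul_mem ε hy)) _
        (c.sub_mem (fx_apply hc z hz) (c.smul_mem ε hz)) h2
      refine Submodule.add_mem_sup (Submodule.add_mem_sup ⟨mem_eg.mpr ?_, hx⟩ ⟨mem_eg.mpr ?_, hy⟩)
        ⟨mem_eg.mpr ?_, hz⟩
      · exact sub_eq_zero.mp h3.1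
      · exact sub_eq_zero.mp h3.2.1
      · exact sub_eq_zero.mp h3.2.2
    have h2 := Submodule.finrank_mono h1
    have h3 := Submodule.finrank_sup_add_finrank_inf_eq N (a ⊔ b ⊔ c)
    have h4 : finrank F (N ⊔ (a ⊔ b ⊔ c) : Submodule F V) ≤ finrank F V := Submodule.finrank_le _
    rw [hS.dimV] at h4
    omega

end Pool.Agent.LibNT29
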