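import Pool.Agent.LibNT29.Defs

set_option autoImplicit false

/-!
[NT29 B4] MEDIUM/STRONG, only Mathlib (and `im`). The determinant of an isometry `h` of a nondegenerate symmetric form is `(-1)^(rank (h-1))`.
`R = im (h - 1)`. `h` acts on `V / R` as the identity, so `det h = det (h|R)` (`LinearMap.det_eq_det_mul_det`, `Mathlib.LinearAlgebra.Determinant`:
`det_eq_det_mul_det (e) (he : W ≤ W.comap e)`). On `R` define `χ ((h-1) x, (h-1) y) = β ((h-1) x) y`, well defined: if `(h-1) y = 0` then
`β ((h-1) x) y = β (h x) (h y) - β x y = 0`. `χ` is bilinear; nondegenerate: if `χ (u, (h-1) y) = β u y = 0` for all `y` then `u = 0`.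
`χ (v, u) = - χ (h⁻¹ u, v)` for `u = (h-1) x`, `v = (h-1) y`: `χ (v, u) = β v x = β (h y) x - β y x = β y (h⁻¹ x) - β y x =
- β y (h⁻¹ ((h-1) x)) = - β (h⁻¹ u) y = - χ (h⁻¹ u, v)` (as `h⁻¹ u = (h-1) (h⁻¹ x) ∈ R`). With a basis of `R`, `G` the Gram matrix of `χ`, `H` the matrix of `h⁻¹|R`:
`Gᵀ = - Hᵀ G`, `det G ≠ 0`, so `1 = (-1)^r det H`, `det (h|R) = (-1)^r`. Any other proof is fine.
-/

namespace Pool.Agent.LibNT29

open Module

private theorem B4_gram {F W : Type*} [Field F] [AddCommGroup W] [Module F W] [FiniteDimensional F W]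
    (γ : W →ₗ[F] W →ₗ[F] F) (T : W →ₗ[F] W) (hn : ∀ c, (∀ a, γ a c = 0) → c = 0)
    (hT : ∀ a c, γ c a = - γ (T a) c) : LinearMap.det T = (-1) ^ finrank F W := by
  classical
  let b := finBasis F W
  let G : Matrix (Fin (finrank F W)) (Fin (finrank F W)) F := Matrix.of fun i j => γ (b i) (b j)
  let H : Matrix (Fin (finrank F W)) (Fin (finrank F W)) F := LinearMap.toMatrix b b T
  have hHapp : ∀ l j, H l j = b.repr (T (b j)) l := fun l j => LinearMap.toMatrix_apply b b T l j
  have hG : G.det ≠ 0 := by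
    intro h0
    obtain ⟨v, hv, hv0⟩ := Matrix.exists_mulVec_eq_zero_iff.mpr h0
    apply hv
    have hc : (∑ j, v j • b j) = 0 := by
      apply hn
      intro a
      have hi : ∀ i, γ (b i) (∑ j, v j • b j) = 0 := by
        intro i
        have := congrFun hv0 i
        simp only [Matrix.mulVec, dotProduct, G, Matrix.of_apply, Pi.zero_apply] at this
        rw [map_sum, ← this]
        refine Finset.sum_congr rfl fun j _ => ?_
        rw [map_smul, smul_eq_mul, mul_comm]
      have : γ.flip (∑ j, v j • b j) = 0 := by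
        apply b.ext
        intro i
        rw [LinearMap.flip_apply, hi i, LinearMap.zero_apply]
      rw [← LinearMap.flip_apply, this, LinearMap.zero_apply]
    funext j
    have := congrArg (fun w => b.repr w j) hc
    simpa [Finsupp.single_apply] using this
  have hGH : G = -(G.transpose * H) := by
    ext i j
    have h1 := hT (b j) (b i)
    have h2 : T (b j) = ∑ l, H l j • b l := by
      have := b.sum_repr (T (b j))
      rw [← this]
      refine Finset.sum_congr rfl fun l _ => ?_
      rw [hHapp l j]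
    rw [h2, map_sum, LinearMap.sum_apply] at h1
    rw [Matrix.neg_apply, Matrix.mul_apply]
    change γ (b i) (b j) = _
    rw [h1]
    congr 1
    refine Finset.sum_congr rfl fun l _ => ?_
    rw [map_smul, LinearMap.smul_apply, smul_eq_mul, mul_comm]
    rfl
  have hdet := congrArg Matrix.det hGH
  rw [Matrix.det_neg, Matrix.det_mul, Matrix.det_transpose,
    Fintype.card_fin] at hdet
  have hH : LinearMap.det T = H.det := (LinearMap.det_toMatrix b T).symm
  rw [hH]
  have h3 : (-1 : F) ^ finrank F W * H.det = 1 := by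
    apply mul_left_cancel₀ hG
    rw [mul_one]
    nth_rewrite 2 [hdet]
    ring
  have h4 : (-1 : F) ^ finrank F W * (-1 : F) ^ finrank F W = 1 := by
    rw [← mul_pow]; norm_num
  calc H.det = ((-1 : F) ^ finrank F W * (-1 : F) ^ finrank F W) * H.det := by rw [h4, one_mul]
    _ = (-1 : F) ^ finrank F W * ((-1 : F) ^ finrank F W * H.det) := by ring
    _ = (-1) ^ finrank F W := by rw [h3, mul_one]

theorem parity {F V : Type*} [Field F] [AddCommGroup V] [Module F V] [FiniteDimensional F V]
    (β : V →ₗ[F] V →ₗ[F] F) (hs : ∀ v w, β v w = β w v) (hn : ∀ v, (∀ w, β v w = 0) → v = 0) (h : V ≃ₗ[F] V)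
    (hi : ∀ v w, β (h v) (h w) = β v w) :
    LinearMap.det (h : V →ₗ[F] V) = (-1) ^ finrank F (im h) := by
  classical
  set N : V →ₗ[F] V := (h : V →ₗ[F] V) - LinearMap.id with hNdef
  have hN : ∀ x, N x = h x - x := fun x => rfl
  set K := LinearMap.ker N with hKdef
  have hK : ∀ x, x ∈ K ↔ h x = x := by
    intro x
    rw [hKdef, LinearMap.mem_ker, hN, sub_eq_zero]
  have hKle : K ≤ K.comap (h : V →ₗ[F] V) := by
    intro x hx
    rw [Submodule.mem_comap]
    have := (hK x).mp hx
    change h x ∈ K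
    rw [this]
    exact hx
  have hβK : ∀ x, ∀ y ∈ K, β (N x) y = 0 := by
    intro x y hy
    have hy' := (hK y).mp hy
    rw [hN, map_sub, LinearMap.sub_apply]
    nth_rewrite 1 [← hy']
    rw [hi, sub_self]
  have hneg : ∀ x y, β (N y) x = - β (N x) (h y) := by
    intro x y
    rw [hN, hN, map_sub, map_sub, LinearMap.sub_apply, LinearMap.sub_apply, hi, hs (h y) x, hs y x]
    ring
  let γ₁ : (V ⧸ K) →ₗ[F] V →ₗ[F] F := K.liftQ (β ∘ₗ N) (by
    intro x hx
    rw [LinearMap.mem_ker, LinearMap.comp_apply]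
    have : N x = 0 := hx
    rw [this, map_zero])
  have hγ₁ : ∀ x y, γ₁ (Submodule.Quotient.mk x) y = β (N x) y := fun x y => rfl
  let γ : (V ⧸ K) →ₗ[F] (V ⧸ K) →ₗ[F] F := K.liftQ γ₁.flip (by
    intro y hy
    rw [LinearMap.mem_ker]
    ext x
    change γ₁ (Submodule.Quotient.mk x) y = 0
    rw [hγ₁]
    exact hβK x y hy)
  have hγ : ∀ x y, γ (Submodule.Quotient.mk y) (Submodule.Quotient.mk x) = β (N x) y := fun x y => rfl
  have hgram := B4_gram γ (K.mapQ K (h : V →ₗ[F] V) hKle) (by
    intro c hc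
    obtain ⟨x, rfl⟩ := Submodule.Quotient.mk_surjective K c
    rw [Submodule.Quotient.mk_eq_zero, hK]
    have : N x = 0 := by
      apply hn
      intro y
      rw [← hγ]
      exact hc _
    rw [hN, sub_eq_zero] at this
    exact this) (by
    intro a c
    obtain ⟨x, rfl⟩ := Submodule.Quotient.mk_surjective K a
    obtain ⟨y, rfl⟩ := Submodule.Quotient.mk_surjective K c
    have h1 : K.mapQ K (h : V →ₗ[F] V) hKle (Submodule.Quotient.mk x)
        = Submodule.Quotient.mk (h x) := rfl
    rw [h1, hγ, hγ]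
    exact hneg y x)
  rw [LinearMap.det_eq_det_mul_det K (h : V →ₗ[F] V) hKle, hgram]
  have h1 : (h : V →ₗ[F] V).restrict hKle = LinearMap.id := by
    ext ⟨x, hx⟩
    change h x = x
    exact (hK x).mp hx
  rw [h1, LinearMap.det_id, one_mul]
  congr 1
  exact LinearEquiv.finrank_eq N.quotKerEquivRange

end Pool.Agent.LibNT29
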