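import Pool.Agent.LibNT29.A2
import Pool.Agent.LibNT29.B3

set_option autoImplicit false

/-!
[NT29 B5] MEDIUM. The cases `(p, n) = (3, 9)` and `(2, 7)`. `g` isometry, `N = eg g 1`, `f` = number of fixed members.
`case39`: `f - 1 = q^3` (`count`); all fixed members are in `N` (`dim (N ∩ a) = 3 = dim a`), `N` has dimension 9, `pp B N` has dimension 1,
take `v ≠ 0` in it: `v ∈ pp B a` for all fixed `a`, so `tt B M v ≥ q^3 + 1 > q + 1`, contradiction to `tt_le`.
`case27`: `f - 1 = q^3 < q^4`, so there is a member `π` which is not fixed. `R = im g` has dimension `10 - 7 = 3`; `g - 1` is injective on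
`π` (`fix_inter`), so `R = {g s - s : s ∈ π}`. Take `a` fixed, `x ∈ a` with `r = g x - x ≠ 0` (`dim (N ∩ a) = 2 < 3`); `r ∈ a ∩ R`, `r = g s - s`, `s ∈ π`. The members
`π`, `g π`, `a` are different (`g π = a = g a` would give `π = a`), `ind`: `s = 0`, so `r = 0`, contradiction.
-/

namespace Pool.Agent.LibNT29

open Module Pool.Agent.LibBT65

variable {F V : Type*} [Field F] [Fintype F] [AddCommGroup V] [Module F V]
  {B : V →ₗ[F] V →ₗ[F] F} {M : Finset (Submodule F V)}

private theorem B5_card {q n m k : ℕ} (hq : 1 < q) (h2 : 2 ≤ n) (h : (n - 1) * q ^ m = q ^ (m + k)) :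
    n = q ^ k + 1 := by
  have h0 : 0 < q ^ m := pow_pos (by omega) m
  have h1 : n - 1 = q ^ k := by
    apply Nat.eq_of_mul_eq_mul_right h0
    rw [h, pow_add, mul_comm]
  omega

theorem case39 (hS : Sys B M) {g : V ≃ₗ[F] V} (hg : Simi B M 1 g) (h2 : 2 ≤ (fx M g).card)
    (hall : ∀ a ∈ fx M g, finrank F (eg g 1 ⊓ a : Submodule F V) = 3) (hn : finrank F (eg g 1) = 9) :
    False := by
  classical
  have := fin hS
  have hq : 1 < Fintype.card F := Fintype.one_lt_card
  have hc := count hS hg (one_pow 2) (by norm_num) hall h2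
  rw [hn] at hc
  have hcard : (fx M g).card = Fintype.card F ^ 3 + 1 := B5_card (m := 6) (k := 3) hq h2 hc
  have hle : ∀ a ∈ fx M g, a ≤ eg g 1 := by
    intro a ha
    have haM : a ∈ M := (mem_fx.1 ha).1
    have h1 : (eg g 1 ⊓ a : Submodule F V) = a :=
      Submodule.eq_of_le_of_finrank_eq inf_le_right (by rw [hall a ha, hS.dim a haM])
    rw [← h1]
    exact inf_le_left
  have hp := pp_finrank hS (eg g 1)
  rw [hn] at hp
  have hne : pp B (eg g 1) ≠ ⊥ := by
    intro h0
    rw [h0, finrank_bot] at hp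
    omega
  obtain ⟨v, hv, hv0⟩ := Submodule.exists_mem_ne_zero_of_ne_bot hne
  have htt := tt_le hS hv0
  have hsub : (fx M g).card ≤ tt B M v := by
    unfold tt
    apply Finset.card_le_card
    intro a ha
    rw [Finset.mem_filter]
    exact ⟨(mem_fx.1 ha).1, fun u hu => hv u (hle a ha hu)⟩
  have h3 : Fintype.card F ^ 3 ≤ Fintype.card F := by omega
  have h4 : Fintype.card F ^ 1 < Fintype.card F ^ 3 := Nat.pow_lt_pow_right hq (by norm_num)
  rw [pow_one] at h4
  omega

theorem case27 (hS : Sys B M) {g : V ≃ₗ[F] V} (hg : Simi B M 1 g) (h2 : 2 ≤ (fx M g).card)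
    (hall : ∀ a ∈ fx M g, finrank F (eg g 1 ⊓ a : Submodule F V) = 2) (hn : finrank F (eg g 1) = 7) :
    False := by
  classical
  have := fin hS
  have hq : 1 < Fintype.card F := Fintype.one_lt_card
  have hc := count hS hg (one_pow 2) (by norm_num) hall h2
  rw [hn] at hc
  have hcard : (fx M g).card = Fintype.card F ^ 3 + 1 := B5_card (m := 4) (k := 3) hq h2 hc
  -- a member which is not fixed
  obtain ⟨π, hπM, hπ⟩ : ∃ π ∈ M, π ∉ fx M g := by
    by_contra hcon
    push Not at hcon
    have h1 : M.card ≤ (fx M g).card := Finset.card_le_card hcon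
    rw [hS.card, hcard] at h1
    have h4 : Fintype.card F ^ 3 < Fintype.card F ^ 4 := Nat.pow_lt_pow_right hq (by norm_num)
    omega
  set T : V →ₗ[F] V := (g : V →ₗ[F] V) - LinearMap.id with hT
  have hTapp : ∀ x, T x = g x - x := fun x => rfl
  have hker : LinearMap.ker T = eg g 1 := by
    unfold eg
    rw [one_smul]
  have hrk : finrank F (LinearMap.range T) = 3 := by
    have h1 := LinearMap.finrank_range_add_finrank_ker T
    rw [hker, hn, hS.dimV] at h1
    omega
  -- `R` is the image of `π`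
  have hbot := fix_inter hS hg (one_ne_zero) hπM hπ
  have hmap : π.map T = LinearMap.range T := by
    apply Submodule.eq_of_le_of_finrank_eq (LinearMap.map_le_range)
    have hinj : Function.Injective (T.domRestrict π) := by
      rw [← LinearMap.ker_eq_bot, LinearMap.ker_eq_bot']
      intro x hx
      have hx1 : (x : V) ∈ LinearMap.ker T := hx
      rw [hker] at hx1
      have hx2 : (x : V) ∈ (eg g 1 ⊓ π : Submodule F V) := ⟨hx1, x.2⟩
      rw [hbot] at hx2
      exact Subtype.ext ((Submodule.mem_bot F).1 hx2)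
    have h1 : finrank F (LinearMap.range (T.domRestrict π)) = finrank F π :=
      LinearMap.finrank_range_of_inj hinj
    rw [LinearMap.range_domRestrict] at h1
    rw [h1, hS.dim π hπM, hrk]
  -- a fixed member
  obtain ⟨a, ha⟩ : (fx M g).Nonempty := Finset.card_pos.1 (by omega)
  have haM : a ∈ M := (mem_fx.1 ha).1
  obtain ⟨x, hxa, hxN⟩ : ∃ x ∈ a, x ∉ eg g 1 := by
    by_contra hcon
    push Not at hcon
    have h1 : (eg g 1 ⊓ a : Submodule F V) = a := inf_eq_right.2 hcon
    have h3 := hall a ha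
    rw [h1, hS.dim a haM] at h3
    omega
  have hr0 : T x ≠ 0 := by
    intro h0
    apply hxN
    rw [← hker]
    exact h0
  have hra : T x ∈ a := a.sub_mem (fx_apply ha x hxa) hxa
  have hrR : T x ∈ π.map T := by
    rw [hmap]
    exact LinearMap.mem_range_self T x
  obtain ⟨s, hs, hsx⟩ := hrR
  have hπ'M := hg.pres π hπM
  have hne1 : π.map (g : V →ₗ[F] V) ≠ π := fun h => hπ (mem_fx.2 ⟨hπM, h⟩)
  have hne2 : a ≠ π := fun h => hπ (h ▸ ha)
  have hne3 : a ≠ π.map (g : V →ₗ[F] V) := by
    intro h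
    apply hne2
    have h5 : a.map (g : V →ₗ[F] V) = π.map (g : V →ₗ[F] V) := by rw [(mem_fx.1 ha).2]; exact h
    exact Submodule.map_injective_of_injective (f := (g : V →ₗ[F] V)) g.injective h5
  have hind := hS.ind a haM π hπM _ hπ'M hne2 hne3 hne1.symm (T x) hra s hs (-(g s))
    (Submodule.neg_mem _ (Submodule.mem_map_of_mem hs)) (by
      rw [← hsx, hTapp]
      abel)
  exact hr0 hind.1

end Pool.Agent.LibNT29
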