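import Pool.Agent.LibNT29.A2

set_option autoImplicit false

/-!
[NT29 B6] MEDIUM/STRONG. The ovoid lemma. `S ⊆ M`, `|S| = q^2 + 1`, `Y` of dimension 4, `dim (Y ∩ pp B a) = 3`, `dim (Y ∩ a) = 1` for `a ∈ S`.
Let `Z` be the set of nonzero `z ∈ Y` in no `a ∈ S`: `|Z| = q^4 - 1 - (q^2+1)(q-1) = q (q-1) (q^2+1)` (`disj`). For `z ∈ Z` let `f z` be the number of `a ∈ S` with
`z ∈ pp B a`; `f z ≤ tt B M z ≤ q + 1` (`tt_le`). Double counting: `∑_(z ∈ Z) f z = (q^2+1) (q^3 - q)` (for `a ∈ S` the vectors `z ∈ Y ∩ pp B a` which are 0 or in some `b ∈ S`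
are those of `Y ∩ a`, by `eq_of_mem_pp`: `q` of them) `= (q+1) |Z|`. So `f z = q + 1` for all `z ∈ Z`. As `q^2 + 1 < q^4 + 1` there is `π ∈ M`, `π ∉ S`; `dim (Y ∩ pp B π) ≥ 4 + 7 - 10 = 1`:
`z ≠ 0` in it. `z` is in no `a ∈ S` (`eq_of_mem_pp`: `a = π`), so `z ∈ Z`, `f z = q + 1`, and also `z ∈ pp B π`: `tt B M z ≥ q + 2`, contradiction to `tt_le`.
-/

namespace Pool.Agent.LibNT29

open Module Pool.Agent.LibBT65

variable {F V : Type*} [Field F] [Fintype F] [AddCommGroup V] [Module F V]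
  {B : V →ₗ[F] V →ₗ[F] F} {M : Finset (Submodule F V)}

open scoped Classical in
private theorem B6_card [Fintype V] (W : Submodule F V) :
    (Finset.univ.filter fun z : V => z ∈ W ∧ z ≠ 0).card + 1 = Fintype.card F ^ finrank F W := by
  have h1 : (Finset.univ.filter fun z : V => z ∈ W ∧ z ≠ 0)
      = (Finset.univ.filter fun z : V => z ∈ W).erase 0 := by
    ext z
    simp only [Finset.mem_filter, Finset.mem_univ, true_and, Finset.mem_erase]
    tauto
  have h2 : (0 : V) ∈ (Finset.univ.filter fun z : V => z ∈ W) := by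
    simp [W.zero_mem]
  rw [h1, Finset.card_erase_add_one h2]
  have h3 : (Finset.univ.filter fun z : V => z ∈ W).card = Fintype.card W := by
    rw [Fintype.card_subtype]
  rw [h3]
  exact Module.card_eq_pow_finrank

theorem ovoid (hS : Sys B M) {S : Finset (Submodule F V)} (hSM : S ⊆ M) (hc : S.card = Fintype.card F ^ 2 + 1)
    {Y : Submodule F V} (hY : finrank F Y = 4) (h1 : ∀ a ∈ S, finrank F (Y ⊓ pp B a : Submodule F V) = 3)
    (h2 : ∀ a ∈ S, finrank F (Y ⊓ a : Submodule F V) = 1) : False := by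
  classical
  haveI := fin hS
  haveI : Finite V := Module.finite_of_finite F
  haveI : Fintype V := Fintype.ofFinite V
  have hq : 2 ≤ Fintype.card F := Fintype.one_lt_card
  obtain ⟨q, hqq⟩ : ∃ q, q = Fintype.card F := ⟨_, rfl⟩
  -- the sets
  let Z : Finset V := Finset.univ.filter fun z => (z ∈ Y ∧ z ≠ 0) ∧ ∀ a ∈ S, z ∉ a
  let f : V → ℕ := fun z => (S.filter fun a => z ∈ pp B a).card
  have hZmem : ∀ z, z ∈ Z ↔ (z ∈ Y ∧ z ≠ 0) ∧ ∀ a ∈ S, z ∉ a := by
    intro z
    simp only [Z, Finset.mem_filter, Finset.mem_univ, true_and]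
  -- |Z|
  have hcY := B6_card Y
  rw [hY] at hcY
  have hcZ : (Finset.univ.filter fun z : V => z ∈ Y ∧ z ≠ 0).card
      = Z.card + ∑ a ∈ S, (Finset.univ.filter fun z : V => z ∈ Y ⊓ a ∧ z ≠ 0).card := by
    have hU : (Finset.univ.filter fun z : V => z ∈ Y ∧ z ≠ 0)
        = Z ∪ S.biUnion fun a => (Finset.univ.filter fun z : V => z ∈ Y ⊓ a ∧ z ≠ 0) := by
      ext z
      rw [Finset.mem_union, hZmem, Finset.mem_biUnion]
      simp only [Finset.mem_filter, Finset.mem_univ, true_and, Submodule.mem_inf]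
      constructor
      · intro hz
        by_cases hh : ∀ a ∈ S, z ∉ a
        · exact Or.inl ⟨hz, hh⟩
        · push Not at hh
          obtain ⟨a, ha, hza⟩ := hh
          exact Or.inr ⟨a, ha, ⟨hz.1, hza⟩, hz.2⟩
      · rintro (h | ⟨a, ha, h, h'⟩)
        · exact h.1
        · exact ⟨h.1, h'⟩
    rw [hU, Finset.card_union_of_disjoint, Finset.card_biUnion]
    · intro a ha b hb hab
      rw [Function.onFun, Finset.disjoint_left]
      intro z hz hz'
      simp only [Finset.mem_filter, Finset.mem_univ, true_and, Submodule.mem_inf] at hz hz'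
      exact hz.2 (disj hS (hSM ha) (hSM hb) hab hz.1.2 hz'.1.2)
    · rw [Finset.disjoint_left]
      intro z hz hz'
      rw [hZmem] at hz
      rw [Finset.mem_biUnion] at hz'
      obtain ⟨a, ha, h⟩ := hz'
      simp only [Finset.mem_filter, Finset.mem_univ, true_and, Submodule.mem_inf] at h
      exact hz.2 a ha h.1.2
  have hone : ∀ a ∈ S, (Finset.univ.filter fun z : V => z ∈ Y ⊓ a ∧ z ≠ 0).card = q - 1 := by
    intro a ha
    have := B6_card (Y ⊓ a)
    rw [h2 a ha, pow_one, ← hqq] at this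
    omega
  rw [Finset.sum_congr rfl hone, Finset.sum_const, hc, smul_eq_mul, ← hqq] at hcZ
  rw [← hqq] at hcY
  -- the double count
  have hdc : ∑ z ∈ Z, f z = ∑ a ∈ S, (Z.filter fun z => z ∈ pp B a).card := by
    simp only [f, Finset.card_filter]
    rw [Finset.sum_comm]
  have hca : ∀ a ∈ S, (Z.filter fun z => z ∈ pp B a).card = (q ^ 3 - 1) - (q - 1) := by
    intro a ha
    have hU : (Finset.univ.filter fun z : V => z ∈ Y ⊓ pp B a ∧ z ≠ 0)
        = (Z.filter fun z => z ∈ pp B a) ∪ (Finset.univ.filter fun z : V => z ∈ Y ⊓ a ∧ z ≠ 0) := by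
      ext z
      simp only [Finset.mem_union, Finset.mem_filter, hZmem, Finset.mem_univ, true_and,
        Submodule.mem_inf]
      constructor
      · rintro ⟨⟨hzY, hzp⟩, hz0⟩
        by_cases hh : ∀ b ∈ S, z ∉ b
        · exact Or.inl ⟨⟨⟨hzY, hz0⟩, hh⟩, hzp⟩
        · push Not at hh
          obtain ⟨b, hb, hzb⟩ := hh
          have hba := eq_of_mem_pp hS (hSM hb) (hSM ha) hz0 hzb hzp
          subst hba
          exact Or.inr ⟨⟨hzY, hzb⟩, hz0⟩
      · rintro (⟨⟨⟨hzY, hz0⟩, -⟩, hzp⟩ | ⟨⟨hzY, hza⟩, hz0⟩)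
        · exact ⟨⟨hzY, hzp⟩, hz0⟩
        · exact ⟨⟨hzY, le_pp hS (hSM ha) hza⟩, hz0⟩
    have hcard := congrArg Finset.card hU
    rw [Finset.card_union_of_disjoint, hone a ha] at hcard
    · have := B6_card (Y ⊓ pp B a)
      rw [h1 a ha, ← hqq] at this
      omega
    · rw [Finset.disjoint_left]
      intro z hz hz'
      rw [Finset.mem_filter, hZmem] at hz
      simp only [Finset.mem_filter, Finset.mem_univ, true_and, Submodule.mem_inf] at hz'
      exact hz.1.2 a ha hz'.1.2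
  rw [Finset.sum_congr rfl hca, Finset.sum_const, hc, smul_eq_mul, ← hqq] at hdc
  have hZc : ∑ z ∈ Z, f z = (q + 1) * Z.card := by
    rw [hdc]
    obtain ⟨n, hn⟩ : ∃ n, q = n + 2 := ⟨q - 2, by omega⟩
    have e1 : q ^ 3 - 1 - (q - 1) = (n + 1) * (n + 2) * (n + 3) := by
      have : q ^ 3 = (n + 1) * (n + 2) * (n + 3) + (n + 1) + 1 := by rw [hn]; ring
      omega
    have e2 : Z.card = (q ^ 2 + 1) * ((n + 2) * (n + 1)) := by
      have h4 : q ^ 4 = (q ^ 2 + 1) * ((n + 2) * (n + 1)) + (q ^ 2 + 1) * (n + 1) + 1 := by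
        rw [hn]; ring
      have h5 : q - 1 = n + 1 := by omega
      rw [h5] at hcZ
      omega
    rw [e1, e2, hn]
    ring
  have hfle : ∀ z ∈ Z, f z ≤ tt B M z ∧ tt B M z ≤ q + 1 := by
    intro z hz
    rw [hZmem] at hz
    refine ⟨?_, by rw [hqq]; exact tt_le hS hz.1.2⟩
    unfold tt
    exact Finset.card_le_card (Finset.filter_subset_filter _ hSM)
  have hfe : ∀ z ∈ Z, f z = q + 1 := by
    by_contra hne
    push Not at hne
    obtain ⟨z, hz, hzn⟩ := hne
    have hlt : ∑ z ∈ Z, f z < ∑ _z ∈ Z, (q + 1) :=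
      Finset.sum_lt_sum (fun z hz => (hfle z hz).1.trans (hfle z hz).2)
        ⟨z, hz, lt_of_le_of_ne ((hfle z hz).1.trans (hfle z hz).2) hzn⟩
    rw [Finset.sum_const, smul_eq_mul, hZc] at hlt
    have : (q + 1) * Z.card = Z.card * (q + 1) := Nat.mul_comm _ _
    omega
  -- a member outside of S
  obtain ⟨π, hπM, hπS⟩ : ∃ π ∈ M, π ∉ S := by
    by_contra hno
    push Not at hno
    have h3 := Finset.card_le_card (show M ⊆ S from hno)
    rw [hS.card, hc] at h3
    have h4 : Fintype.card F ^ 2 < Fintype.card F ^ 4 :=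
      Nat.pow_lt_pow_right (by omega) (by norm_num)
    omega
  have hdim : 1 ≤ finrank F (Y ⊓ pp B π : Submodule F V) := by
    have h3 := Submodule.finrank_sup_add_finrank_inf_eq Y (pp B π)
    have h4 : finrank F (Y ⊔ pp B π : Submodule F V) ≤ 10 := by
      rw [← hS.dimV]
      exact Submodule.finrank_le _
    rw [hY, pp_dim hS hπM] at h3
    omega
  obtain ⟨z, hz, hz0⟩ : ∃ z ∈ (Y ⊓ pp B π : Submodule F V), z ≠ 0 := by
    have hne : (Y ⊓ pp B π : Submodule F V) ≠ ⊥ := by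
      intro he
      rw [he, finrank_bot] at hdim
      omega
    obtain ⟨z, hz, hz0⟩ := Submodule.exists_mem_ne_zero_of_ne_bot hne
    exact ⟨z, hz, hz0⟩
  have hzZ : z ∈ Z := by
    rw [hZmem]
    refine ⟨⟨hz.1, hz0⟩, fun a ha hza => ?_⟩
    have := eq_of_mem_pp hS (hSM ha) hπM hz0 hza hz.2
    subst this
    exact hπS ha
  have h5 : f z + 1 ≤ tt B M z := by
    have hsub : insert π (S.filter fun a => z ∈ pp B a) ⊆ M.filter fun a => z ∈ pp B a := by
      intro a ha
      rw [Finset.mem_insert] at ha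
      rw [Finset.mem_filter]
      rcases ha with rfl | ha
      · exact ⟨hπM, hz.2⟩
      · rw [Finset.mem_filter] at ha
        exact ⟨hSM ha.1, ha.2⟩
    have h6 := Finset.card_le_card hsub
    rw [Finset.card_insert_of_notMem (fun h => hπS (Finset.mem_filter.1 h).1)] at h6
    unfold tt
    exact h6
  have h7 := hfe z hzZ
  have h8 := (hfle z hzZ).2
  omega

end Pool.Agent.LibNT29
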