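import Pool.Agent.LibNT29.B3
import Pool.Agent.LibNT29.B6

set_option autoImplicit false

/-!
[NT29 B7] SHORT/MEDIUM. The cases `(p, n) = (1, 4)` and `(2, 6)` by the ovoid lemma with `S = fx M g` (`f = q^2 + 1` by `count`).
`case14`: `Y = eg g 1`, `inter_pp`. `case26`: `Y = im g`, `dim = 10 - 6 = 4` (`LinearMap.finrank_range_add_finrank_ker`). `im g = pp B (eg g 1)` (`pp_im`, `pp_pp`).
`im g ⊓ pp B a = pp B (eg g 1 ⊔ a)` (`pp_sup`), `dim (eg g 1 ⊔ a) = 6 + 3 - 2 = 7`, so 3; `im g ⊓ a = pp B (eg g 1 ⊔ pp B a)` (`pp_pp`, `pp_sup`),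
`dim (eg g 1 ⊔ pp B a) = 6 + 7 - 4 = 9` (`inter_pp`: `6 - 2 = 4`), so 1.
-/

namespace Pool.Agent.LibNT29

open Module Pool.Agent.LibBT65

variable {F V : Type*} [Field F] [Fintype F] [AddCommGroup V] [Module F V]
  {B : V →ₗ[F] V →ₗ[F] F} {M : Finset (Submodule F V)}

private theorem B7_card {q f p n : ℕ} (hq : 1 < q) (hf : 2 ≤ f) (h : (f - 1) * q ^ (2 * p) = q ^ n)
    (hn : n = 2 * p + 2) : f = q ^ 2 + 1 := by
  have h1 : (f - 1) * q ^ (2 * p) = q ^ 2 * q ^ (2 * p) := by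
    rw [h, hn, pow_add, mul_comm]
  have h2 := Nat.eq_of_mul_eq_mul_right (by positivity) h1
  omega

private theorem B7_sub {g : V ≃ₗ[F] V} : fx M g ⊆ M := fun _ ha => (mem_fx.1 ha).1

theorem case14 (hS : Sys B M) {g : V ≃ₗ[F] V} (hg : Simi B M 1 g) (h2 : 2 ≤ (fx M g).card)
    (hall : ∀ a ∈ fx M g, finrank F (eg g 1 ⊓ a : Submodule F V) = 1) (hn : finrank F (eg g 1) = 4) :
    False := by
  have hc := count hS hg (one_pow 2) le_rfl hall h2
  rw [hn] at hc
  have hc' := B7_card Fintype.one_lt_card h2 hc rfl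
  refine ovoid hS B7_sub hc' hn (fun a ha => ?_) hall
  have h3 := inter_pp hS hg (one_pow 2) hall h2 ha
  rw [hn] at h3
  omega

theorem case26 (hS : Sys B M) {g : V ≃ₗ[F] V} (hg : Simi B M 1 g) (h2 : 2 ≤ (fx M g).card)
    (hall : ∀ a ∈ fx M g, finrank F (eg g 1 ⊓ a : Submodule F V) = 2) (hn : finrank F (eg g 1) = 6) :
    False := by
  have := fin hS
  have hc := count hS hg (one_pow 2) (by norm_num) hall h2
  rw [hn] at hc
  have hc' := B7_card Fintype.one_lt_card h2 hc rfl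
  have him : im g = pp B (eg g 1) := by
    rw [← pp_im hS hg, pp_pp hS]
  have hY : finrank F (im g) = 4 := by
    have h3 := pp_finrank hS (im g)
    rw [pp_im hS hg, hn] at h3
    omega
  refine ovoid hS B7_sub hc' hY (fun a ha => ?_) (fun a ha => ?_)
  · rw [him, ← pp_sup]
    have h3 := pp_finrank hS (eg g 1 ⊔ a)
    have h4 := Submodule.finrank_sup_add_finrank_inf_eq (eg g 1) a
    rw [hall a ha, hn, hS.dim a (B7_sub ha)] at h4
    omega
  · have h5 : im g ⊓ a = pp B (eg g 1 ⊔ pp B a) := by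
      rw [pp_sup, pp_pp hS, him]
    rw [h5]
    have h3 := pp_finrank hS (eg g 1 ⊔ pp B a)
    have h4 := Submodule.finrank_sup_add_finrank_inf_eq (eg g 1) (pp B a)
    have h6 := inter_pp hS hg (one_pow 2) hall h2 ha
    rw [hn] at h6
    rw [hn, pp_dim hS (B7_sub ha)] at h4
    omega

end Pool.Agent.LibNT29
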