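import Pool.Agent.LibNT29.B2
import Pool.Agent.LibNT29.B4
import Pool.Agent.LibNT29.B5
import Pool.Agent.LibNT29.B7

set_option autoImplicit false

/-!
[NT29 B8] MEDIUM. Three fixed members.
`classify`: let `p` be the common dimension of `eg g 1 ⊓ a` (`pair_dim`), `1 ≤ p ≤ 3` (`one_le`, `dim a = 3`), `n = dim (eg g 1)`, `3 p ≤ n ≤ 3 p + 1` (`triple`).
`(3,10)`: `g = 1`. `(3,9)`, `(2,7)`, `(2,6)`, `(1,4)`: impossible (B5, B7). Remains `(1,3)`.
`three_fixed`: `norm_exists` gives `g'`; if `g' = 1` then `g` is scalar. Otherwise `n = 3`, `p = 1`, `rank (g' - 1) = 7`, `det g' = -1` (`parity`). `g' * g'` is an isometry,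
normalised (`nrm_sq`), with `≥ 3` fixed members and determinant `1`; if `g' * g' ≠ 1` then `dim eg = 3` (`classify`), `rank = 7`, determinant `-1 ≠ 1`: impossible. So `g' * g' = 1`,
and `a = (a ∩ eg g' 1) ⊕ (a ∩ eg g' (-1))`: `dim (eg g' (-1) ⊓ a) = 2` for fixed `a`, `V = eg g' 1 ⊕ eg g' (-1)`, `dim eg g' (-1) = 7`. `count` for `ε = 1`:
`(f-1) q^2 = q^3`, for `ε = -1`: `(f-1) q^4 = q^7`: `q = q^3`, contradiction.
-/

namespace Pool.Agent.LibNT29

open Module Pool.Agent.LibBT65

variable {F V : Type*} [Field F] [Fintype F] [AddCommGroup V] [Module F V]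
  {B : V →ₗ[F] V →ₗ[F] F} {M : Finset (Submodule F V)}

omit [Fintype F] in
/-- the eigenspaces of an involution split every invariant subspace -/
private theorem B8_split [FiniteDimensional F V] (two : (2 : F) ≠ 0) {g : V ≃ₗ[F] V}
    (hg : ∀ v, g (g v) = v) (W : Submodule F V) (hW : ∀ v ∈ W, g v ∈ W) :
    finrank F (eg g 1 ⊓ W : Submodule F V) + finrank F (eg g (-1) ⊓ W : Submodule F V) = finrank F W := by
  have hinf : (eg g 1 ⊓ W) ⊓ (eg g (-1) ⊓ W) = ⊥ := by
    rw [Submodule.eq_bot_iff]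
    rintro v ⟨⟨h1, _⟩, ⟨h2, _⟩⟩
    have e1 := mem_eg.mp h1
    have e2 := mem_eg.mp h2
    rw [e1, one_smul, neg_smul, one_smul] at e2
    have e3 : (2 : F) • v = 0 := by
      rw [two_smul]
      nth_rewrite 1 [e2]
      exact neg_add_cancel v
    exact (smul_eq_zero.mp e3).resolve_left two
  have hsup : (eg g 1 ⊓ W) ⊔ (eg g (-1) ⊓ W) = W := by
    apply le_antisymm
    · exact sup_le inf_le_right inf_le_right
    · intro v hv
      have hd : v = (2 : F)⁻¹ • (v + g v) + (2 : F)⁻¹ • (v - g v) := by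
        rw [← smul_add]
        have : v + g v + (v - g v) = (2 : F) • v := by rw [two_smul]; abel
        rw [this, smul_smul, inv_mul_cancel₀ two, one_smul]
      rw [hd]
      refine Submodule.add_mem_sup ⟨?_, ?_⟩ ⟨?_, ?_⟩
      · rw [SetLike.mem_coe, mem_eg, map_smul, map_add, hg, one_smul, add_comm]
      · exact W.smul_mem _ (W.add_mem hv (hW v hv))
      · rw [SetLike.mem_coe, mem_eg, map_smul, map_sub, hg, neg_smul, one_smul, ← smul_neg, neg_sub]
      · exact W.smul_mem _ (W.sub_mem hv (hW v hv))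
  have h := Submodule.finrank_sup_add_finrank_inf_eq (eg g 1 ⊓ W) (eg g (-1) ⊓ W)
  rw [hinf, hsup, finrank_bot] at h
  omega

private theorem B8_im (hS : Sys B M) (g : V ≃ₗ[F] V) : finrank F (im g) + finrank F (eg g 1) = 10 := by
  have hf := fin hS
  have h := LinearMap.finrank_range_add_finrank_ker ((g : V →ₗ[F] V) - LinearMap.id)
  rw [hS.dimV] at h
  unfold im eg
  rw [one_smul]
  exact h

private theorem B8_det (hS : Sys B M) {g : V ≃ₗ[F] V} (hg : Simi B M 1 g) (hn : finrank F (eg g 1) = 3) :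
    LinearMap.det (g : V →ₗ[F] V) = -1 := by
  have hf := fin hS
  have h1 := B8_im hS g
  have h2 := parity B hS.symm hS.nondeg g (fun v w => by rw [hg.sim, one_mul])
  have h3 : finrank F (im g) = 7 := by omega
  rw [h2, h3]
  norm_num

theorem classify (hS : Sys B M) {g : V ≃ₗ[F] V} (hg : Simi B M 1 g) (hn : Nrm M g) (h3 : 3 ≤ (fx M g).card) :
    g = 1 ∨ (finrank F (eg g 1) = 3 ∧ ∀ a ∈ fx M g, finrank F (eg g 1 ⊓ a : Submodule F V) = 1) := by
  have hf := fin hS
  have hne : (fx M g).Nonempty := Finset.card_pos.mp (by omega)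
  obtain ⟨a, ha⟩ := hne
  have hone := one_le hS hg hn h3 ha
  have hall : ∀ b ∈ fx M g, finrank F (eg g 1 ⊓ b : Submodule F V) =
      finrank F (eg g 1 ⊓ a : Submodule F V) := by
    intro b hb
    by_cases hab : a = b
    · rw [hab]
    · exact (pair_dim hS hg (by norm_num : (1 : F) ^ 2 = 1) ha hb hab).symm
  have hle : finrank F (eg g 1 ⊓ a : Submodule F V) ≤ 3 := by
    have h1 : finrank F a = 3 := hS.dim a (mem_fx.mp ha).1
    rw [← h1]
    exact Submodule.finrank_mono inf_le_right
  obtain ⟨t1, t2⟩ := triple hS hg (by norm_num : (1 : F) ^ 2 = 1) hall h3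
  have h2 : 2 ≤ (fx M g).card := by omega
  have h10 : finrank F (eg g 1) ≤ 10 := by
    rw [← hS.dimV]
    exact Submodule.finrank_le _
  generalize hp : finrank F (eg g 1 ⊓ a : Submodule F V) = p at hall hone hle t1 t2
  have hcases : p = 1 ∨ p = 2 ∨ p = 3 := by omega
  rcases hcases with rfl | rfl | rfl
  · have h4 : finrank F (eg g 1) = 3 ∨ finrank F (eg g 1) = 4 := by omega
    rcases h4 with h4 | h4
    · exact Or.inr ⟨h4, hall⟩
    · exact (case14 hS hg h2 hall h4).elim
  · have h4 : finrank F (eg g 1) = 6 ∨ finrank F (eg g 1) = 7 := by omega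
    rcases h4 with h4 | h4
    · exact (case26 hS hg h2 hall h4).elim
    · exact (case27 hS hg h2 hall h4).elim
  · have h4 : finrank F (eg g 1) = 9 ∨ finrank F (eg g 1) = 10 := by omega
    rcases h4 with h4 | h4
    · exact (case39 hS hg h2 hall h4).elim
    · left
      have htop : eg g 1 = ⊤ := Submodule.eq_top_of_finrank_eq (by rw [h4, hS.dimV])
      ext v
      have : v ∈ eg g 1 := by rw [htop]; trivial
      have h5 := mem_eg.mp this
      rw [one_smul] at h5
      exact h5

theorem three_fixed (hS : Sys B M) {μ : F} {g : V ≃ₗ[F] V} (hg : Simi B M μ g) (h3 : 3 ≤ (fx M g).card) :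
    Scal g := by
  have hf := fin hS
  obtain ⟨κ, g', hκ, hgg, hg', hfx, hnr⟩ := norm_exists hS hg h3
  have h3' : 3 ≤ (fx M g').card := by rw [hfx]; exact h3
  rcases classify hS hg' hnr h3' with h1 | ⟨hn3, hall⟩
  · refine ⟨κ, fun v => ?_⟩
    rw [hgg, h1]
    rfl
  · exfalso
    have hd := B8_det hS hg' hn3
    obtain ⟨hs1, hs2, hs3⟩ := nrm_sq hS hg' hnr h3'
    have h3'' : 3 ≤ (fx M (g' * g')).card := h3'.trans (Finset.card_le_card hs2)
    have hsq : g' * g' = 1 := by
      rcases classify hS hs1 hs3 h3'' with h | ⟨hn, _⟩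
      · exact h
      · exfalso
        have hd2 := B8_det hS hs1 hn
        have e : ((g' * g' : V ≃ₗ[F] V) : V →ₗ[F] V) = (g' : V →ₗ[F] V) * (g' : V →ₗ[F] V) := rfl
        rw [e, map_mul, hd] at hd2
        apply hS.two
        have : (1 : F) = -1 := by
          rw [← hd2]
          ring
        linear_combination this
    have hinv : ∀ v, g' (g' v) = v := fun v => by
      have := LinearEquiv.congr_fun hsq v
      exact this
    have hm : ∀ a ∈ fx M g', finrank F (eg g' (-1) ⊓ a : Submodule F V) = 2 := by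
      intro a ha
      have h := B8_split hS.two hinv a (fx_apply ha)
      rw [hall a ha, hS.dim a (mem_fx.mp ha).1] at h
      omega
    have hV : finrank F (eg g' (-1)) = 7 := by
      have h := B8_split hS.two hinv ⊤ (fun v _ => Submodule.mem_top)
      rw [inf_top_eq, inf_top_eq, finrank_top, hn3, hS.dimV] at h
      omega
    have h2 : 2 ≤ (fx M g').card := by omega
    have c1 := count hS hg' (by norm_num : (1 : F) ^ 2 = 1) le_rfl hall h2
    have c2 := count hS hg' (by norm_num : (-1 : F) ^ 2 = 1) (by norm_num) hm h2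
    rw [hn3] at c1
    rw [hV] at c2
    have hq : 1 < Fintype.card F := Fintype.one_lt_card
    generalize (fx M g').card - 1 = f at c1 c2
    generalize Fintype.card F = q at c1 c2 hq
    have e1 : f = q := by
      have : f * q ^ 2 = q * q ^ 2 := by rw [c1]; ring
      exact Nat.eq_of_mul_eq_mul_right (by positivity) this
    have e2 : f = q ^ 3 := by
      have : f * q ^ 4 = q ^ 3 * q ^ 4 := by rw [c2]; ring
      exact Nat.eq_of_mul_eq_mul_right (by positivity) this
    have e3 : q < q ^ 3 := by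
      calc q = q ^ 1 := (pow_one q).symm
        _ < q ^ 3 := Nat.pow_lt_pow_right hq (by norm_num)
    omega

end Pool.Agent.LibNT29
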