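import Pool.Agent.LibNT29.B8

set_option autoImplicit false

/-!
[NT29 C1] MEDIUM. A similarity `g` with factor `μ` and `g (g v) = ν v`, `ν ≠ 0`.
`mult`: `ν B (g x) y = B (g x) (ν y) = B (g x) (g (g y)) = μ B x (g y)` and the same with `x`, `y` exchanged: `ν B x (g y) = μ B (g x) y` (symmetry), so
`ν² B (g x) y = μ² B (g x) y`; `B ≠ 0` and `g` bijective: `μ² = ν²`.
`skew`: `μ = -ν`: `B (g x) y = - B x (g y)`, so `b x y = B x (g y)` satisfies `b y x = B y (g x) = B (g x) y = - b x y`. If a member `π` is not fixed then `b` on `π × π` is the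
pairing of `π` and `g π`, nondegenerate (`opp`). But an alternating form (`2 ≠ 0`) on a space of dimension 3 is degenerate: determinant of the Gram matrix `A`, `Aᵀ = -A`, `det A = - det A`.
`sq_of_fixed`: `g` maps the fixed member `a` to itself, `det (g|a)² = det (ν on a) = ν³`, `κ = det (g|a) / ν`.
`even_fx`: `g` induces an involution on the `q^4+1` members, `q` odd: the number of fixed members is even (`Finset.card_involution..`, or `Equiv.Perm` /
`Function.Involutive.card_fixedPoints..`, `MulAction.card_modEq_card_fixedPoints` for the group of order 2).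
-/

namespace Pool.Agent.LibNT29

open Module Pool.Agent.LibBT65

variable {F V : Type*} [Field F] [Fintype F] [AddCommGroup V] [Module F V]
  {B : V →ₗ[F] V →ₗ[F] F} {M : Finset (Submodule F V)}

private theorem C1_V (hS : Sys B M) : ∃ v : V, v ≠ 0 := by
  by_contra h
  push Not at h
  have hs : Subsingleton V := ⟨fun a b => by rw [h a, h b]⟩
  have h0 : finrank F V = 0 := finrank_zero_of_subsingleton
  rw [hS.dimV] at h0
  norm_num at h0

private theorem C1_rel {μ ν : F} {g : V ≃ₗ[F] V} (hg : Simi B M μ g) (hν : ∀ v, g (g v) = ν • v)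
    (x y : V) : ν * B (g x) y = μ * B x (g y) := by
  have h := hg.sim x (g y)
  rw [hν, map_smul, smul_eq_mul] at h
  exact h

private theorem C1_ne (hS : Sys B M) {ν : F} {g : V ≃ₗ[F] V} (hν : ∀ v, g (g v) = ν • v) : ν ≠ 0 := by
  intro h0
  obtain ⟨v, hv⟩ := C1_V hS
  have h := hν v
  rw [h0, zero_smul] at h
  exact hv (g.map_eq_zero_iff.mp (g.map_eq_zero_iff.mp h))

theorem mult (hS : Sys B M) {μ ν : F} {g : V ≃ₗ[F] V} (hg : Simi B M μ g) (hν : ∀ v, g (g v) = ν • v) :
    μ = ν ∨ μ = -ν := by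
  obtain ⟨v, hv⟩ := C1_V hS
  have hgv : g v ≠ 0 := fun h => hv (g.map_eq_zero_iff.mp h)
  obtain ⟨y, hy⟩ : ∃ y, B (g v) y ≠ 0 := by
    by_contra h
    push Not at h
    exact hgv (hS.nondeg _ h)
  have h1 := C1_rel hg hν v y
  have h2 := C1_rel hg hν y v
  rw [hS.symm (g y) v, hS.symm y (g v)] at h2
  have h3 : (ν * ν - μ * μ) * B (g v) y = 0 := by
    have e1 : ν * (ν * B (g v) y) = ν * (μ * B v (g y)) := by rw [h1]
    have e2 : μ * (ν * B v (g y)) = μ * (μ * B (g v) y) := by rw [h2]
    linear_combination e1 + e2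
  rcases mul_eq_zero.mp h3 with h | h
  · have h4 : (μ - ν) * (μ + ν) = 0 := by linear_combination -h
    rcases mul_eq_zero.mp h4 with h5 | h5
    · left
      exact sub_eq_zero.mp h5
    · right
      exact eq_neg_of_add_eq_zero_left h5
  · exact absurd h hy

private theorem C1_alt (h2 : (2 : F) ≠ 0) (A : Matrix (Fin 3) (Fin 3) F) (hA : ∀ i j, A j i = - A i j) :
    ∃ c : Fin 3 → F, c ≠ 0 ∧ Matrix.vecMul c A = 0 := by
  rw [Matrix.exists_vecMul_eq_zero_iff]
  have hT : A.transpose = -A := by
    ext i j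
    rw [Matrix.transpose_apply, Matrix.neg_apply, hA]
  have h1 : A.det = -A.det := by
    conv_lhs => rw [← Matrix.det_transpose, hT, Matrix.det_neg]
    rw [Fintype.card_fin]
    ring
  have h3 : 2 * A.det = 0 := by linear_combination h1
  exact (mul_eq_zero.mp h3).resolve_left h2

theorem skew (hS : Sys B M) {ν : F} {g : V ≃ₗ[F] V} (hg : Simi B M (-ν) g) (hν : ∀ v, g (g v) = ν • v) :
    fx M g = M := by
  classical
  have hν0 := C1_ne hS hν
  unfold fx
  rw [Finset.filter_eq_self]
  intro π hπ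
  by_contra hne
  have hsk : ∀ x y, B (g x) y = - B x (g y) := by
    intro x y
    have h := C1_rel hg hν x y
    have h' : ν * (B (g x) y + B x (g y)) = 0 := by linear_combination h
    exact eq_neg_of_add_eq_zero_left ((mul_eq_zero.mp h').resolve_left hν0)
  have hfin : FiniteDimensional F π := by
    have hd := hS.dim π hπ
    exact FiniteDimensional.of_finrank_pos (by rw [hd]; norm_num)
  let e := Module.finBasisOfFinrankEq F π (hS.dim π hπ)
  obtain ⟨c, hc0, hc⟩ := C1_alt hS.two (Matrix.of fun i j : Fin 3 => B (e i : V) (g (e j : V)))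
    (fun i j => by
      rw [Matrix.of_apply, Matrix.of_apply, hS.symm, hsk])
  have hx : ∑ i, c i • e i ≠ 0 := by
    intro h
    have hli := Fintype.linearIndependent_iff.mp e.linearIndependent c h
    exact hc0 (funext hli)
  have hz : ∀ j, B ((∑ i, c i • e i : π) : V) (g (e j : V)) = 0 := by
    intro j
    have h := congrFun hc j
    rw [Matrix.vecMul, Pi.zero_apply] at h
    rw [AddSubmonoidClass.coe_finsetSum, map_sum, LinearMap.sum_apply, ← h]
    unfold dotProduct
    refine Finset.sum_congr rfl fun i _ => ?_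
    change B ((c i • e i : π) : V) (g (e j : V)) = c i * B (e i : V) (g (e j : V))
    rw [Submodule.coe_smul, map_smul, LinearMap.smul_apply, smul_eq_mul]
  generalize (∑ i, c i • e i : π) = x at hx hz
  have hall : ∀ w ∈ π.map (g : V →ₗ[F] V), B (x : V) w = 0 := by
    rintro _ ⟨y, hy, rfl⟩
    have hy' : (y : V) = ((∑ j, e.repr ⟨y, hy⟩ j • e j : π) : V) := by
      rw [e.sum_repr]
    change B _ (g y) = 0
    rw [hy', AddSubmonoidClass.coe_finsetSum, map_sum, map_sum]
    refine Finset.sum_eq_zero fun j _ => ?_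
    rw [Submodule.coe_smul, map_smul, map_smul, hz j, smul_zero]
  have h0 := hS.opp _ (hg.pres π hπ) π hπ hne _ x.2 hall
  exact hx (Subtype.ext h0)

theorem sq_of_fixed (hS : Sys B M) {μ ν : F} {g : V ≃ₗ[F] V} (hg : Simi B M μ g) (hν : ∀ v, g (g v) = ν • v)
    {a : Submodule F V} (ha : a ∈ fx M g) : ∃ κ : F, κ ≠ 0 ∧ κ ^ 2 = ν := by
  classical
  have hν0 := C1_ne hS hν
  unfold fx at ha
  obtain ⟨haM, hfix⟩ := Finset.mem_filter.mp ha
  have hst : ∀ x ∈ a, (g : V →ₗ[F] V) x ∈ a := by
    intro x hx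
    have h := Submodule.mem_map_of_mem (f := (g : V →ₗ[F] V)) hx
    rwa [hfix] at h
  have hsq : ((g : V →ₗ[F] V).restrict hst) * ((g : V →ₗ[F] V).restrict hst) = ν • LinearMap.id := by
    ext x
    exact hν x
  have hdet := congrArg LinearMap.det hsq
  rw [map_mul, LinearMap.det_smul, hS.dim a haM, LinearMap.det_id, mul_one] at hdet
  set δ := LinearMap.det ((g : V →ₗ[F] V).restrict hst) with hδ
  have hsq2 : (δ / ν) ^ 2 = ν := by
    rw [div_pow, div_eq_iff (pow_ne_zero 2 hν0)]
    linear_combination hdet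
  refine ⟨δ / ν, ?_, hsq2⟩
  intro h0
  rw [h0, zero_pow two_ne_zero] at hsq2
  exact hν0 hsq2.symm

theorem even_fx (hS : Sys B M) {μ ν : F} {g : V ≃ₗ[F] V} (hg : Simi B M μ g) (hν : ∀ v, g (g v) = ν • v) :
    Even (fx M g).card := by
  classical
  have hν0 := C1_ne hS hν
  have hgg : ∀ π : Submodule F V, (π.map (g : V →ₗ[F] V)).map (g : V →ₗ[F] V) = π := by
    intro π
    rw [← Submodule.map_comp]
    have e : (g : V →ₗ[F] V) ∘ₗ (g : V →ₗ[F] V) = ν • LinearMap.id := by
      ext x
      exact hν x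
    rw [e, Submodule.map_smul _ _ _ hν0, Submodule.map_id]
  have hodd : Fintype.card F % 2 = 1 := by
    apply FiniteField.odd_card_of_char_ne_two
    intro h
    apply hS.two
    have h1 := ringChar.Nat.cast_ringChar (R := F)
    rw [h] at h1
    exact_mod_cast h1
  have hMeven : ((M.card : ℕ) : ZMod 2) = 0 := by
    rw [hS.card, ZMod.natCast_eq_zero_iff]
    have h4 : Odd (Fintype.card F ^ 4) := (Nat.odd_iff.mpr hodd).pow
    exact (h4.add_odd odd_one).two_dvd
  have hrest : (((M.filter fun π => ¬ π.map (g : V →ₗ[F] V) = π).card : ℕ) : ZMod 2) = 0 := by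
    have h := Finset.sum_involution (s := M.filter fun π => ¬ π.map (g : V →ₗ[F] V) = π)
      (f := fun _ => (1 : ZMod 2)) (fun π _ => π.map (g : V →ₗ[F] V)) (fun _ _ => by decide)
      (fun π hπ _ => (Finset.mem_filter.mp hπ).2)
      (fun π hπ => by
        obtain ⟨h1, h2⟩ := Finset.mem_filter.mp hπ
        refine Finset.mem_filter.mpr ⟨hg.pres π h1, ?_⟩
        rw [hgg]
        exact fun h => h2 h.symm)
      (fun π _ => hgg π)
    rw [Finset.sum_const, nsmul_eq_mul, mul_one] at h
    exact h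
  have hsplit := Finset.card_filter_add_card_filter_not (s := M) (fun π => π.map (g : V →ₗ[F] V) = π)
  unfold fx
  rw [← ZMod.natCast_eq_zero_iff_even]
  have h := congrArg (fun k : ℕ => (k : ZMod 2)) hsplit
  simp only [Nat.cast_add] at h
  rw [hrest, hMeven, add_zero] at h
  exact h

end Pool.Agent.LibNT29
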