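import Pool.Agent.LibNT29.A3
import Pool.Agent.LibNT29.C1
import Pool.Agent.LibBT65.A5

set_option autoImplicit false

/-!
[NT29 C2] MEDIUM/STRONG. `g` an isometry with `g g = 1` fixing exactly two members `U`, `U'` is impossible.
`inv_dims`: `V = eg g 1 ⊕ eg g (-1)`, also on `U` and `U'`. Let `p = dim (eg g 1 ⊓ U) = dim (eg g 1 ⊓ U')` (`pair_dim`), `dim (eg g (-1) ⊓ U) = 3 - p`, same for `U'`. If `p ≥ 1`: `count` gives
`dim (eg g 1) = 2 p` (`(2 - 1) q^(2p) = q^n`); if `3 - p ≥ 1`: `dim (eg g (-1)) = 2 (3 - p)`. If both: `6 = 10`, impossible. So `p = 3` or `p = 0`.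
`inv_three`: `p = 3` is impossible (then `eg g 1 = U ⊔ U'`, of dimension 6): `W = eg g (-1) = pp B (eg g 1)` (orthogonal: `B x y = B (g x) (g y) = - B x y`; dimension 4) `= pp B U ⊓ pp B U'`. Take `u ≠ 0` in `W` with
`B u u = 0` (`isotropic`, LibBT65/A5.lean, dimension `4 ≥ 3`). By `tt_two` (`u` in `pp B U`, `pp B U'`) `tt B M u = q + 1 ≥ 4`, so there is a member `π ≠ U, U'` with `u ∈ pp B π`; it is not fixed, `g π ≠ π`; `g u = - u`, so `u ∈ pp B (g π)`.
`D = {s - g s : s ∈ π} ≤ W`; `B (s - g s) (s' - g s') = - 2 B s (g s')` (`B s s' = 0 = B (g s) (g s')`, `B (g s) s' = B s (g s')`), nondegenerate (`opp` for `π`, `g π`), so `D` has dimension 3, and `u` is orthogonal to `D`.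
If `B u u = 0` and `u ⊥ D`: `D` nondegenerate, `u ∉ D`, so `W = D ⊕ F u`, `u` is orthogonal to `W`; and to `U`, `U'`, so to `V = U ⊕ U' ⊕ W`: `u = 0`, contradiction.
`p = 0`: apply `inv_three` to `-g` (`LinearEquiv.neg` composed with `g`; `fx M (-g) = fx M g`, `eg (-g) 1 = eg g (-1)`).
-/

namespace Pool.Agent.LibNT29

open Module Pool.Agent.LibBT65

variable {F V : Type*} [Field F] [Fintype F] [AddCommGroup V] [Module F V]
  {B : V →ₗ[F] V →ₗ[F] F} {M : Finset (Submodule F V)}

omit [Fintype F] in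
/-- the eigenspaces of an involution split every invariant subspace -/
private theorem C2_split [FiniteDimensional F V] (two : (2 : F) ≠ 0) {g : V ≃ₗ[F] V}
    (hg : ∀ v, g (g v) = v) (W : Submodule F V) (hW : ∀ v ∈ W, g v ∈ W) :
    finrank F (eg g 1 ⊓ W : Submodule F V) + finrank F (eg g (-1) ⊓ W : Submodule F V) = finrank F W := by
  have hinf : (eg g 1 ⊓ W) ⊓ (eg g (-1) ⊓ W) = ⊥ := by
    rw [Submodule.eq_bot_iff]
    rintro v ⟨⟨h1, _⟩, ⟨h2, _⟩⟩
    have e1 := mem_eg.mp h1
    have e2 := mem_eg.mp h2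
    rw [e1, one_smul, neg_smul, one_smul] at e2
    have e3 : (2 : F) • v = 0 := by
      rw [two_smul]
      nth_rewrite 1 [e2]
      exact neg_add_cancel v
    exact (smul_eq_zero.mp e3).resolve_left two
  have hsup : (eg g 1 ⊓ W) ⊔ (eg g (-1) ⊓ W) = W := by
    apply le_antisymm
    · exact sup_le inf_le_right inf_le_right
    · intro v hv
      have hd : v = (2 : F)⁻¹ • (v + g v) + (2 : F)⁻¹ • (v - g v) := by
        rw [← smul_add]
        have : v + g v + (v - g v) = (2 : F) • v := by rw [two_smul]; abel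
        rw [this, smul_smul, inv_mul_cancel₀ two, one_smul]
      rw [hd]
      refine Submodule.add_mem_sup ⟨?_, ?_⟩ ⟨?_, ?_⟩
      · rw [SetLike.mem_coe, mem_eg, map_smul, map_add, hg, one_smul, add_comm]
      · exact W.smul_mem _ (W.add_mem hv (hW v hv))
      · rw [SetLike.mem_coe, mem_eg, map_smul, map_sub, hg, neg_smul, one_smul, ← smul_neg, neg_sub]
      · exact W.smul_mem _ (W.sub_mem hv (hW v hv))
  have h := Submodule.finrank_sup_add_finrank_inf_eq (eg g 1 ⊓ W) (eg g (-1) ⊓ W)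
  rw [hinf, hsup, finrank_bot] at h
  omega

private theorem C2_top (hS : Sys B M) {g : V ≃ₗ[F] V} (h1 : ∀ v, g (g v) = v) :
    finrank F (eg g 1) + finrank F (eg g (-1)) = 10 := by
  have hf := fin hS
  have h := C2_split hS.two h1 ⊤ (fun v _ => Submodule.mem_top)
  rw [inf_top_eq, inf_top_eq, finrank_top, hS.dimV] at h
  exact h

private theorem C2_count (hS : Sys B M) {g : V ≃ₗ[F] V} (hg : Simi B M 1 g) {ε : F} (hε : ε ^ 2 = 1) {p : ℕ}
    (hp : 1 ≤ p) (hall : ∀ a ∈ fx M g, finrank F (eg g ε ⊓ a : Submodule F V) = p)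
    (h2 : (fx M g).card = 2) : finrank F (eg g ε) = 2 * p := by
  have h := count hS hg hε hp hall (by omega)
  rw [h2, Nat.add_sub_cancel 1 1, one_mul] at h
  exact (Nat.pow_right_injective (Fintype.one_lt_card) h).symm

theorem inv_dims (hS : Sys B M) {g : V ≃ₗ[F] V} (hg : Simi B M 1 g) (h1 : ∀ v, g (g v) = v)
    (h2 : (fx M g).card = 2) :
    (∀ a ∈ fx M g, finrank F (eg g 1 ⊓ a : Submodule F V) = 3) ∨
      ∀ a ∈ fx M g, finrank F (eg g (-1) ⊓ a : Submodule F V) = 3 := by
  have hf := fin hS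
  obtain ⟨U, U', hne, hUU⟩ := Finset.card_eq_two.mp h2
  have hU : U ∈ fx M g := by rw [hUU]; simp
  have hall : ∀ ε : F, ε ^ 2 = 1 → ∀ a ∈ fx M g, finrank F (eg g ε ⊓ a : Submodule F V) =
      finrank F (eg g ε ⊓ U : Submodule F V) := by
    intro ε hε b hb
    by_cases hab : U = b
    · rw [hab]
    · exact (pair_dim hS hg hε hU hb hab).symm
  have hs := C2_split hS.two h1 U (fx_apply hU)
  rw [hS.dim U (mem_fx.mp hU).1] at hs
  have a1 := hall 1 (by norm_num)
  have a2 := hall (-1) (by norm_num)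
  have ht := C2_top hS h1
  generalize finrank F (eg g 1 ⊓ U : Submodule F V) = p at a1 hs
  generalize finrank F (eg g (-1) ⊓ U : Submodule F V) = m at a2 hs
  rcases Nat.eq_zero_or_pos p with hp | hp
  · right
    intro a ha
    rw [a2 a ha]
    omega
  · rcases Nat.eq_zero_or_pos m with hm | hm
    · left
      intro a ha
      rw [a1 a ha]
      omega
    · exfalso
      have c1 := C2_count hS hg (by norm_num) hp a1 h2
      have c2 := C2_count hS hg (by norm_num) hm a2 h2
      omega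

theorem inv_three (hS : Sys B M) (hH : Hyp B) {g : V ≃ₗ[F] V} (hg : Simi B M 1 g) (h1 : ∀ v, g (g v) = v)
    (h2 : (fx M g).card = 2) (h3 : ∀ a ∈ fx M g, finrank F (eg g 1 ⊓ a : Submodule F V) = 3) : False := by
  have hf := fin hS
  obtain ⟨U, U', hne, hUU⟩ := Finset.card_eq_two.mp h2
  have hU : U ∈ fx M g := by rw [hUU]; simp
  have hU' : U' ∈ fx M g := by rw [hUU]; simp
  have hUM := (mem_fx.mp hU).1
  have hUM' := (mem_fx.mp hU').1
  have hle : ∀ a ∈ fx M g, a ≤ eg g 1 := by
    intro a ha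
    have e : eg g 1 ⊓ a = a := by
      apply Submodule.eq_of_le_of_finrank_eq inf_le_right
      rw [h3 a ha, hS.dim a (mem_fx.mp ha).1]
    rw [← e]
    exact inf_le_left
  have h6 := C2_count hS hg (by norm_num) (by norm_num) h3 h2
  have ht := C2_top hS h1
  have h4 : finrank F (eg g (-1)) = 4 := by omega
  have horth : ∀ x ∈ eg g (-1), ∀ y ∈ eg g 1, B x y = 0 := by
    intro x hx y hy
    have e := hg.sim x y
    rw [mem_eg.mp hx, mem_eg.mp hy, neg_smul, one_smul, one_smul, map_neg, LinearMap.neg_apply,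
      one_mul] at e
    have e2 : (2 : F) * B x y = 0 := by linear_combination -e
    exact (mul_eq_zero.mp e2).resolve_left hS.two
  obtain ⟨⟨u, huW⟩, hu0', huu'⟩ := isotropic hS.two (B.domRestrict₁₂ (eg g (-1)) (eg g (-1)))
    (fun x y => hS.symm x y) (by rw [h4]; norm_num)
  have hu0 : u ≠ 0 := fun h => hu0' (Subtype.ext h)
  have huu : B u u = 0 := huu'
  have hpU : u ∈ pp B U := fun y hy => horth u huW y (hle U hU hy)
  have hpU' : u ∈ pp B U' := fun y hy => horth u huW y (hle U' hU' hy)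
  obtain ⟨_, htt⟩ := tt_two hS hUM hUM' hne hu0 hpU hpU'
  have hq : 1 < Fintype.card F := Fintype.one_lt_card
  obtain ⟨π, hπM, hπu, hπfx⟩ : ∃ π ∈ M, u ∈ pp B π ∧ π ∉ fx M g := by
    classical
    unfold tt at htt
    have hlt : (fx M g).card < (M.filter fun π => u ∈ pp B π).card := by
      have e : (M.filter fun π => u ∈ pp B π).card = Fintype.card F + 1 := by
        rw [← htt]
      rw [h2, e]
      omega
    obtain ⟨π, hπ1, hπ2⟩ := Finset.exists_mem_notMem_of_card_lt_card hlt
    rw [Finset.mem_filter] at hπ1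
    exact ⟨π, hπ1.1, hπ1.2, hπ2⟩
  have hgπ : π.map (g : V →ₗ[F] V) ∈ M := hg.pres π hπM
  have hgne : π.map (g : V →ₗ[F] V) ≠ π := fun h => hπfx (mem_fx.mpr ⟨hπM, h⟩)
  have hmem : ∀ s ∈ π, g s ∈ π.map (g : V →ₗ[F] V) := fun s hs => ⟨s, hs, rfl⟩
  have hgs : ∀ s ∈ π, ∀ s' ∈ π, B (s - g s) (s' - g s') = -2 * B s (g s') := by
    intro s hs s' hs'
    have e1 : B s s' = 0 := hS.sing π hπM s hs s' hs'
    have e2 : B (g s) (g s') = 0 := by rw [hg.sim, e1, mul_zero]
    have e3 : B (g s) s' = B s (g s') := by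
      have := hg.sim s (g s')
      rw [h1 s', one_mul] at this
      exact this
    have e4 : B (s - g s) = B s - B (g s) := map_sub B s (g s)
    rw [e4, LinearMap.sub_apply, map_sub, map_sub, e1, e2, e3]
    ring
  let φ : π →ₗ[F] V := (LinearMap.id - (g : V →ₗ[F] V)) ∘ₗ π.subtype
  have hφ : ∀ s : π, φ s = (s : V) - g s := fun s => rfl
  have hφi : Function.Injective φ := by
    rw [← LinearMap.ker_eq_bot, LinearMap.ker_eq_bot']
    intro s hs
    rw [hφ, sub_eq_zero] at hs
    apply Subtype.ext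
    refine disj hS hπM hgπ hgne.symm s.2 ?_
    rw [hs]
    exact hmem s s.2
  have hD3 : finrank F (LinearMap.range φ) = 3 := by
    rw [LinearMap.finrank_range_of_inj hφi]
    exact hS.dim π hπM
  have hDW : LinearMap.range φ ≤ eg g (-1) := by
    rintro _ ⟨s, rfl⟩
    rw [mem_eg, hφ, map_sub, h1, neg_smul, one_smul, neg_sub]
  have hgu : g u = -u := by
    have := mem_eg.mp huW
    rwa [neg_smul, one_smul] at this
  have huD : ∀ s ∈ π, B u (s - g s) = 0 := by
    intro s hs
    have e1 : B u s = 0 := hπu s hs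
    have e2 : B u (g s) = 0 := by
      have := hg.sim u (g s)
      rw [h1, hgu, map_neg, LinearMap.neg_apply, e1, one_mul, neg_zero] at this
      exact this.symm
    rw [map_sub, e1, e2, sub_zero]
  have huD' : u ∉ LinearMap.range φ := by
    rintro ⟨s, hs⟩
    rw [hφ] at hs
    have hs0 : (s : V) = 0 := by
      refine hS.opp _ hgπ π hπM hgne s s.2 ?_
      rintro _ ⟨s', hs', rfl⟩
      have e1 := huD s' hs'
      rw [← hs, hgs s s.2 s' hs'] at e1
      have e2 : (2 : F) * B s (g s') = 0 := by linear_combination -e1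
      exact (mul_eq_zero.mp e2).resolve_left hS.two
    apply hu0
    rw [← hs, hs0, map_zero, sub_zero]
  have hinf : LinearMap.range φ ⊓ Submodule.span F {u} = ⊥ := by
    rw [Submodule.eq_bot_iff]
    rintro v ⟨hv1, hv2⟩
    obtain ⟨c, rfl⟩ := Submodule.mem_span_singleton.mp hv2
    by_cases hc : c = 0
    · rw [hc, zero_smul]
    · exfalso
      apply huD'
      have := (LinearMap.range φ).smul_mem c⁻¹ hv1
      rwa [smul_smul, inv_mul_cancel₀ hc, one_smul] at this
  have hsup : LinearMap.range φ ⊔ Submodule.span F {u} = eg g (-1) := by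
    apply Submodule.eq_of_le_of_finrank_eq
    · refine sup_le hDW ?_
      rw [Submodule.span_singleton_le_iff_mem]
      exact huW
    · have h := Submodule.finrank_sup_add_finrank_inf_eq (LinearMap.range φ) (Submodule.span F {u})
      rw [hinf, finrank_bot, hD3, finrank_span_singleton hu0] at h
      omega
  have huW0 : ∀ x ∈ eg g (-1), B u x = 0 := by
    intro x hx
    rw [← hsup] at hx
    obtain ⟨d, ⟨s, rfl⟩, e, he, rfl⟩ := Submodule.mem_sup.mp hx
    obtain ⟨c, rfl⟩ := Submodule.mem_span_singleton.mp he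
    rw [map_add, hφ, huD s s.2, map_smul, huu, smul_zero, add_zero]
  apply hu0
  apply hS.nondeg u
  intro v
  have hd : v = (2 : F)⁻¹ • (v + g v) + (2 : F)⁻¹ • (v - g v) := by
    rw [← smul_add]
    have : v + g v + (v - g v) = (2 : F) • v := by rw [two_smul]; abel
    rw [this, smul_smul, inv_mul_cancel₀ hS.two, one_smul]
  rw [hd, map_add, map_smul, map_smul]
  have e1 : B u (v + g v) = 0 := by
    apply horth u huW
    rw [mem_eg, map_add, h1, one_smul, add_comm]
  have e2 : B u (v - g v) = 0 := by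
    apply huW0
    rw [mem_eg, map_sub, h1, neg_smul, one_smul, neg_sub]
  rw [e1, e2, smul_zero, add_zero]

theorem inv_two (hS : Sys B M) (hH : Hyp B) {g : V ≃ₗ[F] V} (hg : Simi B M 1 g) (h1 : ∀ v, g (g v) = v)
    (h2 : (fx M g).card = 2) : False := by
  rcases inv_dims hS hg h1 h2 with h | h
  · exact inv_three hS hH hg h1 h2 h
  · let g' : V ≃ₗ[F] V := g.trans (LinearEquiv.neg F)
    have hap : ∀ v, g' v = -g v := fun v => rfl
    have hmap : ∀ π : Submodule F V, π.map (g' : V →ₗ[F] V) = π.map (g : V →ₗ[F] V) := by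
      intro π
      ext w
      constructor
      · rintro ⟨v, hv, rfl⟩
        refine ⟨-v, π.neg_mem hv, ?_⟩
        change g (-v) = -g v
        rw [map_neg]
      · rintro ⟨v, hv, rfl⟩
        refine ⟨-v, π.neg_mem hv, ?_⟩
        change -g (-v) = g v
        rw [map_neg, neg_neg]
    have hg' : Simi B M 1 g' := by
      constructor
      · intro v w
        rw [hap, hap, map_neg, map_neg, LinearMap.neg_apply, neg_neg, hg.sim]
      · intro π hπ
        rw [hmap]
        exact hg.pres π hπ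
    have hfx : fx M g' = fx M g := by
      ext π
      rw [mem_fx, mem_fx, hmap]
    have heg : eg g' 1 = eg g (-1) := by
      ext v
      rw [mem_eg, mem_eg, hap, one_smul, neg_smul, one_smul]
      exact neg_eq_iff_eq_neg
    refine inv_three hS hH hg' (fun v => by rw [hap, hap, map_neg, neg_neg, h1]) (by rw [hfx]; exact h2) ?_
    intro a ha
    rw [heg]
    exact h a (by rw [← hfx]; exact ha)

end Pool.Agent.LibNT29
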