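import Pool.Agent.LibNT29.C2

set_option autoImplicit false

/-!
[NT29 C3] SHORT/MEDIUM. Involutions modulo scalars fix no member. If `g` is not scalar then at most two members are fixed (`three_fixed`), an even number (`even_fx`).
Suppose one is fixed, so exactly two. `mult`: `μ = ν` or `μ = -ν`; `μ = -ν`: `skew` gives that all `q^4 + 1 ≥ 3` members are fixed, contradiction. `μ = ν = κ²` (`sq_of_fixed`): `g' = κ⁻¹ g` is an isometry,
`g' g' = 1`, with the same fixed members: `inv_two`.
-/

namespace Pool.Agent.LibNT29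

open Module Pool.Agent.LibBT65

variable {F V : Type*} [Field F] [Fintype F] [AddCommGroup V] [Module F V]
  {B : V →ₗ[F] V →ₗ[F] F} {M : Finset (Submodule F V)}

omit [Fintype F] in
private theorem C3_map (c : F) (hc : c ≠ 0) (g : V ≃ₗ[F] V) (π : Submodule F V) :
    π.map ((g.trans (LinearEquiv.smulOfNeZero F V c hc) : V ≃ₗ[F] V) : V →ₗ[F] V) =
      π.map (g : V →ₗ[F] V) := by
  ext w
  constructor
  · rintro ⟨v, hv, rfl⟩
    refine ⟨c • v, π.smul_mem c hv, ?_⟩
    change g (c • v) = c • g v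
    rw [map_smul]
  · rintro ⟨v, hv, rfl⟩
    refine ⟨c⁻¹ • v, π.smul_mem _ hv, ?_⟩
    change c • g (c⁻¹ • v) = g v
    rw [map_smul, smul_smul, mul_inv_cancel₀ hc, one_smul]

theorem inv_free (hS : Sys B M) (hH : Hyp B) {μ ν : F} {g : V ≃ₗ[F] V} (hg : Simi B M μ g)
    (hν : ∀ v, g (g v) = ν • v) (hns : ¬ Scal g) : fx M g = ∅ := by
  by_contra hne
  have hpos : 0 < (fx M g).card := Finset.card_pos.mpr (Finset.nonempty_iff_ne_empty.mpr hne)
  have hlt : (fx M g).card < 3 := by
    by_contra h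
    exact hns (three_fixed hS hg (by omega))
  obtain ⟨m, hm⟩ := even_fx hS hg hν
  have h2 : (fx M g).card = 2 := by omega
  rcases mult hS hg hν with rfl | rfl
  · obtain ⟨a, ha⟩ := Finset.card_pos.mp hpos
    obtain ⟨κ, hκ, hκ2⟩ := sq_of_fixed hS hg hν ha
    have hc : κ⁻¹ ≠ 0 := inv_ne_zero hκ
    let g' : V ≃ₗ[F] V := g.trans (LinearEquiv.smulOfNeZero F V κ⁻¹ hc)
    have hap : ∀ v, g' v = κ⁻¹ • g v := fun v => rfl
    have hmap : ∀ π : Submodule F V, π.map (g' : V →ₗ[F] V) = π.map (g : V →ₗ[F] V) :=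
      fun π => C3_map κ⁻¹ hc g π
    have hg' : Simi B M 1 g' := by
      constructor
      · intro v w
        rw [hap, hap, map_smul, map_smul, LinearMap.smul_apply, hg.sim, smul_eq_mul, smul_eq_mul, ← hκ2]
        field_simp
      · intro π hπ
        rw [hmap]
        exact hg.pres π hπ
    have hfx : fx M g' = fx M g := by
      ext π
      rw [mem_fx, mem_fx, hmap]
    refine inv_two hS hH hg' ?_ (by rw [hfx]; exact h2)
    intro v
    rw [hap, hap, map_smul, hν, smul_smul, smul_smul, ← hκ2]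
    have : κ⁻¹ * κ⁻¹ * κ ^ 2 = 1 := by field_simp
    rw [this, one_smul]
  · have h4 := skew hS hg hν
    rw [h4, hS.card] at h2
    have hq : 1 < Fintype.card F := Fintype.one_lt_card
    have : 1 < Fintype.card F ^ 4 := Nat.one_lt_pow (by norm_num) hq
    omega

end Pool.Agent.LibNT29
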