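import Pool.Agent.LibNT29.DDefs

set_option autoImplicit false

/-!
[NT29 D1] MEDIUM. `|X| = 2` mod 4. `not4`: a Sylow 2-subgroup (or a subgroup of order 4 if `4 ∣ |Γ|`: `Sylow.exists_subgroup_card_pow_prime`) `T` acts semiregularly on `X`: if `x` is fixed by `γ ≠ 1` in `T` then a power of `γ` is an
involution fixing `x`, contradiction to `inv`. So `|T| ∣ |X|` (all stabilisers trivial: every orbit has `|T|` elements; `MulAction.card_eq_sum_card_group_div_card_stabilizer`
or `IsPGroup.card_modEq_card_fixedPoints` repeatedly; e.g. for `|T| = 4` the number of points is divisible by 4).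
`odd_part`: `|Γ| = 2^ε m`, `m` odd, `ε ≤ 1`. If `ε = 0` take `⊤`. If `ε = 1`: a Sylow 2-subgroup `P` has order 2, so `N(P) ≤ C(P)` (a group of order 2 has only the trivial automorphism) and
`MonoidHom.ker_transferSylow_isComplement'` (Mathlib.GroupTheory.Transfer) gives a normal complement, of order `m`, index 2. (There is also
`IsCyclic.normalizer_le_centralizer` / `IsCyclic.isComplement'` in the same file for the smallest prime divisor: `P` cyclic.)
-/

namespace Pool.Agent.LibNT29

variable {Γ X : Type*} [Group Γ] [MulAction Γ X] [Finite Γ] [Finite X]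

private theorem D1_dvd {Γ T : Type*} [Group Γ] [Finite Γ] [Finite T] [MulAction Γ T]
    (h : ∀ γ : Γ, γ ≠ 1 → ∀ x : T, γ • x ≠ x) : Nat.card Γ ∣ Nat.card T := by
  classical
  have hst : ∀ x : T, MulAction.stabilizer Γ x = ⊥ := by
    intro x
    rw [Subgroup.eq_bot_iff_forall]
    intro γ hγ
    by_contra hne
    exact h γ hne x hγ
  have : Fintype (Quotient (MulAction.orbitRel Γ T)) := Fintype.ofFinite _
  rw [Nat.card_congr (MulAction.selfEquivSigmaOrbitsQuotientStabilizer Γ T), Nat.card_sigma]
  refine Finset.dvd_sum fun ω _ => ?_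
  change Nat.card Γ ∣ (MulAction.stabilizer Γ ω.out).index
  rw [hst, Subgroup.index_bot]

theorem not4 (h : Few Γ X) (hX : Nat.card X % 4 = 2) : ¬ 4 ∣ Nat.card Γ := by
  intro h4
  have := Fact.mk Nat.prime_two
  obtain ⟨T, hT⟩ := Sylow.exists_subgroup_card_pow_prime 2 (n := 2) (G := Γ) h4
  have h1 := D1_dvd (Γ := T) (T := X) (by
    intro t ht x hx
    have hx' : (t : Γ) • x = x := hx
    have ht' : (t : Γ) ≠ 1 := fun h => ht (Subtype.ext h)
    have h4' : (t : Γ) ^ 4 = 1 := by
      have h5 : t ^ Nat.card T = 1 := pow_card_eq_one'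
      rw [hT] at h5
      exact_mod_cast congrArg Subtype.val h5
    by_cases h2 : (t : Γ) * t = 1
    · exact h.inv _ ht' h2 x hx'
    · refine h.inv ((t : Γ) * t) h2 ?_ x (by rw [mul_smul, hx', hx'])
      rw [← h4']
      simp only [pow_succ, pow_zero, one_mul, mul_assoc])
  rw [hT] at h1
  omega

theorem odd_part (h4 : ¬ 4 ∣ Nat.card Γ) : ∃ N : Subgroup Γ, N.Normal ∧ Odd (Nat.card N) ∧ N.index ≤ 2 := by
  by_cases h2 : 2 ∣ Nat.card Γ
  · have := Fact.mk Nat.prime_two
    let P : Sylow 2 Γ := default
    obtain ⟨k, hk⟩ := P.2.exists_card_eq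
    have hk1 : k ≤ 1 := by
      by_contra hk1
      apply h4
      refine dvd_trans ?_ (Subgroup.card_subgroup_dvd_card P.1)
      rw [hk]
      exact pow_dvd_pow 2 (by omega : 2 ≤ k)
    have hk0 : k ≠ 0 := by
      rintro rfl
      apply P.not_dvd_index
      have h5 := Subgroup.card_mul_index P.1
      rw [hk, pow_zero, one_mul] at h5
      rw [h5]
      exact h2
    obtain rfl : k = 1 := by omega
    rw [pow_one] at hk
    have hcyc : IsCyclic P := isCyclic_of_prime_card hk
    have hmin : (Nat.card Γ).minFac = 2 := (Nat.minFac_eq_two_iff _).2 h2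
    have hN := IsCyclic.normalizer_le_centralizer hmin hcyc
    refine ⟨(MonoidHom.transferSylow P hN).ker, inferInstance, ?_, ?_⟩
    · rw [← Nat.not_even_iff_odd, even_iff_two_dvd]
      exact MonoidHom.not_dvd_card_ker_transferSylow P hN
    · rw [(MonoidHom.ker_transferSylow_isComplement' P hN).symm.index_eq_card]
      exact hk.le
  · refine ⟨⊤, inferInstance, ?_, ?_⟩
    · rw [Subgroup.card_top, ← Nat.not_even_iff_odd, even_iff_two_dvd]
      exact h2
    · rw [Subgroup.index_top]
      norm_num

end Pool.Agent.LibNT29
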