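import Pool.Agent.LibNT29.DDefs

set_option autoImplicit false

/-!
[NT29 D2] MEDIUM. `free_r`: the number of fixed points of `ρ` is `= |X| = 0` mod `r` (`IsPGroup.card_modEq_card_fixedPoints` for `Subgroup.zpowers ρ`) and `≤ 2 < r`, so 0.
`fix_s`: `S ≠ ⊥` an `s`-group, `s` prime, `s ∤ |X|`: the number of points fixed by `S` is `= |X| ≠ 0` mod `s`, so there is one, and at most two (an element `γ ≠ 1` of `S`).
`norm_s`: an element `ρ` as in `free_r` cannot normalise `S`: it would permute the one or two fixed points of `S`, so (odd order) fix one of them: `ρ²` fixes both, and `ρ` is a power of `ρ²`.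
-/

namespace Pool.Agent.LibNT29

variable {Γ X : Type*} [Group Γ] [MulAction Γ X] [Finite Γ] [Finite X]

private theorem D2_sq {Γ : Type*} [Group Γ] {ρ : Γ} {r : ℕ} (hr : r.Prime) (hr2 : r ≠ 2) (h1 : ρ ≠ 1)
    (hp : ρ ^ r = 1) : ρ * ρ ≠ 1 := by
  intro h
  have := Fact.mk hr
  have h2 := orderOf_eq_prime hp h1
  have h3 : ρ ^ 2 = 1 := by rw [pow_two, h]
  have h4 := orderOf_dvd_of_pow_eq_one h3
  rw [h2] at h4
  exact hr2 ((Nat.prime_dvd_prime_iff_eq hr Nat.prime_two).1 h4)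

theorem free_r (h : Few Γ X) {ρ : Γ} {r : ℕ} (hr : r.Prime) (hr2 : r ≠ 2) (hd : r ∣ Nat.card X) (h1 : ρ ≠ 1)
    (hp : ρ ^ r = 1) (x : X) : ρ • x ≠ x := by
  intro hx
  have := Fact.mk hr
  have hpg : IsPGroup r (Subgroup.zpowers ρ) := by
    refine IsPGroup.of_card (n := 1) ?_
    rw [Nat.card_zpowers, orderOf_eq_prime hp h1, pow_one]
  have h2 := hpg.card_modEq_card_fixedPoints X
  have h3 : r ∣ Nat.card (MulAction.fixedPoints (Subgroup.zpowers ρ) X) :=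
    (Nat.modEq_zero_iff_dvd.1 (h2.symm.trans (Nat.modEq_zero_iff_dvd.2 hd)))
  have hxm : x ∈ MulAction.fixedPoints (Subgroup.zpowers ρ) X := by
    rintro ⟨g, hg⟩
    obtain ⟨k, rfl⟩ := Subgroup.mem_zpowers_iff.1 hg
    change ρ ^ k • x = x
    exact (MulAction.stabilizer Γ x).zpow_mem (MulAction.mem_stabilizer_iff.2 hx) k
  have hpos : 0 < Nat.card (MulAction.fixedPoints (Subgroup.zpowers ρ) X) := by
    have : Nonempty (MulAction.fixedPoints (Subgroup.zpowers ρ) X) := ⟨⟨x, hxm⟩⟩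
    exact Nat.card_pos
  have h4 := Nat.le_of_dvd hpos h3
  have h5 : Nat.card (MulAction.fixedPoints (Subgroup.zpowers ρ) X) ≤ Nat.card (MulAction.fixedBy X ρ) := by
    refine Nat.card_mono (Set.toFinite _) ?_
    intro y hy
    exact hy ⟨ρ, Subgroup.mem_zpowers ρ⟩
  have h6 := h.fix ρ h1
  have h7 := hr.two_le
  omega

theorem fix_s (h : Few Γ X) {s : ℕ} (hs : s.Prime) (hd : ¬ s ∣ Nat.card X) (S : Subgroup Γ) (hS : IsPGroup s S)
    (h1 : S ≠ ⊥) : ∃ x : X, (∀ γ ∈ S, γ • x = x) ∧ ∃ y : X, (∀ γ ∈ S, γ • y = y) ∧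
      ∀ z : X, (∀ γ ∈ S, γ • z = z) → z = x ∨ z = y := by
  have := Fact.mk hs
  have h2 := hS.card_modEq_card_fixedPoints X
  have h3 : Nat.card (MulAction.fixedPoints S X) ≠ 0 := by
    intro h0
    rw [h0] at h2
    exact hd (Nat.modEq_zero_iff_dvd.1 h2)
  obtain ⟨γ0, hγ0, hγ1⟩ : ∃ γ ∈ S, γ ≠ 1 := by
    by_contra hcon
    push Not at hcon
    exact h1 ((Subgroup.eq_bot_iff_forall S).2 hcon)
  have h5 : Nat.card (MulAction.fixedPoints S X) ≤ Nat.card (MulAction.fixedBy X γ0) := by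
    refine Nat.card_mono (Set.toFinite _) ?_
    intro y hy
    exact hy ⟨γ0, hγ0⟩
  have h6 := h.fix γ0 hγ1
  obtain ⟨⟨x, hx⟩⟩ : Nonempty (MulAction.fixedPoints S X) := by
    by_contra hcon
    rw [not_nonempty_iff] at hcon
    exact h3 (Nat.card_of_isEmpty)
  refine ⟨x, fun γ hγ => hx ⟨γ, hγ⟩, ?_⟩
  by_cases hy : ∃ y, (∀ γ ∈ S, γ • y = y) ∧ y ≠ x
  · obtain ⟨y, hy, hyx⟩ := hy
    refine ⟨y, hy, fun z hz => ?_⟩
    by_contra hcon
    push Not at hcon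
    have h7 : 2 < (MulAction.fixedPoints S X).ncard := by
      rw [Set.two_lt_ncard_iff]
      exact ⟨x, y, z, hx, fun γ => hy γ γ.2, fun γ => hz γ γ.2, hyx.symm, hcon.1.symm, hcon.2.symm⟩
    rw [← Nat.card_coe_set_eq] at h7
    omega
  · push Not at hy
    exact ⟨x, fun γ hγ => hx ⟨γ, hγ⟩, fun z hz => Or.inl (hy z hz)⟩

theorem norm_s (h : Few Γ X) {ρ : Γ} {r : ℕ} (hr : r.Prime) (hr2 : r ≠ 2) (hd : r ∣ Nat.card X) (h1 : ρ ≠ 1)
    (hp : ρ ^ r = 1) {s : ℕ} (hs : s.Prime) (hds : ¬ s ∣ Nat.card X) (S : Subgroup Γ) (hS : IsPGroup s S)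
    (hS1 : S ≠ ⊥) (hn : ∀ γ ∈ S, ρ * γ * ρ⁻¹ ∈ S) : False := by
  obtain ⟨x, hx, y, hy, hxy⟩ := fix_s h hs hds S hS hS1
  have hn' : ∀ n : ℕ, ∀ γ ∈ S, ρ ^ n * γ * (ρ ^ n)⁻¹ ∈ S := by
    intro n
    induction n with
    | zero => intro γ hγ; simpa using hγ
    | succ n ih =>
      intro γ hγ
      have h2 := hn _ (ih γ hγ)
      have h3 : ρ ^ (n + 1) * γ * (ρ ^ (n + 1))⁻¹ = ρ * (ρ ^ n * γ * (ρ ^ n)⁻¹) * ρ⁻¹ := by
        rw [pow_succ']
        group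
      rw [h3]
      exact h2
  have hinv : ρ⁻¹ = ρ ^ (r - 1) := by
    rw [inv_eq_iff_mul_eq_one, ← pow_succ', Nat.sub_add_cancel hr.one_lt.le, hp]
  have hmap : ∀ z : X, (∀ γ ∈ S, γ • z = z) → ∀ γ ∈ S, γ • (ρ • z) = ρ • z := by
    intro z hz γ hγ
    have h2 := hz _ (hn' (r - 1) γ hγ)
    rw [← hinv, inv_inv] at h2
    calc γ • (ρ • z) = ρ • ((ρ⁻¹ * γ * ρ) • z) := by
          rw [← mul_smul, ← mul_smul]
          congr 1
          group
      _ = ρ • z := by rw [h2]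
  have hx1 : ρ • x = y := by
    rcases hxy _ (hmap x hx) with h2 | h2
    · exact (free_r h hr hr2 hd h1 hp x h2).elim
    · exact h2
  have hy1 : ρ • y = x := by
    rcases hxy _ (hmap y hy) with h2 | h2
    · exact h2
    · exact (free_r h hr hr2 hd h1 hp y h2).elim
  have hsq : (ρ * ρ) ^ r = 1 := by
    rw [← pow_two, ← pow_mul, mul_comm, pow_mul, hp, one_pow]
  exact free_r h hr hr2 hd (D2_sq hr hr2 h1 hp) hsq x (by rw [mul_smul, hx1, hy1])

end Pool.Agent.LibNT29
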