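import Pool.Agent.LibNT29.DDefs

set_option autoImplicit false

/-!
[NT29 D3] Burnside: `N ≤ Γ` of odd order, `r` an odd prime dividing `|N|` and `|X|`. `N` has a normal subgroup `K` with `r ∤ |K|` and `N/K` commutative.
-/

namespace Pool.Agent.LibNT29

variable {Γ X : Type*} [Group Γ] [MulAction Γ X] [Finite Γ] [Finite X]

theorem complement (h : Few Γ X) (N : Subgroup Γ) (hN : Odd (Nat.card N)) {r : ℕ} (hr : r.Prime) (hr2 : r ≠ 2)
    (hd : r ∣ Nat.card X) (hdN : r ∣ Nat.card N) :
    ∃ K : Subgroup N, K.Normal ∧ ¬ r ∣ Nat.card K ∧ ∀ a b : N, a * b * a⁻¹ * b⁻¹ ∈ K := by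
  classical
  have : Fact r.Prime := ⟨hr⟩
  let P : Sylow r N := default
  have hdP : r ∣ Nat.card P := P.dvd_card_of_dvd_card hdN
  have hPp : IsPGroup r P := P.isPGroup'
  have : Nontrivial P := by
    rw [← Finite.one_lt_card_iff_nontrivial]
    exact lt_of_lt_of_le hr.one_lt (Nat.le_of_dvd Nat.card_pos hdP)
  have : Nontrivial (Subgroup.center P) := hPp.center_nontrivial
  have hdC : r ∣ Nat.card (Subgroup.center P) := by
    have hC : IsPGroup r (Subgroup.center P) := hPp.to_subgroup _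
    obtain ⟨n, hn⟩ := hC.exists_card_eq
    have h1 : 1 < Nat.card (Subgroup.center P) := Finite.one_lt_card
    rw [hn] at h1 ⊢
    exact dvd_pow_self r (by rintro rfl; simp at h1)
  obtain ⟨ρ, hρ⟩ := exists_prime_orderOf_dvd_card' r hdC
  -- the element of Γ
  set t : Γ := (((ρ : P) : N) : Γ) with ht
  have ht1 : t ≠ 1 := by
    intro h1
    have h2 : ((ρ : P) : N) = 1 := Subtype.ext (by rw [← ht, h1]; rfl)
    have h3 : (ρ : P) = 1 := Subtype.ext (by rw [h2]; rfl)
    have h4 : ρ = 1 := Subtype.ext (by rw [h3]; rfl)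
    rw [h4, orderOf_one] at hρ
    exact hr.one_lt.ne hρ
  have htr : t ^ r = 1 := by
    have h1 : ρ ^ r = 1 := orderOf_dvd_iff_pow_eq_one.mp hρ.dvd
    have h2 : (((ρ ^ r : Subgroup.center P) : P) : N) = 1 := by rw [h1]; rfl
    have h3 : ((((ρ ^ r : Subgroup.center P) : P) : N) : Γ) = 1 := by rw [h2]; rfl
    simpa using h3
  have hcomm : ∀ a : N, a ∈ P → (a : Γ) * t = t * (a : Γ) := by
    intro a ha
    have h1 := Subgroup.mem_center_iff.mp ρ.2 ⟨a, ha⟩
    have h2 := congrArg (fun z : P => ((z : N) : Γ)) h1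
    simpa using h2
  have hPP : ∀ a b : N, a ∈ P → b ∈ P → a * b = b * a := by
    intro a b ha hb
    apply Subtype.ext
    exact h.cen t r hr hr2 hd ht1 htr a b (hcomm a ha) (hcomm b hb)
  have htP : ((ρ : P) : N) ∈ P := (ρ : P).2
  have hPN : Subgroup.normalizer (P : Set N) ≤ Subgroup.centralizer (P : Set N) := by
    intro g hg
    rw [Subgroup.mem_centralizer_iff]
    have h1 : g * ((ρ : P) : N) * g⁻¹ ∈ P := (Subgroup.mem_normalizer_iff.mp hg _).mp htP
    set u : N := g * ((ρ : P) : N) * g⁻¹ with hu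
    have h2 : (u : Γ) * t = t * (u : Γ) := hcomm u h1
    have h3 : (u : Γ) ^ r = 1 := by
      have : u ^ r = 1 := by
        rw [hu, conj_pow]
        have : (((ρ : P) : N)) ^ r = 1 := by
          apply Subtype.ext
          simpa using htr
        rw [this]; simp
      rw [← Subgroup.coe_pow, this]; rfl
    obtain ⟨j, hj⟩ := h.cyc t r hr hr2 hd ht1 htr (u : Γ) h2 h3
    have h4 : (g : Γ) * t = t ^ j * (g : Γ) := by
      rw [← hj, hu, ht]
      simp
    have h5 := h.nor t r hr hr2 hd ht1 htr (g : Γ) j h4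
    have hodd : Nat.Coprime 8 (orderOf (g : Γ)) := by
      have h6 : orderOf (g : Γ) ∣ Nat.card N := by
        rw [Subgroup.orderOf_coe]
        exact orderOf_dvd_natCard g
      have h7 : Odd (orderOf (g : Γ)) := Odd.of_dvd_nat hN h6
      have h8 : Nat.Coprime 2 (orderOf (g : Γ)) := Nat.coprime_two_left.mpr h7
      exact (Nat.Coprime.pow_left 3 h8 : Nat.Coprime (2 ^ 3) _)
    obtain ⟨m, hm⟩ := exists_pow_eq_self_of_coprime hodd
    have h9 : (g : Γ) * t = t * (g : Γ) := by
      have : Commute ((g : Γ) ^ 8) t := h5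
      have := this.pow_left m
      rw [hm] at this
      exact this
    intro a ha
    apply Subtype.ext
    exact h.cen t r hr hr2 hd ht1 htr a g (hcomm a ha) h9
  refine ⟨(MonoidHom.transferSylow P hPN).ker, inferInstance,
    MonoidHom.not_dvd_card_ker_transferSylow P hPN, ?_⟩
  intro a b
  rw [MonoidHom.mem_ker]
  have hc : ∀ x y : P, x * y = y * x := by
    intro x y
    apply Subtype.ext
    exact hPP x y x.2 y.2
  simp only [map_mul, map_inv]
  rw [hc (MonoidHom.transferSylow P hPN a) (MonoidHom.transferSylow P hPN b)]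
  simp

end Pool.Agent.LibNT29
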