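import Pool.Agent.LibNT29.D2
import Pool.Agent.LibNT29.D3

set_option autoImplicit false

/-!
[NT29 D4] `N ≤ Γ` of odd order containing `ρ ≠ 1` with `ρ^r = 1`, `r` an odd prime dividing `|X|`. Then `N` is commutative and its nontrivial elements have no fixed point.
-/

namespace Pool.Agent.LibNT29

variable {Γ X : Type*} [Group Γ] [MulAction Γ X] [Finite Γ] [Finite X]

open scoped Pointwise in
/-- An automorphism of order dividing a prime `r` which does not divide the order of the group normalises a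
Sylow `s`-subgroup. -/
theorem D4_fixSylow {G : Type*} [Group G] [Finite G] {r s : ℕ} (hr : r.Prime) (hs : s.Prime)
    (hd : ¬ r ∣ Nat.card G) (φ : MulAut G) (hφ : φ ^ r = 1) :
    ∃ S : Sylow s G, ∀ g ∈ S, φ g ∈ S := by
  have : Fact r.Prime := ⟨hr⟩
  have : Fact s.Prime := ⟨hs⟩
  have hp : IsPGroup r (Subgroup.zpowers φ) := by
    intro ⟨g, hg⟩
    obtain ⟨j, rfl⟩ := Subgroup.mem_zpowers_iff.mp hg
    refine ⟨1, Subtype.ext ?_⟩
    rw [pow_one, Subgroup.coe_pow, Subgroup.coe_one]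
    show (φ ^ j) ^ r = 1
    rw [← zpow_natCast, ← zpow_mul, mul_comm, zpow_mul, zpow_natCast, hφ, one_zpow]
  have hS : ¬ r ∣ Nat.card (Sylow s G) := by
    intro h
    exact hd (h.trans ((Sylow.card_dvd_index (default : Sylow s G)).trans
      (Subgroup.index_dvd_card _)))
  obtain ⟨S, hS⟩ := hp.nonempty_fixed_point_of_prime_not_dvd_card (Sylow s G) hS
  refine ⟨S, fun g hg => ?_⟩
  have h1 := hS ⟨φ, Subgroup.mem_zpowers φ⟩
  have h2 : φ • S = S := h1
  have h3 : φ • (S : Subgroup G) = (S : Subgroup G) := by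
    rw [← Sylow.pointwise_smul_def, h2]
  have h4 : φ • g ∈ φ • (S : Subgroup G) := Subgroup.smul_mem_pointwise_smul g φ _ hg
  rw [h3] at h4
  exact h4

theorem big (h : Few Γ X) (N : Subgroup Γ) (hN : Odd (Nat.card N)) {r : ℕ} (hr : r.Prime) (hr2 : r ≠ 2)
    (hd : r ∣ Nat.card X) {ρ : Γ} (hρN : ρ ∈ N) (h1 : ρ ≠ 1) (hp : ρ ^ r = 1) :
    (∀ a ∈ N, ∀ b ∈ N, a * b = b * a) ∧ ∀ γ ∈ N, γ ≠ 1 → ∀ x : X, γ • x ≠ x := by
  have hord : orderOf ρ = r := by
    have h2 : orderOf ρ ∣ r := orderOf_dvd_of_pow_eq_one hp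
    rcases (Nat.dvd_prime hr).mp h2 with h3 | h3
    · exact absurd (orderOf_eq_one_iff.mp h3) h1
    · exact h3
  have hrN : r ∣ Nat.card N := by
    have h2 : orderOf (⟨ρ, hρN⟩ : N) ∣ Nat.card N := orderOf_dvd_natCard _
    rwa [Subgroup.orderOf_mk, hord] at h2
  -- commutativity
  have hcomm : ∀ a ∈ N, ∀ b ∈ N, a * b = b * a := by
    have hK : ∀ s : {s : ℕ // s.Prime ∧ s ∣ Nat.card N ∧ s ∣ Nat.card X},
        ∃ K : Subgroup N, K.Normal ∧ ¬ s.1 ∣ Nat.card K ∧ ∀ a b : N, a * b * a⁻¹ * b⁻¹ ∈ K := by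
      rintro ⟨s, hs, hsN, hsX⟩
      have hs2 : s ≠ 2 := by
        rintro rfl
        have h2 : Even (Nat.card N) := even_iff_two_dvd.mpr hsN
        exact (Nat.not_even_iff_odd.mpr hN) h2
      exact complement h N hN hs hs2 hsX hsN
    choose KK hKn hKs hKc using hK
    set K : Subgroup N := ⨅ s, KK s with hKdef
    have hKnorm : K.Normal := Subgroup.normal_iInf_normal hKn
    have hKbot : K = ⊥ := by
      by_contra hne
      have hcard : Nat.card K ≠ 1 := fun h2 => hne (Subgroup.card_eq_one.mp h2)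
      obtain ⟨s, hs, hsK⟩ := Nat.exists_prime_and_dvd hcard
      have : Fact s.Prime := ⟨hs⟩
      have hsN : s ∣ Nat.card N := hsK.trans (Subgroup.card_subgroup_dvd_card K)
      have hsX : ¬ s ∣ Nat.card X := by
        intro h2
        exact hKs ⟨s, hs, hsN, h2⟩ (hsK.trans (Subgroup.card_dvd_of_le (iInf_le _ _)))
      have hrK : ¬ r ∣ Nat.card K := by
        intro h2
        exact hKs ⟨r, hr, hrN, hd⟩ (h2.trans (Subgroup.card_dvd_of_le (iInf_le _ _)))
      set φ : MulAut K := MulAut.conjNormal (⟨ρ, hρN⟩ : N) with hφ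
      have hφr : φ ^ r = 1 := by
        rw [hφ, ← map_pow]
        have : (⟨ρ, hρN⟩ : N) ^ r = 1 := Subtype.ext (by simpa using hp)
        rw [this, map_one]
      obtain ⟨S, hS⟩ := D4_fixSylow (s := s) hr hs hrK φ hφr
      have hSne : ((S : Subgroup K).map K.subtype).map N.subtype ≠ ⊥ := by
        intro h2
        have h3 := (Subgroup.map_eq_bot_iff_of_injective _ N.subtype_injective).mp h2
        have h4 := (Subgroup.map_eq_bot_iff_of_injective _ K.subtype_injective).mp h3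
        exact Sylow.ne_bot_of_dvd_card S hsK h4
      refine norm_s h hr hr2 hd h1 hp hs hsX (((S : Subgroup K).map K.subtype).map N.subtype)
        ((S.isPGroup'.map _).map _) hSne ?_
      intro γ hγ
      obtain ⟨n, hn, rfl⟩ := Subgroup.mem_map.mp hγ
      obtain ⟨k, hk, rfl⟩ := Subgroup.mem_map.mp hn
      refine Subgroup.mem_map.mpr ⟨((φ k : K) : N), Subgroup.mem_map.mpr ⟨φ k, hS k hk, rfl⟩, ?_⟩
      rw [hφ, MulAut.conjNormal_apply]
      simp
    intro a ha b hb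
    have h2 : (⟨a, ha⟩ : N) * ⟨b, hb⟩ * (⟨a, ha⟩ : N)⁻¹ * (⟨b, hb⟩ : N)⁻¹ ∈ K := by
      rw [hKdef, Subgroup.mem_iInf]
      intro s
      exact hKc s _ _
    rw [hKbot, Subgroup.mem_bot] at h2
    have h3 : a * b * a⁻¹ * b⁻¹ = 1 := by
      have := congrArg (fun z : N => (z : Γ)) h2
      simpa using this
    have h4 : a * b * a⁻¹ = b := by
      rwa [mul_inv_eq_one] at h3
    rwa [mul_inv_eq_iff_eq_mul] at h4
  refine ⟨hcomm, ?_⟩
  intro γ hγ hγ1 x hx
  have hc : γ * ρ = ρ * γ := hcomm γ hγ ρ hρN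
  have hx1 : γ • (ρ • x) = ρ • x := by
    rw [← mul_smul, hc, mul_smul, hx]
  have hx2 : γ • (ρ • (ρ • x)) = ρ • (ρ • x) := by
    rw [← mul_smul, hc, mul_smul, hx1]
  have hρ2 : ρ ^ 2 ≠ 1 := by
    intro h2
    have h3 : orderOf ρ ∣ 2 := orderOf_dvd_of_pow_eq_one h2
    rw [hord] at h3
    exact hr2 ((Nat.prime_dvd_prime_iff_eq hr Nat.prime_two).mp h3)
  have hρ2r : (ρ ^ 2) ^ r = 1 := by
    rw [← pow_mul, mul_comm, pow_mul, hp, one_pow]
  have n1 : ρ • x ≠ x := free_r h hr hr2 hd h1 hp x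
  have n2 : ρ • (ρ • x) ≠ ρ • x := free_r h hr hr2 hd h1 hp (ρ • x)
  have n3 : ρ • (ρ • x) ≠ x := by
    have := free_r h hr hr2 hd hρ2 hρ2r x
    rwa [pow_two, mul_smul] at this
  have hsub : ({x, ρ • x, ρ • (ρ • x)} : Set X) ⊆ MulAction.fixedBy X γ := by
    intro y hy
    simp only [Set.mem_insert_iff, Set.mem_singleton_iff] at hy
    rcases hy with rfl | rfl | rfl
    · exact hx
    · exact hx1
    · exact hx2
  have hle := Set.ncard_le_ncard hsub (Set.toFinite _)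
  have h3 : ({x, ρ • x, ρ • (ρ • x)} : Set X).ncard = 3 := by
    rw [Set.ncard_eq_three]
    exact ⟨x, ρ • x, ρ • (ρ • x), n1.symm, n3.symm, n2.symm, rfl⟩
  have h4 := h.fix γ hγ1
  rw [Nat.card_coe_set_eq] at h4
  omega

end Pool.Agent.LibNT29
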