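import Pool.Agent.LibNT29.D1
import Pool.Agent.LibNT29.D4

set_option autoImplicit false

/-!
[NT29 D5] SHORT/MEDIUM. Assembly of the group theory. `N` from `odd_part` (`not4`). If the odd prime `r` divides `|Γ|` and `|X|` then it divides `|N|` (`|Γ| = |N| · index`, index 1 or 2), Cauchy gives `ρ ∈ N`, `big`.
`card_dvd`: `N` acts semiregularly, so `|N| ∣ |X|`; `|Γ| ∣ 2 |N|`-part: `|Γ| = |N|` or `2 |N|`; `|N|` odd divides `|X| = 2 (odd)`: `2 |N| ∣ |X|`.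
-/

namespace Pool.Agent.LibNT29

variable {Γ X : Type*} [Group Γ] [MulAction Γ X] [Finite Γ] [Finite X]

private theorem D5_dvd {Γ T : Type*} [Group Γ] [Finite Γ] [Finite T] [MulAction Γ T]
    (h : ∀ γ : Γ, γ ≠ 1 → ∀ x : T, γ • x ≠ x) : Nat.card Γ ∣ Nat.card T := by
  classical
  have hst : ∀ x : T, MulAction.stabilizer Γ x = ⊥ := by
    intro x
    rw [Subgroup.eq_bot_iff_forall]
    intro γ hγ
    by_contra hne
    exact h γ hne x hγ
  have : Fintype (Quotient (MulAction.orbitRel Γ T)) := Fintype.ofFinite _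
  rw [Nat.card_congr (MulAction.selfEquivSigmaOrbitsQuotientStabilizer Γ T), Nat.card_sigma]
  refine Finset.dvd_sum fun ω _ => ?_
  change Nat.card Γ ∣ (MulAction.stabilizer Γ ω.out).index
  rw [hst, Subgroup.index_bot]

theorem struct (h : Few Γ X) (hX : Nat.card X % 4 = 2) {r : ℕ} (hr : r.Prime) (hr2 : r ≠ 2)
    (hd : r ∣ Nat.card X) (hdΓ : r ∣ Nat.card Γ) :
    ∃ N : Subgroup Γ, N.Normal ∧ Odd (Nat.card N) ∧ (∀ a ∈ N, ∀ b ∈ N, a * b = b * a) ∧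
      (∀ γ ∈ N, γ ≠ 1 → ∀ x : X, γ • x ≠ x) ∧ (∃ ρ ∈ N, ρ ≠ 1 ∧ ρ ^ r = 1) ∧
      Nat.card N ∣ Nat.card X ∧ Nat.card Γ ∣ Nat.card X ∧ Nat.card Γ ≤ 2 * Nat.card N := by
  obtain ⟨N, hNn, hNo, hNi⟩ := odd_part (not4 h hX)
  have hmul := Subgroup.card_mul_index N
  have hi0 : N.index ≠ 0 := Subgroup.FiniteIndex.index_ne_zero
  have hrN : r ∣ Nat.card N := by
    rw [← hmul] at hdΓ
    rcases (Nat.Prime.dvd_mul hr).1 hdΓ with h1 | h1
    · exact h1
    · have h2 := Nat.le_of_dvd (Nat.pos_of_ne_zero hi0) h1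
      have h3 := hr.two_le
      omega
  have := Fact.mk hr
  obtain ⟨⟨ρ, hρN⟩, hρ⟩ := exists_prime_orderOf_dvd_card' r hrN
  have hρ1 : ρ ≠ 1 := by
    rintro rfl
    have : orderOf (⟨1, hρN⟩ : N) = 1 := orderOf_one
    rw [this] at hρ
    exact hr.one_lt.ne hρ
  have hρr : ρ ^ r = 1 := by
    have h1 := pow_orderOf_eq_one (⟨ρ, hρN⟩ : N)
    rw [hρ] at h1
    exact congrArg Subtype.val h1
  obtain ⟨hc, hf⟩ := big h N hNo hr hr2 hd hρN hρ1 hρr
  have hNX : Nat.card N ∣ Nat.card X := D5_dvd (Γ := N) (T := X) (by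
    intro t ht x
    exact hf t t.2 (fun h => ht (Subtype.ext h)) x)
  refine ⟨N, hNn, hNo, hc, hf, ⟨ρ, hρN, hρ1, hρr⟩, hNX, ?_, ?_⟩
  · rcases (by omega : N.index = 1 ∨ N.index = 2) with h1 | h1
    · rw [← hmul, h1, mul_one]
      exact hNX
    · rw [← hmul, h1]
      refine Nat.Coprime.mul_dvd_of_dvd_of_dvd ?_ hNX (by omega)
      exact hNo.coprime_two_right
  · rw [← hmul, mul_comm 2]
    exact Nat.mul_le_mul_left _ hNi

end Pool.Agent.LibNT29
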