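import Mathlib

set_option autoImplicit false

/-!
[NT29 D6] SHORT/MEDIUM, only Mathlib. A normal subgroup `N` of a transitive group: the orbit `N x` is a block (`MulAction.IsBlock.orbit_of_normal`), its size divides `|X|` (`MulAction.IsBlock.ncard_dvd_card`, Mathlib.GroupTheory.GroupAction.Blocks),
and `X` is the union of the translates `g (N x)`, `g` in a set of representatives of `G / N`: `|X| ≤ [G : N] |N x|`.
-/

namespace Pool.Agent.LibNT29

private theorem D6_card {G X : Type*} [Group G] [MulAction G X] (x : X) :
    Nat.card (MulAction.orbit G x) * Nat.card (MulAction.stabilizer G x) = Nat.card G := by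
  rw [← Nat.card_prod]
  exact Nat.card_congr (MulAction.orbitProdStabilizerEquivGroup G x)

theorem trans_normal {G X : Type*} [Group G] [MulAction G X] [Finite G] [Finite X] [MulAction.IsPretransitive G X]
    (N : Subgroup G) [N.Normal] (x : X) :
    Nat.card (MulAction.orbit N x) ∣ Nat.card X ∧ Nat.card X ≤ N.index * Nat.card (MulAction.orbit N x) := by
  constructor
  · have hb : MulAction.IsBlock G (MulAction.orbit N x) := MulAction.IsBlock.orbit_of_normal x
    exact hb.ncard_dvd_card (MulAction.nonempty_orbit x)
  · have h1 := D6_card (G := G) x
    have h2 := D6_card (G := N) x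
    have h3 : Nat.card (MulAction.orbit G x) = Nat.card X := by
      rw [MulAction.orbit_eq_univ]
      exact Nat.card_congr (Equiv.Set.univ X)
    have h4 : Nat.card N * N.index = Nat.card G := N.card_mul_index
    have h5 : Nat.card (MulAction.stabilizer N x) ≤ Nat.card (MulAction.stabilizer G x) := by
      apply Nat.card_le_card_of_injective
        (fun n : MulAction.stabilizer N x => (⟨((n : N) : G), n.2⟩ : MulAction.stabilizer G x))
      intro a b hab
      have h7 := congrArg (fun z : MulAction.stabilizer G x => (z : G)) hab
      exact Subtype.ext (Subtype.ext h7)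
    have h6 : 0 < Nat.card (MulAction.stabilizer G x) := Nat.card_pos
    rw [h3] at h1
    refine Nat.le_of_mul_le_mul_right (c := Nat.card (MulAction.stabilizer G x)) ?_ h6
    calc Nat.card X * Nat.card (MulAction.stabilizer G x) = N.index * Nat.card N := by
          rw [h1, ← h4, mul_comm]
      _ = N.index * (Nat.card (MulAction.orbit N x) * Nat.card (MulAction.stabilizer N x)) := by rw [h2]
      _ ≤ N.index * (Nat.card (MulAction.orbit N x) * Nat.card (MulAction.stabilizer G x)) := by gcongr
      _ = N.index * Nat.card (MulAction.orbit N x) * Nat.card (MulAction.stabilizer G x) := by ring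

end Pool.Agent.LibNT29
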