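import Pool.Agent.LibNT29.D2

set_option autoImplicit false

/-!
[NT29 D7] MEDIUM, group theory. `s` an odd prime, `s^k ∣ |Γ|`, `s` not dividing `|X|`, and `s` not dividing `|X| - 1`. Then `s^k ∣ |X| - 2`. There is a subgroup `S` of order `s^k` (`Sylow.exists_subgroup_card_pow_prime`). `k = 0` trivial; otherwise `S ≠ ⊥`. Let `f` be the number of points fixed by `S`
(`f = 1` or `2` by `fix_s`). For `γ ∈ S`, `γ ≠ 1` the number `f_γ ≤ 2` of its fixed points is `= |X|` mod `s` (as `f`), `s ≥ 3`, so `f_γ = f` and the fixed points of `γ` are those of `S`. So `S` acts semiregularly on the other `|X| - f` points and `|S| ∣ |X| - f`. `f = 1` would give `s ∣ |X| - 1`.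
-/

namespace Pool.Agent.LibNT29

variable {Γ X : Type*} [Group Γ] [MulAction Γ X] [Finite Γ] [Finite X]

theorem sylow_two (h : Few Γ X) {s k : ℕ} (hs : s.Prime) (hs2 : s ≠ 2) (hk : s ^ k ∣ Nat.card Γ)
    (h0 : ¬ s ∣ Nat.card X) (h1 : ¬ s ∣ Nat.card X - 1) : s ^ k ∣ Nat.card X - 2 := by
  classical
  haveI : Fact s.Prime := ⟨hs⟩
  by_cases hk0 : k = 0
  · rw [hk0, pow_zero]
    exact one_dvd _
  obtain ⟨S, hS⟩ := Sylow.exists_subgroup_card_pow_prime s hk
  have hSp : IsPGroup s S := IsPGroup.of_card hS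
  have hSb : S ≠ ⊥ := by
    rintro rfl
    rw [Subgroup.card_bot] at hS
    have h2 : 1 < s ^ k := Nat.one_lt_pow hk0 hs.one_lt
    omega
  obtain ⟨x, hx, y, hy, hxy⟩ := fix_s h hs h0 S hSp hSb
  have hcong := hSp.card_modEq_card_fixedPoints X
  have hne : x ≠ y := by
    rintro rfl
    apply h1
    have hfix : MulAction.fixedPoints S X = {x} := by
      ext z
      rw [MulAction.mem_fixedPoints, Set.mem_singleton_iff]
      constructor
      · intro hz
        rcases hxy z (fun γ hγ => hz ⟨γ, hγ⟩) with h2 | h2 <;> exact h2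
      · rintro rfl γ
        exact hx γ γ.2
    rw [hfix, Nat.card_coe_set_eq ({x} : Set X), Set.ncard_singleton] at hcong
    have hpos : 1 ≤ Nat.card X := Nat.pos_of_ne_zero fun h2 => h0 (h2 ▸ dvd_zero s)
    exact (Nat.modEq_iff_dvd' hpos).1 hcong.symm
  have hcard : ∀ γ : S, γ ≠ 1 → Nat.card (MulAction.fixedBy X γ) = 2 := by
    intro γ hγ
    have hγ' : (γ : Γ) ≠ 1 := fun h2 => hγ (Subtype.ext h2)
    have h2 : Nat.card (MulAction.fixedBy X γ) ≤ 2 := h.fix (γ : Γ) hγ'
    have h3 : ({x, y} : Set X) ⊆ MulAction.fixedBy X γ := by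
      rintro z (rfl | rfl)
      · exact hx γ γ.2
      · exact hy γ γ.2
    have h4 := Set.ncard_le_ncard h3 (Set.toFinite _)
    rw [Set.ncard_pair hne, ← Nat.card_coe_set_eq] at h4
    omega
  haveI : Fintype S := Fintype.ofFinite S
  haveI : ∀ γ : S, Fintype (MulAction.fixedBy X γ) := fun γ => Fintype.ofFinite _
  haveI : Fintype (Quotient (MulAction.orbitRel S X)) := Fintype.ofFinite _
  have hB := MulAction.sum_card_fixedBy_eq_card_orbits_mul_card_group S X
  rw [← Finset.add_sum_erase Finset.univ _ (Finset.mem_univ (1 : S))] at hB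
  have h5 : ∑ γ ∈ Finset.univ.erase (1 : S), Fintype.card (MulAction.fixedBy X γ) =
      (Fintype.card S - 1) * 2 := by
    rw [Finset.sum_congr rfl (g := fun _ => 2), Finset.sum_const,
      Finset.card_erase_of_mem (Finset.mem_univ _), Finset.card_univ, smul_eq_mul]
    intro γ hγ
    rw [← Nat.card_eq_fintype_card]
    exact hcard γ (Finset.ne_of_mem_erase hγ)
  have h6 : Fintype.card (MulAction.fixedBy X (1 : S)) = Nat.card X := by
    rw [← Nat.card_eq_fintype_card]
    exact Nat.card_congr ((Equiv.setCongr (Set.eq_univ_of_forall fun z =>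
      one_smul S z)).trans (Equiv.Set.univ X))
  have h7 : Fintype.card S = s ^ k := by rw [← Nat.card_eq_fintype_card, hS]
  have h8 : 2 ≤ Nat.card X := by
    have h9 := Set.ncard_le_ncard (Set.subset_univ ({x, y} : Set X)) (Set.toFinite _)
    rwa [Set.ncard_pair hne, Set.ncard_univ] at h9
  have h10 : 1 ≤ s ^ k := Nat.one_le_pow _ _ hs.pos
  rw [h5, h6, h7] at hB
  have h11 : Nat.card X - 2 + s ^ k * 2 =
      s ^ k * Fintype.card (Quotient (MulAction.orbitRel S X)) := by
    rw [mul_comm (s ^ k) (Fintype.card _), ← hB]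
    omega
  exact (Nat.dvd_add_left (Dvd.intro 2 rfl)).1 (Dvd.intro _ h11.symm)

end Pool.Agent.LibNT29
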