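import Mathlib

set_option autoImplicit false

/-!
Group theory: a finite group acting on a set such that nontrivial elements have few fixed points.
-/

namespace Pool.Agent.LibNT29

/-- Nontrivial elements of `Γ` fix at most two points of `X`, involutions fix none; if `ρ` has odd prime order
`r` dividing `|X|` then the centraliser of `ρ` is commutative, its elements of order `r` are powers of `ρ`,
and `g ^ 8` centralises `ρ` if `g` normalises `⟨ρ⟩`. -/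
structure Few (Γ X : Type*) [Group Γ] [MulAction Γ X] : Prop where
  fix : ∀ γ : Γ, γ ≠ 1 → Nat.card (MulAction.fixedBy X γ) ≤ 2
  inv : ∀ γ : Γ, γ ≠ 1 → γ * γ = 1 → ∀ x : X, γ • x ≠ x
  cen : ∀ (ρ : Γ) (r : ℕ), r.Prime → r ≠ 2 → r ∣ Nat.card X → ρ ≠ 1 → ρ ^ r = 1 →
    ∀ a b : Γ, a * ρ = ρ * a → b * ρ = ρ * b → a * b = b * a
  cyc : ∀ (ρ : Γ) (r : ℕ), r.Prime → r ≠ 2 → r ∣ Nat.card X → ρ ≠ 1 → ρ ^ r = 1 →
    ∀ σ : Γ, σ * ρ = ρ * σ → σ ^ r = 1 → ∃ j : ℕ, σ = ρ ^ j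
  nor : ∀ (ρ : Γ) (r : ℕ), r.Prime → r ≠ 2 → r ∣ Nat.card X → ρ ≠ 1 → ρ ^ r = 1 →
    ∀ (g : Γ) (j : ℕ), g * ρ = ρ ^ j * g → g ^ 8 * ρ = ρ * g ^ 8

end Pool.Agent.LibNT29
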