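import Pool.Agent.LibBT65.Defs

set_option autoImplicit false

/-!
Definitions for MP_8143af_co: no transitive group. Paper: team-store L23_8143af_helper29.md.
`V` is a 10-dimensional space, `B` a symmetric bilinear form, `M` the system (`Sys B M` of LibBT65),
`q = Fintype.card F`.
-/

namespace Pool.Agent.LibNT29

open Module Pool.Agent.LibBT65

variable {F V : Type*} [Field F] [AddCommGroup V] [Module F V]

/-- the vectors orthogonal to `π` -/
def pp (B : V →ₗ[F] V →ₗ[F] F) (π : Submodule F V) : Submodule F V where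
  carrier := {v | ∀ u ∈ π, B v u = 0}
  add_mem' := by
    intro a b ha hb u hu
    rw [map_add, LinearMap.add_apply, ha u hu, hb u hu, add_zero]
  zero_mem' := by
    intro u _
    rw [map_zero, LinearMap.zero_apply]
  smul_mem' := by
    intro c a ha u hu
    rw [map_smul, LinearMap.smul_apply, ha u hu, smul_zero]

theorem mem_pp {B : V →ₗ[F] V →ₗ[F] F} {π : Submodule F V} {v : V} :
    v ∈ pp B π ↔ ∀ u ∈ π, B v u = 0 := Iff.rfl

open scoped Classical in
/-- the number of members orthogonal to `v` -/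
noncomputable def tt (B : V →ₗ[F] V →ₗ[F] F) (M : Finset (Submodule F V)) (v : V) : ℕ :=
  (M.filter fun π => v ∈ pp B π).card

/-- `v` lies in a member -/
def Mem (M : Finset (Submodule F V)) (v : V) : Prop := ∃ π ∈ M, v ∈ π

/-- `g` is a similarity with the factor `μ` which maps members to members -/
structure Simi (B : V →ₗ[F] V →ₗ[F] F) (M : Finset (Submodule F V)) (μ : F) (g : V ≃ₗ[F] V) : Prop where
  sim : ∀ v w, B (g v) (g w) = μ * B v w
  pres : ∀ π ∈ M, π.map (g : V →ₗ[F] V) ∈ M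

open scoped Classical in
/-- the members fixed by `g` -/
noncomputable def fx (M : Finset (Submodule F V)) (g : V ≃ₗ[F] V) : Finset (Submodule F V) :=
  M.filter fun π => π.map (g : V →ₗ[F] V) = π

/-- the eigenspace of `g` for `c` -/
def eg (g : V ≃ₗ[F] V) (c : F) : Submodule F V := LinearMap.ker ((g : V →ₗ[F] V) - c • LinearMap.id)

theorem mem_eg {g : V ≃ₗ[F] V} {c : F} {v : V} : v ∈ eg g c ↔ g v = c • v := by
  unfold eg
  rw [LinearMap.mem_ker, LinearMap.sub_apply, LinearMap.smul_apply, LinearMap.id_apply, sub_eq_zero]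
  rfl

/-- the image of `g - 1` -/
def im (g : V ≃ₗ[F] V) : Submodule F V := LinearMap.range ((g : V →ₗ[F] V) - LinearMap.id)

/-- `g` is a scalar -/
def Scal (g : V ≃ₗ[F] V) : Prop := ∃ c : F, ∀ v, g v = c • v

/-- the determinant of `g` on every fixed member is `1` -/
def Nrm (M : Finset (Submodule F V)) (g : V ≃ₗ[F] V) : Prop :=
  ∀ π ∈ fx M g, ∀ h : ∀ x ∈ π, (g : V →ₗ[F] V) x ∈ π, LinearMap.det ((g : V →ₗ[F] V).restrict h) = 1

/-- the number of singular vectors is that of a hyperbolic quadric in dimension 10 -/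
def Hyp [Fintype F] (B : V →ₗ[F] V →ₗ[F] F) : Prop :=
  Nat.card {v : V // B v v = 0} = Fintype.card F ^ 9 + Fintype.card F ^ 5 - Fintype.card F ^ 4

/-- `ρ` is an isometry of odd prime order `r`, `r ∣ q ^ 4 + 1`, preserving `M` -/
structure Rho [Fintype F] (B : V →ₗ[F] V →ₗ[F] F) (M : Finset (Submodule F V)) (r : ℕ) (ρ : V ≃ₗ[F] V) :
    Prop where
  simi : Simi B M 1 ρ
  prime : r.Prime
  odd : r ≠ 2
  dvd : r ∣ Fintype.card F ^ 4 + 1
  pow : ρ ^ r = 1
  ne : ρ ≠ 1

/-- `W` has dimension 8, `β` is a nondegenerate symmetric form and `ρ` is an isometry of odd prime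
order `r`, `r ∣ q ^ 4 + 1` -/
structure R8 {W : Type*} [AddCommGroup W] [Module F W] [Fintype F] (β : W →ₗ[F] W →ₗ[F] F) (r : ℕ)
    (ρ : W ≃ₗ[F] W) : Prop where
  two : (2 : F) ≠ 0
  dim : finrank F W = 8
  symm : ∀ v w, β v w = β w v
  nondeg : ∀ v, (∀ w, β v w = 0) → v = 0
  iso : ∀ v w, β (ρ v) (ρ w) = β v w
  prime : r.Prime
  odd : r ≠ 2
  dvd : r ∣ Fintype.card F ^ 4 + 1
  pow : ρ ^ r = 1
  ne : ρ ≠ 1

/-- `ρ + ρ⁻¹` -/
def ss {W : Type*} [AddCommGroup W] [Module F W] (ρ : W ≃ₗ[F] W) : W →ₗ[F] W :=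
  (ρ : W →ₗ[F] W) + (ρ.symm : W →ₗ[F] W)

/-- the norm map `x ↦ (β ((ρ + ρ⁻¹) ^ i x) x)_i`, `i < 4` -/
def nm {W : Type*} [AddCommGroup W] [Module F W] (β : W →ₗ[F] W →ₗ[F] F) (ρ : W ≃ₗ[F] W) (x : W) :
    Fin 4 → F := fun i => β ((ss ρ ^ (i : ℕ)) x) x

end Pool.Agent.LibNT29
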