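import Mathlib

set_option autoImplicit false

/-!
[NT29 E1] SHORT, only Mathlib. Arithmetic for an odd prime `r` dividing `q^4 + 1`: `q^4 = -1`, `q^8 = 1` in `ZMod r`, and `-1 ≠ 1`, so the order of `q` is 8
(`orderOf_eq_prime_pow` or `orderOf_dvd_iff_pow_eq_one`). `cop`: a divisor `m` of `q^4+1` which is odd is coprime to `q`, `q - 1`, `q + 1` (a prime `r` dividing `m` and one of them: `q = 0, 1, -1` in `ZMod r`, `q^4 + 1 = 1, 2, 2`).
-/

namespace Pool.Agent.LibNT29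

private theorem E1_four {q r : ℕ} (hd : r ∣ q ^ 4 + 1) : (q : ZMod r) ^ 4 = -1 := by
  have h := (ZMod.natCast_eq_zero_iff (q ^ 4 + 1) r).2 hd
  push_cast at h
  exact eq_neg_of_add_eq_zero_left h

private theorem E1_ne {r : ℕ} (hr : r.Prime) (h2 : r ≠ 2) : (2 : ZMod r) ≠ 0 := by
  intro h
  have h1 : ((2 : ℕ) : ZMod r) = 0 := by exact_mod_cast h
  have h3 := (ZMod.natCast_eq_zero_iff 2 r).1 h1
  exact h2 ((Nat.prime_dvd_prime_iff_eq hr Nat.prime_two).1 h3)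

theorem ord8 {q r : ℕ} (hq : 1 ≤ q) (hr : r.Prime) (h2 : r ≠ 2) (hd : r ∣ q ^ 4 + 1) {d : ℕ}
    (h : r ∣ q ^ d - 1) : 8 ∣ d := by
  have h4 := E1_four hd
  have hne := E1_ne hr h2
  have h8 : (q : ZMod r) ^ 2 ^ (2 + 1) = 1 := by
    have : (q : ZMod r) ^ 2 ^ (2 + 1) = ((q : ZMod r) ^ 4) ^ 2 := by norm_num [← pow_mul]
    rw [this, h4]
    ring
  have h4' : ¬ (q : ZMod r) ^ 2 ^ 2 = 1 := by
    intro h5
    have h6 : (q : ZMod r) ^ 2 ^ 2 = (q : ZMod r) ^ 4 := by norm_num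
    rw [h6, h4] at h5
    apply hne
    linear_combination -h5
  have ho := orderOf_eq_prime_pow h4' h8
  have hpow : (q : ZMod r) ^ d = 1 := by
    have h5 := (ZMod.natCast_eq_zero_iff (q ^ d - 1) r).2 h
    rw [Nat.cast_sub (Nat.one_le_pow _ _ hq)] at h5
    push_cast at h5
    exact sub_eq_zero.1 h5
  have h6 := orderOf_dvd_of_pow_eq_one hpow
  rw [ho] at h6
  exact h6

theorem ord8' {q r : ℕ} (hr : r.Prime) (h2 : r ≠ 2) (hd : r ∣ q ^ 4 + 1) : r ∣ q ^ 8 - 1 := by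
  have h1 : q ^ 8 - 1 = (q ^ 4 + 1) * (q ^ 4 - 1) := by
    have := Nat.sq_sub_sq (q ^ 4) 1
    rw [← this, ← pow_mul]
  rw [h1]
  exact Dvd.dvd.mul_right hd _

theorem cop {q m : ℕ} (hq : 1 ≤ q) (hm : Odd m) (hd : m ∣ q ^ 4 + 1) :
    Nat.Coprime m q ∧ Nat.Coprime m (q - 1) ∧ Nat.Coprime m (q + 1) := by
  have key : ∀ p : ℕ, p.Prime → p ∣ m → p ≠ 2 ∧ (q : ZMod p) ^ 4 = -1 := by
    intro p hp hpm
    refine ⟨?_, E1_four (hpm.trans hd)⟩
    rintro rfl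
    exact (Nat.not_even_iff_odd.2 hm) (even_iff_two_dvd.2 hpm)
  refine ⟨?_, ?_, ?_⟩
  · refine Nat.Coprime.symm ?_
    refine Nat.coprime_of_dvd fun p hp hpq hpm => ?_
    obtain ⟨h2, h4⟩ := key p hp hpm
    have h5 := (ZMod.natCast_eq_zero_iff q p).2 hpq
    have := Fact.mk hp
    rw [h5] at h4
    have h6 : (1 : ZMod p) = 0 := by linear_combination h4
    exact one_ne_zero h6
  · refine Nat.Coprime.symm ?_
    refine Nat.coprime_of_dvd fun p hp hpq hpm => ?_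
    obtain ⟨h2, h4⟩ := key p hp hpm
    have h5 := (ZMod.natCast_eq_zero_iff (q - 1) p).2 hpq
    rw [Nat.cast_sub hq] at h5
    push_cast at h5
    have h6 : (q : ZMod p) = 1 := sub_eq_zero.1 h5
    rw [h6] at h4
    exact E1_ne hp h2 (by linear_combination h4)
  · refine Nat.Coprime.symm ?_
    refine Nat.coprime_of_dvd fun p hp hpq hpm => ?_
    obtain ⟨h2, h4⟩ := key p hp hpm
    have h5 := (ZMod.natCast_eq_zero_iff (q + 1) p).2 hpq
    push_cast at h5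
    have h6 : (q : ZMod p) = -1 := eq_neg_of_add_eq_zero_left h5
    rw [h6] at h4
    exact E1_ne hp h2 (by linear_combination h4)

theorem mod4 {q : ℕ} (hq : Odd q) : (q ^ 4 + 1) % 4 = 2 := by
  obtain ⟨k, rfl⟩ := hq
  have h : (2 * k + 1) ^ 4 + 1 = 4 * (4 * k ^ 4 + 8 * k ^ 3 + 6 * k ^ 2 + 2 * k) + 2 := by ring
  rw [h]
  omega

end Pool.Agent.LibNT29
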