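import Pool.Agent.LibNT29.A1
import Pool.Agent.LibNT29.E1

set_option autoImplicit false

/-!
[NT29 E2] MEDIUM. `V = eg ρ 1 ⊕ im ρ` for an isometry `ρ` of order `r` (`Rho`). Orthogonal: `pp_im`: `B x (ρ y - y) = B (ρ⁻¹ x - x) y = 0`. `eg ρ 1 ⊓ im ρ = ⊥`: if `x = ρ y - y` is fixed then `ρ^n y = y + n x`, `n = r`: `r x = 0`, and `r ≠ 0` in `F`
(`r ∤ q`: `ord8`/`cop`; `(r : F) = 0` would give `char F = r ∣ q`). Dimensions add up to 10. `dim (im ρ) > 0` as `ρ ≠ 1`. `r ∣ |im ρ| - 1 = q^d - 1`: the group `⟨ρ⟩` acts on `im ρ \ {0}` without fixed points, orbits of length `r` (`IsPGroup.card_modEq_card_fixedPoints`, or LibBT65 R4 style).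
So `8 ∣ d` (`ord8`), `0 < d ≤ 10`: `d = 8`.
-/

namespace Pool.Agent.LibNT29

open Module Pool.Agent.LibBT65

variable {F V : Type*} [Field F] [Fintype F] [AddCommGroup V] [Module F V]
  {B : V →ₗ[F] V →ₗ[F] F} {M : Finset (Submodule F V)}

private theorem E2_dvd {F V : Type*} [Field F] [Fintype F] [AddCommGroup V] [Module F V] [Finite V]
    (ρ : V ≃ₗ[F] V) {r : ℕ} (hr : r.Prime) (hp : ρ ^ r = 1) (X : Submodule F V)
    (hX : ∀ x ∈ X, ρ x ∈ X) (hfix : ∀ x ∈ X, ρ x = x → x = 0) :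
    r ∣ Fintype.card F ^ finrank F X - 1 := by
  classical
  haveI : Fact r.Prime := ⟨hr⟩
  haveI : Fintype X := Fintype.ofFinite X
  let f : Function.End X := fun x => ⟨ρ x, hX x x.2⟩
  have hpow : ∀ (n : ℕ) (x : X), ((f ^ n) x).1 = (ρ ^ n) x := by
    intro n
    induction n with
    | zero =>
      intro x
      rfl
    | succ n ih =>
      intro x
      rw [pow_succ']
      show ρ ((f ^ n) x).1 = _
      rw [ih x, pow_succ']
      rfl
  have hf : f ^ r ^ 1 = 1 := by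
    rw [pow_one]
    funext x
    apply Subtype.ext
    rw [hpow, hp]
    rfl
  have h := Equiv.Perm.card_fixedPoints_modEq hf
  have h1 : Fintype.card (Function.fixedPoints f) = 1 := by
    rw [Fintype.card_eq_one_iff]
    refine ⟨⟨0, ?_⟩, ?_⟩
    · apply Subtype.ext
      exact map_zero ρ
    · rintro ⟨x, hx⟩
      apply Subtype.ext
      apply Subtype.ext
      exact hfix x.1 x.2 (congrArg Subtype.val hx)
  rw [h1, Module.card_eq_pow_finrank (K := F)] at h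
  exact (Nat.modEq_iff_dvd' (Nat.one_le_pow _ _ Fintype.card_pos)).1 h.symm

private theorem E2_finV (hS : Sys B M) : Finite V := by
  have := fin hS
  exact Module.finite_of_finite F

private theorem E2_q {r : ℕ} {ρ : V ≃ₗ[F] V} (hρ : Rho B M r ρ) : (r : F) ≠ 0 := by
  intro h
  obtain ⟨hc, -, -⟩ := cop Fintype.card_pos (hρ.prime.odd_of_ne_two hρ.odd) hρ.dvd
  obtain ⟨a, b, hab⟩ := Nat.isCoprime_iff_coprime.2 hc
  have h1 := congrArg (Int.cast : ℤ → F) hab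
  push_cast at h1
  rw [h, FiniteField.cast_card_eq_zero] at h1
  rw [mul_zero, mul_zero, add_zero] at h1
  exact zero_ne_one h1

private theorem E2_mem_eg {ρ : V ≃ₗ[F] V} {x : V} : x ∈ eg ρ 1 ↔ ρ x = x := by
  rw [mem_eg, one_smul]

private theorem E2_inter {r : ℕ} {ρ : V ≃ₗ[F] V} (hρ : Rho B M r ρ) {x : V} (h1 : x ∈ eg ρ 1)
    (h2 : x ∈ im ρ) : x = 0 := by
  rw [E2_mem_eg] at h1
  obtain ⟨y, hy⟩ := h2
  have hy' : ρ y = y + x := by
    rw [← hy]
    change ρ y = y + (ρ y - y)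
    abel
  have h3 : ∀ n : ℕ, (ρ ^ n) y = y + (n : F) • x := by
    intro n
    induction n with
    | zero => simp
    | succ n ih =>
      rw [pow_succ']
      change ρ ((ρ ^ n) y) = _
      rw [ih, map_add, map_smul, h1, hy']
      push_cast
      rw [add_smul, one_smul]
      abel
  have h4 := h3 r
  rw [hρ.pow] at h4
  change y = y + (r : F) • x at h4
  have h5 : (r : F) • x = 0 := by
    rw [left_eq_add] at h4
    exact h4
  rcases smul_eq_zero.1 h5 with h6 | h6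
  · exact (E2_q hρ h6).elim
  · exact h6

private theorem E2_inv {ρ : V ≃ₗ[F] V} : ∀ x ∈ im ρ, ρ x ∈ im ρ := by
  rintro _ ⟨y, rfl⟩
  refine ⟨ρ y, ?_⟩
  change ρ (ρ y) - ρ y = ρ (ρ y - y)
  rw [map_sub]

theorem rho_dim (hS : Sys B M) {r : ℕ} {ρ : V ≃ₗ[F] V} (hρ : Rho B M r ρ) :
    finrank F (eg ρ 1) = 2 ∧ finrank F (im ρ) = 8 ∧ IsCompl (eg ρ 1) (im ρ) ∧
      ∀ x ∈ eg ρ 1, ∀ y ∈ im ρ, B x y = 0 := by
  have := fin hS
  have := E2_finV hS
  have hpp := pp_im hS hρ.simi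
  have hsum := pp_finrank hS (im ρ)
  rw [hpp] at hsum
  have hdisj : Disjoint (eg ρ 1) (im ρ) := by
    rw [Submodule.disjoint_def]
    intro x h1 h2
    exact E2_inter hρ h1 h2
  have hne : finrank F (im ρ) ≠ 0 := by
    intro h0
    apply hρ.ne
    have hbot : im ρ = ⊥ := Submodule.finrank_eq_zero.1 h0
    ext v
    have h1 : ρ v - v ∈ im ρ := ⟨v, rfl⟩
    rw [hbot, Submodule.mem_bot] at h1
    exact sub_eq_zero.1 h1
  have hdvd := E2_dvd ρ hρ.prime hρ.pow (im ρ) E2_inv (fun x hx hf =>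
    E2_inter hρ (E2_mem_eg.2 hf) hx)
  have h8 := ord8 Fintype.card_pos hρ.prime hρ.odd hρ.dvd hdvd
  have hle : finrank F (im ρ) = 8 := by omega
  refine ⟨by omega, hle, ⟨hdisj, ?_⟩, ?_⟩
  · rw [codisjoint_iff]
    refine Submodule.eq_top_of_disjoint _ _ ?_ hdisj
    rw [hS.dimV, hsum]
  · intro x hx y hy
    rw [← hpp, mem_pp] at hx
    exact hx y hy

theorem im_map (hS : Sys B M) {r : ℕ} {ρ : V ≃ₗ[F] V} (hρ : Rho B M r ρ) (g : V ≃ₗ[F] V)
    (hc : ∀ v, g (ρ v) = ρ (g v)) : (im ρ).map (g : V →ₗ[F] V) = im ρ := by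
  apply le_antisymm
  · rintro _ ⟨_, ⟨y, rfl⟩, rfl⟩
    refine ⟨g y, ?_⟩
    change ρ (g y) - g y = g (ρ y - y)
    rw [map_sub, hc]
  · rintro _ ⟨y, rfl⟩
    refine ⟨ρ (g.symm y) - g.symm y, ⟨g.symm y, rfl⟩, ?_⟩
    change g (ρ (g.symm y) - g.symm y) = ρ y - y
    rw [map_sub, hc, g.apply_symm_apply]

/-- the restriction to `im ρ` satisfies `R8` -/
theorem to_R8 (hS : Sys B M) {r : ℕ} {ρ : V ≃ₗ[F] V} (hρ : Rho B M r ρ) (h : (im ρ).map (ρ : V →ₗ[F] V) = im ρ) :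
    R8 (B.domRestrict₁₂ (im ρ) (im ρ)) r (ρ.ofSubmodules (im ρ) (im ρ) h) := by
  obtain ⟨h2, h8, hc, ho⟩ := rho_dim hS hρ
  have hpow : ∀ (n : ℕ) (x : im ρ),
      (((ρ.ofSubmodules (im ρ) (im ρ) h) ^ n) x : V) = (ρ ^ n) (x : V) := by
    intro n
    induction n with
    | zero =>
      intro x
      rfl
    | succ n ih =>
      intro x
      rw [pow_succ', pow_succ']
      change ρ ((((ρ.ofSubmodules (im ρ) (im ρ) h) ^ n) x : im ρ) : V) = ρ ((ρ ^ n) (x : V))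
      rw [ih x]
  refine ⟨hS.two, h8, fun v w => hS.symm _ _, ?_, ?_, hρ.prime, hρ.odd, hρ.dvd, ?_, ?_⟩
  · intro v hv
    have h1 : (v : V) ∈ eg ρ 1 := by
      rw [← pp_im hS hρ.simi, mem_pp]
      intro u hu
      exact hv ⟨u, hu⟩
    exact Subtype.ext (E2_inter hρ h1 v.2)
  · intro v w
    have h1 := hρ.simi.sim (v : V) (w : V)
    rw [one_mul] at h1
    exact h1
  · ext x
    rw [hpow, hρ.pow]
    rfl
  · intro h1
    have hbot : im ρ = ⊥ := by
      rw [Submodule.eq_bot_iff]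
      intro x hx
      refine E2_inter hρ (E2_mem_eg.2 ?_) hx
      have h3 := congrArg (fun e : (im ρ) ≃ₗ[F] (im ρ) => ((e ⟨x, hx⟩ : im ρ) : V)) h1
      exact h3
    rw [hbot, finrank_bot] at h8
    omega

end Pool.Agent.LibNT29
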