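import Mathlib

set_option autoImplicit false

/-!
[NT29 F1] MEDIUM/STRONG, only Mathlib. Number of zeros of quadratic forms (given by symmetric bilinear forms, `2 ≠ 0`) modulo powers of `q = card F`.
`N(β)` = number of `x` with `β x x = 0`. `zero3`: if `dim X ≥ 3` there is a singular `x ≠ 0` (Chevalley-Warning, see `isotropic` in LibBT65/A5.lean: copy it or import).
`one_form`: `q^2 ∣ N(β)` for `dim X = 5`, `q ∣ N(β)` for `dim X = 3` or `4`. Take `v ≠ 0` singular. On the coset `x + F v`: `β (x + a v) (x + a v) = β x x + 2 a β x v`. If `β x v ≠ 0` exactly one `a` gives 0; if `β x v = 0` all or none.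
So `N(β) = (q^d - |v^⊥|)/q + q N'`, `N'` the number of zeros of the form on `v^⊥ / v` (it is well defined there). If `v` is in the radical, `v^⊥ = X`, `N = q N'` with `dim (X/v) = d - 1`; otherwise `|v^⊥| = q^(d-1)`, `N = q^(d-1) - q^(d-2) + q N'` with `dim (v^⊥/v) = d - 2`.
`d = 3`: `q ∣ N` (both cases). `d = 4`: `q ∣ N`. `d = 5`: `q^4 - q^3 + q N'`, `N'` in dimension 3; or `q N'`, `N'` in dimension 4: `q^2 ∣ N`. (Instead of quotients use a complement of `F v` in `v^⊥`.)
`two_forms`: `dim X = 5`: `N₂` = number of common zeros of `β`, `γ`: the `q + 1` forms `β + c γ` (`c ∈ F`) and `γ`: a common zero is a zero of all, any other `x` of exactly one: `∑ N = (q+1) N₂ + (q^5 - N₂)`, so `q N₂ = ∑ N - q^5` is divisible by `q^2`.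
-/

namespace Pool.Agent.LibNT29

open Module

private theorem F1_isotropic {F X : Type*} [Field F] [Fintype F] [AddCommGroup X] [Module F X]
    [FiniteDimensional F X] (two : (2 : F) ≠ 0) (β : X →ₗ[F] X →ₗ[F] F)
    (hsymm : ∀ x y, β x y = β y x) (hd : 3 ≤ finrank F X) : ∃ x, x ≠ 0 ∧ β x x = 0 := by
  classical
  have : Invertible (2 : F) := invertibleOfNonzero two
  obtain ⟨v, hv⟩ := LinearMap.BilinForm.exists_orthogonal_basis (B := β) ⟨fun x y => by
    simpa using hsymm x y⟩
  have ho : ∀ i j, i ≠ j → β (v i) (v j) = 0 := fun i j hij => hv hij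
  set e1 := v ⟨0, by omega⟩ with he1
  set e2 := v ⟨1, by omega⟩ with he2
  set e3 := v ⟨2, by omega⟩ with he3
  have h12 : β e1 e2 = 0 := ho _ _ (by simp)
  have h13 : β e1 e3 = 0 := ho _ _ (by simp)
  have h21 : β e2 e1 = 0 := ho _ _ (by simp)
  have h23 : β e2 e3 = 0 := ho _ _ (by simp)
  have h31 : β e3 e1 = 0 := ho _ _ (by simp)
  have h32 : β e3 e2 = 0 := ho _ _ (by simp)
  by_cases ha : β e1 e1 = 0
  · exact ⟨e1, v.ne_zero _, ha⟩
  by_cases hb : β e2 e2 = 0
  · exact ⟨e2, v.ne_zero _, hb⟩
  by_cases hc : β e3 e3 = 0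
  · exact ⟨e3, v.ne_zero _, hc⟩
  have hchar : ringChar F ≠ 2 := by
    intro h
    have h1 := ringChar.Nat.cast_ringChar (R := F)
    rw [h] at h1
    exact two (by exact_mod_cast h1)
  have hodd := FiniteField.odd_card_of_char_ne_two hchar
  have hf2 : (Polynomial.C (β e1 e1) * Polynomial.X ^ 2 : Polynomial F).degree = 2 :=
    Polynomial.degree_C_mul_X_pow 2 ha
  have hg2 : (Polynomial.C (β e2 e2) * Polynomial.X ^ 2 + Polynomial.C (β e3 e3) :
      Polynomial F).degree = 2 := by
    rw [Polynomial.degree_add_eq_left_of_degree_lt]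
    · exact Polynomial.degree_C_mul_X_pow 2 hb
    · rw [Polynomial.degree_C_mul_X_pow 2 hb]
      exact lt_of_le_of_lt Polynomial.degree_C_le (by norm_num)
  obtain ⟨x, y, hxy⟩ := FiniteField.exists_root_sum_quadratic hf2 hg2 hodd
  simp only [Polynomial.eval_add, Polynomial.eval_mul, Polynomial.eval_C, Polynomial.eval_pow,
    Polynomial.eval_X] at hxy
  refine ⟨x • e1 + y • e2 + e3, ?_, ?_⟩
  · intro h0
    have h1 : β (x • e1 + y • e2 + e3) e3 = 0 := by rw [h0, map_zero, LinearMap.zero_apply]
    simp only [map_add, map_smul, LinearMap.add_apply, LinearMap.smul_apply, smul_eq_mul, h13,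
      h23, mul_zero, zero_add] at h1
    exact hc h1
  · simp only [map_add, map_smul, LinearMap.add_apply, LinearMap.smul_apply, smul_eq_mul, h12,
      h13, h21, h23, h31, h32, mul_zero, add_zero, zero_add]
    linear_combination hxy

private theorem F1_split {X : Type*} [Finite X] (p r : X → Prop) :
    Nat.card {x : X // p x} = Nat.card {x : X // p x ∧ r x} + Nat.card {x : X // p x ∧ ¬ r x} := by
  classical
  have e1 := Nat.card_congr (Equiv.sumCompl (fun x : {x : X // p x} => r x)).symm
  rw [Nat.card_sum] at e1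
  rw [e1]
  congr 1
  · exact Nat.card_congr (Equiv.subtypeSubtypeEquivSubtypeInter p r)
  · exact Nat.card_congr (Equiv.subtypeSubtypeEquivSubtypeInter p (fun x => ¬ r x))

private theorem F1_step {F X : Type*} [Field F] [Fintype F] [AddCommGroup X] [Module F X]
    [FiniteDimensional F X] (two : (2 : F) ≠ 0) (β : X →ₗ[F] X →ₗ[F] F)
    (hβ : ∀ x y, β x y = β y x) (v : X) (hv0 : v ≠ 0) (hv : β v v = 0) :
    ∃ C : Submodule F X,
      (finrank F C + 1 = finrank F X ∧
        Nat.card {x : X // β x x = 0} = Fintype.card F * Nat.card {x : C // β x x = 0}) ∨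
      (finrank F C + 2 = finrank F X ∧
        Nat.card {x : X // β x x = 0} + Fintype.card F ^ finrank F C =
          Fintype.card F ^ (finrank F C + 1) + Fintype.card F * Nat.card {x : C // β x x = 0}) := by
  classical
  have hfin : Finite X := Module.finite_of_finite F
  obtain ⟨D, hD⟩ := Submodule.exists_isCompl (Submodule.span F {v})
  let W : Submodule F X := LinearMap.ker (β.flip v)
  have hW : ∀ x, x ∈ W ↔ β x v = 0 := fun x => by
    simp only [W, LinearMap.mem_ker, LinearMap.flip_apply]
  let C : Submodule F X := D ⊓ W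
  have hdec : ∀ x : X, ∃ a : F, x - a • v ∈ D := by
    intro x
    have h1 : x ∈ Submodule.span F {v} ⊔ D := by rw [hD.sup_eq_top]; trivial
    obtain ⟨y, hy, z, hz, rfl⟩ := Submodule.mem_sup.mp h1
    obtain ⟨a, rfl⟩ := Submodule.mem_span_singleton.mp hy
    exact ⟨a, by simpa using hz⟩
  have huniq : ∀ a : F, a • v ∈ D → a = 0 := by
    intro a ha
    have h1 : a • v ∈ Submodule.span F {v} ⊓ D :=
      ⟨Submodule.smul_mem _ _ (Submodule.mem_span_singleton_self v), ha⟩
    rw [hD.inf_eq_bot, Submodule.mem_bot, smul_eq_zero] at h1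
    exact h1.resolve_right hv0
  have hq1 : ∀ (a : F) (x : X), β (x + a • v) v = β x v := by
    intro a x
    simp only [map_add, map_smul, LinearMap.add_apply, LinearMap.smul_apply, hv, smul_zero, add_zero]
  have hq2 : ∀ (a : F) (x : X), β (x + a • v) (x + a • v) = β x x + 2 * a * β x v := by
    intro a x
    simp only [map_add, map_smul, LinearMap.add_apply, LinearMap.smul_apply, hv, smul_eq_mul,
      hβ v x]
    ring
  have hvW : v ∈ W := (hW v).mpr hv
  have huq : ∀ (a b : F) (c d : X), c ∈ D → d ∈ D → c + a • v = d + b • v → a = b ∧ c = d := by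
    intro a b c d hc hd h
    have h1 : (a - b) • v ∈ D := by
      have : (a - b) • v = d - c := by
        rw [sub_smul, sub_eq_sub_iff_add_eq_add]
        rw [add_comm (a • v), add_comm d]
        rw [h]
        abel
      rw [this]
      exact D.sub_mem hd hc
    have h2 := sub_eq_zero.mp (huniq _ h1)
    refine ⟨h2, ?_⟩
    rw [h2] at h
    exact add_right_cancel h
  -- all of W
  have cW : Nat.card W = Fintype.card F * Nat.card C := by
    rw [← Nat.card_eq_fintype_card, ← Nat.card_prod]
    refine (Nat.card_congr (Equiv.ofBijective (fun x : F × C =>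
      (⟨(x.2 : X) + x.1 • v, W.add_mem x.2.2.2 (W.smul_mem _ hvW)⟩ : W)) ⟨?_, ?_⟩)).symm
    · rintro ⟨a, c⟩ ⟨b, d⟩ h
      obtain ⟨h1, h2⟩ := huq a b c d c.2.1 d.2.1 (congrArg Subtype.val h)
      exact Prod.ext h1 (Subtype.ext h2)
    · rintro ⟨w, hw⟩
      obtain ⟨a, ha⟩ := hdec w
      refine ⟨(a, ⟨w - a • v, ha, W.sub_mem hw (W.smul_mem _ hvW)⟩), ?_⟩
      exact Subtype.ext (sub_add_cancel _ _)
  -- zeros in W
  have cZ : Nat.card {x : X // β x x = 0 ∧ x ∈ W} =
      Fintype.card F * Nat.card {x : C // β x x = 0} := by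
    rw [← Nat.card_eq_fintype_card, ← Nat.card_prod]
    refine (Nat.card_congr (Equiv.ofBijective (fun x : F × {x : C // β x x = 0} =>
      (⟨(x.2 : X) + x.1 • v, by
        rw [hq2, x.2.2, (hW _).mp x.2.1.2.2, mul_zero, add_zero], W.add_mem x.2.1.2.2 (W.smul_mem _ hvW)⟩ :
        {x : X // β x x = 0 ∧ x ∈ W})) ⟨?_, ?_⟩)).symm
    · rintro ⟨a, c⟩ ⟨b, d⟩ h
      obtain ⟨h1, h2⟩ := huq a b c d c.1.2.1 d.1.2.1 (congrArg Subtype.val h)
      exact Prod.ext h1 (Subtype.ext (Subtype.ext h2))
    · rintro ⟨w, hw0, hw⟩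
      obtain ⟨a, ha⟩ := hdec w
      have hc : w - a • v ∈ W := W.sub_mem hw (W.smul_mem _ hvW)
      refine ⟨(a, ⟨⟨w - a • v, ha, hc⟩, ?_⟩), ?_⟩
      · have h3 := hq2 a (w - a • v)
        rw [sub_add_cancel, hw0, (hW _).mp hc, mul_zero, add_zero] at h3
        exact h3.symm
      · exact Subtype.ext (sub_add_cancel _ _)
  -- outside W
  have cO : Nat.card {x : X // x ∉ W} =
      Fintype.card F * Nat.card {x : X // β x x = 0 ∧ x ∉ W} := by
    rw [← Nat.card_eq_fintype_card, ← Nat.card_prod]
    refine (Nat.card_congr (Equiv.ofBijective (fun x : F × {x : X // β x x = 0 ∧ x ∉ W} =>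
      (⟨(x.2 : X) + x.1 • v, fun h => x.2.2.2 (by
        rw [hW] at h ⊢
        rwa [hq1] at h)⟩ : {x : X // x ∉ W})) ⟨?_, ?_⟩)).symm
    · rintro ⟨a, c, hc0, hc⟩ ⟨b, d, hd0, hd⟩ h
      have h1 : c + a • v = d + b • v := congrArg Subtype.val h
      have h2 := congrArg (fun z => β z z) h1
      have h3 := congrArg (fun z => β z v) h1
      simp only [hq1, hq2, hc0, hd0, zero_add] at h2 h3
      rw [h3] at h2
      have h4 : β d v ≠ 0 := fun h => hd ((hW d).mpr h)
      have h5 : a = b := by
        have := mul_right_cancel₀ h4 h2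
        exact mul_left_cancel₀ two this
      rw [h5] at h1
      exact Prod.ext h5 (Subtype.ext (add_right_cancel h1))
    · rintro ⟨w, hw⟩
      have h4 : β w v ≠ 0 := fun h => hw ((hW w).mpr h)
      have h6 : β (w + (-(β w w / (2 * β w v))) • v) v = β w v := hq1 _ _
      refine ⟨(β w w / (2 * β w v), ⟨w + (-(β w w / (2 * β w v))) • v, ?_, ?_⟩), ?_⟩
      · rw [hq2]
        field_simp
        ring
      · intro h
        rw [hW, h6] at h
        exact h4 h
      · apply Subtype.ext
        change w + (-(β w w / (2 * β w v))) • v + (β w w / (2 * β w v)) • v = w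
        rw [neg_smul, neg_add_cancel_right]
  have s1 := F1_split (fun x : X => β x x = 0) (fun x => x ∈ W)
  rw [cZ] at s1
  have hF : Nat.card F = Fintype.card F := Nat.card_eq_fintype_card
  have hqpos : 1 < Fintype.card F := Fintype.one_lt_card
  have kX : Nat.card X = Fintype.card F ^ finrank F X := by
    rw [Module.natCard_eq_pow_finrank (K := F), hF]
  have kW : Nat.card W = Fintype.card F ^ finrank F W := by
    rw [Module.natCard_eq_pow_finrank (K := F), hF]
  have kC : Nat.card C = Fintype.card F ^ finrank F C := by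
    rw [Module.natCard_eq_pow_finrank (K := F), hF]
  have dW : finrank F W = finrank F C + 1 := by
    have : Fintype.card F ^ finrank F W = Fintype.card F ^ (finrank F C + 1) := by
      rw [← kW, cW, kC, pow_succ, mul_comm]
    exact Nat.pow_right_injective hqpos this
  refine ⟨C, ?_⟩
  by_cases hT : W = ⊤
  · left
    refine ⟨?_, ?_⟩
    · rw [← dW, hT, finrank_top]
    · have h0 : Nat.card {x : X // β x x = 0 ∧ x ∉ W} = 0 := by
        have : IsEmpty {x : X // β x x = 0 ∧ x ∉ W} := ⟨fun x => x.2.2 (Submodule.eq_top_iff'.mp hT x.1)⟩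
        exact Nat.card_of_isEmpty
      rw [s1, h0, add_zero]
  · right
    have hne : β.flip v ≠ 0 := by
      intro h
      apply hT
      change LinearMap.ker (β.flip v) = ⊤
      rw [h, LinearMap.ker_zero]
    have dX : finrank F W + 1 = finrank F X := by
      have h1 := LinearMap.finrank_range_add_finrank_ker (β.flip v)
      have h2 : finrank F (LinearMap.range (β.flip v)) = 1 := by
        rw [LinearMap.range_eq_top.mpr (LinearMap.surjective hne), finrank_top, finrank_self]
      rw [h2] at h1
      change finrank F (LinearMap.ker (β.flip v)) + 1 = _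
      omega
    refine ⟨by omega, ?_⟩
    have s2 := F1_split (fun _ : X => True) (fun x => x ∈ W)
    have e1 : Nat.card {x : X // True} = Nat.card X := Nat.card_congr (Equiv.subtypeUnivEquiv fun _ => trivial)
    have e2 : Nat.card {x : X // True ∧ x ∈ W} = Nat.card W := by
      refine Nat.card_congr (Equiv.subtypeEquivRight fun x => ?_)
      simp
    have e3 : Nat.card {x : X // True ∧ x ∉ W} = Nat.card {x : X // x ∉ W} := by
      refine Nat.card_congr (Equiv.subtypeEquivRight fun x => ?_)
      simp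
    rw [e1, e2, e3, cO, kX, kW, ← dX, dW, pow_succ] at s2
    have s3 : Nat.card {x : X // β x x = 0 ∧ x ∉ W} + Fintype.card F ^ finrank F C =
        Fintype.card F ^ (finrank F C + 1) := by
      have hq0 : 0 < Fintype.card F := by omega
      refine Nat.eq_of_mul_eq_mul_left hq0 ?_
      rw [mul_add, ← pow_succ']
      linarith
    rw [s1]
    linarith

private theorem F1_small {F X : Type*} [Field F] [Fintype F] [AddCommGroup X] [Module F X]
    (two : (2 : F) ≠ 0) (hX : finrank F X = 3 ∨ finrank F X = 4) (β : X →ₗ[F] X →ₗ[F] F)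
    (hβ : ∀ x y, β x y = β y x) : Fintype.card F ∣ Nat.card {x : X // β x x = 0} := by
  have hfd : FiniteDimensional F X := FiniteDimensional.of_finrank_pos (by omega)
  obtain ⟨v, hv0, hv⟩ := F1_isotropic two β hβ (by omega)
  obtain ⟨C, hC⟩ := F1_step two β hβ v hv0 hv
  rcases hC with ⟨-, h2⟩ | ⟨h1, h2⟩
  · rw [h2]
    exact Dvd.intro _ rfl
  · have h3 : Fintype.card F ∣ Fintype.card F ^ finrank F C := dvd_pow_self _ (by omega)
    have h4 : Fintype.card F ∣ Fintype.card F ^ (finrank F C + 1) := dvd_pow_self _ (by omega)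
    rw [← Nat.dvd_add_left h3, h2]
    exact dvd_add h4 (Dvd.intro _ rfl)

theorem one_form {F X : Type*} [Field F] [Fintype F] [AddCommGroup X] [Module F X] (two : (2 : F) ≠ 0)
    (hX : finrank F X = 5) (β : X →ₗ[F] X →ₗ[F] F) (hβ : ∀ x y, β x y = β y x) :
    Fintype.card F ^ 2 ∣ Nat.card {x : X // β x x = 0} := by
  have hfd : FiniteDimensional F X := FiniteDimensional.of_finrank_pos (by omega)
  obtain ⟨v, hv0, hv⟩ := F1_isotropic two β hβ (by omega)
  obtain ⟨C, hC⟩ := F1_step two β hβ v hv0 hv
  have h0 : finrank F C = 3 ∨ finrank F C = 4 := by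
    rcases hC with ⟨h1, -⟩ | ⟨h1, -⟩ <;> omega
  have h5 : Fintype.card F ∣ Nat.card {x : C // β x x = 0} :=
    F1_small two h0 (β.compl₁₂ C.subtype C.subtype) (fun x y => hβ _ _)
  have h6 : Fintype.card F ^ 2 ∣ Fintype.card F * Nat.card {x : C // β x x = 0} := by
    rw [pow_two]
    exact Nat.mul_dvd_mul_left _ h5
  rcases hC with ⟨-, h2⟩ | ⟨h1, h2⟩
  · rw [h2]
    exact h6
  · have h3 : Fintype.card F ^ 2 ∣ Fintype.card F ^ finrank F C := pow_dvd_pow _ (by omega)
    have h4 : Fintype.card F ^ 2 ∣ Fintype.card F ^ (finrank F C + 1) := pow_dvd_pow _ (by omega)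
    rw [← Nat.dvd_add_left h3, h2]
    exact dvd_add h4 h6

theorem two_forms {F X : Type*} [Field F] [Fintype F] [AddCommGroup X] [Module F X] (two : (2 : F) ≠ 0)
    (hX : finrank F X = 5) (β γ : X →ₗ[F] X →ₗ[F] F) (hβ : ∀ x y, β x y = β y x)
    (hγ : ∀ x y, γ x y = γ y x) :
    Fintype.card F ∣ Nat.card {x : X // β x x = 0 ∧ γ x x = 0} := by
  classical
  have hfd : FiniteDimensional F X := FiniteDimensional.of_finrank_pos (by omega)
  have hfin : Finite X := Module.finite_of_finite F
  have : Fintype X := Fintype.ofFinite X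
  have hqpos : 0 < Fintype.card F := Fintype.card_pos
  have hnc : ∀ p : X → Prop, Nat.card {x : X // p x} = ∑ x : X, if p x then 1 else 0 := by
    intro p
    rw [Nat.card_eq_fintype_card, Fintype.card_subtype, Finset.card_filter]
  have hpt : ∀ x : X, (∑ c : F, if β x x + c * γ x x = 0 then 1 else 0) +
      (if γ x x = 0 then 1 else 0) = 1 + Fintype.card F * (if β x x = 0 ∧ γ x x = 0 then 1 else 0) := by
    intro x
    by_cases hg : γ x x = 0
    · by_cases hb : β x x = 0
      · simp [hg, hb, add_comm]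
      · simp [hg, hb]
    · have h1 : ∀ c : F, (β x x + c * γ x x = 0) ↔ c = -(β x x / γ x x) := by
        intro c
        constructor
        · intro h
          field_simp
          linear_combination h
        · rintro rfl
          field_simp
          ring
      simp [hg, h1]
  have hsum : (∑ c : F, Nat.card {x : X // β x x + c * γ x x = 0}) + Nat.card {x : X // γ x x = 0} =
      Fintype.card F ^ 5 + Fintype.card F * Nat.card {x : X // β x x = 0 ∧ γ x x = 0} := by
    have hX5 : Fintype.card X = Fintype.card F ^ 5 := by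
      rw [← Nat.card_eq_fintype_card, Module.natCard_eq_pow_finrank (K := F), hX,
        Nat.card_eq_fintype_card]
    simp only [hnc]
    rw [Finset.sum_comm, ← Finset.sum_add_distrib, Finset.sum_congr rfl (fun x _ => hpt x),
      Finset.sum_add_distrib, ← Finset.mul_sum]
    congr 1
    · simp [hX5]
    · refine congrArg _ (Finset.sum_congr rfl fun x _ => ?_)
      split_ifs <;> first | rfl | (exfalso; tauto)
  have d1 : ∀ c : F, Fintype.card F ^ 2 ∣ Nat.card {x : X // β x x + c * γ x x = 0} := by
    intro c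
    have h := one_form two hX (β + c • γ) (fun x y => by
      simp only [LinearMap.add_apply, LinearMap.smul_apply, hβ x y, hγ x y])
    simpa only [LinearMap.add_apply, LinearMap.smul_apply, smul_eq_mul] using h
  have d2 := one_form two hX γ hγ
  have d3 : Fintype.card F ^ 2 ∣ Fintype.card F ^ 5 := pow_dvd_pow _ (by norm_num)
  have d4 := dvd_add (Finset.dvd_sum (fun c (_ : c ∈ Finset.univ) => d1 c)) d2
  rw [hsum] at d4
  have d5 := (Nat.dvd_add_right d3).mp d4
  rw [pow_two] at d5
  exact Nat.dvd_of_mul_dvd_mul_left hqpos d5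

end Pool.Agent.LibNT29
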