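import Pool.Agent.LibNT29.H1

set_option autoImplicit false

/-!
[NT29 H3] MEDIUM/STRONG. `s = ρ + ρ⁻¹` (`ss ρ`). `β (s x) y = β x (s y)`. For `x ≠ 0` let `U` be the span of all `s^n x`, `n : ℕ`.
`U ≠ ⊤`: otherwise `ρ x = f(s) x` for a polynomial `f`, so `ρ = f(s)` (`inj`), `β (ρ v) w = β v (ρ w)`, and `β (ρ v) w = β v (ρ⁻¹ w)` (isometry), so `ρ = ρ⁻¹`, `ρ² = 1`, `ρ = 1` (`r` odd), contradiction.
`U ⊓ ρ U = ⊥`: it is `s`-invariant; if `0 ≠ y = f(s) x` is in it then `f(s)` is injective (`inj`) and maps `U` to the span of the `s^n y`, which is contained in `U ⊓ ρ U`; by dimensions `U ≤ ρ U`, so `ρ U = U` and `U = ⊤` (`irr`), contradiction.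
`U ⊔ ρ U = ⊤`: it is `ρ`-invariant (`ρ² = s ρ - 1`). So `dim U = 4`. Then `x, s x, s² x, s³ x` is a basis of `U` (the first linear dependency `s^n x ∈ span (s^i x)_(i<n)` happens for `n = dim U`): `ss_basis`, `ss_mem`.
`nm_zero`: `β (s^i x) x = 0` for `i < 4` gives `β u x = 0` for `u ∈ U`. For `u = f(s) x`: `2 β (ρ u) x = β (ρ f(s) x) x + β x (ρ f(s) x)`, and `β x (ρ f(s) x) = β (ρ⁻¹ x) (f(s) x) = β (f(s) ρ⁻¹ x) x = β (ρ⁻¹ u) x`, and
`β (ρ u) x = β (f(s) ρ x) x = β (ρ x) (f(s) x) = β x (ρ⁻¹ f(s) x) = β (ρ⁻¹ u) x`; so `2 β (ρ u) x = β (s u) x = 0`. So `x` is orthogonal to `U ⊔ ρ U = ⊤`, `x = 0`.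
-/

namespace Pool.Agent.LibNT29

set_option linter.unusedSectionVars false
set_option linter.style.haveILetI false

open Module

variable {F W : Type*} [Field F] [Fintype F] [AddCommGroup W] [Module F W]
  {β : W →ₗ[F] W →ₗ[F] F} {r : ℕ} {ρ : W ≃ₗ[F] W}

private theorem ss_apply (x : W) : ss ρ x = ρ x + ρ.symm x := rfl

private theorem iso1 (h : R8 β r ρ) (x y : W) : β (ρ.symm x) y = β x (ρ y) := by
  rw [← h.iso (ρ.symm x) y, LinearEquiv.apply_symm_apply]

private theorem iso2 (h : R8 β r ρ) (x y : W) : β (ρ x) y = β x (ρ.symm y) := by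
  have h1 := h.iso x (ρ.symm y)
  rw [LinearEquiv.apply_symm_apply] at h1
  exact h1

private theorem ss_symm1 (h : R8 β r ρ) (x y : W) : β (ss ρ x) y = β x (ss ρ y) := by
  rw [ss_apply, ss_apply, map_add, LinearMap.add_apply, map_add, iso1 h, iso2 h, add_comm]

theorem R8.ss_symm (h : R8 β r ρ) (n : ℕ) (x y : W) : β ((ss ρ ^ n) x) y = β x ((ss ρ ^ n) y) := by
  induction n generalizing x y with
  | zero => rfl
  | succ n ih =>
    have e : (ss ρ ^ (n + 1)) x = ss ρ ((ss ρ ^ n) x) := by rw [pow_succ']; rfl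
    have e' : (ss ρ ^ (n + 1)) y = (ss ρ ^ n) (ss ρ y) := by rw [pow_succ]; rfl
    rw [e, e', ss_symm1 h, ih]

private theorem ss_comm1 (x : W) : ss ρ (ρ x) = ρ (ss ρ x) := by
  rw [ss_apply, ss_apply, map_add, LinearEquiv.symm_apply_apply, LinearEquiv.apply_symm_apply]

theorem R8.ss_comm (n : ℕ) (x : W) : (ss ρ ^ n) (ρ x) = ρ ((ss ρ ^ n) x) := by
  induction n generalizing x with
  | zero => rfl
  | succ n ih =>
    have e : ∀ z : W, (ss ρ ^ (n + 1)) z = ss ρ ((ss ρ ^ n) z) := by intro z; rw [pow_succ']; rfl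
    rw [e, e, ih, ss_comm1]

/-- polynomials in `s` -/
private noncomputable abbrev ps (ρ : W ≃ₗ[F] W) (p : Polynomial F) : W →ₗ[F] W :=
  (Polynomial.aeval (R := F) (A := Module.End F W) (ss ρ) p)

private theorem ps_mul (p q : Polynomial F) (x : W) : ps ρ (p * q) x = ps ρ p (ps ρ q x) := by
  unfold ps
  rw [map_mul]; rfl

private theorem ps_add (p q : Polynomial F) (x : W) : ps ρ (p + q) x = ps ρ p x + ps ρ q x := by
  unfold ps
  rw [map_add]; rfl

private theorem ps_monomial (n : ℕ) (c : F) (x : W) :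
    ps ρ (Polynomial.monomial n c) x = c • (ss ρ ^ n) x := by
  unfold ps
  rw [Polynomial.aeval_monomial, ← Algebra.smul_def]; rfl

private theorem ps_X (x : W) : ps ρ Polynomial.X x = ss ρ x := by
  unfold ps
  rw [Polynomial.aeval_X]

private theorem ps_one (x : W) : ps ρ (1 : Polynomial F) x = x := by
  unfold ps
  rw [map_one]; rfl

private theorem ps_symm (h : R8 β r ρ) (p : Polynomial F) (x y : W) :
    β (ps ρ p x) y = β x (ps ρ p y) := by
  induction p using Polynomial.induction_on' with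
  | add p q hp hq =>
    rw [ps_add, ps_add, map_add, LinearMap.add_apply, map_add, hp, hq]
  | monomial n c =>
    rw [ps_monomial, ps_monomial, map_smul, LinearMap.smul_apply, map_smul, h.ss_symm]

private theorem ps_comm (p : Polynomial F) (x : W) : ps ρ p (ρ x) = ρ (ps ρ p x) := by
  induction p using Polynomial.induction_on' with
  | add p q hp hq => rw [ps_add, ps_add, map_add, hp, hq]
  | monomial n c => rw [ps_monomial, ps_monomial, map_smul, R8.ss_comm]

/-- evaluation at `x` -/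
private noncomputable def ev (ρ : W ≃ₗ[F] W) (x : W) : Polynomial F →ₗ[F] W where
  toFun p := ps ρ p x
  map_add' p q := ps_add p q x
  map_smul' c p := by
    rw [Polynomial.smul_eq_C_mul, ps_mul, ← Polynomial.monomial_zero_left, ps_monomial, pow_zero]
    rfl

private theorem ev_apply (x : W) (p : Polynomial F) : ev ρ x p = ps ρ p x := rfl

/-- `f(s) x = ρ g(s) x` only if `g(s) x = 0` -/
private theorem key0 (h : R8 β r ρ) {x : W} (hx : x ≠ 0) (f g : Polynomial F)
    (hfg : ps ρ f x = ρ (ps ρ g x)) : ps ρ g x = 0 := by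
  have h1 : (ps ρ f) - (ρ : W →ₗ[F] W) ∘ₗ (ps ρ g) = 0 := by
    apply h.inj _ hx
    · rw [LinearMap.sub_apply, sub_eq_zero]
      exact hfg
    · intro y
      rw [LinearMap.sub_apply, LinearMap.sub_apply, LinearMap.comp_apply, LinearMap.comp_apply, map_sub,
        ps_comm, ps_comm]
      rfl
  have h2 : ∀ y, ps ρ f y = ρ (ps ρ g y) := by
    intro y
    have h3 := LinearMap.congr_fun h1 y
    rw [LinearMap.sub_apply, LinearMap.zero_apply, sub_eq_zero] at h3
    exact h3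
  have h4 : ∀ w, ρ (ps ρ g w) = ρ.symm (ps ρ g w) := by
    intro w
    rw [← sub_eq_zero]
    apply h.nondeg
    intro v
    rw [h.symm, map_sub, sub_eq_zero]
    have e1 : β v (ρ (ps ρ g w)) = β (ρ (ps ρ g v)) w := by
      rw [← h2, ← ps_symm h, h2]
    rw [e1, iso2 h, ps_symm h]
    have e2 : ps ρ g (ρ.symm w) = ρ.symm (ps ρ g w) := by
      rw [LinearEquiv.eq_symm_apply, ← ps_comm, LinearEquiv.apply_symm_apply]
    rw [e2]
  by_contra hne
  -- `z = g(s) x` is fixed by `ρ ^ 2`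
  obtain ⟨z, hz⟩ : ∃ z, z = ps ρ g x := ⟨_, rfl⟩
  rw [← hz] at hne
  have h5 : ρ (ρ z) = z := by
    have := h4 x
    rw [← hz] at this
    rw [this, LinearEquiv.apply_symm_apply]
  have h6 : ∀ n : ℕ, (ρ ^ (2 * n)) z = z := by
    intro n
    induction n with
    | zero => rfl
    | succ n ih =>
      rw [show 2 * (n + 1) = 2 * n + 1 + 1 by ring, pow_succ, pow_succ]
      show (ρ ^ (2 * n)) (ρ (ρ z)) = z
      rw [h5, ih]
  have h7 : ρ z = z := by
    have hodd : Odd r := h.prime.odd_of_ne_two h.odd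
    obtain ⟨m, hm⟩ := hodd
    have h8 := h6 (m + 1)
    rw [show 2 * (m + 1) = r + 1 by omega, pow_succ', h.pow, mul_one] at h8
    exact h8
  have h9 : (ρ : W →ₗ[F] W) - LinearMap.id = 0 := by
    apply h.inj _ hne
    · rw [LinearMap.sub_apply, sub_eq_zero]
      exact h7
    · intro y
      rw [LinearMap.sub_apply, LinearMap.sub_apply, map_sub]
      rfl
  apply h.ne
  ext y
  have h10 := LinearMap.congr_fun h9 y
  rw [LinearMap.sub_apply, LinearMap.zero_apply, sub_eq_zero] at h10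
  exact h10

private theorem memU (x y : W) : y ∈ LinearMap.range (ev ρ x) ↔ ∃ p, ps ρ p x = y := Iff.rfl

private theorem supU (h : R8 β r ρ) {x : W} (hx : x ≠ 0) :
    LinearMap.range (ev ρ x) ⊔ (LinearMap.range (ev ρ x)).map (ρ : W →ₗ[F] W) = ⊤ := by
  have hinv : ∀ y ∈ LinearMap.range (ev ρ x) ⊔ (LinearMap.range (ev ρ x)).map (ρ : W →ₗ[F] W),
      ρ y ∈ LinearMap.range (ev ρ x) ⊔ (LinearMap.range (ev ρ x)).map (ρ : W →ₗ[F] W) := by
    intro y hy
    rw [Submodule.mem_sup] at hy ⊢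
    obtain ⟨u, ⟨p, hp⟩, v', ⟨v, ⟨q, hq⟩, hv⟩, huv⟩ := hy
    rw [ev_apply] at hp hq
    have hv' : ρ v = v' := hv
    refine ⟨-v, ⟨-q, ?_⟩, ρ (u + ss ρ v), ⟨u + ss ρ v, ⟨p + Polynomial.X * q, ?_⟩, rfl⟩, ?_⟩
    · rw [map_neg, ev_apply, hq]
    · rw [map_add, ev_apply, ev_apply, ps_mul, ps_X, hp, hq]
    · rw [← huv, ← hv', map_add, map_add, ss_apply, map_add, LinearEquiv.apply_symm_apply]
      abel
  rcases h.irr _ hinv with h1 | h1
  · exfalso
    apply hx
    have h2 : x ∈ LinearMap.range (ev ρ x) ⊔ (LinearMap.range (ev ρ x)).map (ρ : W →ₗ[F] W) :=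
      Submodule.mem_sup_left ⟨1, ps_one x⟩
    rw [h1] at h2
    exact (Submodule.mem_bot F).1 h2
  · exact h1

private theorem finW (h : R8 β r ρ) : Module.Finite F W :=
  Module.finite_of_finrank_pos (by rw [h.dim]; norm_num)

private theorem dimU (h : R8 β r ρ) {x : W} (hx : x ≠ 0) : finrank F (LinearMap.range (ev ρ x)) = 4 := by
  haveI := finW h
  have h1 := Submodule.finrank_sup_add_finrank_inf_eq (LinearMap.range (ev ρ x))
    ((LinearMap.range (ev ρ x)).map (ρ : W →ₗ[F] W))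
  have h2 : LinearMap.range (ev ρ x) ⊓ (LinearMap.range (ev ρ x)).map (ρ : W →ₗ[F] W) = ⊥ := by
    rw [eq_bot_iff]
    rintro y ⟨⟨f, hf⟩, ⟨z, ⟨g, hg⟩, hz⟩⟩
    rw [ev_apply] at hf hg
    have hz' : ρ z = y := hz
    rw [Submodule.mem_bot]
    have h3 := key0 h hx f g (by rw [hf, hg, hz'])
    rw [hg] at h3
    rw [← hz', h3, map_zero]
  rw [supU h hx, h2, finrank_bot, finrank_top, h.dim,
    LinearEquiv.finrank_map_eq ρ (LinearMap.range (ev ρ x))] at h1
  omega

private theorem ev_inj (h : R8 β r ρ) {x : W} (hx : x ≠ 0) (p : Polynomial F) (hp : p ≠ 0)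
    (hd : p.degree < 4) : ps ρ p x ≠ 0 := by
  haveI := finW h
  intro h0
  have hU := dimU h hx
  have h1 : LinearMap.range (ev ρ x) ≤ (Polynomial.degreeLT F 3).map (ev ρ x) := by
    rintro y ⟨f, hf⟩
    refine ⟨f % p, ?_, ?_⟩
    · have h2 := Polynomial.degree_mod_lt f hp
      have h3 : p.degree ≤ (3 : ℕ) := by
        rw [Polynomial.degree_eq_natDegree hp] at hd ⊢
        have h4 : p.natDegree < 4 := by exact_mod_cast hd
        have h5 : p.natDegree ≤ 3 := by omega
        exact_mod_cast h5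
      rw [SetLike.mem_coe, Polynomial.mem_degreeLT]
      exact lt_of_lt_of_le h2 h3
    · rw [← hf, ev_apply, ev_apply]
      conv_rhs => rw [← EuclideanDomain.mod_add_div f p]
      rw [ps_add, mul_comm, ps_mul, h0, map_zero, add_zero]
  have h2 := Submodule.finrank_mono h1
  have h3 := Submodule.finrank_map_le (ev ρ x) (Polynomial.degreeLT F 3)
  have h4 : finrank F (Polynomial.degreeLT F 3) = 3 := by
    rw [(Polynomial.degreeLTEquiv F 3).finrank_eq]
    simp
  omega

theorem R8.ss_basis (h : R8 β r ρ) {x : W} (hx : x ≠ 0) :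
    LinearIndependent F (fun i : Fin 4 => (ss ρ ^ (i : ℕ)) x) := by
  rw [Fintype.linearIndependent_iff]
  intro c hc
  obtain ⟨p, hp⟩ : ∃ p : Polynomial F, p = ∑ i : Fin 4, Polynomial.monomial (i : ℕ) (c i) := ⟨_, rfl⟩
  have h1 : ps ρ p x = 0 := by
    rw [← ev_apply, hp, map_sum, ← hc]
    apply Finset.sum_congr rfl
    intro i _
    rw [ev_apply, ps_monomial]
  have h2 : p.degree < 4 := by
    have h3 : p ∈ Polynomial.degreeLT F 4 := by
      rw [hp]
      apply Submodule.sum_mem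
      intro i _
      rw [Polynomial.mem_degreeLT]
      refine lt_of_le_of_lt (Polynomial.degree_monomial_le _ _) ?_
      exact_mod_cast i.2
    rw [Polynomial.mem_degreeLT] at h3
    exact h3
  have h3 : p = 0 := by
    by_contra hne
    exact ev_inj h hx p hne h2 h1
  intro i
  have h4 : p.coeff (i : ℕ) = c i := by
    rw [hp, Polynomial.finsetSum_coeff, Finset.sum_eq_single i]
    · rw [Polynomial.coeff_monomial, if_pos rfl]
    · intro b _ hb
      rw [Polynomial.coeff_monomial, if_neg (fun hh => hb (Fin.ext hh))]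
    · intro hh
      exact absurd (Finset.mem_univ i) hh
  rw [← h4, h3, Polynomial.coeff_zero]

private theorem spanU (h : R8 β r ρ) {x : W} (hx : x ≠ 0) :
    Submodule.span F (Set.range fun i : Fin 4 => (ss ρ ^ (i : ℕ)) x) = LinearMap.range (ev ρ x) := by
  haveI := finW h
  apply Submodule.eq_of_le_of_finrank_eq
  · rw [Submodule.span_le]
    rintro _ ⟨i, rfl⟩
    refine ⟨Polynomial.monomial (i : ℕ) 1, ?_⟩
    rw [ev_apply, ps_monomial, one_smul]
  · rw [dimU h hx, finrank_span_eq_card (h.ss_basis hx), Fintype.card_fin]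

theorem R8.ss_mem (h : R8 β r ρ) (x : W) (n : ℕ) :
    (ss ρ ^ n) x ∈ Submodule.span F (Set.range fun i : Fin 4 => (ss ρ ^ (i : ℕ)) x) := by
  by_cases hx : x = 0
  · rw [hx, map_zero]
    exact Submodule.zero_mem _
  · rw [spanU h hx]
    refine ⟨Polynomial.monomial n 1, ?_⟩
    rw [ev_apply, ps_monomial, one_smul]

theorem R8.ss_sup (h : R8 β r ρ) {x : W} (hx : x ≠ 0) :
    Submodule.span F (Set.range fun i : Fin 4 => (ss ρ ^ (i : ℕ)) x) ⊔
      (Submodule.span F (Set.range fun i : Fin 4 => (ss ρ ^ (i : ℕ)) x)).map (ρ : W →ₗ[F] W) = ⊤ := by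
  rw [spanU h hx, supU h hx]

theorem R8.nm_zero (h : R8 β r ρ) {x : W} (h0 : nm β ρ x = 0) : x = 0 := by
  by_contra hx
  have h1 : ∀ u ∈ LinearMap.range (ev ρ x), β u x = 0 := by
    rw [← spanU h hx]
    intro u hu
    have h2 : Submodule.span F (Set.range fun i : Fin 4 => (ss ρ ^ (i : ℕ)) x) ≤
        LinearMap.ker (β.flip x) := by
      rw [Submodule.span_le]
      rintro _ ⟨i, rfl⟩
      rw [SetLike.mem_coe, LinearMap.mem_ker, LinearMap.flip_apply]
      exact congrFun h0 i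
    exact h2 hu
  have h2 : ∀ u ∈ LinearMap.range (ev ρ x), β (ρ u) x = 0 := by
    rintro u ⟨f, hf⟩
    rw [ev_apply] at hf
    have e1 : β (ρ u) x = β (ρ.symm u) x := by
      rw [← hf, ← ps_comm, ps_symm h, iso2 h, h.symm x]
    have e2 : β (ss ρ u) x = 0 := by
      apply h1
      refine ⟨Polynomial.X * f, ?_⟩
      rw [ev_apply, ps_mul, ps_X, hf]
    rw [ss_apply, map_add, LinearMap.add_apply, ← e1] at e2
    have e3 : (2 : F) * β (ρ u) x = 0 := by rw [two_mul]; exact e2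
    exact (mul_eq_zero.1 e3).resolve_left h.two
  apply hx
  apply h.nondeg
  intro w
  rw [h.symm]
  have hw : w ∈ LinearMap.range (ev ρ x) ⊔ (LinearMap.range (ev ρ x)).map (ρ : W →ₗ[F] W) := by
    rw [supU h hx]; exact Submodule.mem_top
  rw [Submodule.mem_sup] at hw
  obtain ⟨u, hu, v', ⟨v, hv, rfl⟩, rfl⟩ := hw
  rw [map_add, LinearMap.add_apply, h1 u hu, zero_add]
  exact h2 v hv

theorem R8.nm_smul (c : F) (x : W) : nm β ρ (c • x) = c ^ 2 • nm β ρ x := by
  funext i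
  show β ((ss ρ ^ (i : ℕ)) (c • x)) (c • x) = c ^ 2 * β ((ss ρ ^ (i : ℕ)) x) x
  rw [map_smul, map_smul, map_smul, LinearMap.smul_apply, smul_eq_mul, smul_eq_mul]
  ring

theorem R8.nm_inv (h : R8 β r ρ) {g : W ≃ₗ[F] W} (hc : ∀ x, g (ρ x) = ρ (g x))
    (hi : ∀ x y, β (g x) (g y) = β x y) (x : W) : nm β ρ (g x) = nm β ρ x := by
  have h1 : ∀ x, ss ρ (g x) = g (ss ρ x) := by
    intro x
    rw [ss_apply, ss_apply, map_add, hc]
    congr 1
    rw [LinearEquiv.symm_apply_eq, ← hc, LinearEquiv.apply_symm_apply]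
  have h2 : ∀ (n : ℕ) (x : W), (ss ρ ^ n) (g x) = g ((ss ρ ^ n) x) := by
    intro n
    induction n with
    | zero => intro x; rfl
    | succ n ih =>
      intro x
      have e : ∀ z : W, (ss ρ ^ (n + 1)) z = ss ρ ((ss ρ ^ n) z) := by intro z; rw [pow_succ']; rfl
      rw [e, e, ih, h1]
  funext i
  show β ((ss ρ ^ (i : ℕ)) (g x)) (g x) = β ((ss ρ ^ (i : ℕ)) x) x
  rw [h2, hi]

end Pool.Agent.LibNT29
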