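import Pool.Agent.LibNT29.F1
import Pool.Agent.LibNT29.H3

set_option autoImplicit false

/-!
[NT29 F3] SHORT/MEDIUM. For a subspace `A` of `W` of dimension 5 and `L ≤ F^4` of dimension 2 the number of `x ∈ A` with `nm β ρ x ∈ L` is divisible by `q`: `L = {w : l w = l' w = 0}` for two linear functionals (`Submodule.dualAnnihilator` has dimension 2, `Subspace.dualAnnihilator_dualCoannihilator_eq`);
`l (nm β ρ x) = ∑ i, l_i β (s^i x) x = γ x x` with the symmetric (`ss_symm`) bilinear form `γ = ∑ l_i β (s^i ·) ·` restricted to `A`: `two_forms` on the type `A`.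
-/

namespace Pool.Agent.LibNT29

open Module

variable {F W : Type*} [Field F] [Fintype F] [AddCommGroup W] [Module F W]
  {β : W →ₗ[F] W →ₗ[F] F} {r : ℕ} {ρ : W ≃ₗ[F] W}

private theorem F3_func (L : Submodule F (Fin 4 → F)) (hL : finrank F L = 2) :
    ∃ l l' : (Fin 4 → F) →ₗ[F] F, ∀ w, w ∈ L ↔ l w = 0 ∧ l' w = 0 := by
  have hq : finrank F ((Fin 4 → F) ⧸ L) = 2 := by
    have h1 := Submodule.finrank_quotient_add_finrank L
    rw [hL, Module.finrank_fintype_fun_eq_card, Fintype.card_fin] at h1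
    omega
  obtain ⟨e⟩ : Nonempty (((Fin 4 → F) ⧸ L) ≃ₗ[F] (Fin 2 → F)) :=
    FiniteDimensional.nonempty_linearEquiv_of_finrank_eq (by
      rw [hq, Module.finrank_fintype_fun_eq_card, Fintype.card_fin])
  refine ⟨(LinearMap.proj (R := F) (φ := fun _ : Fin 2 => F) 0).comp ((e : _ →ₗ[F] (Fin 2 → F)).comp L.mkQ),
    (LinearMap.proj (R := F) (φ := fun _ : Fin 2 => F) 1).comp ((e : _ →ₗ[F] (Fin 2 → F)).comp L.mkQ),
    fun w => ?_⟩
  have h1 : w ∈ L ↔ e (L.mkQ w) = 0 := by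
    rw [e.map_eq_zero_iff]
    exact (Submodule.Quotient.mk_eq_zero L).symm
  rw [h1]
  constructor
  · intro h2
    have h3 : ∀ i, (e (L.mkQ w)) i = 0 := fun i => by rw [h2]; rfl
    exact ⟨h3 0, h3 1⟩
  · rintro ⟨h2, h3⟩
    funext i
    fin_cases i
    · exact h2
    · exact h3

private theorem F3_form (h : R8 β r ρ) (A : Submodule F W) (l : (Fin 4 → F) →ₗ[F] F) :
    ∃ γ : A →ₗ[F] A →ₗ[F] F, (∀ x y, γ x y = γ y x) ∧ ∀ x : A, γ x x = l (nm β ρ (x : W)) := by
  have hval : ∀ x y : A, (∑ i : Fin 4, (l (fun j => if i = j then 1 else 0)) •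
      ((β.comp (ss ρ ^ (i : ℕ))).domRestrict₁₂ A A)) x y =
      ∑ i : Fin 4, (l (fun j => if i = j then 1 else 0)) * β ((ss ρ ^ (i : ℕ)) (x : W)) (y : W) := by
    intro x y
    rw [LinearMap.sum_apply, LinearMap.sum_apply]
    refine Finset.sum_congr rfl fun i _ => ?_
    rfl
  refine ⟨∑ i : Fin 4, (l (fun j => if i = j then 1 else 0)) •
      ((β.comp (ss ρ ^ (i : ℕ))).domRestrict₁₂ A A), fun x y => ?_, fun x => ?_⟩
  · rw [hval, hval]
    refine Finset.sum_congr rfl fun i _ => ?_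
    rw [h.ss_symm, h.symm]
  · rw [hval, LinearMap.pi_apply_eq_sum_univ l (nm β ρ (x : W))]
    refine Finset.sum_congr rfl fun i _ => ?_
    rw [smul_eq_mul, mul_comm]
    rfl

theorem R8.pencil (h : R8 β r ρ) {A : Submodule F W} (hA : finrank F A = 5) {L : Submodule F (Fin 4 → F)}
    (hL : finrank F L = 2) : Fintype.card F ∣ Nat.card {x : W // x ∈ A ∧ nm β ρ x ∈ L} := by
  obtain ⟨l, l', hl⟩ := F3_func L hL
  obtain ⟨γ, hγ, hγ'⟩ := F3_form h A l
  obtain ⟨δ, hδ, hδ'⟩ := F3_form h A l'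
  have h1 := two_forms h.two hA γ δ hγ hδ
  have h2 : Nat.card {x : W // x ∈ A ∧ nm β ρ x ∈ L} =
      Nat.card {x : A // γ x x = 0 ∧ δ x x = 0} := by
    refine Nat.card_congr ((Equiv.subtypeSubtypeEquivSubtypeInter (fun x : W => x ∈ A)
      (fun x : W => nm β ρ x ∈ L)).symm.trans (Equiv.subtypeEquivRight fun x => ?_))
    rw [hγ', hδ', hl]
  rw [h2]
  exact h1

end Pool.Agent.LibNT29
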