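import Pool.Agent.LibNT29.FDefs

set_option autoImplicit false

/-!
[NT29 F4] MEDIUM, only Mathlib. `q = card F`, `t x` = number of `i` with `x ∈ A i`. (`Finite W`: `Module.finite_of_finite` with `FiniteDimensional.of_finrank_pos`; `Finite ι`: `Nat.card ι ≠ 0`.)
`card_Zf`: `∑_(x ≠ 0) t x = (q^4+1)(q^5-1)`; members of `P` contribute `(q^4+1)(q-1)`; so the number `X` of the `x ≠ 0`, `x ∉ P`, `t x ≠ 0` satisfies `(q+1) X = (q^4+1)(q^5-1) - (q^4+1)(q-1)`, `X = (q^4+1) q (q-1)(q^2+1)`,
`|Zf| = q^8 - 1 - (q^4+1)(q-1) - X = (q^4+1)(q-1) q^2`.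
`dvd_Zf`: `N : W → F^4` any map with `N x = 0 → x = 0`, `N 0 = 0`, every `w ≠ 0` taken `q^4+1` times; `L` of dimension 2 with `q ∣ #{x ∈ A i : N x ∈ L}` for all `i`. `∑_(N x ∈ L) t x = ∑_i #{x ∈ A i : N x ∈ L} = 0` mod `q`. `t x = 1` mod `q` for all `x ∉ Zf` (`t 0 = q^4+1`). The number of `x`
with `N x ∈ L` is `1 + (q^2-1)(q^4+1) = 0` mod `q`. So `#{x ∈ Zf : N x ∈ L} = 0` mod `q`.
-/

namespace Pool.Agent.LibNT29

open Module

variable {F W ι : Type*} [Field F] [Fintype F] [AddCommGroup W] [Module F W] {A : ι → Submodule F W} {P : Set W}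

private theorem F4_finW (h : Fam A P) : Finite W := by
  have : FiniteDimensional F W := FiniteDimensional.of_finrank_pos (by rw [h.dimW]; norm_num)
  exact Module.finite_of_finite F

private theorem F4_fin (h : Fam A P) : Finite ι := by
  refine Nat.finite_of_card_ne_zero ?_
  rw [h.card]
  omega

private theorem F4_count {α : Type*} [Fintype α] (p : α → Prop) [DecidablePred p] :
    Nat.card {x // p x} = ∑ x, if p x then 1 else 0 := by
  rw [Nat.card_eq_fintype_card, Fintype.card_subtype, Finset.card_filter]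

private theorem F4_swap [Fintype W] [Fintype ι] (S : W → Prop) [DecidablePred S] :
    ∑ x : W, (if S x then Nat.card {i // x ∈ A i} else 0) = ∑ i, Nat.card {x : W // x ∈ A i ∧ S x} := by
  classical
  have h1 : ∀ x : W, (if S x then Nat.card {i // x ∈ A i} else 0) =
      ∑ i, if x ∈ A i ∧ S x then 1 else 0 := by
    intro x
    by_cases hx : S x
    · rw [if_pos hx, F4_count]
      refine Finset.sum_congr rfl fun i _ => ?_
      simp [hx]
    · rw [if_neg hx]
      symm
      refine Finset.sum_eq_zero fun i _ => ?_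
      rw [if_neg]
      rintro ⟨-, h⟩
      exact hx h
  rw [Finset.sum_congr rfl fun x _ => h1 x, Finset.sum_comm]
  refine Finset.sum_congr rfl fun i _ => ?_
  rw [F4_count]

private theorem F4_zero (h : Fam A P) : Nat.card {i // (0 : W) ∈ A i} = Fintype.card F ^ 4 + 1 := by
  rw [← h.card]
  exact Nat.card_congr (Equiv.subtypeUnivEquiv fun i => (A i).zero_mem)

private theorem F4_Zf (h : Fam A P) (x : W) : x ∈ Zf A ↔ Nat.card {i // x ∈ A i} = 0 := by
  have := F4_fin h
  rw [Finite.card_eq_zero_iff, isEmpty_subtype]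
  rfl

theorem card_Zf (h : Fam A P) :
    Nat.card (Zf A) = (Fintype.card F ^ 4 + 1) * Fintype.card F ^ 2 * (Fintype.card F - 1) := by
  classical
  have := F4_finW h
  have := F4_fin h
  have : Fintype W := Fintype.ofFinite W
  have : Fintype ι := Fintype.ofFinite ι
  have hq : 1 < Fintype.card F := Fintype.one_lt_card
  have hpt : ∀ x : W, (Nat.card {i // x ∈ A i} : ℤ) + ((Fintype.card F : ℤ) + 1) * (if x ∈ Zf A then 1 else 0) +
      (Fintype.card F : ℤ) * (if x ∈ P then 1 else 0) = ((Fintype.card F : ℤ) + 1) +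
        ((Fintype.card F : ℤ) ^ 4 - Fintype.card F) * (if x = 0 then 1 else 0) := by
    intro x
    by_cases h0 : x = 0
    · subst h0
      have h1 : (0 : W) ∉ Zf A := by
        rw [F4_Zf h, F4_zero h]
        omega
      rw [F4_zero h, if_neg h1, if_neg h.zero, if_pos rfl]
      push_cast
      ring
    · by_cases hP : x ∈ P
      · have h1 : x ∉ Zf A := by
          rw [F4_Zf h, h.one x hP]
          omega
        rw [h.one x hP, if_neg h1, if_pos hP, if_neg h0]
        push_cast
        ring
      · rcases h.val x h0 hP with h2 | h2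
        · rw [h2, if_pos ((F4_Zf h x).2 h2), if_neg hP, if_neg h0]
          push_cast
          ring
        · have h1 : x ∉ Zf A := by
            rw [F4_Zf h, h2]
            omega
          rw [h2, if_neg h1, if_neg hP, if_neg h0]
          push_cast
          ring
  have hsum := Finset.sum_congr (rfl : (Finset.univ : Finset W) = Finset.univ) fun x _ => hpt x
  rw [Finset.sum_add_distrib, Finset.sum_add_distrib, Finset.sum_add_distrib, ← Finset.mul_sum,
    ← Finset.mul_sum, ← Finset.mul_sum] at hsum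
  have hZ : (∑ x : W, (if x ∈ Zf A then 1 else 0 : ℤ)) = (Nat.card (Zf A) : ℤ) := by
    have h1 : Nat.card (Zf A) = ∑ x : W, if x ∈ Zf A then 1 else 0 := F4_count (fun x => x ∈ Zf A)
    rw [h1]
    push_cast
    rfl
  have hP : (∑ x : W, (if x ∈ P then 1 else 0 : ℤ)) = (Nat.card P : ℤ) := by
    have h1 : Nat.card P = ∑ x : W, if x ∈ P then 1 else 0 := F4_count (fun x => x ∈ P)
    rw [h1]
    push_cast
    rfl
  have h0 : (∑ x : W, (if x = 0 then 1 else 0 : ℤ)) = 1 := by
    rw [Finset.sum_ite_eq' Finset.univ (0 : W)]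
    simp
  have hW : (∑ _x : W, ((Fintype.card F : ℤ) + 1)) = (Fintype.card F : ℤ) ^ 8 * ((Fintype.card F : ℤ) + 1) := by
    rw [Finset.sum_const, Finset.card_univ, Module.card_eq_pow_finrank (K := F), h.dimW, nsmul_eq_mul]
    push_cast
    ring
  have hT : (∑ x : W, (Nat.card {i // x ∈ A i} : ℤ)) =
      ((Fintype.card F : ℤ) ^ 4 + 1) * (Fintype.card F : ℤ) ^ 5 := by
    have h1 := F4_swap (A := A) (fun _ => True)
    simp only [if_true, and_true] at h1
    have h2 : ∀ i, Nat.card {x : W // x ∈ A i} = Fintype.card F ^ 5 := by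
      intro i
      have h3 : Nat.card (A i) = Fintype.card F ^ 5 := by
        rw [Nat.card_eq_fintype_card, Module.card_eq_pow_finrank (K := F), h.dim i]
      exact h3
    rw [Finset.sum_congr rfl fun i _ => h2 i, Finset.sum_const, Finset.card_univ,
      ← Nat.card_eq_fintype_card, h.card, smul_eq_mul] at h1
    exact_mod_cast h1
  rw [hZ, hP, h0, hW, hT, h.cardP] at hsum
  have hc : (((Fintype.card F ^ 4 + 1) * (Fintype.card F - 1) : ℕ) : ℤ) =
      ((Fintype.card F : ℤ) ^ 4 + 1) * ((Fintype.card F : ℤ) - 1) := by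
    rw [Nat.cast_mul, Nat.cast_sub hq.le]
    push_cast
    ring
  rw [hc] at hsum
  have hgoal : (Nat.card (Zf A) : ℤ) =
      ((Fintype.card F : ℤ) ^ 4 + 1) * (Fintype.card F : ℤ) ^ 2 * ((Fintype.card F : ℤ) - 1) := by
    have hne : ((Fintype.card F : ℤ) + 1) ≠ 0 := by positivity
    apply mul_left_cancel₀ hne
    linear_combination hsum
  have h5 : (((Fintype.card F ^ 4 + 1) * Fintype.card F ^ 2 * (Fintype.card F - 1) : ℕ) : ℤ) =
      ((Fintype.card F : ℤ) ^ 4 + 1) * (Fintype.card F : ℤ) ^ 2 * ((Fintype.card F : ℤ) - 1) := by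
    rw [Nat.cast_mul, Nat.cast_sub hq.le]
    push_cast
    ring
  rw [← h5] at hgoal
  exact_mod_cast hgoal

theorem dvd_Zf (h : Fam A P) (N : W → Fin 4 → F) (h0 : ∀ x, N x = 0 ↔ x = 0)
    (hfib : ∀ w, w ≠ 0 → Nat.card {x : W // N x = w} = Fintype.card F ^ 4 + 1) {L : Submodule F (Fin 4 → F)}
    (hL : finrank F L = 2) (hA : ∀ i, Fintype.card F ∣ Nat.card {x : W // x ∈ A i ∧ N x ∈ L}) :
    Fintype.card F ∣ Nat.card {x : W // x ∈ Zf A ∧ N x ∈ L} := by
  classical
  have := F4_finW h
  have := F4_fin h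
  have : Fintype W := Fintype.ofFinite W
  have : Fintype ι := Fintype.ofFinite ι
  have hQ : ((Fintype.card F : ℕ) : ZMod (Fintype.card F)) = 0 := ZMod.natCast_self _
  have hpt : ∀ x : W, ((Nat.card {i // x ∈ A i} : ℕ) : ZMod (Fintype.card F)) +
      (if x ∈ Zf A then 1 else 0) = 1 := by
    intro x
    by_cases h0' : x = 0
    · subst h0'
      have h1 : (0 : W) ∉ Zf A := by
        rw [F4_Zf h, F4_zero h]
        omega
      rw [F4_zero h, if_neg h1]
      push_cast
      rw [hQ]
      ring
    · by_cases hP : x ∈ P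
      · have h1 : x ∉ Zf A := by
          rw [F4_Zf h, h.one x hP]
          omega
        rw [h.one x hP, if_neg h1]
        push_cast
        ring
      · rcases h.val x h0' hP with h2 | h2
        · rw [h2, if_pos ((F4_Zf h x).2 h2)]
          push_cast
          ring
        · have h1 : x ∉ Zf A := by
            rw [F4_Zf h, h2]
            omega
          rw [h2, if_neg h1]
          push_cast
          rw [hQ]
          ring
  have hsum : ∑ x : W, (if N x ∈ L then (((Nat.card {i // x ∈ A i} : ℕ) : ZMod (Fintype.card F)) +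
      (if x ∈ Zf A then 1 else 0)) else 0) = ∑ x : W, (if N x ∈ L then 1 else 0) := by
    refine Finset.sum_congr rfl fun x _ => ?_
    rw [hpt x]
  have hsplit : ∑ x : W, (if N x ∈ L then (((Nat.card {i // x ∈ A i} : ℕ) : ZMod (Fintype.card F)) +
      (if x ∈ Zf A then 1 else 0)) else 0) =
      ((∑ x : W, (if N x ∈ L then Nat.card {i // x ∈ A i} else 0) : ℕ) : ZMod (Fintype.card F)) +
        ((Nat.card {x : W // x ∈ Zf A ∧ N x ∈ L} : ℕ) : ZMod (Fintype.card F)) := by
    rw [F4_count, Nat.cast_sum, Nat.cast_sum, ← Finset.sum_add_distrib]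
    refine Finset.sum_congr rfl fun x _ => ?_
    by_cases hx : N x ∈ L
    · by_cases hz : x ∈ Zf A
      · simp [hx, hz]
      · simp [hx, hz]
    · simp [hx]
  have hT : ((∑ x : W, (if N x ∈ L then Nat.card {i // x ∈ A i} else 0) : ℕ) :
      ZMod (Fintype.card F)) = 0 := by
    rw [F4_swap (A := A) (fun x => N x ∈ L), ZMod.natCast_eq_zero_iff]
    exact Finset.dvd_sum fun i _ => hA i
  have hS : (∑ x : W, (if N x ∈ L then 1 else 0) : ZMod (Fintype.card F)) = 0 := by
    have h1 : ∀ x : W, (if N x ∈ L then 1 else 0 : ZMod (Fintype.card F)) =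
        ∑ w : L, if N x = w then 1 else 0 := by
      intro x
      by_cases hx : N x ∈ L
      · rw [if_pos hx, Finset.sum_eq_single (⟨N x, hx⟩ : L)]
        · rw [if_pos rfl]
        · intro w _ hw
          rw [if_neg]
          intro he
          exact hw (Subtype.ext he.symm)
        · intro hn
          exact (hn (Finset.mem_univ _)).elim
      · rw [if_neg hx]
        symm
        refine Finset.sum_eq_zero fun w _ => ?_
        rw [if_neg]
        intro he
        exact hx (he ▸ w.2)
    rw [Finset.sum_congr rfl fun x _ => h1 x, Finset.sum_comm]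
    have h2 : ∀ w : L, (∑ x : W, if N x = w then 1 else 0 : ZMod (Fintype.card F)) = 1 := by
      intro w
      have h3 : (∑ x : W, if N x = w then 1 else 0 : ZMod (Fintype.card F)) =
          ((Nat.card {x : W // N x = w} : ℕ) : ZMod (Fintype.card F)) := by
        rw [F4_count]
        push_cast
        rfl
      rw [h3]
      by_cases hw : (w : Fin 4 → F) = 0
      · have h4 : Nat.card {x : W // N x = w} = 1 := by
          rw [hw]
          have : Unique {x : W // N x = 0} :=
            { default := ⟨0, (h0 0).2 rfl⟩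
              uniq := fun y => Subtype.ext ((h0 y.1).1 y.2) }
          exact Nat.card_unique
        rw [h4, Nat.cast_one]
      · rw [hfib _ hw]
        push_cast
        rw [hQ]
        ring
    rw [Finset.sum_congr rfl fun w _ => h2 w, Finset.sum_const, Finset.card_univ,
      Module.card_eq_pow_finrank (K := F) (V := L), hL, nsmul_eq_mul]
    push_cast
    rw [hQ]
    ring
  rw [hsplit, hT, hS, zero_add] at hsum
  exact (ZMod.natCast_eq_zero_iff _ _).1 hsum

end Pool.Agent.LibNT29
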