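import Mathlib

set_option autoImplicit false

/-!
[NT29 F5] MEDIUM/STRONG, only Mathlib. Counting in `F^4`, first part. `q = card F`, `Z ⊆ W` finite with a map `N : W → F^4`, `N x ≠ 0` for `x ∈ Z`. `ζ(L)` = number of `x ∈ Z` with `N x ∈ L`, `Y(a)` = number of `x ∈ Z` with `N x ∈ F a` (the line spanned by `a`).
`planes`: fix `a ≠ 0`, suppose `c ≤ ζ(L)` for all `L` of dimension 2 containing `a`. Then `(q^2 + q + 1) c ≤ |Z| + (q^2 + q) Y(a)`. Proof: `∑_(w ∉ F a) ζ(span {a, w}) ≥ (q^4 - q) c`. A given `x ∈ Z` is counted for `w ∉ F a` with `N x ∈ span {a, w}`: if `N x ∈ F a`: all `q^4 - q`;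
otherwise `w ∈ span {a, N x}`, `w ∉ F a`: `q^2 - q`. So `(q^4 - q) c ≤ (q^4 - q) Y(a) + (q^2 - q)(|Z| - Y(a))`; divide by `q^2 - q`, `q^4 - q = (q^2 - q)(q^2 + q + 1)`.
-/

namespace Pool.Agent.LibNT29

open Module

private theorem F5_card {F : Type*} [Field F] [Fintype F] {n : ℕ} (L : Submodule F (Fin 4 → F))
    (h : finrank F L = n) : Nat.card L = Fintype.card F ^ n := by
  classical
  rw [Module.natCard_eq_pow_finrank (K := F) (V := L), h, Nat.card_eq_fintype_card]

private theorem F5_span2 {F : Type*} [Field F] {a w : Fin 4 → F} (ha : a ≠ 0)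
    (hw : w ∉ Submodule.span F {a}) : finrank F (Submodule.span F {a, w}) = 2 := by
  have hli : LinearIndependent F ![a, w] := by
    rw [LinearIndependent.pair_iff' ha]
    intro c hc
    exact hw (Submodule.mem_span_singleton.2 ⟨c, hc⟩)
  have := finrank_span_eq_card hli
  rw [Matrix.range_cons_cons_empty] at this
  simpa using this

theorem planes {F W : Type*} [Field F] [Fintype F] [Finite W] (N : W → Fin 4 → F) (Z : Set W) (hZ : ∀ x ∈ Z, N x ≠ 0)
    {a : Fin 4 → F} (ha : a ≠ 0) (c : ℕ)
    (hc : ∀ L : Submodule F (Fin 4 → F), finrank F L = 2 → a ∈ L → c ≤ Nat.card {x : W // x ∈ Z ∧ N x ∈ L}) :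
    (Fintype.card F ^ 2 + Fintype.card F + 1) * c ≤ Nat.card Z +
      (Fintype.card F ^ 2 + Fintype.card F) * Nat.card {x : W // x ∈ Z ∧ N x ∈ Submodule.span F {a}} := by
  classical
  have : Fintype W := Fintype.ofFinite W
  set q := Fintype.card F with hq
  have hq2 : 2 ≤ q := Fintype.one_lt_card
  obtain ⟨D, hD⟩ : ∃ D, q ^ 2 = D + q := ⟨q ^ 2 - q, (Nat.sub_add_cancel (by nlinarith)).symm⟩
  have hD0 : 0 < D := by nlinarith
  set A := Submodule.span F {a} with hA
  have hAf : finrank F A = 1 := finrank_span_singleton ha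
  set Wd : Finset (Fin 4 → F) := Finset.univ.filter (fun w => w ∉ A) with hWd
  set Zf : Finset W := Finset.univ.filter (fun x => x ∈ Z) with hZf
  have cardL : ∀ (L : Submodule F (Fin 4 → F)) (n : ℕ), finrank F L = n →
      (Finset.univ.filter (fun w : Fin 4 → F => w ∈ L)).card = q ^ n := by
    intro L n hL
    have h1 := F5_card L hL
    rw [Nat.card_eq_fintype_card] at h1
    rw [← Fintype.card_subtype]
    exact h1
  have hWdc : Wd.card = D * (q ^ 2 + q + 1) := by
    have h1 := Finset.card_filter_add_card_filter_not (s := (Finset.univ : Finset (Fin 4 → F)))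
      (fun w => w ∈ A)
    rw [cardL A 1 hAf, Finset.card_univ, Fintype.card_fun, Fintype.card_fin, ← hq] at h1
    have h2 : q ^ 4 = D * (q ^ 2 + q + 1) + q := by
      have : q ^ 4 = q ^ 2 * q ^ 2 := by ring
      rw [this]
      conv_lhs => rw [hD]
      conv_rhs => rw [hD]
      have h3 : (D + q) * (D + q) = D * D + 2 * (D * q) + q ^ 2 := by ring
      rw [h3, hD]; ring
    have h4 : q + Wd.card = q ^ 4 := by rw [← h1, pow_one]
    rw [h2] at h4
    omega
  have hz : ∀ L : Submodule F (Fin 4 → F), Nat.card {x : W // x ∈ Z ∧ N x ∈ L} =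
      (Zf.filter (fun x => N x ∈ L)).card := by
    intro L
    rw [Nat.card_eq_fintype_card, Fintype.card_subtype, hZf, Finset.filter_filter]
  -- double count
  have dc : ∑ w ∈ Wd, (Zf.filter (fun x => N x ∈ Submodule.span F {a, w})).card =
      ∑ x ∈ Zf, (Wd.filter (fun w => N x ∈ Submodule.span F {a, w})).card :=
    Finset.sum_card_bipartiteAbove_eq_sum_card_bipartiteBelow _
  have low : Wd.card * c ≤ ∑ w ∈ Wd, (Zf.filter (fun x => N x ∈ Submodule.span F {a, w})).card := by
    rw [← smul_eq_mul]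
    refine Finset.card_nsmul_le_sum _ _ _ fun w hw => ?_
    rw [← hz]
    refine hc _ (F5_span2 ha (Finset.mem_filter.1 hw).2) (Submodule.subset_span (by simp))
  have up1 : ∀ x ∈ Zf, N x ∈ A → (Wd.filter (fun w => N x ∈ Submodule.span F {a, w})).card ≤
      D * (q ^ 2 + q + 1) := by
    intro x _ _
    rw [← hWdc]
    exact Finset.card_filter_le _ _
  have up2 : ∀ x ∈ Zf, N x ∉ A → (Wd.filter (fun w => N x ∈ Submodule.span F {a, w})).card ≤ D := by
    intro x _ hxA
    have hL : finrank F (Submodule.span F {a, N x}) = 2 := F5_span2 ha hxA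
    have hsub : Wd.filter (fun w => N x ∈ Submodule.span F {a, w}) ⊆
        (Finset.univ.filter (fun w : Fin 4 → F => w ∈ Submodule.span F {a, N x})) \
          (Finset.univ.filter (fun w : Fin 4 → F => w ∈ A)) := by
      intro w hw
      rw [Finset.mem_filter] at hw
      have hwA := (Finset.mem_filter.1 hw.1).2
      rw [Finset.mem_sdiff, Finset.mem_filter, Finset.mem_filter]
      refine ⟨⟨Finset.mem_univ _, ?_⟩, fun h => hwA h.2⟩
      have h1 : N x ∈ Submodule.span F (insert w {a}) := by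
        rw [Set.pair_comm]; exact hw.2
      have h2 := mem_span_insert_exchange h1 hxA
      rw [Set.pair_comm] at h2
      exact h2
    refine (Finset.card_le_card hsub).trans ?_
    rw [Finset.card_sdiff_of_subset, cardL _ 2 hL, cardL A 1 hAf, hD]
    · simp
    · intro w hw
      rw [Finset.mem_filter] at hw ⊢
      refine ⟨hw.1, Submodule.span_mono ?_ hw.2⟩
      intro z hz
      rw [Set.mem_singleton_iff] at hz
      rw [hz]; exact Set.mem_insert _ _
  have split : ∑ x ∈ Zf, (Wd.filter (fun w => N x ∈ Submodule.span F {a, w})).card ≤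
      (Zf.filter (fun x => N x ∈ A)).card * (D * (q ^ 2 + q + 1)) +
      (Zf.filter (fun x => ¬ N x ∈ A)).card * D := by
    rw [← Finset.sum_filter_add_sum_filter_not Zf (fun x => N x ∈ A)]
    refine add_le_add ?_ ?_
    · rw [← smul_eq_mul]
      exact Finset.sum_le_card_nsmul _ _ _ fun x hx =>
        up1 x (Finset.mem_filter.1 hx).1 (Finset.mem_filter.1 hx).2
    · rw [← smul_eq_mul]
      exact Finset.sum_le_card_nsmul _ _ _ fun x hx =>
        up2 x (Finset.mem_filter.1 hx).1 (Finset.mem_filter.1 hx).2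
  have hZc : Nat.card Z = Zf.card := by
    rw [Nat.card_eq_fintype_card, hZf, ← Set.toFinset_card]
    congr 1
    ext x; simp
  have hsum := Finset.card_filter_add_card_filter_not (s := Zf) (fun x => N x ∈ A)
  rw [hz A, hZc]
  have tot : D * ((q ^ 2 + q + 1) * c) ≤ D * (Zf.card + (q ^ 2 + q) *
      (Zf.filter (fun x => N x ∈ A)).card) := by
    have h1 := low.trans (dc.le.trans split)
    rw [hWdc] at h1
    rw [← hsum]
    calc D * ((q ^ 2 + q + 1) * c) = D * (q ^ 2 + q + 1) * c := by ring
      _ ≤ _ := h1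
      _ = _ := by ring
  exact Nat.le_of_mul_le_mul_left tot hD0

end Pool.Agent.LibNT29
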