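import Pool.Agent.LibNT29.F5

set_option autoImplicit false

/-!
[NT29 F6] MEDIUM/STRONG, only Mathlib + F5. `q = card F` odd, `m k = q^4 + 1`. `Z ⊆ W`, `N : W → F^4`, `ζ(L)`, `Y(a)` as in F5. `m` is coprime to `q` and `q - 1` is coprime to `q`.
`Y(a) ≤ (q-1)(q^4+1) = m (q-1) k` (`hfib`; nonzero multiples of `a`). `Z` is not empty (`htot`), so there is `a = N x₀`, `x₀ ∈ Z`, `Y(a) > 0`. For every `L` of dimension 2 containing `a`: `ζ(L) > 0`, divisible by `q` (`hline`) and by `m (q-1)` (`hdiv`, `S = L`), coprime: `ζ(L) ≥ m (q-1) q`. F5: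
`(q^2+q+1) m (q-1) q ≤ m k q^2 (q-1) + (q^2+q) Y(a)`; write `Y(a) = m (q-1) b` (`hdiv`, `S = F a`), `b ≤ k`: `q^2 + q + 1 ≤ k q + (q+1) b` (*), in particular `q^2+q+1 ≤ k (2q+1)`. Suppose `2 k < q + 3`, so `2 k ≤ q + 2`, `2 k ≤ q + 1` (parity: `q + 2` odd); `k (2q+1) ≥ q^2+q+1` gives `2 k > q`, so `2 k = q + 1`.
Then (*) gives `b (q+1) ≥ q^2+q+1 - q (q+1)/2`, `2 b (q+1) ≥ q^2 + q + 2 > q (q + 1)`, `2 b > q`, `b ≥ k`: so `Y(a) = m (q-1) k` for EVERY `a` with `Y(a) > 0` (`full`), that is all `x` with `N x ∈ F a`, `x ≠ 0`, are in `Z`.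
Not every `a` with `τ a ≠ 0` has `Y(a) > 0`: otherwise `Z` contains all `x` with `τ (N x) ≠ 0`, `(q^4 - q^3)(q^4+1)` elements, more than `m k q^2 (q-1) = (q^4+1) q^2 (q-1)`. Take `a` with `Y(a) > 0` (so `τ a ≠ 0` by `hτZ`) and `b` with `τ b ≠ 0`, `Y(b) = 0`. `L = span {a, b}` has dimension 2 (`b` not in `F a`).
`ζ(L) = j m (q-1) k`, `j` the number of one-dimensional subspaces `F u` of `L` with `Y(u) > 0`; they are among `F a` and `F (b + c a)`, `c ∈ F`: not `F b`, and not the one in `ker τ` (different from `F a`, `F b`). So `1 ≤ j ≤ q - 1`; `q ∣ ζ(L)` and `q` is coprime to `m`, `q - 1`, `k` (`2 k = q + 1`), so `q ∣ j`, contradiction.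
(Avoid counting subspaces: the number of `w ∈ L`, `w ≠ 0`, with `Y(w) > 0` is `j (q-1)`, a set closed under `Fˣ`; `ζ(L) = (q^4+1) j (q-1)`; this set is contained in `{w ∈ L : τ w ≠ 0, w ∉ F b}`, of size `q^2 - q - (q-1) = (q-1)^2`, and contains `F a \ 0`; so `q ∣ j (q-1)`-count `n` with `q - 1 ≤ n ≤ (q-1)^2`, `(q-1) ∣ n`, `q ∣ n`: `n ≥ q (q-1)`, contradiction.)
-/

namespace Pool.Agent.LibNT29

open Module

set_option linter.style.haveILetI false

section aux

variable {F W : Type*} [Field F] [Fintype F] [Fintype W]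

open scoped Classical in
/-- counting the preimages of a finite set of nonzero vectors -/
private theorem cntA (N : W → Fin 4 → F)
    (hfib : ∀ w, w ≠ 0 → Nat.card {x : W // N x = w} = Fintype.card F ^ 4 + 1)
    (T : Finset (Fin 4 → F)) (h0 : ∀ w ∈ T, w ≠ 0) :
    (Finset.univ.filter (fun x => N x ∈ T)).card = T.card * (Fintype.card F ^ 4 + 1) := by
  rw [Finset.card_eq_sum_card_fiberwise (f := N) (t := T) (fun x hx => by
    simpa using hx)]
  rw [Finset.sum_const_nat (m := Fintype.card F ^ 4 + 1)]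
  intro w hw
  rw [← hfib w (h0 w hw), Nat.card_eq_fintype_card, Fintype.card_subtype]
  congr 1
  ext x
  simp only [Finset.mem_filter, Finset.mem_univ, true_and]
  constructor
  · rintro ⟨_, h2⟩; exact h2
  · intro h2; exact ⟨h2 ▸ hw, h2⟩

open scoped Classical in
/-- the nonzero multiples of `a` -/
private theorem cntL {a : Fin 4 → F} (ha : a ≠ 0) :
    (Finset.univ.filter (fun w : Fin 4 → F => w ∈ Submodule.span F {a} ∧ w ≠ 0)).card
      = Fintype.card F - 1 := by
  have e : Finset.univ.filter (fun w : Fin 4 → F => w ∈ Submodule.span F {a} ∧ w ≠ 0)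
      = (Finset.univ.erase (0 : F)).image (fun c => c • a) := by
    ext w
    simp only [Finset.mem_filter, Finset.mem_univ, true_and, Finset.mem_image, Finset.mem_erase,
      and_true]
    rw [Submodule.mem_span_singleton]
    constructor
    · rintro ⟨⟨c, rfl⟩, h2⟩
      refine ⟨c, ?_, rfl⟩
      rintro rfl
      exact h2 (zero_smul _ _)
    · rintro ⟨c, hc, rfl⟩
      exact ⟨⟨c, rfl⟩, smul_ne_zero hc ha⟩
  rw [e, Finset.card_image_of_injective _ (smul_left_injective F ha),
    Finset.card_erase_of_mem (Finset.mem_univ _), Finset.card_univ]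

open scoped Classical in
private theorem cntT (τ : (Fin 4 → F) →ₗ[F] F) (hτ : τ ≠ 0) :
    (Finset.univ.filter (fun w : Fin 4 → F => τ w ≠ 0)).card + Fintype.card F ^ 3
      = Fintype.card F ^ 4 := by
  have h1 : finrank F (LinearMap.range τ) = 1 := by
    rw [LinearMap.range_eq_top.2 (LinearMap.surjective hτ), finrank_top, finrank_self]
  have h2 := LinearMap.finrank_range_add_finrank_ker τ
  rw [h1, finrank_fin_fun] at h2
  have h3 : finrank F (LinearMap.ker τ) = 3 := by omega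
  have h4 : (Finset.univ.filter (fun w : Fin 4 → F => τ w = 0)).card = Fintype.card F ^ 3 := by
    have h5 := Module.card_eq_pow_finrank (K := F) (V := LinearMap.ker τ)
    rw [h3] at h5
    rw [← h5, ← Fintype.card_subtype]
    rfl
  have h5 := Finset.card_filter_add_card_filter_not (s := (Finset.univ : Finset (Fin 4 → F)))
    (fun w => τ w = 0)
  rw [h4, Finset.card_univ, Fintype.card_fun, Fintype.card_fin] at h5
  have h6 : (Finset.univ.filter (fun w : Fin 4 → F => τ w ≠ 0)).card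
      = (Finset.univ.filter (fun w : Fin 4 → F => ¬ τ w = 0)).card := rfl
  rw [h6]
  omega

open scoped Classical in
private theorem main {m k : ℕ} (hodd : Odd (Fintype.card F))
    (hmk : m * k = Fintype.card F ^ 4 + 1) (N : W → Fin 4 → F) (Z : Set W)
    (hfib : ∀ w, w ≠ 0 → Nat.card {x : W // N x = w} = Fintype.card F ^ 4 + 1)
    (τ : (Fin 4 → F) →ₗ[F] F) (hτ : τ ≠ 0) (hτZ : ∀ x ∈ Z, τ (N x) ≠ 0)
    (hdiv : ∀ S : Set (Fin 4 → F), (∀ c : F, c ≠ 0 → ∀ w ∈ S, c • w ∈ S) →
      m * (Fintype.card F - 1) ∣ Nat.card {x : W // x ∈ Z ∧ N x ∈ S})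
    (hline : ∀ L : Submodule F (Fin 4 → F), finrank F L = 2 →
      Fintype.card F ∣ Nat.card {x : W // x ∈ Z ∧ N x ∈ L})
    (htot : Nat.card Z = (Fintype.card F ^ 4 + 1) * Fintype.card F ^ 2 * (Fintype.card F - 1)) :
    Fintype.card F + 3 ≤ 2 * k := by
  have hZ0 : ∀ x ∈ Z, N x ≠ 0 := by
    intro x hx h0
    apply hτZ x hx
    rw [h0, map_zero]
  have hq2 : 2 ≤ Fintype.card F := Fintype.one_lt_card
  have hq3 : 3 ≤ Fintype.card F := by
    obtain ⟨t, ht⟩ := hodd
    omega
  obtain ⟨q, hq⟩ : ∃ q, q = Fintype.card F := ⟨_, rfl⟩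
  obtain ⟨q', hq'⟩ : ∃ q', q = q' + 1 := ⟨q - 1, by omega⟩
  have hm0 : 0 < m := by
    rcases Nat.eq_zero_or_pos m with h | h
    · rw [h, zero_mul] at hmk; omega
    · exact h
  have hk0 : 0 < k := by
    rcases Nat.eq_zero_or_pos k with h | h
    · rw [h, mul_zero] at hmk; omega
    · exact h
  have hcop1 : Nat.Coprime q (q ^ 4 + 1) := by
    rw [Nat.coprime_add_iff_right (dvd_pow_self q (by norm_num))]
    exact Nat.coprime_one_right q
  have hcopm : Nat.Coprime q m := by
    rw [hq] at hcop1 ⊢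
    rw [← hmk] at hcop1
    exact Nat.Coprime.coprime_mul_right_right hcop1
  have hcopq : Nat.Coprime q q' := by
    rw [hq', Nat.coprime_self_add_left]
    exact Nat.coprime_one_left q'
  have hcard : ∀ S : Set (Fin 4 → F), Nat.card {x : W // x ∈ Z ∧ N x ∈ S}
      = (Finset.univ.filter (fun x => x ∈ Z ∧ N x ∈ S)).card := by
    intro S
    rw [Nat.card_eq_fintype_card, Fintype.card_subtype]
  have hcardZ : Nat.card Z = (Finset.univ.filter (fun x => x ∈ Z)).card := by
    rw [Nat.card_eq_fintype_card, Fintype.card_subtype]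
  -- bound for `Y`
  have hYsub : ∀ a : Fin 4 → F, Finset.univ.filter (fun x => x ∈ Z ∧
      N x ∈ ((Submodule.span F {a} : Submodule F (Fin 4 → F)) : Set (Fin 4 → F)))
        ⊆ Finset.univ.filter (fun x => N x ∈
          Finset.univ.filter (fun w : Fin 4 → F => w ∈ Submodule.span F {a} ∧ w ≠ 0)) := by
    intro a x hx
    rw [Finset.mem_filter] at hx
    rw [Finset.mem_filter, Finset.mem_filter]
    exact ⟨Finset.mem_univ _, Finset.mem_univ _, hx.2.2, hZ0 x hx.2.1⟩
  have hYcard : ∀ a : Fin 4 → F, a ≠ 0 → (Finset.univ.filter (fun x => N x ∈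
          Finset.univ.filter (fun w : Fin 4 → F => w ∈ Submodule.span F {a} ∧ w ≠ 0))).card
        = q' * (q ^ 4 + 1) := by
    intro a ha
    rw [cntA N hfib _ (fun w hw => (Finset.mem_filter.1 hw).2.2), cntL ha, ← hq, hq']
    rfl
  by_contra hcon
  push Not at hcon
  rw [← hq] at hcon hmk hodd
  -- every value is full
  have full : ∀ x0 ∈ Z, ∀ x', N x' ≠ 0 → N x' ∈ Submodule.span F {N x0} → x' ∈ Z := by
    intro x0 hx0 x' hx'0 hx'
    have ha := hZ0 x0 hx0
    have hc : ∀ L : Submodule F (Fin 4 → F), finrank F L = 2 → N x0 ∈ L →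
        m * q' * q ≤ Nat.card {x : W // x ∈ Z ∧ N x ∈ L} := by
      intro L hL haL
      have h1 := hline L hL
      have h2 := hdiv (L : Set (Fin 4 → F)) (fun c _ w hw => L.smul_mem c hw)
      rw [← hq, show q - 1 = q' by omega] at h2
      rw [← hq] at h1
      have h3 : Nat.Coprime (m * q') q := Nat.Coprime.mul_left hcopm.symm hcopq.symm
      have h4 : m * q' * q ∣ Nat.card {x : W // x ∈ Z ∧ N x ∈ L} :=
        Nat.Coprime.mul_dvd_of_dvd_of_dvd h3 h2 h1
      apply Nat.le_of_dvd _ h4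
      haveI : Nonempty {x : W // x ∈ Z ∧ N x ∈ L} := ⟨⟨x0, hx0, haL⟩⟩
      exact Nat.card_pos
    have h5 := planes N Z hZ0 ha (m * q' * q) hc
    have h6 := hdiv ((Submodule.span F {N x0} : Submodule F (Fin 4 → F)) : Set (Fin 4 → F))
      (fun c _ w hw => (Submodule.span F {N x0}).smul_mem c hw)
    obtain ⟨b, hb⟩ := h6
    have hb' : Nat.card {x : W // x ∈ Z ∧ N x ∈ Submodule.span F {N x0}} = m * q' * b := by
      rw [← hq, show q - 1 = q' by omega] at hb
      exact hb
    have hle : Nat.card {x : W // x ∈ Z ∧ N x ∈ Submodule.span F {N x0}} ≤ q' * (q ^ 4 + 1) := by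
      rw [← hYcard _ ha]
      refine le_trans (le_of_eq ?_) (Finset.card_le_card (hYsub (N x0)))
      exact hcard _
    rw [hb', htot, ← hq, show q - 1 = q' by omega, ← hmk] at h5
    have hq'0 : 0 < q' := by omega
    have hbk : b ≤ k := by
      rw [hb', ← hmk] at hle
      have h7 : m * q' * b ≤ m * q' * k := by nlinarith [hle]
      exact Nat.le_of_mul_le_mul_left h7 (Nat.mul_pos hm0 hq'0)
    have h8 : q ^ 2 + q + 1 ≤ k * q + (q + 1) * b := by
      have h9 : (m * q' * q) * (q ^ 2 + q + 1) ≤ (m * q' * q) * (k * q + (q + 1) * b) := by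
        calc (m * q' * q) * (q ^ 2 + q + 1) = (q ^ 2 + q + 1) * (m * q' * q) := by ring
          _ ≤ m * k * q ^ 2 * q' + (q ^ 2 + q) * (m * q' * b) := h5
          _ = (m * q' * q) * (k * q + (q + 1) * b) := by ring
      exact Nat.le_of_mul_le_mul_left h9 (by
        apply Nat.mul_pos (Nat.mul_pos hm0 hq'0)
        omega)
    have hk2 : 2 * k ≤ q + 1 := by
      obtain ⟨t, ht⟩ := hodd
      omega
    have hk3 : q + 1 ≤ 2 * k := by
      by_contra hlt
      push Not at hlt
      have : 2 * k ≤ q := by omega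
      nlinarith
    have hk4 : 2 * k = q + 1 := le_antisymm hk2 hk3
    have hbk' : k ≤ b := by
      by_contra hlt
      push Not at hlt
      have : 2 * b + 2 ≤ q + 1 := by omega
      nlinarith
    have hbk'' : b = k := le_antisymm hbk hbk'
    have h10 : Finset.univ.filter (fun x => x ∈ Z ∧
      N x ∈ ((Submodule.span F {N x0} : Submodule F (Fin 4 → F)) : Set (Fin 4 → F)))
        = Finset.univ.filter (fun x => N x ∈
          Finset.univ.filter (fun w : Fin 4 → F => w ∈ Submodule.span F {N x0} ∧ w ≠ 0)) := by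
      apply Finset.eq_of_subset_of_card_le (hYsub (N x0))
      rw [hYcard _ ha, ← hcard]
      have e : Nat.card {x : W // x ∈ Z ∧ N x ∈
          ((Submodule.span F {N x0} : Submodule F (Fin 4 → F)) : Set (Fin 4 → F))} = m * q' * b := hb'
      rw [e, hbk'', ← hmk]
      apply le_of_eq
      ring
    have h11 : x' ∈ Finset.univ.filter (fun x => N x ∈
          Finset.univ.filter (fun w : Fin 4 → F => w ∈ Submodule.span F {N x0} ∧ w ≠ 0)) := by
      rw [Finset.mem_filter, Finset.mem_filter]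
      exact ⟨Finset.mem_univ _, Finset.mem_univ _, hx', hx'0⟩
    rw [← h10, Finset.mem_filter] at h11
    exact h11.2.1
  -- a point of `Z`
  have hne : ∃ x0, x0 ∈ Z := by
    by_contra hemp
    push Not at hemp
    have h1 : Nat.card Z = 0 := by
      rw [hcardZ, Finset.card_eq_zero, Finset.filter_eq_empty_iff]
      intro x _
      exact hemp x
    rw [htot] at h1
    have h2 : 0 < (Fintype.card F ^ 4 + 1) * Fintype.card F ^ 2 * (Fintype.card F - 1) := by
      apply Nat.mul_pos (Nat.mul_pos (by omega) (by positivity))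
      omega
    omega
  obtain ⟨x0, hx0⟩ := hne
  -- a point outside
  have hx1 : ∃ x1, τ (N x1) ≠ 0 ∧ x1 ∉ Z := by
    by_contra hall
    push Not at hall
    have h1 : Finset.univ.filter (fun x => N x ∈
        Finset.univ.filter (fun w : Fin 4 → F => τ w ≠ 0)) ⊆ Finset.univ.filter (fun x => x ∈ Z) := by
      intro x hx
      rw [Finset.mem_filter, Finset.mem_filter] at hx
      rw [Finset.mem_filter]
      exact ⟨Finset.mem_univ _, hall x hx.2.2⟩
    have h2 := Finset.card_le_card h1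
    rw [cntA N hfib _ (fun w hw => by
      intro h0
      rw [h0, Finset.mem_filter, map_zero] at hw
      exact hw.2 rfl), ← hcardZ, htot] at h2
    have h3 := cntT τ hτ
    have h4 : (Finset.univ.filter (fun w : Fin 4 → F => τ w ≠ 0)).card
        ≤ Fintype.card F ^ 2 * (Fintype.card F - 1) := by
      have h5 : (Fintype.card F ^ 4 + 1) * (Finset.univ.filter (fun w : Fin 4 → F => τ w ≠ 0)).card
        ≤ (Fintype.card F ^ 4 + 1) * (Fintype.card F ^ 2 * (Fintype.card F - 1)) := by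
        rw [← mul_assoc, mul_comm]
        exact h2
      exact Nat.le_of_mul_le_mul_left h5 (by omega)
    rw [← hq] at h3 h4
    have h5 : q ^ 4 ≤ q ^ 2 * (q - 1) + q ^ 3 := by omega
    have h6 : q ^ 2 * (q - 1) + q ^ 2 = q ^ 3 := by
      rw [← Nat.mul_succ, Nat.succ_eq_add_one, Nat.sub_add_cancel (by omega)]
      ring
    have h7 : q ^ 4 = q * q ^ 3 := by ring
    have h8 : 3 * q ^ 3 ≤ q * q ^ 3 := Nat.mul_le_mul_right _ (by omega)
    have h9 : 0 < q ^ 2 := by
      apply pow_pos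
      omega
    omega
  obtain ⟨x1, hτ1, hx1⟩ := hx1
  obtain ⟨a, haa⟩ : ∃ a, a = N x0 := ⟨_, rfl⟩
  obtain ⟨b, hbb⟩ : ∃ b, b = N x1 := ⟨_, rfl⟩
  have ha0 : a ≠ 0 := by rw [haa]; exact hZ0 x0 hx0
  have hb0 : b ≠ 0 := by
    intro h0
    apply hτ1
    rw [← hbb, h0, map_zero]
  have hbZ : ∀ x ∈ Z, N x ∉ Submodule.span F {b} := by
    intro x hx hxb
    rw [Submodule.mem_span_singleton] at hxb
    obtain ⟨c, hc⟩ := hxb
    have hc0 : c ≠ 0 := by
      rintro rfl
      exact hZ0 x hx (by rw [← hc, zero_smul])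
    apply hx1
    apply full x hx x1 (by rw [← hbb]; exact hb0)
    rw [← hbb, Submodule.mem_span_singleton]
    exact ⟨c⁻¹, by rw [← hc, smul_smul, inv_mul_cancel₀ hc0, one_smul]⟩
  have hli : LinearIndependent F ![a, b] := by
    rw [LinearIndependent.pair_iff]
    intro s t hst
    by_cases hs : s = 0
    · refine ⟨hs, ?_⟩
      rw [hs, zero_smul, zero_add] at hst
      exact (smul_eq_zero.1 hst).resolve_right hb0
    · exfalso
      apply hbZ x0 hx0
      rw [← haa, Submodule.mem_span_singleton]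
      refine ⟨-(s⁻¹ * t), ?_⟩
      have h1 : s • a = -(t • b) := eq_neg_of_add_eq_zero_left hst
      have h2 : a = s⁻¹ • (s • a) := by rw [smul_smul, inv_mul_cancel₀ hs, one_smul]
      rw [h2, h1, smul_neg, smul_smul, neg_smul]
  have hL2 : finrank F (Submodule.span F {a, b}) = 2 := by
    have h1 := finrank_span_eq_card hli
    rw [Fintype.card_fin] at h1
    have e : Set.range ![a, b] = {a, b} := by
      simp only [Matrix.range_cons, Matrix.range_empty, Set.union_empty, Set.singleton_union]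
    rw [e] at h1
    exact h1
  obtain ⟨Γ, hΓ⟩ : ∃ Γ : Finset F, Γ = Finset.univ.filter (fun γ : F => ∃ x ∈ Z, N x = a + γ • b) :=
    ⟨_, rfl⟩
  have memΓ : ∀ γ, γ ∈ Γ ↔ ∃ x ∈ Z, N x = a + γ • b := by
    intro γ
    rw [hΓ, Finset.mem_filter]
    exact ⟨fun h => h.2, fun h => ⟨Finset.mem_univ _, h⟩⟩
  obtain ⟨T, hT⟩ : ∃ T : Finset (Fin 4 → F), T = ((Finset.univ.erase (0 : F)) ×ˢ Γ).image
    (fun p : F × F => p.1 • (a + p.2 • b)) := ⟨_, rfl⟩
  have memT : ∀ w, w ∈ T ↔ ∃ α γ : F, α ≠ 0 ∧ γ ∈ Γ ∧ w = α • (a + γ • b) := by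
    intro w
    rw [hT, Finset.mem_image]
    constructor
    · rintro ⟨⟨α, γ⟩, h1, h2⟩
      rw [Finset.mem_product, Finset.mem_erase] at h1
      exact ⟨α, γ, h1.1.1, h1.2, h2.symm⟩
    · rintro ⟨α, γ, h1, h2, h3⟩
      refine ⟨(α, γ), ?_, h3.symm⟩
      rw [Finset.mem_product, Finset.mem_erase]
      exact ⟨⟨h1, Finset.mem_univ _⟩, h2⟩
  have hTcard : T.card = q' * Γ.card := by
    rw [hT, Finset.card_image_of_injOn, Finset.card_product, Finset.card_erase_of_mem (Finset.mem_univ _),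
      Finset.card_univ, ← hq, hq']
    · rfl
    · rintro ⟨α, γ⟩ h1 ⟨α', γ'⟩ h2 h3
      have h1' := Finset.mem_product.1 (Finset.mem_coe.1 h1)
      rw [Finset.mem_erase] at h1'
      have h3' : α • (a + γ • b) = α' • (a + γ' • b) := h3
      have h4 : (α - α') • a + (α * γ - α' * γ') • b = 0 := by
        have h5 := sub_eq_zero.2 h3'
        rw [smul_add, smul_add, smul_smul, smul_smul] at h5
        rw [sub_smul, sub_smul, ← h5]
        abel
      have h5 := LinearIndependent.pair_iff.1 hli _ _ h4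
      have h6 : α = α' := sub_eq_zero.1 h5.1
      have h7 : α * γ = α' * γ' := sub_eq_zero.1 h5.2
      rw [← h6] at h7
      have h8 := mul_left_cancel₀ h1'.1.1 h7
      rw [h6, h8]
  have hT0 : ∀ w ∈ T, w ≠ 0 := by
    intro w hw
    rw [memT] at hw
    obtain ⟨α, γ, h1, h2, rfl⟩ := hw
    obtain ⟨x, hx, hxx⟩ := (memΓ γ).1 h2
    rw [← hxx]
    exact smul_ne_zero h1 (hZ0 x hx)
  have hset : Finset.univ.filter (fun x => x ∈ Z ∧
      N x ∈ ((Submodule.span F {a, b} : Submodule F (Fin 4 → F)) : Set (Fin 4 → F)))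
      = Finset.univ.filter (fun x => N x ∈ T) := by
    ext x
    rw [Finset.mem_filter, Finset.mem_filter]
    constructor
    · rintro ⟨_, hx, hxL⟩
      refine ⟨Finset.mem_univ _, ?_⟩
      rw [SetLike.mem_coe, Submodule.mem_span_pair] at hxL
      obtain ⟨α, t, hαt⟩ := hxL
      have hα : α ≠ 0 := by
        rintro rfl
        apply hbZ x hx
        rw [Submodule.mem_span_singleton]
        exact ⟨t, by rw [← hαt, zero_smul, zero_add]⟩
      have h1 : N x = α • (a + (α⁻¹ * t) • b) := by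
        rw [smul_add, smul_smul, ← mul_assoc, mul_inv_cancel₀ hα, one_mul, hαt]
      have h2 : a + (α⁻¹ * t) • b ≠ 0 := by
        intro h0
        apply hZ0 x hx
        rw [h1, h0, smul_zero]
      have h3 : ∃ x', N x' = a + (α⁻¹ * t) • b := by
        have h4 := hfib _ h2
        haveI : Nonempty {x : W // N x = a + (α⁻¹ * t) • b} := by
          by_contra hemp
          rw [not_nonempty_iff] at hemp
          rw [Nat.card_of_isEmpty] at h4
          omega
        obtain ⟨x', hx'⟩ := this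
        exact ⟨x', hx'⟩
      obtain ⟨x', hx'⟩ := h3
      rw [memT]
      refine ⟨α, α⁻¹ * t, hα, ?_, h1⟩
      rw [memΓ]
      refine ⟨x', ?_, hx'⟩
      apply full x hx x' (by rw [hx']; exact h2)
      rw [hx', Submodule.mem_span_singleton]
      exact ⟨α⁻¹, by rw [h1, smul_smul, inv_mul_cancel₀ hα, one_smul]⟩
    · rintro ⟨_, hx⟩
      rw [memT] at hx
      obtain ⟨α, γ, hα, hγ, hN⟩ := hx
      obtain ⟨x', hx'Z, hx'⟩ := (memΓ γ).1 hγ
      refine ⟨Finset.mem_univ _, ?_, ?_⟩
      · apply full x' hx'Z x (by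
          rw [hN, ← hx']
          exact smul_ne_zero hα (hZ0 x' hx'Z))
        rw [hN, ← hx', Submodule.mem_span_singleton]
        exact ⟨α, rfl⟩
      · rw [SetLike.mem_coe, Submodule.mem_span_pair, hN]
        exact ⟨α, α * γ, by rw [smul_add, smul_smul]⟩
  have h1 := hline (Submodule.span F {a, b}) hL2
  have h2 : Nat.card {x : W // x ∈ Z ∧ N x ∈ Submodule.span F {a, b}}
      = q' * Γ.card * (q ^ 4 + 1) := by
    have e : Nat.card {x : W // x ∈ Z ∧ N x ∈ Submodule.span F {a, b}}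
      = (Finset.univ.filter (fun x => x ∈ Z ∧
      N x ∈ ((Submodule.span F {a, b} : Submodule F (Fin 4 → F)) : Set (Fin 4 → F)))).card := hcard _
    rw [e, hset, cntA N hfib T hT0, hTcard, ← hq]
  rw [h2, ← hq] at h1
  have h3 : q ∣ Γ.card := by
    have h4 := Nat.Coprime.dvd_of_dvd_mul_right hcop1 h1
    exact Nat.Coprime.dvd_of_dvd_mul_left hcopq h4
  have h4 : 0 < Γ.card := by
    rw [Finset.card_pos]
    refine ⟨0, ?_⟩
    rw [memΓ]
    exact ⟨x0, hx0, by rw [zero_smul, add_zero, haa]⟩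
  have h5 : Γ.card ≤ q - 1 := by
    have h6 : Γ ⊆ Finset.univ.erase (-(τ a / τ b)) := by
      intro γ hγ
      rw [Finset.mem_erase]
      refine ⟨?_, Finset.mem_univ _⟩
      rintro rfl
      obtain ⟨x, hx, hxx⟩ := (memΓ _).1 hγ
      apply hτZ x hx
      rw [hxx, map_add, map_smul, smul_eq_mul]
      have hτb : τ b ≠ 0 := by rw [hbb]; exact hτ1
      field_simp
      ring
    have h7 := Finset.card_le_card h6
    rw [Finset.card_erase_of_mem (Finset.mem_univ _), Finset.card_univ, ← hq] at h7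
    exact h7
  have h6 := Nat.le_of_dvd h4 h3
  omega

end aux

theorem kbound {F W : Type*} [Field F] [Fintype F] [Finite W] (hodd : Odd (Fintype.card F)) {m k : ℕ}
    (hmk : m * k = Fintype.card F ^ 4 + 1) (N : W → Fin 4 → F) (Z : Set W)
    (hfib : ∀ w, w ≠ 0 → Nat.card {x : W // N x = w} = Fintype.card F ^ 4 + 1)
    (τ : (Fin 4 → F) →ₗ[F] F) (hτ : τ ≠ 0) (hτZ : ∀ x ∈ Z, τ (N x) ≠ 0)
    (hdiv : ∀ S : Set (Fin 4 → F), (∀ c : F, c ≠ 0 → ∀ w ∈ S, c • w ∈ S) →
      m * (Fintype.card F - 1) ∣ Nat.card {x : W // x ∈ Z ∧ N x ∈ S})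
    (hline : ∀ L : Submodule F (Fin 4 → F), finrank F L = 2 →
      Fintype.card F ∣ Nat.card {x : W // x ∈ Z ∧ N x ∈ L})
    (htot : Nat.card Z = (Fintype.card F ^ 4 + 1) * Fintype.card F ^ 2 * (Fintype.card F - 1)) :
    Fintype.card F + 3 ≤ 2 * k := by
  haveI := Fintype.ofFinite W
  exact main hodd hmk N Z hfib τ hτ hτZ hdiv hline htot

end Pool.Agent.LibNT29
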