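import Mathlib

set_option autoImplicit false

/-!
[NT29 F7] SHORT/MEDIUM, only Mathlib. Divisibility by free actions. `act_dvd`: a finite group `Γ` acting on a finite set `T` (a type) without fixed points of nontrivial elements: `|Γ| ∣ |T|` (all orbits have `|Γ|` elements: `MulAction.selfEquivSigmaOrbitsQuotientStabilizer`..).
`units_dvd`: a set `T` of nonzero vectors of a space over the finite field `F`, closed under multiplication by `c ≠ 0`: `q - 1 ∣ |T|` (the group `Fˣ` acts freely).
`both`: `m`, `q - 1` coprime and both divide.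
-/

namespace Pool.Agent.LibNT29

theorem act_dvd {Γ T : Type*} [Group Γ] [Finite Γ] [Finite T] [MulAction Γ T]
    (h : ∀ γ : Γ, γ ≠ 1 → ∀ x : T, γ • x ≠ x) : Nat.card Γ ∣ Nat.card T := by
  classical
  have hst : ∀ x : T, MulAction.stabilizer Γ x = ⊥ := by
    intro x
    rw [Subgroup.eq_bot_iff_forall]
    intro γ hγ
    by_contra hne
    exact h γ hne x hγ
  have : Fintype (Quotient (MulAction.orbitRel Γ T)) := Fintype.ofFinite _
  rw [Nat.card_congr (MulAction.selfEquivSigmaOrbitsQuotientStabilizer Γ T), Nat.card_sigma]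
  refine Finset.dvd_sum fun ω _ => ?_
  change Nat.card Γ ∣ (MulAction.stabilizer Γ ω.out).index
  rw [hst, Subgroup.index_bot]

theorem units_dvd {F W : Type*} [Field F] [Fintype F] [AddCommGroup W] [Module F W] [Finite W] (T : Set W)
    (h0 : (0 : W) ∉ T) (hT : ∀ c : F, c ≠ 0 → ∀ x ∈ T, c • x ∈ T) : Fintype.card F - 1 ∣ Nat.card T := by
  let inst : MulAction Fˣ T :=
    { smul := fun c x => ⟨(c : F) • x.1, hT c c.ne_zero x.1 x.2⟩
      one_smul := fun x => Subtype.ext (one_smul F x.1)
      mul_smul := fun a b x => Subtype.ext (mul_smul (a : F) (b : F) x.1) }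
  have h1 := act_dvd (Γ := Fˣ) (T := T) (by
    intro c hc x hx
    have h2 : (c : F) • x.1 = x.1 := congrArg Subtype.val hx
    have h3 : ((c : F) - 1) • x.1 = 0 := by rw [sub_smul, one_smul, h2, sub_self]
    rcases smul_eq_zero.1 h3 with h4 | h4
    · exact hc (Units.ext (sub_eq_zero.1 h4))
    · exact h0 (h4 ▸ x.2))
  rwa [Nat.card_units, Nat.card_eq_fintype_card] at h1

end Pool.Agent.LibNT29
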