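import Mathlib

set_option autoImplicit false

/-!
A family of subspaces such that every vector lies in 0 or `q+1` of them, with the exception of the vectors in `P`.
-/

namespace Pool.Agent.LibNT29

open Module

/-- `A i`, `i ∈ ι`, `|ι| = q^4+1`, are subspaces of dimension 5 of the 8-dimensional space `W`; vectors `x ≠ 0` outside `P`
lie in 0 or `q + 1` of them, vectors in `P` in exactly one. -/
structure Fam {F W ι : Type*} [Field F] [Fintype F] [AddCommGroup W] [Module F W] (A : ι → Submodule F W) (P : Set W) :
    Prop where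
  dimW : finrank F W = 8
  card : Nat.card ι = Fintype.card F ^ 4 + 1
  dim : ∀ i, finrank F (A i) = 5
  zero : (0 : W) ∉ P
  one : ∀ x ∈ P, Nat.card {i // x ∈ A i} = 1
  val : ∀ x, x ≠ 0 → x ∉ P → Nat.card {i // x ∈ A i} = 0 ∨ Nat.card {i // x ∈ A i} = Fintype.card F + 1
  cardP : Nat.card P = (Fintype.card F ^ 4 + 1) * (Fintype.card F - 1)

/-- the vectors in no `A i` -/
def Zf {F W ι : Type*} [Field F] [AddCommGroup W] [Module F W] (A : ι → Submodule F W) : Set W :=
  {x | ∀ i, x ∉ A i}

end Pool.Agent.LibNT29
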