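import Pool.Agent.LibNT29.Defs

set_option autoImplicit false

/-!
The permutation group on the members induced by a group of similarities.
-/

namespace Pool.Agent.LibNT29

open Module Pool.Agent.LibBT65

variable {F V : Type*} [Field F] [AddCommGroup V] [Module F V]

/-- `G` is a group of similarities preserving `M` -/
def SGrp (B : V →ₗ[F] V →ₗ[F] F) (M : Finset (Submodule F V)) (G : Subgroup (V ≃ₗ[F] V)) : Prop :=
  ∀ g ∈ G, ∃ μ : F, Simi B M μ g

theorem SGrp.pres {B : V →ₗ[F] V →ₗ[F] F} {M : Finset (Submodule F V)} {G : Subgroup (V ≃ₗ[F] V)}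
    (hG : SGrp B M G) : ∀ g ∈ G, ∀ π ∈ M, π.map (g : V →ₗ[F] V) ∈ M := by
  intro g hg
  obtain ⟨μ, h⟩ := hG g hg
  exact h.pres

/-- the permutations of the members induced by the elements of `G` -/
def pm (M : Finset (Submodule F V)) (G : Subgroup (V ≃ₗ[F] V))
    (hG : ∀ g ∈ G, ∀ π ∈ M, π.map (g : V →ₗ[F] V) ∈ M) : G →* Equiv.Perm {π // π ∈ M} where
  toFun g :=
    { toFun := fun π => ⟨π.1.map ((g : V ≃ₗ[F] V) : V →ₗ[F] V), hG g.1 g.2 π.1 π.2⟩
      invFun := fun π => ⟨π.1.map (((g⁻¹ : G) : V ≃ₗ[F] V) : V →ₗ[F] V), hG _ (g⁻¹).2 π.1 π.2⟩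
      left_inv := by
        rintro ⟨π, hπ⟩
        apply Subtype.ext
        show (π.map ((g : V ≃ₗ[F] V) : V →ₗ[F] V)).map (((g⁻¹ : G) : V ≃ₗ[F] V) : V →ₗ[F] V) = π
        rw [← Submodule.map_comp]
        have : (((g⁻¹ : G) : V ≃ₗ[F] V) : V →ₗ[F] V) ∘ₗ ((g : V ≃ₗ[F] V) : V →ₗ[F] V) = LinearMap.id := by
          ext v
          exact (g : V ≃ₗ[F] V).symm_apply_apply v
        rw [this, Submodule.map_id]
      right_inv := by
        rintro ⟨π, hπ⟩
        apply Subtype.ext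
        show (π.map (((g⁻¹ : G) : V ≃ₗ[F] V) : V →ₗ[F] V)).map ((g : V ≃ₗ[F] V) : V →ₗ[F] V) = π
        rw [← Submodule.map_comp]
        have : ((g : V ≃ₗ[F] V) : V →ₗ[F] V) ∘ₗ (((g⁻¹ : G) : V ≃ₗ[F] V) : V →ₗ[F] V) = LinearMap.id := by
          ext v
          exact (g : V ≃ₗ[F] V).apply_symm_apply v
        rw [this, Submodule.map_id] }
  map_one' := by
    ext1 π
    apply Subtype.ext
    exact Submodule.map_id π.1
  map_mul' g h := by
    ext1 π
    apply Subtype.ext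
    exact Submodule.map_comp ((h : V ≃ₗ[F] V) : V →ₗ[F] V) ((g : V ≃ₗ[F] V) : V →ₗ[F] V) π.1

theorem pm_apply (M : Finset (Submodule F V)) (G : Subgroup (V ≃ₗ[F] V))
    (hG : ∀ g ∈ G, ∀ π ∈ M, π.map (g : V →ₗ[F] V) ∈ M) (g : G) (π : {π // π ∈ M}) :
    ((pm M G hG g) π).1 = π.1.map ((g : V ≃ₗ[F] V) : V →ₗ[F] V) := rfl

end Pool.Agent.LibNT29
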