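import Pool.Agent.LibNT29.Defs
import Pool.Agent.LibNT29.E1

set_option autoImplicit false

/-!
[NT29 H1] MEDIUM. `W` of dimension 8 with an isometry `ρ` of odd prime order `r ∣ q^4+1` (structure `R8`).
`noFix`: `ρ` has no nonzero fixed vector: the fixed space `L` has `V = L ⊕ im (ρ-1)` (as `r ≠ 0` in `F`), `r ∣ q^d - 1` for `d = dim (im (ρ-1)) > 0`, so `8 ∣ d`, `d = 8`, `L = 0`.
`irr`: an invariant subspace `X` of dimension `d`: `⟨ρ⟩` acts without fixed points on `X \ 0`, `r ∣ q^d - 1`, `8 ∣ d`, `d = 0` or `8`.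
`inj`: a linear map `a` commuting with `ρ` has an invariant kernel. `cyc_span`: for `x ≠ 0` the span of the `ρ^n x`, `n : ℕ`, is invariant, so everything. `com`: `a`, `b` commuting with `ρ`: take `x ≠ 0`; `a x` is in the span of the `ρ^n x`, that is `a x = c x` with
`c` a linear combination of powers of `ρ`; `a - c` commutes with `ρ` and has `x` in its kernel, so `a = c`. So `b a = b c = c b = a b`. `field`-like: `a ≠ 0` commuting with `ρ` is bijective.
-/

namespace Pool.Agent.LibNT29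

open Module

variable {F W : Type*} [Field F] [Fintype F] [AddCommGroup W] [Module F W]
  {β : W →ₗ[F] W →ₗ[F] F} {r : ℕ} {ρ : W ≃ₗ[F] W}

private theorem h1_cast {r : ℕ} (hr : r.Prime) (hrp : ¬ r ∣ Fintype.card F) : (r : F) ≠ 0 := by
  intro h0
  obtain ⟨p, hp⟩ := CharP.exists F
  obtain ⟨n, hpp, hn⟩ := FiniteField.card F p
  have h1 : p ∣ r := (CharP.cast_eq_zero_iff F p r).1 h0
  have h2 : p = r := (Nat.prime_dvd_prime_iff_eq hpp hr).1 h1
  apply hrp
  rw [hn, h2]
  exact dvd_pow_self r n.ne_zero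

omit [Fintype F] in
private theorem h1_aux (g : W ≃ₗ[F] W) {r : ℕ}
    (hr : (r : F) ≠ 0) (hg : g ^ r = 1) {v x : W} (h1 : g v = v + x) (h2 : g x = x) : x = 0 := by
  have h3 : ∀ n : ℕ, (g ^ n) v = v + (n : F) • x := by
    intro n
    induction n with
    | zero => simp
    | succ n ih =>
      rw [pow_succ', LinearEquiv.mul_apply, ih, map_add, map_smul, h1, h2]
      push_cast
      rw [add_smul, one_smul]
      abel
  have h4 := h3 r
  rw [hg, LinearEquiv.coe_one, id_eq] at h4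
  have h5 : (r : F) • x = 0 := left_eq_add.1 h4
  exact (smul_eq_zero.1 h5).resolve_left hr

private theorem h1_fin (h : R8 β r ρ) : FiniteDimensional F W :=
  FiniteDimensional.of_finrank_pos (by rw [h.dim]; norm_num)

/-- an invariant subspace without fixed vectors has dimension divisible by 8 -/
private theorem h1_div (h : R8 β r ρ) (X : Submodule F W) (hX : ∀ x ∈ X, ρ x ∈ X)
    (hf : ∀ x ∈ X, ρ x = x → x = 0) : 8 ∣ finrank F X := by
  classical
  have hfd := h1_fin h
  have hWfin : Finite W := Module.finite_of_finite F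
  have : Fintype X := Fintype.ofFinite X
  haveI : Fact r.Prime := ⟨h.prime⟩
  let f : Function.End X := fun x ↦ ⟨ρ x, hX x x.2⟩
  have hpow : ∀ (n : ℕ) (x : X), ((f ^ n) x : W) = (ρ ^ n) x := by
    intro n
    induction n with
    | zero => intro x; rfl
    | succ n ih =>
      intro x
      rw [pow_succ', pow_succ', LinearEquiv.mul_apply, ← ih]
      rfl
  have hf1 : f ^ r ^ 1 = 1 := by
    rw [pow_one]
    funext x
    apply Subtype.ext
    rw [hpow, h.pow]
    rfl
  have hc := Equiv.Perm.card_fixedPoints_modEq hf1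
  have h1 : Fintype.card (Function.fixedPoints f) = 1 := by
    rw [Fintype.card_eq_one_iff]
    refine ⟨⟨0, ?_⟩, ?_⟩
    · apply Subtype.ext
      change ρ ((0 : X) : W) = ((0 : X) : W)
      exact map_zero ρ
    · rintro ⟨x, hx⟩
      apply Subtype.ext
      apply Subtype.ext
      exact hf x x.2 (congrArg Subtype.val hx)
  rw [h1] at hc
  have h2 : Fintype.card X = Fintype.card F ^ finrank F X := Module.card_eq_pow_finrank
  rw [h2] at hc
  refine ord8 Fintype.card_pos h.prime h.odd h.dvd ?_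
  exact (Nat.modEq_iff_dvd' (Nat.one_le_pow _ _ Fintype.card_pos)).mp hc.symm

private theorem h1_nofix (h : R8 β r ρ) (x : W) (hx : ρ x = x) : x = 0 := by
  have hfd := h1_fin h
  have hq : 1 ≤ Fintype.card F := Fintype.card_pos
  have hodd : Odd r := h.prime.odd_of_ne_two h.odd
  have hcop := (cop hq hodd h.dvd).1
  have hrp : ¬ r ∣ Fintype.card F := by
    intro hd
    have := Nat.Coprime.eq_one_of_dvd hcop hd
    exact h.prime.one_lt.ne' this
  have hr0 : (r : F) ≠ 0 := h1_cast h.prime hrp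
  let f : W →ₗ[F] W := (ρ : W →ₗ[F] W) - LinearMap.id
  have hfa : ∀ y, f y = ρ y - y := fun y ↦ rfl
  have h8 : 8 ∣ finrank F (LinearMap.range f) := by
    apply h1_div h
    · rintro _ ⟨y, rfl⟩
      refine ⟨ρ y, ?_⟩
      rw [hfa, hfa, map_sub]
    · rintro _ ⟨y, rfl⟩ hy
      rw [hfa] at hy ⊢
      exact h1_aux ρ hr0 h.pow (v := y) (by abel) hy
  have hsum := LinearMap.finrank_range_add_finrank_ker f
  rw [h.dim] at hsum
  have hpos : finrank F (LinearMap.range f) ≠ 0 := by
    intro h0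
    have hbot : LinearMap.range f = ⊥ := Submodule.finrank_eq_zero.mp h0
    apply h.ne
    apply LinearEquiv.ext
    intro y
    have hy : f y ∈ LinearMap.range f := ⟨y, rfl⟩
    rw [hbot, Submodule.mem_bot, hfa] at hy
    rw [LinearEquiv.coe_one, id_eq]
    exact sub_eq_zero.mp hy
  have hker : finrank F (LinearMap.ker f) = 0 := by omega
  have hk : LinearMap.ker f = ⊥ := Submodule.finrank_eq_zero.mp hker
  have hm : x ∈ LinearMap.ker f := by
    rw [LinearMap.mem_ker, hfa, hx, sub_self]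
  rw [hk, Submodule.mem_bot] at hm
  exact hm

theorem R8.irr (h : R8 β r ρ) (X : Submodule F W) (hX : ∀ x ∈ X, ρ x ∈ X) : X = ⊥ ∨ X = ⊤ := by
  have hfd := h1_fin h
  have h8 := h1_div h X hX (fun x _ hx ↦ h1_nofix h x hx)
  have hle : finrank F X ≤ finrank F W := Submodule.finrank_le X
  rw [h.dim] at hle
  have : finrank F X = 0 ∨ finrank F X = 8 := by omega
  rcases this with h0 | h0
  · left
    exact Submodule.finrank_eq_zero.mp h0
  · right
    exact Submodule.eq_top_of_finrank_eq (h0.trans h.dim.symm)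

theorem R8.inj (h : R8 β r ρ) {a : W →ₗ[F] W} (ha : ∀ x, a (ρ x) = ρ (a x)) {x : W} (hx : x ≠ 0)
    (h0 : a x = 0) : a = 0 := by
  rcases h.irr (LinearMap.ker a) (by
    intro y hy
    rw [LinearMap.mem_ker] at hy ⊢
    rw [ha, hy, map_zero]) with h1 | h1
  · exfalso
    apply hx
    have : x ∈ LinearMap.ker a := h0
    rw [h1, Submodule.mem_bot] at this
    exact this
  · exact LinearMap.ker_eq_top.mp h1

theorem R8.span (h : R8 β r ρ) {x : W} (hx : x ≠ 0) :
    Submodule.span F (Set.range fun n : ℕ => ((ρ : W →ₗ[F] W) ^ n) x) = ⊤ := by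
  rcases h.irr (Submodule.span F (Set.range fun n : ℕ => ((ρ : W →ₗ[F] W) ^ n) x)) (by
    intro y hy
    have hm : ρ y ∈ (Submodule.span F (Set.range fun n : ℕ => ((ρ : W →ₗ[F] W) ^ n) x)).map
        (ρ : W →ₗ[F] W) := ⟨y, hy, rfl⟩
    rw [Submodule.map_span] at hm
    refine Submodule.span_mono ?_ hm
    rintro _ ⟨_, ⟨n, rfl⟩, rfl⟩
    refine ⟨n + 1, ?_⟩
    change ((ρ : W →ₗ[F] W) ^ (n + 1)) x = (ρ : W →ₗ[F] W) (((ρ : W →ₗ[F] W) ^ n) x)
    rw [pow_succ']
    rfl) with h1 | h1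
  · exfalso
    apply hx
    have hm : x ∈ Submodule.span F (Set.range fun n : ℕ => ((ρ : W →ₗ[F] W) ^ n) x) :=
      Submodule.subset_span ⟨0, rfl⟩
    rw [h1, Submodule.mem_bot] at hm
    exact hm
  · exact h1

theorem R8.com (h : R8 β r ρ) {a b : W →ₗ[F] W} (ha : ∀ x, a (ρ x) = ρ (a x)) (hb : ∀ x, b (ρ x) = ρ (b x))
    (x : W) : a (b x) = b (a x) := by
  have hfd := h1_fin h
  have hnt : Nontrivial W := by
    apply Module.nontrivial_of_finrank_pos (R := F)
    rw [h.dim]
    norm_num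
  obtain ⟨x0, hx0⟩ := exists_ne (0 : W)
  have hpw : ∀ (c : W →ₗ[F] W), (∀ x, c (ρ x) = ρ (c x)) → ∀ (n : ℕ) (x : W),
      c (((ρ : W →ₗ[F] W) ^ n) x) = ((ρ : W →ₗ[F] W) ^ n) (c x) := by
    intro c hc n
    induction n with
    | zero => intro x; rfl
    | succ n ih =>
      intro x
      rw [pow_succ']
      change c (ρ (((ρ : W →ₗ[F] W) ^ n) x)) = ρ (((ρ : W →ₗ[F] W) ^ n) (c x))
      rw [hc, ih]
  have key : ∀ y ∈ Submodule.span F (Set.range fun n : ℕ => ((ρ : W →ₗ[F] W) ^ n) x0),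
      ∃ c : W →ₗ[F] W, c x0 = y ∧ ∀ b : W →ₗ[F] W, (∀ x, b (ρ x) = ρ (b x)) → ∀ x, c (b x) = b (c x) := by
    intro y hy
    induction hy using Submodule.span_induction with
    | mem y hy =>
      obtain ⟨n, rfl⟩ := hy
      exact ⟨(ρ : W →ₗ[F] W) ^ n, rfl, fun b hb x ↦ (hpw b hb n x).symm⟩
    | zero => exact ⟨0, rfl, fun b hb x ↦ by rw [LinearMap.zero_apply, LinearMap.zero_apply, map_zero]⟩
    | add y z _ _ hy hz =>
      obtain ⟨c, hc, hc'⟩ := hy
      obtain ⟨d, hd, hd'⟩ := hz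
      refine ⟨c + d, by rw [LinearMap.add_apply, hc, hd], fun b hb x ↦ ?_⟩
      rw [LinearMap.add_apply, LinearMap.add_apply, map_add, hc' b hb, hd' b hb]
    | smul t y _ hy =>
      obtain ⟨c, hc, hc'⟩ := hy
      refine ⟨t • c, by rw [LinearMap.smul_apply, hc], fun b hb x ↦ ?_⟩
      rw [LinearMap.smul_apply, LinearMap.smul_apply, map_smul, hc' b hb]
  obtain ⟨c, hc, hc'⟩ := key (a x0) (by rw [h.span hx0]; exact Submodule.mem_top)
  have hcρ : ∀ x, c (ρ x) = ρ (c x) := hc' (ρ : W →ₗ[F] W) (fun x ↦ rfl)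
  have hac : a - c = 0 := by
    apply h.inj (a := a - c) (x := x0) _ hx0
    · rw [LinearMap.sub_apply, hc, sub_self]
    · intro y
      rw [LinearMap.sub_apply, LinearMap.sub_apply, map_sub, ha, hcρ]
  have hac' : a = c := sub_eq_zero.mp hac
  rw [hac']
  exact hc' b hb x

end Pool.Agent.LibNT29
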