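import Pool.Agent.LibNT29.B8
import Pool.Agent.LibNT29.E2
import Pool.Agent.LibNT29.H1
import Pool.Agent.LibNT29.GDefs
import Pool.Agent.LibBT65.R4

set_option autoImplicit false

/-!
[NT29 G1] MEDIUM. Lifting permutations of the members to isometries. `q = card F`, `|M| = q^4+1 ≥ 82`.
`scal_iff`: `pm g = 1` iff `g` is scalar: `three_fixed` (all members are fixed); a scalar fixes all subspaces.
`eq_on_im`: `g` a similarity with `g x = c x` on `im ρ` (`Rho`, dimension 8, so `π ⊓ im ρ ≠ ⊥` for all `π`: `3 + 8 > 10`): `g π ∩ π ≠ 0`, `c ≠ 0`, so `g π = π` (`disj`) for all `π`, `g` scalar (`three_fixed`), `= c`.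
`lift_rho`: `g ∈ G`, `(pm g)^r = 1`, `pm g ≠ 1`, `r` an odd prime dividing `q^4+1` (coprime to `q - 1`: `cop`). `g^r` is scalar, `g^r = ν`; `κ ∈ F` with `κ^r = ν` (the map `x ↦ x^r` is bijective on `Fˣ`, of order `q - 1`), `ρ = κ⁻¹ g`, `ρ^r = 1`; factor `μ'` of `ρ`: `μ'^r = 1` (`B ≠ 0`), so `μ' = 1`.
`rho_free`: a `Rho` fixes no member: it is not scalar (`c^r = 1` gives `c = 1`), so at most 2 are fixed, the number is `= q^4 + 1 = 0` mod `r` (LibBT65 R4, or `IsPGroup.card_modEq_card_fixedPoints`).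
-/

namespace Pool.Agent.LibNT29

open Module Pool.Agent.LibBT65

variable {F V : Type*} [Field F] [Fintype F] [AddCommGroup V] [Module F V]
  {B : V →ₗ[F] V →ₗ[F] F} {M : Finset (Submodule F V)}

omit [Fintype F] in
private theorem g1_map {g h : V ≃ₗ[F] V} {c : F} (hc : c ≠ 0) (hgh : ∀ v, g v = c • h v) (π : Submodule F V) :
    π.map (g : V →ₗ[F] V) = π.map (h : V →ₗ[F] V) := by
  apply le_antisymm
  · rintro _ ⟨v, hv, rfl⟩
    refine ⟨c • v, π.smul_mem _ hv, ?_⟩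
    change h (c • v) = g v
    rw [map_smul, hgh]
  · rintro _ ⟨v, hv, rfl⟩
    refine ⟨c⁻¹ • v, π.smul_mem _ hv, ?_⟩
    change g (c⁻¹ • v) = h v
    rw [map_smul, hgh, smul_smul, inv_mul_cancel₀ hc, one_smul]

private theorem g1_nt (hS : Sys B M) : ∃ v : V, v ≠ 0 := by
  have hfd := fin hS
  have hnt : Nontrivial V := by
    apply Module.nontrivial_of_finrank_pos (R := F)
    rw [hS.dimV]
    norm_num
  exact exists_ne 0

private theorem g1_cne (hS : Sys B M) {g : V ≃ₗ[F] V} {c : F} (h : ∀ v, g v = c • v) : c ≠ 0 := by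
  obtain ⟨v, hv⟩ := g1_nt hS
  rintro rfl
  apply hv
  have := h v
  rw [zero_smul] at this
  exact (LinearEquiv.map_eq_zero_iff g).mp this

private theorem g1_form (hS : Sys B M) : ∃ v w : V, B v w ≠ 0 := by
  obtain ⟨v, hv⟩ := g1_nt hS
  by_contra hcon
  push Not at hcon
  exact hv (hS.nondeg v (hcon v))

private theorem g1_card (hS : Sys B M) : 3 ≤ M.card := by
  rw [hS.card]
  have hq : 1 < Fintype.card F := Fintype.one_lt_card
  have : 2 ^ 4 ≤ Fintype.card F ^ 4 := Nat.pow_le_pow_left hq 4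
  omega

private theorem g1_root {r : ℕ} (hcop : Nat.Coprime r (Fintype.card F - 1)) {ν : F} (hν : ν ≠ 0) :
    ∃ κ : F, κ ≠ 0 ∧ κ ^ r = ν := by
  classical
  have hc : (Nat.card Fˣ).Coprime r := by
    rw [Nat.card_eq_fintype_card, Fintype.card_units]
    exact hcop.symm
  obtain ⟨κ, hκ⟩ := (powCoprime hc).surjective (Units.mk0 ν hν)
  refine ⟨κ, κ.ne_zero, ?_⟩
  have h1 : κ ^ r = Units.mk0 ν hν := hκ
  have h2 := congrArg Units.val h1
  simpa using h2

private theorem g1_one {r : ℕ} (hr0 : r ≠ 0) (hcop : Nat.Coprime r (Fintype.card F - 1)) {c : F}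
    (hc : c ^ r = 1) : c = 1 := by
  classical
  have hc0 : c ≠ 0 := by
    rintro rfl
    rw [zero_pow hr0] at hc
    exact zero_ne_one hc
  have hco : (Nat.card Fˣ).Coprime r := by
    rw [Nat.card_eq_fintype_card, Fintype.card_units]
    exact hcop.symm
  have h1 : (powCoprime hco) (Units.mk0 c hc0) = (powCoprime hco) 1 := by
    change (Units.mk0 c hc0) ^ r = (1 : Fˣ) ^ r
    apply Units.ext
    simp [hc]
  have h2 := (powCoprime hco).injective h1
  have h3 := congrArg Units.val h2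
  simpa using h3

private theorem g1_all (hS : Sys B M) {μ : F} {g : V ≃ₗ[F] V} (hg : Simi B M μ g)
    (h : ∀ π ∈ M, π.map (g : V →ₗ[F] V) = π) : Scal g := by
  apply three_fixed hS hg
  have : fx M g = M := by
    ext π
    exact ⟨fun hp ↦ (mem_fx.mp hp).1, fun hp ↦ mem_fx.mpr ⟨hp, h π hp⟩⟩
  rw [this]
  exact g1_card hS

theorem scal_iff (hS : Sys B M) {G : Subgroup (V ≃ₗ[F] V)} (hG : SGrp B M G) (g : G) :
    pm M G hG.pres g = 1 ↔ Scal (g : V ≃ₗ[F] V) := by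
  constructor
  · intro h
    obtain ⟨μ, hμ⟩ := hG g g.2
    apply g1_all hS hμ
    intro π hπ
    have h1 := congrArg (fun e : Equiv.Perm {π // π ∈ M} ↦ (e ⟨π, hπ⟩).1) h
    exact h1
  · rintro ⟨c, hc⟩
    have hc0 := g1_cne hS hc
    apply Equiv.ext
    rintro ⟨π, hπ⟩
    apply Subtype.ext
    rw [pm_apply]
    have h1 := g1_map (g := (g : V ≃ₗ[F] V)) (h := 1) hc0 hc π
    rw [h1]
    exact Submodule.map_id π

theorem scal_of_all (hS : Sys B M) {μ : F} {g : V ≃ₗ[F] V} (hg : Simi B M μ g)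
    (h : ∀ π ∈ M, π.map (g : V →ₗ[F] V) = π) : Scal g := by
  exact g1_all hS hg h

theorem eq_on_im (hS : Sys B M) {r : ℕ} {ρ : V ≃ₗ[F] V} (hρ : Rho B M r ρ) {μ : F} {g : V ≃ₗ[F] V}
    (hg : Simi B M μ g) {c : F} (h : ∀ x ∈ im ρ, g x = c • x) : ∀ v, g v = c • v := by
  have hfd := fin hS
  have hd := (rho_dim hS hρ).2.1
  have hex : ∀ π ∈ M, ∃ x ∈ π, x ∈ im ρ ∧ x ≠ 0 := by
    intro π hπ
    have h1 := Submodule.finrank_sup_add_finrank_inf_eq π (im ρ)
    have h2 : finrank F (π ⊔ im ρ : Submodule F V) ≤ finrank F V := Submodule.finrank_le _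
    rw [hS.dimV] at h2
    rw [hS.dim π hπ, hd] at h1
    have h3 : finrank F (π ⊓ im ρ : Submodule F V) ≠ 0 := by omega
    have h4 : (π ⊓ im ρ : Submodule F V) ≠ ⊥ := fun h ↦ h3 (Submodule.finrank_eq_zero.mpr h)
    obtain ⟨x, hx, hx0⟩ := Submodule.exists_mem_ne_zero_of_ne_bot h4
    exact ⟨x, hx.1, hx.2, hx0⟩
  obtain ⟨π0, hπ0⟩ : M.Nonempty := Finset.card_pos.mp (by have := g1_card hS; omega)
  obtain ⟨x0, _, hx0, hx00⟩ := hex π0 hπ0
  have hc : c ≠ 0 := by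
    rintro rfl
    have := h x0 hx0
    rw [zero_smul] at this
    exact hx00 ((LinearEquiv.map_eq_zero_iff g).mp this)
  obtain ⟨d, hd'⟩ := scal_of_all hS hg (by
    intro π hπ
    by_contra hne
    obtain ⟨x, hx, hxi, hx00⟩ := hex π hπ
    have h1 : g x ∈ π := by rw [h x hxi]; exact π.smul_mem _ hx
    have h2 : g x ∈ π.map (g : V →ₗ[F] V) := ⟨x, hx, rfl⟩
    have h3 := disj hS (hg.pres π hπ) hπ hne h2 h1
    exact hx00 ((LinearEquiv.map_eq_zero_iff g).mp h3))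
  have hcd : d = c := by
    have h1 := hd' x0
    rw [h x0 hx0] at h1
    have h2 : (c - d) • x0 = 0 := by rw [sub_smul, h1, sub_self]
    exact (sub_eq_zero.mp ((smul_eq_zero.mp h2).resolve_right hx00)).symm
  intro v
  rw [hd', hcd]

theorem lift_rho (hS : Sys B M) {G : Subgroup (V ≃ₗ[F] V)} (hG : SGrp B M G) (g : G) {r : ℕ} (hr : r.Prime)
    (hr2 : r ≠ 2) (hd : r ∣ Fintype.card F ^ 4 + 1) (h1 : pm M G hG.pres g ≠ 1)
    (hp : (pm M G hG.pres g) ^ r = 1) :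
    ∃ (c : F) (ρ : V ≃ₗ[F] V), c ≠ 0 ∧ (∀ v, (g : V ≃ₗ[F] V) v = c • ρ v) ∧ Rho B M r ρ := by
  have hq : 1 ≤ Fintype.card F := Fintype.card_pos
  have hcop := (cop hq (hr.odd_of_ne_two hr2) hd).2.1
  obtain ⟨μ, hμ⟩ := hG g g.2
  have hpr : pm M G hG.pres (g ^ r) = 1 := by rw [map_pow, hp]
  obtain ⟨ν, hν⟩ := (scal_iff hS hG (g ^ r)).mp hpr
  have hν0 := g1_cne hS hν
  obtain ⟨κ, hκ0, hκ⟩ := g1_root hcop hν0
  have hκi : κ⁻¹ ≠ 0 := inv_ne_zero hκ0
  let ρ : V ≃ₗ[F] V := (g : V ≃ₗ[F] V).trans (LinearEquiv.smulOfNeZero F V κ⁻¹ hκi)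
  have hρ : ∀ v, ρ v = κ⁻¹ • (g : V ≃ₗ[F] V) v := fun v ↦ rfl
  have hgρ : ∀ v, (g : V ≃ₗ[F] V) v = κ • ρ v := by
    intro v
    rw [hρ, smul_smul, mul_inv_cancel₀ hκ0, one_smul]
  have hpow : ∀ (n : ℕ) (v : V), (ρ ^ n) v = (κ⁻¹ ^ n) • (((g : V ≃ₗ[F] V) ^ n) v) := by
    intro n
    induction n with
    | zero => intro v; simp
    | succ n ih =>
      intro v
      rw [pow_succ', LinearEquiv.mul_apply, ih, map_smul, hρ, smul_smul, pow_succ', pow_succ',
        LinearEquiv.mul_apply, mul_comm]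
  have hρr : ρ ^ r = 1 := by
    apply LinearEquiv.ext
    intro v
    have h2 : ((g : V ≃ₗ[F] V) ^ r) v = ν • v := hν v
    rw [hpow, h2, smul_smul, inv_pow, hκ, inv_mul_cancel₀ hν0, one_smul]
    rfl
  have hsim : ∀ v w, B (ρ v) (ρ w) = (κ⁻¹ * κ⁻¹ * μ) * B v w := by
    intro v w
    rw [hρ, hρ, map_smul, map_smul, LinearMap.smul_apply, hμ.sim, smul_eq_mul, smul_eq_mul]
    ring
  have hsimn : ∀ (n : ℕ) (v w : V), B ((ρ ^ n) v) ((ρ ^ n) w) = (κ⁻¹ * κ⁻¹ * μ) ^ n * B v w := by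
    intro n
    induction n with
    | zero => intro v w; simp
    | succ n ih =>
      intro v w
      rw [pow_succ', LinearEquiv.mul_apply, LinearEquiv.mul_apply, hsim, ih, pow_succ']
      ring
  have hμ1 : κ⁻¹ * κ⁻¹ * μ = 1 := by
    apply g1_one hr.ne_zero hcop
    obtain ⟨v, w, hvw⟩ := g1_form hS
    have h3 := hsimn r v w
    rw [hρr] at h3
    have h4 : B v w = (κ⁻¹ * κ⁻¹ * μ) ^ r * B v w := h3
    have h5 : ((κ⁻¹ * κ⁻¹ * μ) ^ r - 1) * B v w = 0 := by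
      rw [sub_mul, one_mul, ← h4, sub_self]
    exact sub_eq_zero.mp ((mul_eq_zero.mp h5).resolve_right hvw)
  refine ⟨κ, ρ, hκ0, hgρ, ?_⟩
  refine
    { simi := ⟨fun v w ↦ by rw [hsim, hμ1], fun π hπ ↦ ?_⟩
      prime := hr
      odd := hr2
      dvd := hd
      pow := hρr
      ne := ?_ }
  · have h6 := g1_map (g := (g : V ≃ₗ[F] V)) (h := ρ) hκ0 hgρ π
    rw [← h6]
    exact hμ.pres π hπ
  · intro h7
    apply h1
    apply (scal_iff hS hG g).mpr
    refine ⟨κ, fun v ↦ ?_⟩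
    rw [hgρ, h7]
    rfl

theorem rho_free (hS : Sys B M) {r : ℕ} {ρ : V ≃ₗ[F] V} (hρ : Rho B M r ρ) : fx M ρ = ∅ := by
  classical
  have hfd := fin hS
  have hVfin : Finite V := Module.finite_of_finite F
  have hq : 1 ≤ Fintype.card F := Fintype.card_pos
  have hcop := (cop hq (hρ.prime.odd_of_ne_two hρ.odd) hρ.dvd).2.1
  have h1 := R4 ρ hρ.prime hρ.pow M hρ.simi.pres
  have h2 : Nat.card {π : Submodule F V // π ∈ M ∧ π.map (ρ : V →ₗ[F] V) = π} = (fx M ρ).card :=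
    Nat.subtype_card _ (fun π ↦ mem_fx)
  rw [h2, hS.card] at h1
  have h3 : r ∣ (fx M ρ).card := (Nat.ModEq.dvd_iff h1 dvd_rfl).mpr hρ.dvd
  by_contra hne
  have hpos : 0 < (fx M ρ).card := Finset.card_pos.mpr (Finset.nonempty_iff_ne_empty.mpr hne)
  have h4 := Nat.le_of_dvd hpos h3
  have hr3 : 3 ≤ r := by
    have := hρ.prime.two_le
    have := hρ.odd
    omega
  obtain ⟨c, hc⟩ := three_fixed hS hρ.simi (by omega)
  have hpow : ∀ (n : ℕ) (v : V), (ρ ^ n) v = (c ^ n) • v := by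
    intro n
    induction n with
    | zero => intro v; simp
    | succ n ih =>
      intro v
      rw [pow_succ', LinearEquiv.mul_apply, ih, map_smul, hc, smul_smul, pow_succ]
  obtain ⟨v, hv⟩ := g1_nt hS
  have h5 := hpow r v
  rw [hρ.pow] at h5
  have h6 : v = c ^ r • v := h5
  have h7 : c ^ r = 1 := by
    have h8 : (c ^ r - 1) • v = 0 := by rw [sub_smul, one_smul, ← h6, sub_self]
    exact sub_eq_zero.mp ((smul_eq_zero.mp h8).resolve_right hv)
  have hc1 := g1_one hρ.prime.ne_zero hcop h7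
  apply hρ.ne
  apply LinearEquiv.ext
  intro w
  rw [hc, hc1, one_smul]
  rfl

end Pool.Agent.LibNT29
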