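import Pool.Agent.LibNT29.H1

set_option autoImplicit false

/-!
[NT29 H2] MEDIUM/STRONG. The commutant `E` of `ρ` in `End W` is a field with `q^8` elements. Suggested: `E = Subalgebra.centralizer F {ρ}` of `Module.End F W`, commutative (`com`), nonzero elements are injective (`inj`), finite, so a field
(`Finite.isField_of_domain`, or build `IsDomain` and use `isCyclic`). Evaluation at `x ≠ 0` is a bijection `E → W` (injective: `inj`; surjective: `span`), so `|E| = q^8`.
`roots`: `σ` commuting with `ρ`, `σ^r = 1`: in the domain `E` the polynomial `X^r - 1` has at most `r` roots (`Polynomial.card_nthRoots` / `card_roots'`), and `ρ^j`, `j < r`, are `r` different ones.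
`nor8`: `g ρ = ρ^j g`. Conjugation by `g` is an `F`-algebra automorphism `θ` of `E` with `θ ρ = ρ^j` and `|Aut_F E| = [E : F] = 8` (`IsGalois.card_aut_eq_finrank`, or: `x ↦ x^q` generates), so `θ^8 = 1`. Or directly: the minimal polynomial `f` of `ρ` over `F` has degree 8,
`f(ρ^j) = g f(ρ) g⁻¹ = 0`; the roots of `f` in `E` are the `ρ^(q^i)`, `i < 8` (they are roots by Frobenius, different because the order of `q` mod `r` is 8), so `j = q^i` mod `r`, `j^8 = 1` mod `r`, and `g^8 ρ g^(-8) = ρ^(j^8) = ρ`.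
-/

namespace Pool.Agent.LibNT29

set_option linter.unusedSectionVars false
set_option linter.style.haveILetI false

open Module

variable {F W : Type*} [Field F] [Fintype F] [AddCommGroup W] [Module F W]
  {β : W →ₗ[F] W →ₗ[F] F} {r : ℕ} {ρ : W ≃ₗ[F] W}

private theorem mem_EE (a : Module.End F W) :
    a ∈ Subalgebra.centralizer F {((ρ : W →ₗ[F] W) : Module.End F W)} ↔ ∀ x, a (ρ x) = ρ (a x) := by
  rw [Subalgebra.mem_centralizer_iff]
  constructor
  · intro h x
    have h1 := h _ rfl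
    exact (LinearMap.congr_fun h1 x).symm
  · rintro h _ rfl
    ext x
    exact (h x).symm

private noncomputable abbrev crE (h : R8 β r ρ) :
    CommRing (Subalgebra.centralizer F {((ρ : W →ₗ[F] W) : Module.End F W)}) :=
  { (inferInstance : Ring (Subalgebra.centralizer F {((ρ : W →ₗ[F] W) : Module.End F W)})) with
    mul_comm := by
      intro a b
      apply Subtype.ext
      ext x
      exact h.com ((mem_EE _).1 a.2) ((mem_EE _).1 b.2) x }

private theorem nontrivW (h : R8 β r ρ) : ∃ x : W, x ≠ 0 := by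
  by_contra hcon
  push Not at hcon
  have h1 : Subsingleton W := ⟨fun a b => by rw [hcon a, hcon b]⟩
  have h2 := h.dim
  rw [finrank_zero_of_subsingleton] at h2
  norm_num at h2

private theorem domE (h : R8 β r ρ) :
    letI := crE h
    IsDomain (Subalgebra.centralizer F {((ρ : W →ₗ[F] W) : Module.End F W)}) := by
  letI := crE h
  obtain ⟨x0, hx0⟩ := nontrivW h
  haveI : Nontrivial (Subalgebra.centralizer F {((ρ : W →ₗ[F] W) : Module.End F W)}) := by
    refine ⟨0, 1, ?_⟩
    intro h1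
    have h2 : (0 : Module.End F W) = 1 := congrArg Subtype.val h1
    exact hx0 (LinearMap.congr_fun h2 x0).symm
  haveI : NoZeroDivisors (Subalgebra.centralizer F {((ρ : W →ₗ[F] W) : Module.End F W)}) := by
    refine ⟨?_⟩
    intro a b hab
    by_cases hb : b = 0
    · exact Or.inr hb
    · left
      have hb' : ∃ x, (b : Module.End F W) x ≠ 0 := by
        by_contra hcon
        push Not at hcon
        apply hb
        apply Subtype.ext
        ext x
        exact hcon x
      obtain ⟨x, hx⟩ := hb'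
      have h1 : (a : Module.End F W) * (b : Module.End F W) = 0 := congrArg Subtype.val hab
      apply Subtype.ext
      exact h.inj ((mem_EE _).1 a.2) hx (LinearMap.congr_fun h1 x)
  exact NoZeroDivisors.to_isDomain _

private theorem coe_pow' (σ : W ≃ₗ[F] W) (n : ℕ) :
    (((σ ^ n : W ≃ₗ[F] W) : W →ₗ[F] W) : Module.End F W) = ((σ : W →ₗ[F] W) : Module.End F W) ^ n := by
  induction n with
  | zero => rfl
  | succ n ih =>
    rw [pow_succ, pow_succ, ← ih]
    rfl

private theorem coe_inj' (σ τ : W ≃ₗ[F] W) (h : (σ : W →ₗ[F] W) = (τ : W →ₗ[F] W)) : σ = τ := by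
  ext x
  exact LinearMap.congr_fun h x

private theorem ordρ (h : R8 β r ρ) : orderOf ρ = r := by
  haveI : Fact r.Prime := ⟨h.prime⟩
  exact orderOf_eq_prime h.pow h.ne

theorem R8.roots (h : R8 β r ρ) (σ : W ≃ₗ[F] W) (hc : ∀ x, σ (ρ x) = ρ (σ x)) (hσ : σ ^ r = 1) :
    ∃ j : ℕ, σ = ρ ^ j := by
  letI := crE h
  haveI := domE h
  haveI : Fact r.Prime := ⟨h.prime⟩
  haveI : NeZero r := ⟨h.prime.ne_zero⟩
  obtain ⟨ρE, hρE⟩ : ∃ e : Subalgebra.centralizer F {((ρ : W →ₗ[F] W) : Module.End F W)},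
      (e : Module.End F W) = (ρ : W →ₗ[F] W) := ⟨⟨_, (mem_EE _).2 (fun x => rfl)⟩, rfl⟩
  obtain ⟨σE, hσE⟩ : ∃ e : Subalgebra.centralizer F {((ρ : W →ₗ[F] W) : Module.End F W)},
      (e : Module.End F W) = (σ : W →ₗ[F] W) := ⟨⟨_, (mem_EE _).2 hc⟩, rfl⟩
  have cp : ∀ (e : Subalgebra.centralizer F {((ρ : W →ₗ[F] W) : Module.End F W)}) (n : ℕ),
      ((e ^ n : Subalgebra.centralizer F {((ρ : W →ₗ[F] W) : Module.End F W)}) : Module.End F W)
        = (e : Module.End F W) ^ n := fun e n => rfl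
  have h1 : ρE ^ r = 1 := by
    apply Subtype.ext
    rw [cp, hρE, ← coe_pow', h.pow]
    rfl
  have h2 : ρE ≠ 1 := by
    intro h3
    apply h.ne
    apply coe_inj'
    rw [← hρE, h3]
    rfl
  have h3 : σE ^ r = 1 := by
    apply Subtype.ext
    rw [cp, hσE, ← coe_pow', hσ]
    rfl
  have h4 : IsPrimitiveRoot ρE r := by
    have h5 := orderOf_eq_prime h1 h2
    have h6 := IsPrimitiveRoot.orderOf ρE
    rw [h5] at h6
    exact h6
  obtain ⟨i, _, hi⟩ := h4.eq_pow_of_pow_eq_one h3
  refine ⟨i, ?_⟩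
  apply coe_inj'
  have h7 : ((ρE ^ i : Subalgebra.centralizer F {((ρ : W →ₗ[F] W) : Module.End F W)}) : Module.End F W)
      = (σE : Module.End F W) := by rw [hi]
  rw [cp, hρE, hσE, ← coe_pow'] at h7
  exact h7.symm

/-- the order of `q` modulo `r` is `8` -/
private theorem ordq (h : R8 β r ρ) : orderOf ((Fintype.card F : ℕ) : ZMod r) = 8 := by
  haveI : Fact r.Prime := ⟨h.prime⟩
  have h1 : (((Fintype.card F : ℕ) : ZMod r)) ^ 4 + 1 = 0 := by
    have := (ZMod.natCast_eq_zero_iff (Fintype.card F ^ 4 + 1) r).2 h.dvd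
    exact_mod_cast this
  have h2 : (((Fintype.card F : ℕ) : ZMod r)) ^ 4 = -1 := by linear_combination h1
  have h3 : (-1 : ZMod r) ≠ 1 := by
    haveI : Fact (2 < r) := ⟨lt_of_le_of_ne h.prime.two_le (Ne.symm h.odd)⟩
    exact ZMod.neg_one_ne_one
  have h4 := orderOf_eq_prime_pow (x := ((Fintype.card F : ℕ) : ZMod r)) (p := 2) (n := 2)
    (by norm_num; rw [h2]; exact h3) (by
      norm_num
      calc (((Fintype.card F : ℕ) : ZMod r)) ^ 8 = ((((Fintype.card F : ℕ) : ZMod r)) ^ 4) ^ 2 := by ring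
        _ = 1 := by rw [h2]; ring)
  norm_num at h4
  exact h4

private theorem conj_pow (g : W ≃ₗ[F] W) (j : ℕ) (hg : ∀ x, g (ρ x) = (ρ ^ j) (g x)) (m : ℕ) (x : W) :
    g ((ρ ^ m) x) = ((ρ ^ j) ^ m) (g x) := by
  induction m generalizing x with
  | zero => rfl
  | succ m ih =>
    rw [pow_succ, pow_succ]
    show g ((ρ ^ m) (ρ x)) = ((ρ ^ j) ^ m) ((ρ ^ j) (g x))
    rw [ih, hg]

private theorem conj_pow2 (g : W ≃ₗ[F] W) (j : ℕ) (hg : ∀ x, g (ρ x) = (ρ ^ j) (g x)) (n : ℕ) (x : W) :
    (g ^ n) (ρ x) = (ρ ^ (j ^ n)) ((g ^ n) x) := by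
  induction n with
  | zero =>
    rw [pow_zero, pow_zero, pow_one]
    rfl
  | succ n ih =>
    rw [pow_succ' g]
    show g ((g ^ n) (ρ x)) = (ρ ^ (j ^ (n + 1))) (g ((g ^ n) x))
    rw [ih, conj_pow g j hg, ← pow_mul, ← pow_succ']

private theorem conj_aeval (g : W ≃ₗ[F] W) (j : ℕ) (hg : ∀ x, g (ρ x) = (ρ ^ j) (g x))
    (p : Polynomial F) (x : W) :
    g ((Polynomial.aeval ((ρ : W →ₗ[F] W) : Module.End F W) p) x)
      = (Polynomial.aeval (((ρ ^ j : W ≃ₗ[F] W) : W →ₗ[F] W) : Module.End F W) p) (g x) := by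
  induction p using Polynomial.induction_on' with
  | add p q hp hq =>
    rw [map_add, map_add, LinearMap.add_apply, LinearMap.add_apply, map_add, hp, hq]
  | monomial n c =>
    rw [Polynomial.aeval_monomial, Polynomial.aeval_monomial, ← Algebra.smul_def, ← Algebra.smul_def,
      LinearMap.smul_apply, LinearMap.smul_apply, map_smul, ← coe_pow', ← coe_pow']
    congr 1
    exact conj_pow g j hg n x

theorem R8.nor8 (h : R8 β r ρ) (g : W ≃ₗ[F] W) (j : ℕ) (hg : ∀ x, g (ρ x) = (ρ ^ j) (g x)) (x : W) :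
    (g ^ 8) (ρ x) = ρ ((g ^ 8) x) := by
  classical
  letI := crE h
  haveI := domE h
  haveI : Fact r.Prime := ⟨h.prime⟩
  haveI : Module.Finite F W := Module.finite_of_finrank_pos (by rw [h.dim]; norm_num)
  have hord := ordρ h
  have hordq := ordq h
  obtain ⟨q, hq⟩ : ∃ q, q = Fintype.card F := ⟨_, rfl⟩
  rw [← hq] at hordq
  obtain ⟨f, hf⟩ : ∃ f, f = LinearMap.charpoly (ρ : W →ₗ[F] W) := ⟨_, rfl⟩
  have hf8 : f.natDegree = 8 := by rw [hf, LinearMap.charpoly_natDegree, h.dim]
  have hfm : f.Monic := by rw [hf]; exact LinearMap.charpoly_monic _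
  have hf0 : Polynomial.aeval ((ρ : W →ₗ[F] W) : Module.End F W) f = 0 := by
    rw [hf]; exact LinearMap.aeval_self_charpoly _
  have hfrob : ∀ i : ℕ, Polynomial.aeval (((ρ : W →ₗ[F] W) : Module.End F W) ^ (q ^ i)) f = 0 := by
    intro i
    induction i with
    | zero => rw [pow_zero, pow_one]; exact hf0
    | succ i ih =>
      rw [pow_succ, pow_mul, ← Polynomial.expand_aeval, hq, FiniteField.expand_card, map_pow, ← hq, ih]
      exact zero_pow (by rw [hq]; exact Fintype.card_ne_zero)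
  have hfj : Polynomial.aeval (((ρ : W →ₗ[F] W) : Module.End F W) ^ j) f = 0 := by
    rw [← coe_pow']
    ext y
    obtain ⟨z, rfl⟩ := g.surjective y
    rw [← conj_aeval g j hg f z, hf0]
    simp
  obtain ⟨ρE, hρE⟩ : ∃ e : Subalgebra.centralizer F {((ρ : W →ₗ[F] W) : Module.End F W)},
      (e : Module.End F W) = (ρ : W →ₗ[F] W) := ⟨⟨_, (mem_EE _).2 (fun x => rfl)⟩, rfl⟩
  have cp : ∀ (e : Subalgebra.centralizer F {((ρ : W →ₗ[F] W) : Module.End F W)}) (n : ℕ),
      ((e ^ n : Subalgebra.centralizer F {((ρ : W →ₗ[F] W) : Module.End F W)}) : Module.End F W)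
        = (e : Module.End F W) ^ n := fun e n => rfl
  have key : ∀ (e : Subalgebra.centralizer F {((ρ : W →ₗ[F] W) : Module.End F W)}) (p : Polynomial F),
      ((Polynomial.aeval e p : Subalgebra.centralizer F {((ρ : W →ₗ[F] W) : Module.End F W)}) :
        Module.End F W) = Polynomial.aeval (e : Module.End F W) p := by
    intro e p
    induction p using Polynomial.induction_on' with
    | add p q hp hq => rw [map_add, map_add, ← hp, ← hq]; rfl
    | monomial n c =>
      rw [Polynomial.aeval_monomial, Polynomial.aeval_monomial, ← cp]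
      rfl
  have hroot : ∀ n : ℕ, Polynomial.aeval (((ρ : W →ₗ[F] W) : Module.End F W) ^ n) f = 0 →
      (f.map (algebraMap F (Subalgebra.centralizer F {((ρ : W →ₗ[F] W) : Module.End F W)}))).IsRoot
        (ρE ^ n) := by
    intro n hn
    rw [Polynomial.IsRoot.def, Polynomial.eval_map_algebraMap]
    apply Subtype.ext
    rw [key, cp, hρE, hn]
    rfl
  have hfm' : (f.map (algebraMap F (Subalgebra.centralizer F {((ρ : W →ₗ[F] W) : Module.End F W)}))).Monic :=
    hfm.map _
  have hpowinj : ∀ a b : ℕ, ρE ^ a = ρE ^ b → a ≡ b [MOD r] := by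
    intro a b hab
    have h1 : ((ρE ^ a : Subalgebra.centralizer F {((ρ : W →ₗ[F] W) : Module.End F W)}) : Module.End F W)
      = ((ρE ^ b : Subalgebra.centralizer F {((ρ : W →ₗ[F] W) : Module.End F W)}) : Module.End F W) := by
      rw [hab]
    rw [cp, cp, hρE, ← coe_pow', ← coe_pow'] at h1
    have h2 := coe_inj' _ _ h1
    rw [pow_eq_pow_iff_modEq, hord] at h2
    exact h2
  have hq0 : IsUnit ((q : ℕ) : ZMod r) := by
    have h1 : ((q : ℕ) : ZMod r) ^ 8 = 1 := by rw [← hordq]; exact pow_orderOf_eq_one _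
    exact IsUnit.of_pow_eq_one h1 (by norm_num)
  have hinj : Set.InjOn (fun i : ℕ => ρE ^ (q ^ i)) (Finset.range 8 : Finset ℕ) := by
    intro a ha b hb hab
    have h1 := hpowinj _ _ hab
    rw [← ZMod.natCast_eq_natCast_iff, Nat.cast_pow, Nat.cast_pow] at h1
    have h2 : ((q : ℕ) : ZMod r) ^ a = ((q : ℕ) : ZMod r) ^ b := h1
    have h3 := pow_injOn_Iio_orderOf (x := ((q : ℕ) : ZMod r))
    rw [hordq] at h3
    exact h3 (by simpa using ha) (by simpa using hb) h2
  have hmem : ∃ i : ℕ, ρE ^ j = ρE ^ (q ^ i) := by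
    by_contra hcon
    push Not at hcon
    have h1 : insert (ρE ^ j) ((Finset.range 8).image (fun i : ℕ => ρE ^ (q ^ i)))
        ⊆ (f.map (algebraMap F (Subalgebra.centralizer F {((ρ : W →ₗ[F] W) : Module.End F W)}))).roots.toFinset := by
      intro e he
      rw [Multiset.mem_toFinset, Polynomial.mem_roots hfm'.ne_zero]
      rw [Finset.mem_insert, Finset.mem_image] at he
      rcases he with rfl | ⟨i, _, rfl⟩
      · exact hroot j hfj
      · exact hroot _ (hfrob i)
    have h2 := Finset.card_le_card h1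
    rw [Finset.card_insert_of_notMem (by
      rw [Finset.mem_image]
      rintro ⟨i, _, hi⟩
      exact hcon i hi.symm), Finset.card_image_of_injOn hinj, Finset.card_range] at h2
    have h3 := Multiset.toFinset_card_le
      (f.map (algebraMap F (Subalgebra.centralizer F {((ρ : W →ₗ[F] W) : Module.End F W)}))).roots
    have h4 := Polynomial.card_roots'
      (f.map (algebraMap F (Subalgebra.centralizer F {((ρ : W →ₗ[F] W) : Module.End F W)})))
    rw [hfm.natDegree_map, hf8] at h4
    omega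
  obtain ⟨i, hi⟩ := hmem
  have h1 := hpowinj _ _ hi
  rw [← ZMod.natCast_eq_natCast_iff, Nat.cast_pow] at h1
  have h2 : ((j ^ 8 : ℕ) : ZMod r) = ((1 : ℕ) : ZMod r) := by
    rw [Nat.cast_pow, h1, ← pow_mul, mul_comm, pow_mul]
    have h3 : ((q : ℕ) : ZMod r) ^ 8 = 1 := by rw [← hordq]; exact pow_orderOf_eq_one _
    rw [h3, one_pow, Nat.cast_one]
  rw [ZMod.natCast_eq_natCast_iff, ← hord, ← pow_eq_pow_iff_modEq, pow_one] at h2
  rw [conj_pow2 g j hg, h2]

end Pool.Agent.LibNT29
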