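import Pool.Agent.LibNT29.C3
import Pool.Agent.LibNT29.G1
import Pool.Agent.LibNT29.H2
import Pool.Agent.LibNT29.DDefs

set_option autoImplicit false

/-!
[NT29 G2] MEDIUM/STRONG. The permutation group `P = (pm M G _).range` satisfies `Few`. `X = {π // π ∈ M}`, `|X| = q^4 + 1`.
`fix`: an element of `P` fixing 3 members is 1 (`three_fixed`, `scal_iff`). `inv`: `γ = pm g`, `γ² = 1`: `g g` is scalar (`scal_iff`), `g` is not, `inv_free`.
`cen`: `ρ̄ ∈ P`, lift to `ρ` (`lift_rho`; `ρ̄ = pm g₀`, `g₀ = c ρ`). `a, b ∈ P` commuting with `ρ̄`, `a = pm g`, `b = pm h`: `g ρ g⁻¹ ρ⁻¹` fixes all members, so it is a scalar `λ` (`scal_of_all`), `g ρ g⁻¹ = λ ρ`, `r`-th powers: `λ^r = 1`, `λ = 1` (`cop`: `r` coprime to `q - 1`). So `g` commutes with `ρ` and acts on `im ρ` (`im_map`); same for `h`. By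
`R8.com` (with `to_R8`) `g h = h g` on `im ρ`, so `g h g⁻¹ h⁻¹ = 1` on `im ρ`, so `= 1` (`eq_on_im`), `a b = b a`.
`cyc`: `σ̄ = pm h`, lift `σ` with `σ^r = 1` (`lift_rho`, or trivial if `σ̄ = 1`); commutes with `ρ`; `R8.roots`: `σ = ρ^j` on `im ρ`, so `σ = ρ^j`, `σ̄ = ρ̄^j`.
`nor`: `g ρ g⁻¹ = λ ρ^j`, `λ^r = 1`, `λ = 1`; `g` maps `im ρ` to itself (`im (ρ^j) ≤ im ρ`); `R8.nor8`: `g^8 ρ = ρ g^8` on `im ρ`; `eq_on_im` for `g^8 ρ g^(-8) ρ^(-1)`.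
-/

namespace Pool.Agent.LibNT29

open Module Pool.Agent.LibBT65

variable {F V : Type*} [Field F] [Fintype F] [AddCommGroup V] [Module F V]
  {B : V →ₗ[F] V →ₗ[F] F} {M : Finset (Submodule F V)}

omit [Fintype F] in
private theorem G2_simi_mul {μ ν : F} {g h : V ≃ₗ[F] V} (hg : Simi B M μ g) (hh : Simi B M ν h) :
    Simi B M (μ * ν) (g * h) := by
  refine ⟨fun v w => ?_, fun π hπ => ?_⟩
  · show B (g (h v)) (g (h w)) = μ * ν * B v w
    rw [hg.sim, hh.sim, mul_assoc]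
  · have : ((g * h : V ≃ₗ[F] V) : V →ₗ[F] V) = (g : V →ₗ[F] V) ∘ₗ (h : V →ₗ[F] V) := rfl
    rw [this, Submodule.map_comp]
    exact hg.pres _ (hh.pres π hπ)

omit [Fintype F] in
private theorem G2_simi_one : Simi B M 1 (1 : V ≃ₗ[F] V) := by
  refine ⟨fun v w => (one_mul _).symm, fun π hπ => ?_⟩
  have : π.map ((1 : V ≃ₗ[F] V) : V →ₗ[F] V) = π := Submodule.map_id π
  rw [this]
  exact hπ

omit [Fintype F] in
private theorem G2_simi_inv {μ : F} {g : V ≃ₗ[F] V} (hg : Simi B M μ g) (hμ : μ ≠ 0) :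
    Simi B M μ⁻¹ g⁻¹ := by
  refine ⟨fun v w => ?_, fun π hπ => ?_⟩
  · have h := hg.sim (g⁻¹ v) (g⁻¹ w)
    have e1 : g (g⁻¹ v) = v := g.apply_symm_apply v
    have e2 : g (g⁻¹ w) = w := g.apply_symm_apply w
    rw [e1, e2] at h
    rw [h, ← mul_assoc, inv_mul_cancel₀ hμ, one_mul]
  · have hinj : Function.Injective (fun π : {π // π ∈ M} =>
        (⟨π.1.map (g : V →ₗ[F] V), hg.pres π.1 π.2⟩ : {π // π ∈ M})) := by
      intro a b hab
      apply Subtype.ext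
      exact Submodule.map_injective_of_injective g.injective (congrArg Subtype.val hab)
    obtain ⟨π', hπ'⟩ := Finite.surjective_of_injective hinj ⟨π, hπ⟩
    have h3 : π'.1.map (g : V →ₗ[F] V) = π := congrArg Subtype.val hπ'
    have : π.map ((g⁻¹ : V ≃ₗ[F] V) : V →ₗ[F] V) = π'.1 := by
      rw [← h3, ← Submodule.map_comp]
      have : ((g⁻¹ : V ≃ₗ[F] V) : V →ₗ[F] V) ∘ₗ (g : V →ₗ[F] V) = LinearMap.id := by
        ext v
        exact g.symm_apply_apply v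
      rw [this, Submodule.map_id]
    rw [this]
    exact π'.2

omit [Fintype F] in
private theorem G2_mul {g h : V ≃ₗ[F] V} (hg : ∃ μ, Simi B M μ g) (hh : ∃ μ, Simi B M μ h) :
    ∃ μ, Simi B M μ (g * h) := by
  obtain ⟨μ, hg⟩ := hg
  obtain ⟨ν, hh⟩ := hh
  exact ⟨_, G2_simi_mul hg hh⟩

omit [Fintype F] in
private theorem G2_pow {g : V ≃ₗ[F] V} (hg : ∃ μ, Simi B M μ g) (n : ℕ) : ∃ μ, Simi B M μ (g ^ n) := by
  induction n with
  | zero => exact ⟨1, by rw [pow_zero]; exact G2_simi_one⟩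
  | succ n ih => rw [pow_succ]; exact G2_mul ih hg

/-- similarities which agree on `im ρ` are equal -/
private theorem G2_eq (hS : Sys B M) {r : ℕ} {ρ : V ≃ₗ[F] V} (hρ : Rho B M r ρ) {g h : V ≃ₗ[F] V}
    (hg : ∃ μ, Simi B M μ g) (hh : ∃ μ, Simi B M μ h) (e : ∀ x ∈ im ρ, g x = h x) : g = h := by
  obtain ⟨μ, hg⟩ := hg
  obtain ⟨ν, hh⟩ := hh
  have hk := G2_simi_mul (G2_simi_inv hh (mu_ne hS hh)) hg
  have h1 := eq_on_im hS hρ hk (c := 1) (fun x hx => by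
    show h⁻¹ (g x) = (1 : F) • x
    rw [e x hx, one_smul]
    exact h.symm_apply_apply x)
  apply LinearEquiv.ext
  intro v
  have h3 : h⁻¹ (g v) = v := by
    have := h1 v
    rw [one_smul] at this
    exact this
  calc g v = h (h⁻¹ (g v)) := (h.apply_symm_apply (g v)).symm
    _ = h v := by rw [h3]

private theorem G2_lam {m : ℕ} (hm : Odd m) (hd : m ∣ Fintype.card F ^ 4 + 1) {c : F} (hc : c ^ m = 1) :
    c = 1 := by
  have hc0 : c ≠ 0 := by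
    rintro rfl
    rw [zero_pow hm.pos.ne'] at hc
    exact zero_ne_one hc
  have h1 : c ^ (Fintype.card F - 1) = 1 := FiniteField.pow_card_sub_one_eq_one c hc0
  have h2 := pow_gcd_eq_one.2 ⟨hc, h1⟩
  have h3 : Nat.gcd m (Fintype.card F - 1) = 1 := (cop Fintype.card_pos hm hd).2.1
  rw [h3, pow_one] at h2
  exact h2

private theorem G2_odd {r : ℕ} (hr : r.Prime) (h2 : r ≠ 2) : Odd r := hr.odd_of_ne_two h2

private theorem G2_nz (hS : Sys B M) : ∃ v : V, v ≠ 0 := by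
  have h : 0 < finrank F V := by rw [hS.dimV]; norm_num
  have : Nontrivial V := Module.nontrivial_of_finrank_pos h
  exact exists_ne 0

private theorem G2_rel (hS : Sys B M) {G : Subgroup (V ≃ₗ[F] V)} (hG : SGrp B M G) (g g₀ : G) {r : ℕ}
    {ρ : V ≃ₗ[F] V} (hρ : Rho B M r ρ) {c : F} (hc : c ≠ 0) (hg₀ : ∀ v, (g₀ : V ≃ₗ[F] V) v = c • ρ v) {j : ℕ}
    (h : pm M G hG.pres g * pm M G hG.pres g₀ = (pm M G hG.pres g₀) ^ j * pm M G hG.pres g) :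
    ∀ v, (g : V ≃ₗ[F] V) (ρ v) = (ρ ^ j) ((g : V ≃ₗ[F] V) v) := by
  have h1 : pm M G hG.pres (g * g₀ * (g₀ ^ j * g)⁻¹) = 1 := by
    rw [map_mul, map_inv, map_mul, map_mul, map_pow, h, mul_inv_cancel]
  obtain ⟨l, hl⟩ := (scal_iff hS hG _).1 h1
  have h2 : ∀ v, (g : V ≃ₗ[F] V) ((g₀ : V ≃ₗ[F] V) v) = l • ((g₀ : V ≃ₗ[F] V) ^ j) ((g : V ≃ₗ[F] V) v) := by
    intro v
    have e := hl (((g₀ : V ≃ₗ[F] V) ^ j * (g : V ≃ₗ[F] V)) v)
    have e2 : ((g * g₀ * (g₀ ^ j * g)⁻¹ : G) : V ≃ₗ[F] V) (((g₀ : V ≃ₗ[F] V) ^ j * (g : V ≃ₗ[F] V)) v) =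
        (g : V ≃ₗ[F] V) ((g₀ : V ≃ₗ[F] V) v) := by
      have e3 : ((g * g₀ * (g₀ ^ j * g)⁻¹ : G) : V ≃ₗ[F] V) =
          (g : V ≃ₗ[F] V) * (g₀ : V ≃ₗ[F] V) * ((g₀ : V ≃ₗ[F] V) ^ j * (g : V ≃ₗ[F] V))⁻¹ := by
        push_cast
        rfl
      rw [e3]
      show (g : V ≃ₗ[F] V) ((g₀ : V ≃ₗ[F] V) ((((g₀ : V ≃ₗ[F] V) ^ j * (g : V ≃ₗ[F] V))⁻¹)
        (((g₀ : V ≃ₗ[F] V) ^ j * (g : V ≃ₗ[F] V)) v))) = _
      congr 2
      exact LinearEquiv.symm_apply_apply _ v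
    rw [e2] at e
    exact e
  have h3 : ∀ (n : ℕ) (w : V), ((g₀ : V ≃ₗ[F] V) ^ n) w = c ^ n • (ρ ^ n) w := by
    intro n
    induction n with
    | zero => intro w; rw [pow_zero, pow_zero, pow_zero, one_smul]
    | succ n ih =>
      intro w
      rw [pow_succ, pow_succ, pow_succ]
      show ((g₀ : V ≃ₗ[F] V) ^ n) ((g₀ : V ≃ₗ[F] V) w) = (c ^ n * c) • (ρ ^ n) (ρ w)
      rw [hg₀, map_smul, ih, smul_smul, mul_comm]
  have h4 : ∀ v, (g : V ≃ₗ[F] V) (ρ v) = (c⁻¹ * (l * c ^ j)) • (ρ ^ j) ((g : V ≃ₗ[F] V) v) := by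
    intro v
    have e := h2 v
    rw [hg₀, map_smul, h3, smul_smul] at e
    rw [mul_smul, ← e, smul_smul, inv_mul_cancel₀ hc, one_smul]
  set l' := c⁻¹ * (l * c ^ j) with hl'
  have h5 : ∀ (n : ℕ) (v : V), (g : V ≃ₗ[F] V) ((ρ ^ n) v) = l' ^ n • (ρ ^ (j * n)) ((g : V ≃ₗ[F] V) v) := by
    intro n
    induction n with
    | zero => intro v; rw [pow_zero, pow_zero, mul_zero, pow_zero, one_smul]; rfl
    | succ n ih =>
      intro v
      rw [pow_succ, pow_succ, mul_add, mul_one, pow_add]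
      show (g : V ≃ₗ[F] V) ((ρ ^ n) (ρ v)) = (l' ^ n * l') • (ρ ^ (j * n)) ((ρ ^ j) ((g : V ≃ₗ[F] V) v))
      rw [ih, h4, map_smul, smul_smul]
  obtain ⟨v0, hv0⟩ := G2_nz hS
  have h6 := h5 r v0
  have e1 : ρ ^ (j * r) = 1 := by rw [mul_comm, pow_mul, hρ.pow, one_pow]
  rw [hρ.pow, e1] at h6
  have h7 : (g : V ≃ₗ[F] V) v0 = l' ^ r • (g : V ≃ₗ[F] V) v0 := h6
  have h8 : (g : V ≃ₗ[F] V) v0 ≠ 0 := by
    intro h0
    exact hv0 ((g : V ≃ₗ[F] V).injective (by rw [h0, map_zero]))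
  have h9 : l' ^ r = 1 := by
    have : (l' ^ r - 1) • (g : V ≃ₗ[F] V) v0 = 0 := by rw [sub_smul, one_smul, ← h7, sub_self]
    rcases smul_eq_zero.1 this with h | h
    · exact sub_eq_zero.1 h
    · exact absurd h h8
  have h10 := G2_lam (G2_odd hρ.prime hρ.odd) hρ.dvd h9
  intro v
  rw [h4 v, h10, one_smul]

/-- similarities commuting with `ρ` commute -/
private theorem G2_com (hS : Sys B M) {r : ℕ} {ρ : V ≃ₗ[F] V} (hρ : Rho B M r ρ) {g h : V ≃ₗ[F] V}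
    (hg : ∃ μ, Simi B M μ g) (hh : ∃ μ, Simi B M μ h) (cg : ∀ v, g (ρ v) = ρ (g v))
    (ch : ∀ v, h (ρ v) = ρ (h v)) : g * h = h * g := by
  have mρ : (im ρ).map (ρ : V →ₗ[F] V) = im ρ := im_map hS hρ ρ (fun v => rfl)
  have mg := im_map hS hρ g cg
  have mh := im_map hS hρ h ch
  have R := to_R8 hS hρ mρ
  refine G2_eq hS hρ (G2_mul hg hh) (G2_mul hh hg) (fun x hx => ?_)
  have e := R.com (a := (g.ofSubmodules (im ρ) (im ρ) mg : im ρ →ₗ[F] im ρ))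
    (b := (h.ofSubmodules (im ρ) (im ρ) mh : im ρ →ₗ[F] im ρ))
    (fun y => Subtype.ext (cg y.1)) (fun y => Subtype.ext (ch y.1)) ⟨x, hx⟩
  exact congrArg Subtype.val e

theorem few_fix (hS : Sys B M) {G : Subgroup (V ≃ₗ[F] V)} (hG : SGrp B M G) (γ : (pm M G hG.pres).range)
    (h1 : γ ≠ 1) : Nat.card (MulAction.fixedBy {π // π ∈ M} γ) ≤ 2 := by
  obtain ⟨g, hg⟩ := γ.2
  by_contra hlt
  obtain ⟨μ, hs⟩ := hG g.1 g.2
  have hcard : Nat.card (MulAction.fixedBy {π // π ∈ M} γ) = (fx M (g : V ≃ₗ[F] V)).card := by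
    rw [← Fintype.card_coe, ← Nat.card_eq_fintype_card]
    have key : ∀ x : {π // π ∈ M}, γ • x = x ↔ x.1.map ((g : V ≃ₗ[F] V) : V →ₗ[F] V) = x.1 := by
      intro x
      have e : (γ • x).1 = x.1.map ((g : V ≃ₗ[F] V) : V →ₗ[F] V) := by
        have : γ • x = (γ : Equiv.Perm {π // π ∈ M}) x := rfl
        rw [this, ← hg]
        rfl
      rw [← e]
      exact Subtype.ext_iff
    exact Nat.card_congr
      { toFun := fun x => ⟨x.1.1, mem_fx.2 ⟨x.1.2, (key x.1).1 x.2⟩⟩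
        invFun := fun π => ⟨⟨π.1, (mem_fx.1 π.2).1⟩, (key _).2 (mem_fx.1 π.2).2⟩
        left_inv := fun x => rfl
        right_inv := fun x => rfl }
  have h3 : 3 ≤ (fx M (g : V ≃ₗ[F] V)).card := by omega
  have hsc := three_fixed hS hs h3
  have := (scal_iff hS hG g).2 hsc
  apply h1
  apply Subtype.ext
  rw [← hg, this]
  rfl

theorem few_inv (hS : Sys B M) (hH : Hyp B) {G : Subgroup (V ≃ₗ[F] V)} (hG : SGrp B M G)
    (γ : (pm M G hG.pres).range) (h1 : γ ≠ 1) (h2 : γ * γ = 1) (x : {π // π ∈ M}) : γ • x ≠ x := by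
  obtain ⟨g, hg⟩ := γ.2
  obtain ⟨μ, hs⟩ := hG g.1 g.2
  have hns : ¬ Scal (g : V ≃ₗ[F] V) := by
    intro hsc
    apply h1
    apply Subtype.ext
    rw [← hg, (scal_iff hS hG g).2 hsc]
    rfl
  have h3 : pm M G hG.pres (g * g) = 1 := by
    rw [map_mul, hg]
    exact congrArg Subtype.val h2
  obtain ⟨ν, hν⟩ := (scal_iff hS hG _).1 h3
  have hf := inv_free hS hH hs (ν := ν) (fun v => hν v) hns
  intro hx
  have e : (γ • x).1 = x.1.map ((g : V ≃ₗ[F] V) : V →ₗ[F] V) := by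
    have : γ • x = (γ : Equiv.Perm {π // π ∈ M}) x := rfl
    rw [this, ← hg]
    rfl
  have hm : x.1 ∈ fx M (g : V ≃ₗ[F] V) := by
    rw [mem_fx]
    refine ⟨x.2, ?_⟩
    rw [← e, hx]
  rw [hf] at hm
  exact absurd hm (Finset.notMem_empty _)

private theorem G2_card (hS : Sys B M) : Nat.card {π // π ∈ M} = Fintype.card F ^ 4 + 1 := by
  rw [← hS.card, Nat.card_eq_fintype_card, Fintype.card_coe]

private theorem G2_lift (hS : Sys B M) {G : Subgroup (V ≃ₗ[F] V)} (hG : SGrp B M G)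
    (ρ' : (pm M G hG.pres).range) {r : ℕ} (hr : r.Prime) (hr2 : r ≠ 2) (hd : r ∣ Nat.card {π // π ∈ M})
    (h1 : ρ' ≠ 1) (hp : ρ' ^ r = 1) :
    ∃ (g₀ : G) (c : F) (ρ : V ≃ₗ[F] V), pm M G hG.pres g₀ = ρ' ∧ c ≠ 0 ∧
      (∀ v, (g₀ : V ≃ₗ[F] V) v = c • ρ v) ∧ Rho B M r ρ := by
  obtain ⟨g₀, hg₀⟩ := ρ'.2
  rw [G2_card hS] at hd
  have h2 : pm M G hG.pres g₀ ≠ 1 := by
    intro h
    apply h1
    apply Subtype.ext
    rw [← hg₀, h]
    rfl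
  have h3 : (pm M G hG.pres g₀) ^ r = 1 := by
    rw [hg₀]
    exact congrArg Subtype.val hp
  obtain ⟨c, ρ, hc, hv, hρ⟩ := lift_rho hS hG g₀ hr hr2 hd h2 h3
  exact ⟨g₀, c, ρ, hg₀, hc, hv, hρ⟩

omit [Fintype F] in
private theorem G2_diff {ρ : V ≃ₗ[F] V} (j : ℕ) (z : V) : (ρ ^ j) z - z ∈ im ρ := by
  induction j with
  | zero =>
    rw [pow_zero]
    have : (1 : V ≃ₗ[F] V) z - z = 0 := sub_self z
    rw [this]
    exact (im ρ).zero_mem
  | succ j ih =>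
    have e : (ρ ^ (j + 1)) z - z = (ρ ((ρ ^ j) z) - (ρ ^ j) z) + ((ρ ^ j) z - z) := by
      rw [pow_succ']
      show ρ ((ρ ^ j) z) - z = _
      abel
    rw [e]
    refine (im ρ).add_mem ?_ ih
    exact ⟨(ρ ^ j) z, rfl⟩

omit [Fintype F] in
private theorem G2_powcoe {ρ : V ≃ₗ[F] V} {W : Submodule F V} (h : W.map (ρ : V →ₗ[F] V) = W) (n : ℕ)
    (x : W) : (((ρ.ofSubmodules W W h) ^ n) x : V) = (ρ ^ n) (x : V) := by
  induction n generalizing x with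
  | zero => rfl
  | succ n ih =>
    rw [pow_succ, pow_succ]
    show (((ρ.ofSubmodules W W h) ^ n) ((ρ.ofSubmodules W W h) x) : V) = (ρ ^ n) (ρ (x : V))
    rw [ih]
    rfl

theorem few (hS : Sys B M) (hH : Hyp B) {G : Subgroup (V ≃ₗ[F] V)} (hG : SGrp B M G) :
    Few (pm M G hG.pres).range {π // π ∈ M} := by
  refine ⟨few_fix hS hG, few_inv hS hH hG, ?_, ?_, ?_⟩
  · intro ρ' r hr hr2 hd h1 hp a b ha hb
    obtain ⟨g₀, c, ρ, hg₀, hc, hv, hρ⟩ := G2_lift hS hG ρ' hr hr2 hd h1 hp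
    obtain ⟨g, hg⟩ := a.2
    obtain ⟨h, hh⟩ := b.2
    have cg : ∀ v, (g : V ≃ₗ[F] V) (ρ v) = ρ ((g : V ≃ₗ[F] V) v) := by
      have := G2_rel hS hG g g₀ hρ hc hv (j := 1) (by
        rw [pow_one, hg, hg₀]
        exact congrArg Subtype.val ha)
      rw [pow_one] at this
      exact this
    have ch : ∀ v, (h : V ≃ₗ[F] V) (ρ v) = ρ ((h : V ≃ₗ[F] V) v) := by
      have := G2_rel hS hG h g₀ hρ hc hv (j := 1) (by
        rw [pow_one, hh, hg₀]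
        exact congrArg Subtype.val hb)
      rw [pow_one] at this
      exact this
    have e := G2_com hS hρ (hG g.1 g.2) (hG h.1 h.2) cg ch
    have e' : g * h = h * g := Subtype.ext e
    apply Subtype.ext
    show (a : Equiv.Perm {π // π ∈ M}) * b = b * a
    rw [← hg, ← hh, ← map_mul, e', map_mul]
  · intro ρ' r hr hr2 hd h1 hp σ hσ hσr
    by_cases hσ1 : σ = 1
    · exact ⟨0, by rw [hσ1, pow_zero]⟩
    obtain ⟨g₀, c, ρ, hg₀, hc, hv, hρ⟩ := G2_lift hS hG ρ' hr hr2 hd h1 hp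
    obtain ⟨g, c', σ', hg, hc', hv', hσ'⟩ := G2_lift hS hG σ hr hr2 hd hσ1 hσr
    have cg : ∀ v, (g : V ≃ₗ[F] V) (ρ v) = ρ ((g : V ≃ₗ[F] V) v) := by
      have := G2_rel hS hG g g₀ hρ hc hv (j := 1) (by
        rw [pow_one, hg, hg₀]
        exact congrArg Subtype.val hσ)
      rw [pow_one] at this
      exact this
    have cs : ∀ v, σ' (ρ v) = ρ (σ' v) := by
      intro v
      have e := cg v
      rw [hv', hv', map_smul] at e
      exact smul_right_injective V hc' e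
    have mρ : (im ρ).map (ρ : V →ₗ[F] V) = im ρ := im_map hS hρ ρ (fun v => rfl)
    have ms := im_map hS hρ σ' cs
    have R := to_R8 hS hρ mρ
    obtain ⟨j, hj⟩ := R.roots (σ'.ofSubmodules (im ρ) (im ρ) ms) (fun y => Subtype.ext (cs y.1)) (by
      apply LinearEquiv.ext
      intro x
      apply Subtype.ext
      rw [G2_powcoe, hσ'.pow]
      rfl)
    have e1 : σ' = ρ ^ j := by
      refine G2_eq hS hρ ⟨1, hσ'.simi⟩ (G2_pow ⟨1, hρ.simi⟩ j) (fun x hx => ?_)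
      have e := congrArg (fun f : im ρ ≃ₗ[F] im ρ => ((f ⟨x, hx⟩ : im ρ) : V)) hj
      simp only [G2_powcoe] at e
      exact e
    refine ⟨j, ?_⟩
    have h3 : ∀ (n : ℕ) (w : V), ((g₀ : V ≃ₗ[F] V) ^ n) w = c ^ n • (ρ ^ n) w := by
      intro n
      induction n with
      | zero => intro w; rw [pow_zero, pow_zero, pow_zero, one_smul]
      | succ n ih =>
        intro w
        rw [pow_succ, pow_succ, pow_succ]
        show ((g₀ : V ≃ₗ[F] V) ^ n) ((g₀ : V ≃ₗ[F] V) w) = (c ^ n * c) • (ρ ^ n) (ρ w)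
        rw [hv, map_smul, ih, smul_smul, mul_comm]
    have hsc : Scal ((g * (g₀ ^ j)⁻¹ : G) : V ≃ₗ[F] V) := by
      refine ⟨c' * (c ^ j)⁻¹, fun v => ?_⟩
      have e3 : ((g * (g₀ ^ j)⁻¹ : G) : V ≃ₗ[F] V) = (g : V ≃ₗ[F] V) * ((g₀ : V ≃ₗ[F] V) ^ j)⁻¹ := by
        push_cast
        rfl
      rw [e3]
      show (g : V ≃ₗ[F] V) ((((g₀ : V ≃ₗ[F] V) ^ j)⁻¹) v) = _
      set w := (((g₀ : V ≃ₗ[F] V) ^ j)⁻¹) v with hw
      have hwv : ((g₀ : V ≃ₗ[F] V) ^ j) w = v := LinearEquiv.apply_symm_apply _ v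
      rw [← hwv, h3, hv', e1, smul_smul, mul_assoc, inv_mul_cancel₀ (pow_ne_zero j hc), mul_one]
    have h4 := (scal_iff hS hG _).2 hsc
    rw [map_mul, map_inv, map_pow, hg, hg₀, mul_inv_eq_one] at h4
    apply Subtype.ext
    rw [h4]
    rfl
  · intro ρ' r hr hr2 hd h1 hp a j ha
    obtain ⟨g₀, c, ρ, hg₀, hc, hv, hρ⟩ := G2_lift hS hG ρ' hr hr2 hd h1 hp
    obtain ⟨g, hg⟩ := a.2
    have cg : ∀ v, (g : V ≃ₗ[F] V) (ρ v) = (ρ ^ j) ((g : V ≃ₗ[F] V) v) :=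
      G2_rel hS hG g g₀ hρ hc hv (j := j) (by
        rw [hg, hg₀]
        exact congrArg Subtype.val ha)
    have mρ : (im ρ).map (ρ : V →ₗ[F] V) = im ρ := im_map hS hρ ρ (fun v => rfl)
    have R := to_R8 hS hρ mρ
    have mg : (im ρ).map ((g : V ≃ₗ[F] V) : V →ₗ[F] V) = im ρ := by
      have : FiniteDimensional F V := fin hS
      apply Submodule.eq_of_le_of_finrank_eq
      · rintro _ ⟨_, ⟨y, rfl⟩, rfl⟩
        show (g : V ≃ₗ[F] V) (ρ y - y) ∈ im ρ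
        rw [map_sub, cg]
        exact G2_diff j _
      · exact LinearEquiv.finrank_map_eq (g : V ≃ₗ[F] V) (im ρ)
    have e1 : (g : V ≃ₗ[F] V) ^ 8 * ρ = ρ * (g : V ≃ₗ[F] V) ^ 8 := by
      refine G2_eq hS hρ (G2_mul (G2_pow (hG g.1 g.2) 8) ⟨1, hρ.simi⟩)
        (G2_mul ⟨1, hρ.simi⟩ (G2_pow (hG g.1 g.2) 8)) (fun x hx => ?_)
      have e := R.nor8 ((g : V ≃ₗ[F] V).ofSubmodules (im ρ) (im ρ) mg) j (fun y => Subtype.ext (by
        rw [G2_powcoe]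
        exact cg y.1)) ⟨x, hx⟩
      have e' := congrArg Subtype.val e
      rw [G2_powcoe] at e'
      have e2 : ((ρ.ofSubmodules (im ρ) (im ρ) mρ)
        ((((g : V ≃ₗ[F] V).ofSubmodules (im ρ) (im ρ) mg) ^ 8) ⟨x, hx⟩) : V) =
          ρ (((((g : V ≃ₗ[F] V).ofSubmodules (im ρ) (im ρ) mg) ^ 8) ⟨x, hx⟩ : im ρ) : V) := rfl
      rw [e2, G2_powcoe] at e'
      exact e'
    have e3 : g ^ 8 * g₀ = g₀ * g ^ 8 := by
      apply Subtype.ext
      apply LinearEquiv.ext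
      intro v
      show ((g : V ≃ₗ[F] V) ^ 8) ((g₀ : V ≃ₗ[F] V) v) = (g₀ : V ≃ₗ[F] V) (((g : V ≃ₗ[F] V) ^ 8) v)
      rw [hv, hv, map_smul]
      congr 1
      exact congrArg (fun f : V ≃ₗ[F] V => f v) e1
    apply Subtype.ext
    show (a : Equiv.Perm {π // π ∈ M}) ^ 8 * ρ' = ρ' * (a : Equiv.Perm {π // π ∈ M}) ^ 8
    rw [← hg, ← hg₀, ← map_pow, ← map_mul, e3, map_mul]

end Pool.Agent.LibNT29
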