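import Pool.Agent.LibNT29.A3
import Pool.Agent.LibNT29.G1
import Pool.Agent.LibBT65.R4

set_option autoImplicit false

/-!
[NT29 G3] MEDIUM. Position of the members with respect to `L = eg ρ 1` (dimension 2) and `im ρ = pp B L` (dimension 8; `pp_im`, `pp_pp`).
`rho_tt`: `x ∈ L`, `x ≠ 0` has `tt B M x = 0`: `x` is in no member (`x = ρ x ∈ π ∩ ρ π`, `disj` would give `ρ π = π`, `rho_free`); so `tt = 0` or `q + 1` (`tt_val`); the set of members orthogonal to `x` is mapped to itself by `ρ`, which fixes none of them, `ρ^r = 1`, so `r ∣ tt B M x`;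
`r` does not divide `q + 1` (`cop`).
So `L ⊓ pp B π = ⊥`, and `dim (im ρ ⊓ π) = 10 - dim (L ⊔ pp B π) = 10 - 9`, `dim (im ρ ⊓ pp B π) = 10 - dim (L ⊔ π) = 10 - 5` (`L ⊓ π = ⊥`, `π ≤ pp B π`).
-/

namespace Pool.Agent.LibNT29

open Module Pool.Agent.LibBT65

variable {F V : Type*} [Field F] [Fintype F] [AddCommGroup V] [Module F V]
  {B : V →ₗ[F] V →ₗ[F] F} {M : Finset (Submodule F V)}

private theorem G3_eg {ρ : V ≃ₗ[F] V} {x : V} : x ∈ eg ρ 1 ↔ ρ x = x := by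
  rw [mem_eg, one_smul]

private theorem G3_nomem (hS : Sys B M) {r : ℕ} {ρ : V ≃ₗ[F] V} (hρ : Rho B M r ρ) {x : V}
    (hx : x ∈ eg ρ 1) (h0 : x ≠ 0) : ¬ Mem M x := by
  rintro ⟨π, hπ, hxπ⟩
  have h1 : x ∈ π.map (ρ : V →ₗ[F] V) := ⟨x, hxπ, G3_eg.1 hx⟩
  have h2 : π.map (ρ : V →ₗ[F] V) = π := by
    by_contra hne
    exact h0 (disj hS (hρ.simi.pres π hπ) hπ hne h1 hxπ)
  have h3 : π ∈ fx M ρ := by
    classical
    unfold fx
    exact Finset.mem_filter.2 ⟨hπ, h2⟩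
  rw [rho_free hS hρ] at h3
  exact Finset.notMem_empty _ h3

theorem rho_tt (hS : Sys B M) {r : ℕ} {ρ : V ≃ₗ[F] V} (hρ : Rho B M r ρ) {x : V} (hx : x ∈ eg ρ 1)
    (h0 : x ≠ 0) : tt B M x = 0 := by
  classical
  have := fin hS
  have : Finite V := Module.finite_of_finite F
  rcases tt_val hS h0 (G3_nomem hS hρ hx h0) with h | h
  · exact h
  · exfalso
    have hfix := G3_eg.1 hx
    have h1 := R4 ρ hρ.prime hρ.pow (M.filter fun π => x ∈ pp B π) (by
      intro π hπ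
      rw [Finset.mem_filter] at hπ ⊢
      refine ⟨hρ.simi.pres π hπ.1, ?_⟩
      rw [mem_pp]
      rintro _ ⟨u, hu, rfl⟩
      change B x (ρ u) = 0
      have h2 := hρ.simi.sim x u
      rw [hfix, one_mul] at h2
      rw [h2]
      exact (mem_pp.1 hπ.2) u hu)
    have h2 : Nat.card {π : Submodule F V // π ∈ (M.filter fun π => x ∈ pp B π) ∧
        π.map (ρ : V →ₗ[F] V) = π} = 0 := by
      have : IsEmpty {π : Submodule F V // π ∈ (M.filter fun π => x ∈ pp B π) ∧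
        π.map (ρ : V →ₗ[F] V) = π} := by
        refine ⟨?_⟩
        rintro ⟨π, hπ, he⟩
        have h3 : π ∈ fx M ρ := by
          unfold fx
          exact Finset.mem_filter.2 ⟨(Finset.mem_filter.1 hπ).1, he⟩
        rw [rho_free hS hρ] at h3
        exact Finset.notMem_empty _ h3
      exact Nat.card_of_isEmpty
    rw [h2] at h1
    have h3 : (M.filter fun π => x ∈ pp B π).card = Fintype.card F + 1 := by
      rw [← h]
      unfold tt
      congr
    rw [h3] at h1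
    have h4 : r ∣ Fintype.card F + 1 := Nat.modEq_zero_iff_dvd.1 h1.symm
    obtain ⟨-, -, hc⟩ := cop Fintype.card_pos (hρ.prime.odd_of_ne_two hρ.odd) hρ.dvd
    have h5 := Nat.Coprime.eq_one_of_dvd hc h4
    exact hρ.prime.one_lt.ne' h5

theorem im_dims (hS : Sys B M) {r : ℕ} {ρ : V ≃ₗ[F] V} (hρ : Rho B M r ρ) {π : Submodule F V} (hπ : π ∈ M) :
    finrank F (im ρ ⊓ π : Submodule F V) = 1 ∧ finrank F (im ρ ⊓ pp B π : Submodule F V) = 5 := by
  classical
  have := fin hS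
  obtain ⟨h2, h8, -, -⟩ := rho_dim hS hρ
  have hppL : pp B (eg ρ 1) = im ρ := by rw [← pp_im hS hρ.simi, pp_pp hS]
  have hLK : eg ρ 1 ⊓ pp B π = ⊥ := by
    rw [Submodule.eq_bot_iff]
    rintro x ⟨hx1, hx2⟩
    by_contra h0
    have h1 := rho_tt hS hρ hx1 h0
    unfold tt at h1
    rw [Finset.card_eq_zero] at h1
    have h3 := Finset.filter_eq_empty_iff.1 h1 hπ
    exact h3 hx2
  have hLπ : eg ρ 1 ⊓ π = ⊥ := by
    rw [eq_bot_iff, ← hLK]
    exact inf_le_inf_left _ (le_pp hS hπ)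
  have hd7 := pp_dim hS hπ
  have hd3 := hS.dim π hπ
  constructor
  · have e1 : (im ρ ⊓ π : Submodule F V) = pp B (eg ρ 1 ⊔ pp B π) := by
      rw [pp_sup, hppL, pp_pp hS]
    have h3 := Submodule.finrank_sup_add_finrank_inf_eq (eg ρ 1) (pp B π)
    rw [hLK, finrank_bot, h2, hd7] at h3
    have h4 := pp_finrank hS (eg ρ 1 ⊔ pp B π)
    rw [e1]
    omega
  · have e1 : (im ρ ⊓ pp B π : Submodule F V) = pp B (eg ρ 1 ⊔ π) := by
      rw [pp_sup, hppL]
    have h3 := Submodule.finrank_sup_add_finrank_inf_eq (eg ρ 1) π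
    rw [hLπ, finrank_bot, h2, hd3] at h3
    have h4 := pp_finrank hS (eg ρ 1 ⊔ π)
    rw [e1]
    omega

end Pool.Agent.LibNT29
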