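import Pool.Agent.LibNT29.G3
import Pool.Agent.LibNT29.FDefs

set_option autoImplicit false

/-!
[NT29 G4] SHORT/MEDIUM. The family `A π = (pp B π).comap (im ρ).subtype` on `W = im ρ`, with `P` = nonzero vectors of `W` in members, satisfies `Fam`. `dim (A π) = dim (im ρ ⊓ pp B π) = 5` (`im_dims`); the number of `π` with `x ∈ A π` is `tt B M x` (`tt_card`): `tt_mem`, `tt_val`.
`cardP`: the members meet `W` in subspaces of dimension 1, disjoint outside 0 (`disj`): `(q^4+1)(q-1)`.
-/

namespace Pool.Agent.LibNT29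

open Module Pool.Agent.LibBT65

variable {F V : Type*} [Field F] [Fintype F] [AddCommGroup V] [Module F V]
  {B : V →ₗ[F] V →ₗ[F] F} {M : Finset (Submodule F V)}

theorem tt_card (x : V) : tt B M x = Nat.card {π : {π // π ∈ M} // x ∈ pp B π.1} := by
  classical
  unfold tt
  rw [Nat.card_congr (Equiv.subtypeSubtypeEquivSubtypeInter (fun π => π ∈ M) (fun π => x ∈ pp B π))]
  rw [Nat.subtype_card (M.filter fun π => x ∈ pp B π) (by simp)]

omit [Fintype F] in
private theorem G4_finrank (X Y : Submodule F V) :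
    finrank F (Y.comap X.subtype) = finrank F (X ⊓ Y : Submodule F V) := by
  rw [← Submodule.map_comap_subtype, Submodule.finrank_map_subtype_eq]

open scoped Classical in
private theorem G4_card (hS : Sys B M) {r : ℕ} {ρ : V ≃ₗ[F] V} (hρ : Rho B M r ρ) [Fintype (im ρ)]
    {π : Submodule F V} (hπ : π ∈ M) :
    (Finset.univ.filter fun x : im ρ => x ≠ 0 ∧ (x : V) ∈ π).card = Fintype.card F - 1 := by
  have h1 : finrank F (π.comap (im ρ).subtype) = 1 := by
    rw [G4_finrank]
    exact (im_dims hS hρ hπ).1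
  have h2 := Module.card_eq_pow_finrank (K := F) (V := π.comap (im ρ).subtype)
  rw [h1, pow_one] at h2
  have h3 : (Finset.univ.filter fun x : im ρ => x ∈ π.comap (im ρ).subtype).card = Fintype.card F := by
    rw [← h2, Fintype.card_subtype]
  have h4 : (Finset.univ.filter fun x : im ρ => x ≠ 0 ∧ (x : V) ∈ π) =
      (Finset.univ.filter fun x : im ρ => x ∈ π.comap (im ρ).subtype).erase 0 := by
    ext x
    simp only [Finset.mem_filter, Finset.mem_univ, true_and, Finset.mem_erase]
    rfl
  rw [h4, Finset.card_erase_of_mem, h3]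
  simp

theorem fam (hS : Sys B M) {r : ℕ} {ρ : V ≃ₗ[F] V} (hρ : Rho B M r ρ) :
    Fam (fun π : {π // π ∈ M} => (pp B π.1).comap (im ρ).subtype)
      {x : im ρ | x ≠ 0 ∧ Mem M (x : V)} := by
  have hf := fin hS
  have hmem : ∀ x : im ρ, Nat.card {i : {π // π ∈ M} // x ∈ (pp B i.1).comap (im ρ).subtype} =
      tt B M (x : V) := fun x => (tt_card (B := B) (M := M) (x : V)).symm
  refine ⟨(rho_dim hS hρ).2.1, ?_, ?_, ?_, ?_, ?_, ?_⟩
  · rw [Nat.card_eq_fintype_card, Fintype.card_coe, hS.card]
  · intro π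
    rw [G4_finrank]
    exact (im_dims hS hρ π.2).2
  · intro h
    exact h.1 rfl
  · intro x hx
    rw [hmem]
    exact tt_mem hS (fun h => hx.1 (Subtype.ext h)) hx.2
  · intro x hx hxP
    rw [hmem]
    exact tt_val hS (fun h => hx (Subtype.ext h)) (fun h => hxP ⟨hx, h⟩)
  · classical
    have : Finite V := Module.finite_of_finite F
    have : Fintype (im ρ) := Fintype.ofFinite _
    have e : Nat.card {x : im ρ | x ≠ 0 ∧ Mem M (x : V)} =
        (M.biUnion fun π => Finset.univ.filter fun x : im ρ => x ≠ 0 ∧ (x : V) ∈ π).card := by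
      change Nat.card {x : im ρ // x ≠ 0 ∧ Mem M (x : V)} = _
      rw [Nat.subtype_card]
      intro x
      simp only [Finset.mem_biUnion, Finset.mem_filter, Finset.mem_univ, true_and]
      constructor
      · rintro ⟨π, hπ, h0, h1⟩
        exact ⟨h0, π, hπ, h1⟩
      · rintro ⟨h0, π, hπ, h1⟩
        exact ⟨π, hπ, h0, h1⟩
    rw [e, Finset.card_biUnion]
    · rw [Finset.sum_congr rfl (fun π hπ => G4_card hS hρ hπ), Finset.sum_const, hS.card, smul_eq_mul]
    · intro π hπ π' hπ' hne
      change Disjoint _ _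
      rw [Finset.disjoint_left]
      intro x hx hx'
      rw [Finset.mem_filter] at hx hx'
      apply hx.2.1
      exact Subtype.ext (disj hS hπ hπ' hne hx.2.2 hx'.2.2)

end Pool.Agent.LibNT29
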