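import Mathlib

set_option autoImplicit false

/-!
[NT29 H4] MEDIUM, only Mathlib. Hilbert 90 for a finite field `E` with `n²` elements and an automorphism `σ` of order 2: exactly `n + 1` elements satisfy `σ c * c = 1`.
Fixed field `E₀` has `n` elements (e.g. `σ x = x^n`: `σ` is a power of Frobenius; or: `E = E₀ ⊕ δ E₀` with `σ δ = -δ`, char `≠ 2`; or `IsGalois`: `[E : E₀] = 2`). The homomorphism `b ↦ b / σ b` from `Eˣ` has kernel `E₀ˣ`, so its image has `(n² - 1)/(n - 1) = n + 1`
elements, all with `σ c * c = 1`; it is onto these: if `σ c * c = 1`, `c ≠ -1`, take `b = 1 + c`; `b = c σ b`. If `c = -1` take `b = δ` with `σ δ = - δ`, `δ ≠ 0` (`δ = x - σ x`).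
-/

namespace Pool.Agent.LibNT29

theorem card_mu {E : Type*} [Field E] [Finite E] (two : (2 : E) ≠ 0) (σ : E ≃+* E) (h2 : ∀ x, σ (σ x) = x)
    (h1 : ∃ x, σ x ≠ x) {n : ℕ} (hn : Nat.card E = n ^ 2) : Nat.card {c : E // σ c * c = 1} = n + 1 := by
  classical
  obtain ⟨x0, hx0⟩ := h1
  obtain ⟨δ, hδ0, hσδ⟩ : ∃ δ : E, δ ≠ 0 ∧ σ δ = -δ :=
    ⟨x0 - σ x0, sub_ne_zero.mpr (Ne.symm hx0), by rw [map_sub, h2]; ring⟩
  have h21 : σ 2 = 2 := by
    have : (2 : E) = 1 + 1 := by norm_num
    rw [this, map_add, map_one]
  -- fixed points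
  have hfix : Nat.card {x : E // σ x = x} = n := by
    have h3 : Nat.card E = Nat.card {x : E // σ x = x} ^ 2 := by
      rw [pow_two, ← Nat.card_prod]
      refine (Nat.card_congr (Equiv.ofBijective
        (fun p : {x : E // σ x = x} × {x : E // σ x = x} => p.1.1 + δ * p.2.1) ⟨?_, ?_⟩)).symm
      · rintro ⟨⟨a, ha⟩, ⟨b, hb⟩⟩ ⟨⟨c, hc⟩, ⟨d, hd⟩⟩ h
        simp only at h
        have h4 := congrArg σ h
        simp only [map_add, map_mul, hσδ, ha, hb, hc, hd] at h4
        have h5 : 2 * a = 2 * c := by linear_combination h + h4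
        have h6 : a = c := mul_left_cancel₀ two h5
        subst h6
        have h7 : b = d := mul_left_cancel₀ hδ0 (add_left_cancel h)
        subst h7
        rfl
      · intro x
        refine ⟨(⟨(x + σ x) / 2, ?_⟩, ⟨(x - σ x) / (2 * δ), ?_⟩), ?_⟩
        · rw [map_div₀, map_add, h2, h21, add_comm]
        · rw [map_div₀, map_sub, h2, map_mul, h21, hσδ]
          field_simp
          ring
        · simp only
          field_simp
          ring
    rw [hn] at h3
    exact (Nat.pow_left_injective (by norm_num) h3).symm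
  let s : Eˣ →* Eˣ := Units.map (σ : E →* E)
  have hs : ∀ b : Eˣ, ((s b : Eˣ) : E) = σ (b : E) := fun b => rfl
  let φ : Eˣ →* Eˣ :=
    { toFun := fun b => b / s b
      map_one' := by simp
      map_mul' := fun a b => by rw [map_mul, mul_div_mul_comm] }
  have hφ : ∀ b : Eˣ, ((φ b : Eˣ) : E) = (b : E) / σ (b : E) := fun b => by
    change ((b / s b : Eˣ) : E) = _
    rw [Units.val_div_eq_div_val, hs]
  have hker : Nat.card φ.ker + 1 = n := by
    rw [← hfix]
    have e : {x : E // σ x = x} ≃ Option φ.ker :=
      { toFun := fun x => if h : x.1 = 0 then none else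
          some ⟨Units.mk0 x.1 h, by
            rw [MonoidHom.mem_ker]
            apply Units.ext
            rw [hφ, Units.val_mk0, x.2, div_self h, Units.val_one]⟩
        invFun := fun o => match o with
          | none => ⟨0, map_zero σ⟩
          | some u => ⟨(u.1 : E), by
              have h := congrArg Units.val (MonoidHom.mem_ker.mp u.2)
              rw [hφ, Units.val_one, div_eq_one_iff_eq] at h
              · exact h.symm
              · rw [← hs]
                exact Units.ne_zero _⟩
        left_inv := by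
          rintro ⟨x, hx⟩
          by_cases h : x = 0
          · subst h
            simp
          · simp [h]
        right_inv := by
          rintro (_ | ⟨u, hu⟩)
          · simp
          · simp }
    rw [Nat.card_congr e, Finite.card_option]
  have hrange : Nat.card φ.range = Nat.card {c : E // σ c * c = 1} := by
    refine Nat.card_congr (Equiv.ofBijective (fun u : φ.range => (⟨((u.1 : Eˣ) : E), ?_⟩ :
      {c : E // σ c * c = 1})) ⟨?_, ?_⟩)
    · obtain ⟨b, hb⟩ := u.2
      rw [← hb, hφ, map_div₀, h2]
      have h3 : σ (b : E) ≠ 0 := by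
        rw [← hs]
        exact Units.ne_zero _
      have h4 := b.ne_zero
      field_simp
    · intro u w h
      exact Subtype.ext (Units.ext (congrArg Subtype.val h))
    · rintro ⟨c, hc⟩
      have hc0 : c ≠ 0 := by
        rintro rfl
        rw [mul_zero] at hc
        exact zero_ne_one hc
      have hex : ∃ b : E, b ≠ 0 ∧ b = c * σ b := by
        by_cases h : c = -1
        · refine ⟨δ, hδ0, ?_⟩
          rw [h, hσδ]
          ring
        · refine ⟨1 + c, fun h0 => h (by linear_combination h0), ?_⟩
          rw [map_add, map_one]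
          linear_combination -hc
      obtain ⟨b, hb0, hb⟩ := hex
      have hσb : σ b ≠ 0 := (map_ne_zero σ).mpr hb0
      refine ⟨⟨Units.mk0 c hc0, ⟨Units.mk0 b hb0, ?_⟩⟩, ?_⟩
      · apply Units.ext
        rw [hφ, Units.val_mk0, Units.val_mk0, div_eq_iff hσb]
        exact hb
      · rfl
  have htot : Nat.card Eˣ + 1 = n ^ 2 := by
    rw [← hn, Nat.card_units]
    have : 0 < Nat.card E := Nat.card_pos
    omega
  have hci := Subgroup.card_mul_index φ.ker
  rw [Subgroup.index_ker, hrange] at hci
  have hk0 : 0 < Nat.card φ.ker := Nat.card_pos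
  obtain ⟨m, hm⟩ : ∃ m, Nat.card φ.ker = m + 1 := ⟨Nat.card φ.ker - 1, by omega⟩
  rw [hm] at hci hker
  subst hker
  rw [← hci] at htot
  have h5 : (m + 1) * Nat.card {c : E // σ c * c = 1} = (m + 1) * (m + 1 + 1 + 1) := by
    nlinarith
  exact Nat.eq_of_mul_eq_mul_left (by omega) h5

end Pool.Agent.LibNT29
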