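import Pool.Agent.LibNT29.H3
import Pool.Agent.LibNT29.H4

set_option autoImplicit false

/-!
[NT29 H5] STRONG. Every nonzero value of `nm` is taken exactly `q^4 + 1` times.
`E` = commutant of `ρ` (`Subalgebra.centralizer F {ρ}` in `Module.End F W`), a finite field (H1: commutative, nonzero elements injective) with `q^8` elements (evaluation at `x ≠ 0` is a bijection to `W`: `inj`, `span`). Adjoint `σ : E → E`, `β (a x) y = β x (σ a y)` (exists, `β` nondegenerate; commutes with `ρ`),
an automorphism of `E` with `σ σ = 1`, `σ ρ = ρ⁻¹ ≠ ρ`. `μ = {c ∈ E : σ c * c = 1}` has `q^4 + 1` elements (`card_mu`, `n = q^4`).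
Claim: for `x ≠ 0` the `y` with `nm y = nm x` are the `c x`, `c ∈ μ` (all different). `y = c x` with `c ∈ E`; `β (s^i c x) (c x) = β (s^i (σ c) c x) x`. If `c ∈ μ` clear. Conversely `e = (σ c) c - 1` satisfies `σ e = e` and `β (s^i e x) x = 0` for `i < 4`, so for all `i` (`ss_mem` applied to `e x`..: the functional
`u ↦ β (e u) x` vanishes on the span of the `s^i x`, `i < 4`). Self-adjoint elements of `E`: `e x ∈ span (s^i x)` : write `e x = u + ρ u'` with `u, u' ∈ span(s^i x)` (`ss_sup`), so `e = a + ρ a'` with `a, a'` polynomials in `s`, self-adjoint; `σ e = a + ρ⁻¹ a'`, so `(ρ - ρ⁻¹) a' = 0`, `a' = 0`. So `e = a` is a polynomial in `s`; if `e ≠ 0`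
then `e⁻¹` is also one (`e⁻¹` is self-adjoint), so `β (f(s) x) x = β (f(s) e⁻¹ e x) x = 0` for all `f`, `nm x = 0`, `x = 0`. So every nonempty fibre over `w ≠ 0` has `q^4 + 1` elements; the `q^8 - 1` nonzero vectors have values in the `q^4 - 1` nonzero `w` (`nm_zero`), `q^8 - 1 = (q^4+1)(q^4-1)`: all fibres are nonempty.
-/

namespace Pool.Agent.LibNT29

open Module

variable {F W : Type*} [Field F] [Fintype F] [AddCommGroup W] [Module F W]
  {β : W →ₗ[F] W →ₗ[F] F} {r : ℕ} {ρ : W ≃ₗ[F] W}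

private theorem H5_finite (h : R8 β r ρ) : FiniteDimensional F W :=
  Module.finite_of_finrank_pos (by rw [h.dim]; norm_num)

private theorem H5_nontrivial (h : R8 β r ρ) : Nontrivial W := by
  by_contra hn
  rw [not_nontrivial_iff_subsingleton] at hn
  have h1 : finrank F W = 0 := finrank_zero_of_subsingleton
  rw [h.dim] at h1
  norm_num at h1

private theorem H5_ne (h : R8 β r ρ) : ¬ ∀ x, ρ x = ρ.symm x := by
  intro hcon
  apply h.ne
  have h2 : ρ ^ 2 = 1 := by
    ext x
    change ρ (ρ x) = x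
    rw [hcon x, LinearEquiv.apply_symm_apply]
  obtain ⟨t, ht⟩ := h.prime.odd_of_ne_two h.odd
  have h3 := h.pow
  rw [ht, pow_add, pow_mul, h2, one_pow, one_mul, pow_one] at h3
  exact h3

universe u v

/-- the commutant of `ρ` is a field -/
private theorem H5_field {F : Type u} {W : Type v} [Field F] [Fintype F] [AddCommGroup W] [Module F W]
    {β : W →ₗ[F] W →ₗ[F] F} {r : ℕ} {ρ : W ≃ₗ[F] W} (h : R8 β r ρ) :
    ∃ (E : Type v) (_ : Field E) (φ : E →+* Module.End F W), (∀ a x, φ a (ρ x) = ρ (φ a x)) ∧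
      (∀ b : W →ₗ[F] W, (∀ x, b (ρ x) = ρ (b x)) → ∃ a, φ a = b) := by
  have hfd := H5_finite h
  have hnt := H5_nontrivial h
  let C : Subalgebra F (Module.End F W) := Subalgebra.centralizer F {(ρ : W →ₗ[F] W)}
  have hmem : ∀ a : W →ₗ[F] W, a ∈ C ↔ ∀ x, a (ρ x) = ρ (a x) := by
    intro a
    rw [Subalgebra.mem_centralizer_iff]
    constructor
    · intro h1 x
      have h2 := LinearMap.congr_fun (h1 _ (Set.mem_singleton _)) x
      exact h2.symm
    · intro h1 g hg
      rw [Set.mem_singleton_iff] at hg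
      subst hg
      ext x
      exact (h1 x).symm
  have hfield : IsField C := by
    refine ⟨⟨0, 1, zero_ne_one⟩, ?_, ?_⟩
    · rintro ⟨a, ha⟩ ⟨b, hb⟩
      apply Subtype.ext
      ext x
      exact h.com ((hmem a).1 ha) ((hmem b).1 hb) x
    · rintro ⟨a, ha⟩ ha0
      have ha0' : a ≠ 0 := fun h0 => ha0 (Subtype.ext h0)
      have hinj : Function.Injective a := by
        rw [← LinearMap.ker_eq_bot, LinearMap.ker_eq_bot']
        intro x hx
        by_contra hx0
        exact ha0' (h.inj ((hmem a).1 ha) hx0 hx)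
      let e := LinearEquiv.ofInjectiveEndo a hinj
      have he : ∀ x, e x = a x := fun x => by simp [e]
      have hb : (e.symm : W →ₗ[F] W) ∈ C := by
        rw [hmem]
        intro x
        change e.symm (ρ x) = ρ (e.symm x)
        rw [LinearEquiv.symm_apply_eq, he, (hmem a).1 ha, ← he, LinearEquiv.apply_symm_apply]
      refine ⟨⟨(e.symm : W →ₗ[F] W), hb⟩, ?_⟩
      apply Subtype.ext
      ext x
      change a (e.symm x) = x
      rw [← he, LinearEquiv.apply_symm_apply]
  refine ⟨C, hfield.toField, C.val.toRingHom, ?_, ?_⟩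
  · intro a x
    exact (hmem _).1 a.2 x
  · intro b hb
    exact ⟨⟨b, (hmem b).2 hb⟩, rfl⟩

/-- the adjoint of an element of the commutant -/
private theorem H5_adj (h : R8 β r ρ) (a : W →ₗ[F] W) (ha : ∀ x, a (ρ x) = ρ (a x)) :
    ∃ a' : W →ₗ[F] W, (∀ x y, β (a x) y = β x (a' y)) ∧ ∀ x, a' (ρ x) = ρ (a' x) := by
  have hfd := H5_finite h
  have hinj : Function.Injective (β.flip : W →ₗ[F] (W →ₗ[F] F)) := by
    rw [← LinearMap.ker_eq_bot, LinearMap.ker_eq_bot']
    intro y hy
    apply h.nondeg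
    intro w
    rw [h.symm]
    exact LinearMap.congr_fun hy w
  have hsurj : Function.Surjective (β.flip : W →ₗ[F] (W →ₗ[F] F)) := by
    rw [← LinearMap.injective_iff_surjective_of_finrank_eq_finrank]
    · exact hinj
    · exact (Subspace.dual_finrank_eq (K := F) (V := W)).symm
  let L : W ≃ₗ[F] (W →ₗ[F] F) := LinearEquiv.ofBijective β.flip ⟨hinj, hsurj⟩
  have hL : ∀ x y, L y x = β x y := fun x y => rfl
  let a' : W →ₗ[F] W := (L.symm : (W →ₗ[F] F) →ₗ[F] W) ∘ₗ (LinearMap.lcomp F F a) ∘ₗ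
    (L : W →ₗ[F] (W →ₗ[F] F))
  have ha' : ∀ x y, β (a x) y = β x (a' y) := by
    intro x y
    rw [← hL x (a' y)]
    change β (a x) y = L (L.symm (LinearMap.lcomp F F a (L y))) x
    rw [LinearEquiv.apply_symm_apply]
    rfl
  refine ⟨a', ha', ?_⟩
  intro y
  apply hinj
  ext x
  change β x (a' (ρ y)) = β x (ρ (a' y))
  have h1 : β x (ρ (a' y)) = β (ρ.symm x) (a' y) := by
    rw [← h.iso (ρ.symm x) (a' y), LinearEquiv.apply_symm_apply]
  have h2 : β (a x) (ρ y) = β (ρ.symm (a x)) y := by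
    rw [← h.iso (ρ.symm (a x)) y, LinearEquiv.apply_symm_apply]
  have h3 : ρ.symm (a x) = a (ρ.symm x) := by
    rw [LinearEquiv.symm_apply_eq, ← ha, LinearEquiv.apply_symm_apply]
  rw [← ha', h2, h3, h1, ha']

private theorem H5_sep (h : R8 β r ρ) {y y' : W} (hy : ∀ x, β x y = β x y') : y = y' := by
  rw [← sub_eq_zero]
  apply h.nondeg
  intro w
  rw [h.symm, map_sub, hy, sub_self]

/-- the fibre through `x` -/
private theorem H5_fib (h : R8 β r ρ) {x : W} (hx : x ≠ 0) :
    Nat.card {y : W // nm β ρ y = nm β ρ x} = Fintype.card F ^ 4 + 1 := by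
  classical
  have hfd := H5_finite h
  have hnt := H5_nontrivial h
  have hWfin : Finite W := Module.finite_of_finite F
  obtain ⟨E, _, φ, hφρ, hφs⟩ := H5_field h
  have hφinj : Function.Injective φ := φ.injective
  -- evaluation at `x` is injective
  have hev : ∀ a : E, φ a x = 0 → a = 0 := by
    intro a ha
    apply hφinj
    rw [map_zero]
    exact h.inj (hφρ a) hx ha
  have hev' : ∀ a b : E, φ a x = φ b x → a = b := by
    intro a b hab
    rw [← sub_eq_zero]
    apply hev
    rw [map_sub, LinearMap.sub_apply, hab, sub_self]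
  have hevs : ∀ y : W, ∃ a : E, φ a x = y := by
    intro y
    have h1 : y ∈ Submodule.span F (Set.range fun n : ℕ => ((ρ : W →ₗ[F] W) ^ n) x) := by
      rw [h.span hx]
      trivial
    induction h1 using Submodule.span_induction with
    | mem y hy =>
      obtain ⟨n, rfl⟩ := hy
      have h2 : ∀ n : ℕ, ∀ z, ((ρ : W →ₗ[F] W) ^ n) (ρ z) = ρ (((ρ : W →ₗ[F] W) ^ n) z) := by
        intro n
        induction n with
        | zero => intro z; rfl
        | succ n ih =>
          intro z
          rw [pow_succ]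
          change ((ρ : W →ₗ[F] W) ^ n) (ρ (ρ z)) = ρ (((ρ : W →ₗ[F] W) ^ n) (ρ z))
          rw [ih]
      obtain ⟨a, ha⟩ := hφs _ (h2 n)
      exact ⟨a, by rw [ha]⟩
    | zero => exact ⟨0, by rw [map_zero]; rfl⟩
    | add y z _ _ hy hz =>
      obtain ⟨a, ha⟩ := hy
      obtain ⟨b, hb⟩ := hz
      exact ⟨a + b, by rw [map_add, LinearMap.add_apply, ha, hb]⟩
    | smul c y _ hy =>
      obtain ⟨a, ha⟩ := hy
      obtain ⟨b, hb⟩ := hφs (c • φ a) (by
        intro z
        rw [LinearMap.smul_apply, LinearMap.smul_apply, hφρ, map_smul])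
      exact ⟨b, by rw [hb, LinearMap.smul_apply, ha]⟩
  -- the field is finite
  have hbij : Function.Bijective (fun a : E => φ a x) := ⟨fun a b hab => hev' a b hab, hevs⟩
  have hEfin : Finite E := Finite.of_injective _ hbij.1
  have hEcard : Nat.card E = (Fintype.card F ^ 4) ^ 2 := by
    rw [Nat.card_congr (Equiv.ofBijective _ hbij), Module.natCard_eq_pow_finrank (K := F), h.dim,
      Nat.card_eq_fintype_card, ← pow_mul]
  -- the adjoint
  have hadj : ∀ a : E, ∃ a' : E, ∀ y z, β (φ a y) z = β y (φ a' z) := by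
    intro a
    obtain ⟨b, hb1, hb2⟩ := H5_adj h (φ a) (hφρ a)
    obtain ⟨a', rfl⟩ := hφs b hb2
    exact ⟨a', hb1⟩
  choose σ₀ hσ₀ using hadj
  have huniq : ∀ a b : E, (∀ y z, β (φ a y) z = β y (φ b z)) → σ₀ a = b := by
    intro a b hab
    apply hφinj
    ext z
    apply H5_sep h
    intro y
    rw [← hσ₀, hab]
  have hσσ : ∀ a, σ₀ (σ₀ a) = a := by
    intro a
    apply huniq
    intro y z
    rw [h.symm, ← hσ₀, h.symm]
  have hσmul : ∀ a b, σ₀ (a * b) = σ₀ a * σ₀ b := by
    intro a b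
    apply huniq
    intro y z
    rw [mul_comm (σ₀ a), map_mul, map_mul]
    change β (φ a (φ b y)) z = β y (φ (σ₀ b) (φ (σ₀ a) z))
    rw [hσ₀, hσ₀]
  have hσadd : ∀ a b, σ₀ (a + b) = σ₀ a + σ₀ b := by
    intro a b
    apply huniq
    intro y z
    rw [map_add, map_add, LinearMap.add_apply, LinearMap.add_apply, map_add, map_add,
      LinearMap.add_apply, hσ₀, hσ₀]
  let σ : E ≃+* E :=
    { toFun := σ₀
      invFun := σ₀
      left_inv := hσσ
      right_inv := hσσ
      map_mul' := hσmul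
      map_add' := hσadd }
  have hσ : ∀ a, σ a = σ₀ a := fun _ => rfl
  -- the element `ρ`
  obtain ⟨R, hR⟩ := hφs (ρ : W →ₗ[F] W) (fun _ => rfl)
  have hRx : ∀ z, φ R z = ρ z := fun z => by rw [hR]; rfl
  have hsR : ∀ z, φ (σ R) z = ρ.symm z := by
    intro z
    apply H5_sep h
    intro y
    rw [hσ, ← hσ₀, hRx, ← h.iso y (ρ.symm z), LinearEquiv.apply_symm_apply]
  have hRne : σ R ≠ R := by
    intro h0
    apply H5_ne h
    intro z
    rw [← hRx, ← hsR, h0]
  have two : (2 : E) ≠ 0 := by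
    intro h0
    have h1 : φ (2 : E) x = 0 := by
      rw [h0, map_zero]
      rfl
    have h2 : φ (2 : E) = (1 : Module.End F W) + 1 := by
      rw [← one_add_one_eq_two, map_add, map_one]
    rw [h2, LinearMap.add_apply, Module.End.one_apply] at h1
    have h3 : (2 : F) • x = 0 := by
      rw [two_smul]
      exact h1
    rcases smul_eq_zero.1 h3 with h4 | h4
    · exact h.two h4
    · exact hx h4
  have hmu := card_mu two σ hσσ ⟨R, hRne⟩ hEcard
  -- the element `s`
  set T : E := R + σ R with hT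
  have hTs : φ T = ss ρ := by
    ext z
    rw [hT, map_add, LinearMap.add_apply, hRx, hsR]
    rfl
  have hTpow : ∀ i : ℕ, φ (T ^ i) = ss ρ ^ i := fun i => by rw [map_pow, hTs]
  have hσT : σ T = T := by
    rw [hT, map_add]
    change σ₀ R + σ₀ (σ₀ R) = R + σ₀ R
    rw [hσσ, add_comm]
  -- the norm map of `φ c x`
  have hnm : ∀ (c : E) (i : Fin 4), nm β ρ (φ c x) i = β ((ss ρ ^ (i : ℕ)) x) (φ (σ c * c) x) := by
    intro c i
    change β ((ss ρ ^ (i : ℕ)) (φ c x)) (φ c x) = _
    rw [← hTpow]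
    have h1 : φ (T ^ (i : ℕ)) (φ c x) = φ c (φ (T ^ (i : ℕ)) x) := by
      have h2 : φ (T ^ (i : ℕ) * c) x = φ (c * T ^ (i : ℕ)) x := by rw [mul_comm]
      rw [map_mul, map_mul] at h2
      exact h2
    rw [h1, hσ₀, map_mul]
    rfl
  set U := Submodule.span F (Set.range fun i : Fin 4 => (ss ρ ^ (i : ℕ)) x) with hU
  -- elements of `U`
  have hUel : ∀ y ∈ U, ∃ a : E, φ a x = y ∧ σ a = a := by
    intro y hy
    induction hy using Submodule.span_induction with
    | mem y hy =>
      obtain ⟨i, rfl⟩ := hy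
      exact ⟨T ^ (i : ℕ), by rw [hTpow], by rw [map_pow, hσT]⟩
    | zero => exact ⟨0, by rw [map_zero]; rfl, map_zero σ⟩
    | add y z _ _ hy hz =>
      obtain ⟨a, ha, ha'⟩ := hy
      obtain ⟨b, hb, hb'⟩ := hz
      exact ⟨a + b, by rw [map_add, LinearMap.add_apply, ha, hb], by rw [map_add, ha', hb']⟩
    | smul c y _ hy =>
      obtain ⟨a, ha, ha'⟩ := hy
      obtain ⟨b, hb⟩ := hφs (c • φ a) (by
        intro z
        rw [LinearMap.smul_apply, LinearMap.smul_apply, hφρ, map_smul])
      refine ⟨b, by rw [hb, LinearMap.smul_apply, ha], ?_⟩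
      apply huniq
      intro y z
      rw [hb, LinearMap.smul_apply, LinearMap.smul_apply, map_smul, LinearMap.smul_apply, map_smul,
        hσ₀]
      have : σ₀ a = a := ha'
      rw [this]
  -- selfadjoint elements map `x` to `U`
  have hself : ∀ g : E, σ g = g → φ g x ∈ U := by
    intro g hg
    have h1 : φ g x ∈ U ⊔ U.map (ρ : W →ₗ[F] W) := by
      rw [hU, h.ss_sup hx]
      trivial
    rw [Submodule.mem_sup] at h1
    obtain ⟨y, hy, _, ⟨z, hz, rfl⟩, hyz⟩ := h1
    obtain ⟨a, ha, ha'⟩ := hUel y hy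
    obtain ⟨a', hb, hb'⟩ := hUel z hz
    have h2 : g = a + R * a' := by
      apply hev'
      rw [map_add, LinearMap.add_apply, map_mul, ← hyz, ha]
      change y + ρ z = y + φ R (φ a' x)
      rw [hb, hRx]
    have h3 : σ g = a + σ R * a' := by
      rw [h2, map_add, map_mul, ha', hb']
    have h4 : (R - σ R) * a' = 0 := by
      rw [hg] at h3
      rw [sub_mul, sub_eq_zero]
      have h5 := h2.symm.trans h3
      exact add_left_cancel h5
    rcases mul_eq_zero.1 h4 with h5 | h5
    · exact absurd (sub_eq_zero.1 h5).symm hRne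
    · rw [h2, h5, mul_zero, add_zero, ha]
      exact hy
  -- the fibre
  have hfib : ∀ c : E, nm β ρ (φ c x) = nm β ρ x ↔ σ c * c = 1 := by
    intro c
    constructor
    · intro hc
      by_contra hne
      set e := σ c * c - 1 with he
      have he0 : e ≠ 0 := sub_ne_zero.2 hne
      have hσe : σ e = e := by
        rw [he, map_sub, map_mul, map_one]
        change σ₀ (σ₀ c) * σ₀ c - 1 = σ₀ c * c - 1
        rw [hσσ, mul_comm]
      have h1 : ∀ i : Fin 4, β ((ss ρ ^ (i : ℕ)) x) (φ e x) = 0 := by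
        intro i
        have h2 := congrFun hc i
        rw [hnm] at h2
        rw [he, map_sub, map_one, LinearMap.sub_apply, Module.End.one_apply, map_sub, h2]
        exact sub_self _
      have h3 : ∀ y ∈ U, β y (φ e x) = 0 := by
        intro y hy
        induction hy using Submodule.span_induction with
        | mem y hy =>
          obtain ⟨i, rfl⟩ := hy
          exact h1 i
        | zero => rw [map_zero, LinearMap.zero_apply]
        | add y z _ _ hy hz => rw [map_add, LinearMap.add_apply, hy, hz, add_zero]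
        | smul c y _ hy => rw [map_smul, LinearMap.smul_apply, hy, smul_zero]
      apply hx
      apply h.nm_zero
      funext i
      change β ((ss ρ ^ (i : ℕ)) x) x = 0
      have h4 : σ (T ^ (i : ℕ) * e⁻¹) = T ^ (i : ℕ) * e⁻¹ := by
        rw [map_mul, map_pow, hσT, map_inv₀, hσe]
      have h5 := h3 _ (hself _ h4)
      have h6 : β (φ (T ^ (i : ℕ) * e⁻¹) x) (φ e x) = β ((ss ρ ^ (i : ℕ)) x) x := by
        have h7 : φ e x = φ (σ₀ e) x := by
          have : σ₀ e = e := hσe
          rw [this]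
        rw [h7, ← hσ₀]
        have h8 : φ e (φ (T ^ (i : ℕ) * e⁻¹) x) = (ss ρ ^ (i : ℕ)) x := by
          have h9 : φ (e * (T ^ (i : ℕ) * e⁻¹)) x = φ (T ^ (i : ℕ)) x := by
            rw [mul_comm, mul_assoc, inv_mul_cancel₀ he0, mul_one]
          rw [map_mul, hTpow] at h9
          exact h9
        rw [h8]
      rw [← h6, h5]
    · intro hc
      funext i
      rw [hnm, hc, map_one, Module.End.one_apply]
      rfl
  rw [← hmu]
  apply Nat.card_congr
  refine (Equiv.ofBijective (fun c : {c : E // σ c * c = 1} =>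
    (⟨φ c x, (hfib c).2 c.2⟩ : {y : W // nm β ρ y = nm β ρ x})) ⟨?_, ?_⟩).symm
  · intro c c' hcc
    exact Subtype.ext (hev' _ _ (congrArg Subtype.val hcc))
  · rintro ⟨y, hy⟩
    obtain ⟨c, rfl⟩ := hevs y
    exact ⟨⟨c, (hfib c).1 hy⟩, rfl⟩

theorem R8.nm_fib (h : R8 β r ρ) {w : Fin 4 → F} (hw : w ≠ 0) :
    Nat.card {x : W // nm β ρ x = w} = Fintype.card F ^ 4 + 1 := by
  classical
  have hfd := H5_finite h
  have hWfin : Finite W := Module.finite_of_finite F
  have hWft : Fintype W := Fintype.ofFinite W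
  set N : (Fin 4 → F) → ℕ := fun w => Nat.card {x : W // nm β ρ x = w} with hN
  have hnm0 : nm β ρ (0 : W) = 0 := by
    funext i
    change β ((ss ρ ^ (i : ℕ)) 0) 0 = 0
    rw [map_zero]
  have hN0 : N 0 = 1 := by
    rw [hN, Nat.card_eq_one_iff_unique]
    refine ⟨⟨fun a b => Subtype.ext ?_⟩, ⟨⟨0, hnm0⟩⟩⟩
    rw [h.nm_zero a.2, h.nm_zero b.2]
  have hNle : ∀ w ≠ 0, N w ≤ Fintype.card F ^ 4 + 1 := by
    intro w hw
    by_cases hne : Nonempty {x : W // nm β ρ x = w}
    · obtain ⟨x, rfl⟩ := hne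
      have hx : x ≠ 0 := by
        rintro rfl
        exact hw hnm0
      exact (H5_fib h hx).le
    · rw [not_nonempty_iff] at hne
      simp only [hN, Nat.card_of_isEmpty]
      exact Nat.zero_le _
  have hsum : ∑ w, N w = Fintype.card F ^ 8 := by
    have h1 : Nat.card W = Fintype.card F ^ 8 := by
      rw [Module.natCard_eq_pow_finrank (K := F), h.dim, Nat.card_eq_fintype_card]
    rw [← h1, ← Nat.card_congr (Equiv.sigmaFiberEquiv (nm β ρ)), Nat.card_sigma]
  have hcardw : Fintype.card (Fin 4 → F) = Fintype.card F ^ 4 := by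
    rw [Fintype.card_fun, Fintype.card_fin]
  have hsum' : ∑ w ∈ Finset.univ.erase (0 : Fin 4 → F), N w + 1 = Fintype.card F ^ 8 := by
    rw [← hsum, ← Finset.sum_erase_add _ _ (Finset.mem_univ (0 : Fin 4 → F)), hN0]
  have hq : 1 ≤ Fintype.card F ^ 4 := Nat.one_le_pow _ _ Fintype.card_pos
  have hconst : ∑ w ∈ Finset.univ.erase (0 : Fin 4 → F), (Fintype.card F ^ 4 + 1) + 1 =
      Fintype.card F ^ 8 := by
    rw [Finset.sum_const, Finset.card_erase_of_mem (Finset.mem_univ _), Finset.card_univ, hcardw,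
      smul_eq_mul]
    obtain ⟨t, ht⟩ := Nat.exists_eq_add_of_le hq
    have h8 : Fintype.card F ^ 8 = (Fintype.card F ^ 4) * (Fintype.card F ^ 4) := by
      rw [← pow_add]
    rw [h8, ht]
    have : 1 + t - 1 = t := by omega
    rw [this]
    ring
  have heq := (Finset.sum_eq_sum_iff_of_le (s := Finset.univ.erase (0 : Fin 4 → F)) (f := N)
    (g := fun _ => Fintype.card F ^ 4 + 1) (fun w hw' => hNle w (Finset.ne_of_mem_erase hw'))).1
    (by
      have h9 := hsum'.trans hconst.symm
      exact Nat.add_right_cancel h9)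
  exact heq w (Finset.mem_erase.2 ⟨hw, Finset.mem_univ _⟩)

end Pool.Agent.LibNT29
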