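import Pool.Agent.LibNT29.F3
import Pool.Agent.LibNT29.F4
import Pool.Agent.LibNT29.F6
import Pool.Agent.LibNT29.F7
import Pool.Agent.LibNT29.G4
import Pool.Agent.LibNT29.H5

set_option autoImplicit false

/-!
[NT29 G5] MEDIUM/STRONG. A finite group `N` of isometries preserving `M` and commuting with `ρ` (`Rho`), of odd order `m`, `m k = q^4 + 1`: `q + 3 ≤ 2 k`. Apply `kbound` with `W = im ρ` (the type), `β = B.domRestrict₁₂ ..`, `ρ' = ρ.ofSubmodules ..` (`im_map`, `to_R8`), `N = nm β ρ'`, `Z = Zf A`, `A` of `fam`.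
`hfib` = `nm_fib`; `hline` = `dvd_Zf` with `pencil` (`nm_zero`); `htot` = `card_Zf`; `τ w = w 0`, `τ (nm x) = β x x = B x x`, not zero for `x ∈ Zf A` (`0 ∉ Zf A` as `tt B M 0 = q^4+1 ≠ 0`; `x ≠ 0` with `B x x = 0`: `tt = q + 1` or `1`: `tt_sing`, `tt_mem`). `Odd q`: `2 ≠ 0` in `F` (`hS.two`; `FiniteField.odd_card..`).
`hdiv`: for `S` closed under nonzero scalars let `T = {x ∈ Zf A : nm x ∈ S}`. `q - 1 ∣ |T|` (`units_dvd`; `nm_smul`; `0 ∉ T`). `m ∣ |T|` (`act_dvd`): `N` acts on `T` (`g` maps `im ρ` to itself, `nm_inv`, `tt B M (g x) = tt B M x`) freely: `g x = x`, `x ≠ 0`: `g - 1` commutes with `ρ'` on `W` and has `x` in its kernel,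
so `g = 1` on `im ρ` (`R8.inj`), `g = 1` (`eq_on_im`). `m` and `q - 1` are coprime (`cop`).
-/

namespace Pool.Agent.LibNT29

open Module Pool.Agent.LibBT65

variable {F V : Type*} [Field F] [Fintype F] [AddCommGroup V] [Module F V]
  {B : V →ₗ[F] V →ₗ[F] F} {M : Finset (Submodule F V)}

private theorem g5_odd (two : (2 : F) ≠ 0) : Odd (Fintype.card F) := by
  obtain ⟨p, hp⟩ := CharP.exists F
  obtain ⟨n, hpp, hn⟩ := FiniteField.card F p
  have hp2 : p ≠ 2 := by
    rintro rfl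
    apply two
    have := CharP.cast_eq_zero F 2
    exact_mod_cast this
  rw [hn]
  exact (hpp.odd_of_ne_two hp2).pow

theorem tt_simi (hS : Sys B M) {μ : F} {g : V ≃ₗ[F] V} (hg : Simi B M μ g) (x : V) :
    tt B M (g x) = tt B M x := by
  classical
  have hμ := mu_ne hS hg
  have hinj : Function.Injective (fun π : Submodule F V ↦ π.map (g : V →ₗ[F] V)) :=
    Submodule.map_injective_of_injective g.injective
  have himg : M.image (fun π : Submodule F V ↦ π.map (g : V →ₗ[F] V)) = M := by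
    apply Finset.eq_of_subset_of_card_le
    · intro π hπ
      obtain ⟨π', hπ', rfl⟩ := Finset.mem_image.mp hπ
      exact hg.pres π' hπ'
    · rw [Finset.card_image_of_injective _ hinj]
  have key : ∀ π : Submodule F V, g x ∈ pp B (π.map (g : V →ₗ[F] V)) ↔ x ∈ pp B π := by
    intro π
    constructor
    · intro h u hu
      have h1 := h (g u) ⟨u, hu, rfl⟩
      rw [hg.sim] at h1
      exact (mul_eq_zero.mp h1).resolve_left hμ
    · rintro h _ ⟨u, hu, rfl⟩
      change B (g x) (g u) = 0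
      rw [hg.sim, h u hu, mul_zero]
  unfold tt
  symm
  refine Finset.card_bij (fun π _ ↦ π.map (g : V →ₗ[F] V)) ?_ ?_ ?_
  · intro π hπ
    rw [Finset.mem_filter] at hπ ⊢
    exact ⟨hg.pres π hπ.1, (key π).mpr hπ.2⟩
  · intro a _ b _ hab
    exact hinj hab
  · intro π hπ
    rw [Finset.mem_filter] at hπ
    have h1 := hπ.1
    rw [← himg] at h1
    obtain ⟨π', hπ', h2⟩ := Finset.mem_image.mp h1
    change π'.map (g : V →ₗ[F] V) = π at h2
    refine ⟨π', ?_, h2⟩
    rw [Finset.mem_filter]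
    refine ⟨hπ', (key π').mp ?_⟩
    rw [h2]
    exact hπ.2

theorem orbits (hS : Sys B M) (hH : Hyp B) {r : ℕ} {ρ : V ≃ₗ[F] V} (hρ : Rho B M r ρ)
    (N : Subgroup (V ≃ₗ[F] V)) (hN : ∀ g ∈ N, Simi B M 1 g ∧ ∀ v, g (ρ v) = ρ (g v)) {k : ℕ}
    (hodd : Odd (Nat.card N)) (hk : Nat.card N * k = Fintype.card F ^ 4 + 1) :
    Fintype.card F + 3 ≤ 2 * k := by
  classical
  have hfd := fin hS
  have hVfin : Finite V := Module.finite_of_finite F
  have hq1 : 1 < Fintype.card F := Fintype.one_lt_card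
  have him : (im ρ).map (ρ : V →ₗ[F] V) = im ρ := im_map hS hρ ρ (fun _ ↦ rfl)
  have hR := to_R8 hS hρ him
  have hF := fam hS hρ
  set β := B.domRestrict₁₂ (im ρ) (im ρ) with hβ
  set ρ' := ρ.ofSubmodules (im ρ) (im ρ) him with hρ'
  have hβa : ∀ x y : im ρ, β x y = B (x : V) (y : V) := fun x y ↦ rfl
  have hρa : ∀ x : im ρ, ((ρ' x : im ρ) : V) = ρ (x : V) := fun x ↦ rfl
  set A : {π // π ∈ M} → Submodule F (im ρ) := fun π => (pp B π.1).comap (im ρ).subtype with hA
  have hMne : M.Nonempty := Finset.card_pos.mp (by rw [hS.card]; omega)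
  -- the set Z
  have hZ : ∀ x : im ρ, x ∈ Zf A ↔ tt B M (x : V) = 0 := by
    intro x
    rw [tt_card]
    have hfin : Finite {π : {π // π ∈ M} // (x : V) ∈ pp B π.1} := inferInstance
    constructor
    · intro h
      have : IsEmpty {π : {π // π ∈ M} // (x : V) ∈ pp B π.1} := ⟨fun π ↦ h π.1 π.2⟩
      exact Nat.card_of_isEmpty
    · intro h π hπ
      have : Nonempty {π : {π // π ∈ M} // (x : V) ∈ pp B π.1} := ⟨⟨π, hπ⟩⟩
      have := Nat.card_pos (α := {π : {π // π ∈ M} // (x : V) ∈ pp B π.1})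
      omega
  have hZ0 : (0 : im ρ) ∉ Zf A := by
    intro h
    obtain ⟨π, hπ⟩ := hMne
    exact h ⟨π, hπ⟩ (A ⟨π, hπ⟩).zero_mem
  have hZs : ∀ c : F, c ≠ 0 → ∀ x ∈ Zf A, c • x ∈ Zf A := by
    intro c hc x hx π hπ
    apply hx π
    have := (A π).smul_mem c⁻¹ hπ
    rwa [smul_smul, inv_mul_cancel₀ hc, one_smul] at this
  have hN0 : ∀ x : im ρ, nm β ρ' x = 0 ↔ x = 0 := by
    intro x
    constructor
    · exact fun h ↦ hR.nm_zero h
    · rintro rfl
      funext i
      unfold nm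
      rw [map_zero]
      rfl
  have hk0 : Nat.card N * k ≠ 0 := by omega
  have hNpos : Nat.card N ≠ 0 := left_ne_zero_of_mul hk0
  have hNfin : Finite N := Nat.finite_of_card_ne_zero hNpos
  have hfib : ∀ w : Fin 4 → F, w ≠ 0 → Nat.card {x : im ρ // nm β ρ' x = w} = Fintype.card F ^ 4 + 1 :=
    fun w hw ↦ hR.nm_fib hw
  let τ : (Fin 4 → F) →ₗ[F] F := LinearMap.proj 0
  have hτ : τ ≠ 0 := by
    intro h
    have h1 := LinearMap.congr_fun h (fun _ ↦ 1)
    exact one_ne_zero h1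
  have hgim : ∀ g ∈ N, (im ρ).map (g : V →ₗ[F] V) = im ρ := fun g hg ↦ im_map hS hρ g (hN g hg).2
  have hgx : ∀ g ∈ N, ∀ x ∈ im ρ, g x ∈ im ρ := by
    intro g hg x hx
    rw [← hgim g hg]
    exact ⟨x, hx, rfl⟩
  refine kbound (g5_odd hS.two) hk (nm β ρ') (Zf A) hfib τ hτ ?_ ?_ ?_ (card_Zf hF)
  · -- the form does not vanish on Z
    intro x hx h0
    have hB : B (x : V) (x : V) = 0 := h0
    have hx0 : (x : V) ≠ 0 := by
      intro h
      have : x = 0 := Subtype.ext h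
      rw [this] at hx
      exact hZ0 hx
    by_cases hm : Mem M (x : V)
    · obtain ⟨π, hπ, hxπ⟩ := hm
      exact hx ⟨π, hπ⟩ (le_pp hS hπ hxπ)
    · have h1 := tt_sing hS hH hx0 hm hB
      rw [(hZ x).mp hx] at h1
      omega
  · -- divisibility
    intro S hSc
    have hc := cop (q := Fintype.card F) (by omega) hodd ⟨k, hk.symm⟩
    refine Nat.Coprime.mul_dvd_of_dvd_of_dvd hc.2.1 ?_ ?_
    · -- the group N acts
      let act : MulAction N {x : im ρ // x ∈ Zf A ∧ nm β ρ' x ∈ S} :=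
        { smul := fun g x ↦ ⟨⟨(g : V ≃ₗ[F] V) (x.1 : V), hgx g g.2 x.1 x.1.2⟩, by
            constructor
            · rw [hZ]
              change tt B M ((g : V ≃ₗ[F] V) (x.1 : V)) = 0
              rw [tt_simi hS (hN g g.2).1]
              exact (hZ x.1).mp x.2.1
            · have h1 := hR.nm_inv (g := (g : V ≃ₗ[F] V).ofSubmodules (im ρ) (im ρ) (hgim g g.2))
                (fun y ↦ Subtype.ext ((hN g g.2).2 (y : V)))
                (fun y z ↦ by
                  change B ((g : V ≃ₗ[F] V) (y : V)) ((g : V ≃ₗ[F] V) (z : V)) = B (y : V) (z : V)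
                  rw [(hN g g.2).1.sim, one_mul]) x.1
              have h2 : (⟨(g : V ≃ₗ[F] V) (x.1 : V), hgx g g.2 x.1 x.1.2⟩ : im ρ) =
                  (g : V ≃ₗ[F] V).ofSubmodules (im ρ) (im ρ) (hgim g g.2) x.1 := rfl
              rw [h2, h1]
              exact x.2.2⟩
          one_smul := fun x ↦ rfl
          mul_smul := fun g h x ↦ rfl }
      refine act_dvd (Γ := N) (T := {x : im ρ // x ∈ Zf A ∧ nm β ρ' x ∈ S}) ?_
      intro g hg1 x hx
      apply hg1
      apply Subtype.ext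
      have hgx' : (g : V ≃ₗ[F] V) ((x.1 : im ρ) : V) = ((x.1 : im ρ) : V) :=
        congrArg (fun y : {x : im ρ // x ∈ Zf A ∧ nm β ρ' x ∈ S} ↦ ((y.1 : im ρ) : V)) hx
      let g' : im ρ ≃ₗ[F] im ρ := (g : V ≃ₗ[F] V).ofSubmodules (im ρ) (im ρ) (hgim g g.2)
      have ha : ((g' : im ρ →ₗ[F] im ρ) - LinearMap.id) = 0 := by
        apply hR.inj (x := x.1)
        · intro y
          apply Subtype.ext
          change (g : V ≃ₗ[F] V) (ρ (y : V)) - ρ (y : V) = ρ ((g : V ≃ₗ[F] V) (y : V) - (y : V))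
          rw [map_sub, (hN g g.2).2]
        · intro h
          apply hZ0
          rw [← h]
          exact x.2.1
        · apply Subtype.ext
          change (g : V ≃ₗ[F] V) (x.1 : V) - (x.1 : V) = 0
          rw [hgx', sub_self]
      have h1 : ∀ y ∈ im ρ, (g : V ≃ₗ[F] V) y = (1 : F) • y := by
        intro y hy
        have h2 := LinearMap.congr_fun ha ⟨y, hy⟩
        have h3 : (g : V ≃ₗ[F] V) y - y = 0 := congrArg Subtype.val h2
        rw [one_smul]
        exact sub_eq_zero.mp h3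
      have h4 := eq_on_im hS hρ (hN g g.2).1 h1
      apply LinearEquiv.ext
      intro v
      rw [h4 v, one_smul]
      rfl
    · have h1 := units_dvd (F := F) {x : im ρ | x ∈ Zf A ∧ nm β ρ' x ∈ S} (fun h ↦ hZ0 h.1) (by
        rintro c hc x ⟨hx1, hx2⟩
        refine ⟨hZs c hc x hx1, ?_⟩
        rw [R8.nm_smul]
        exact hSc _ (pow_ne_zero 2 hc) _ hx2)
      exact h1
  · intro L hL
    exact dvd_Zf hF (nm β ρ') hN0 hfib hL (fun π ↦ hR.pencil (hF.dim π) hL)

end Pool.Agent.LibNT29
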