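import Pool.Agent.LibNT29.G1

set_option autoImplicit false

/-!
[NT29 G6] MEDIUM/STRONG. Lifting a commutative group `N` of permutations of the members, of odd order `m ∣ q^4 + 1`, containing the permutation of `ρ` (`Rho`), to a group `N'` of isometries commuting with `ρ`. `q = card F`; `m` is coprime to `q - 1` (`cop`).
`N' = {g : g^m = 1, ∃ h ∈ G, pm h ∈ N, ∃ c ≠ 0, g = c h}`. Elements of `N'` commute with `ρ`: `g ρ g⁻¹ ρ⁻¹` fixes all members, so it is a scalar `λ`, `λ^r = 1`, `λ = 1`. Two elements commute: on `im ρ` by `R8.com` (`to_R8`, `im_map`), so everywhere (`eq_on_im` for the commutator). So `N'` is a subgroup (`(g g')^m = g^m g'^m`).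
Factor `μ` of `g ∈ N'`: `μ^m = 1` (`B ≠ 0`), `μ = 1`. The map `N' → N`, `g ↦ pm h`, is bijective: for `n = pm h ∈ N`, `h^m` is a scalar `ν` (`scal_iff`), `κ^m = ν`, `g = κ⁻¹ h`; if `g` and `c g` are both in `N'` then `c^m = 1`, `c = 1`.
-/

namespace Pool.Agent.LibNT29

open Module Pool.Agent.LibBT65

variable {F V : Type*} [Field F] [Fintype F] [AddCommGroup V] [Module F V]
  {B : V →ₗ[F] V →ₗ[F] F} {M : Finset (Submodule F V)}

omit [Fintype F] in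
private theorem G6_simi_mul {μ ν : F} {g h : V ≃ₗ[F] V} (hg : Simi B M μ g) (hh : Simi B M ν h) :
    Simi B M (μ * ν) (g * h) := by
  refine ⟨fun v w => ?_, fun π hπ => ?_⟩
  · show B (g (h v)) (g (h w)) = μ * ν * B v w
    rw [hg.sim, hh.sim, mul_assoc]
  · have : ((g * h : V ≃ₗ[F] V) : V →ₗ[F] V) = (g : V →ₗ[F] V) ∘ₗ (h : V →ₗ[F] V) := rfl
    rw [this, Submodule.map_comp]
    exact hg.pres _ (hh.pres π hπ)

omit [Fintype F] in
private theorem G6_simi_one : Simi B M 1 (1 : V ≃ₗ[F] V) := by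
  refine ⟨fun v w => (one_mul _).symm, fun π hπ => ?_⟩
  have : π.map ((1 : V ≃ₗ[F] V) : V →ₗ[F] V) = π := Submodule.map_id π
  rw [this]
  exact hπ

omit [Fintype F] in
private theorem G6_simi_inv {μ : F} {g : V ≃ₗ[F] V} (hg : Simi B M μ g) (hμ : μ ≠ 0) :
    Simi B M μ⁻¹ g⁻¹ := by
  refine ⟨fun v w => ?_, fun π hπ => ?_⟩
  · have h := hg.sim (g⁻¹ v) (g⁻¹ w)
    have e1 : g (g⁻¹ v) = v := g.apply_symm_apply v
    have e2 : g (g⁻¹ w) = w := g.apply_symm_apply w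
    rw [e1, e2] at h
    rw [h, ← mul_assoc, inv_mul_cancel₀ hμ, one_mul]
  · have hinj : Function.Injective (fun π : {π // π ∈ M} =>
        (⟨π.1.map (g : V →ₗ[F] V), hg.pres π.1 π.2⟩ : {π // π ∈ M})) := by
      intro a b hab
      apply Subtype.ext
      exact Submodule.map_injective_of_injective g.injective (congrArg Subtype.val hab)
    obtain ⟨π', hπ'⟩ := Finite.surjective_of_injective hinj ⟨π, hπ⟩
    have h3 : π'.1.map (g : V →ₗ[F] V) = π := congrArg Subtype.val hπ'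
    have : π.map ((g⁻¹ : V ≃ₗ[F] V) : V →ₗ[F] V) = π'.1 := by
      rw [← h3, ← Submodule.map_comp]
      have : ((g⁻¹ : V ≃ₗ[F] V) : V →ₗ[F] V) ∘ₗ (g : V →ₗ[F] V) = LinearMap.id := by
        ext v
        exact g.symm_apply_apply v
      rw [this, Submodule.map_id]
    rw [this]
    exact π'.2

omit [Fintype F] in
private theorem G6_mul {g h : V ≃ₗ[F] V} (hg : ∃ μ, Simi B M μ g) (hh : ∃ μ, Simi B M μ h) :
    ∃ μ, Simi B M μ (g * h) := by
  obtain ⟨μ, hg⟩ := hg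
  obtain ⟨ν, hh⟩ := hh
  exact ⟨_, G6_simi_mul hg hh⟩

omit [Fintype F] in
private theorem G6_pow {g : V ≃ₗ[F] V} (hg : ∃ μ, Simi B M μ g) (n : ℕ) : ∃ μ, Simi B M μ (g ^ n) := by
  induction n with
  | zero => exact ⟨1, by rw [pow_zero]; exact G6_simi_one⟩
  | succ n ih => rw [pow_succ]; exact G6_mul ih hg

/-- similarities which agree on `im ρ` are equal -/
private theorem G6_eq (hS : Sys B M) {r : ℕ} {ρ : V ≃ₗ[F] V} (hρ : Rho B M r ρ) {g h : V ≃ₗ[F] V}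
    (hg : ∃ μ, Simi B M μ g) (hh : ∃ μ, Simi B M μ h) (e : ∀ x ∈ im ρ, g x = h x) : g = h := by
  obtain ⟨μ, hg⟩ := hg
  obtain ⟨ν, hh⟩ := hh
  have hk := G6_simi_mul (G6_simi_inv hh (mu_ne hS hh)) hg
  have h1 := eq_on_im hS hρ hk (c := 1) (fun x hx => by
    show h⁻¹ (g x) = (1 : F) • x
    rw [e x hx, one_smul]
    exact h.symm_apply_apply x)
  apply LinearEquiv.ext
  intro v
  have h3 : h⁻¹ (g v) = v := by
    have := h1 v
    rw [one_smul] at this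
    exact this
  calc g v = h (h⁻¹ (g v)) := (h.apply_symm_apply (g v)).symm
    _ = h v := by rw [h3]

private theorem G6_lam {m : ℕ} (hm : Odd m) (hd : m ∣ Fintype.card F ^ 4 + 1) {c : F} (hc : c ^ m = 1) :
    c = 1 := by
  have hc0 : c ≠ 0 := by
    rintro rfl
    rw [zero_pow hm.pos.ne'] at hc
    exact zero_ne_one hc
  have h1 : c ^ (Fintype.card F - 1) = 1 := FiniteField.pow_card_sub_one_eq_one c hc0
  have h2 := pow_gcd_eq_one.2 ⟨hc, h1⟩
  have h3 : Nat.gcd m (Fintype.card F - 1) = 1 := (cop Fintype.card_pos hm hd).2.1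
  rw [h3, pow_one] at h2
  exact h2

private theorem G6_odd {r : ℕ} (hr : r.Prime) (h2 : r ≠ 2) : Odd r := hr.odd_of_ne_two h2

private theorem G6_nz (hS : Sys B M) : ∃ v : V, v ≠ 0 := by
  have h : 0 < finrank F V := by rw [hS.dimV]; norm_num
  have : Nontrivial V := Module.nontrivial_of_finrank_pos h
  exact exists_ne 0

private theorem G6_rel (hS : Sys B M) {G : Subgroup (V ≃ₗ[F] V)} (hG : SGrp B M G) (g g₀ : G) {r : ℕ}
    {ρ : V ≃ₗ[F] V} (hρ : Rho B M r ρ) {c : F} (hc : c ≠ 0) (hg₀ : ∀ v, (g₀ : V ≃ₗ[F] V) v = c • ρ v) {j : ℕ}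
    (h : pm M G hG.pres g * pm M G hG.pres g₀ = (pm M G hG.pres g₀) ^ j * pm M G hG.pres g) :
    ∀ v, (g : V ≃ₗ[F] V) (ρ v) = (ρ ^ j) ((g : V ≃ₗ[F] V) v) := by
  have h1 : pm M G hG.pres (g * g₀ * (g₀ ^ j * g)⁻¹) = 1 := by
    rw [map_mul, map_inv, map_mul, map_mul, map_pow, h, mul_inv_cancel]
  obtain ⟨l, hl⟩ := (scal_iff hS hG _).1 h1
  have h2 : ∀ v, (g : V ≃ₗ[F] V) ((g₀ : V ≃ₗ[F] V) v) = l • ((g₀ : V ≃ₗ[F] V) ^ j) ((g : V ≃ₗ[F] V) v) := by
    intro v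
    have e := hl (((g₀ : V ≃ₗ[F] V) ^ j * (g : V ≃ₗ[F] V)) v)
    have e2 : ((g * g₀ * (g₀ ^ j * g)⁻¹ : G) : V ≃ₗ[F] V) (((g₀ : V ≃ₗ[F] V) ^ j * (g : V ≃ₗ[F] V)) v) =
        (g : V ≃ₗ[F] V) ((g₀ : V ≃ₗ[F] V) v) := by
      have e3 : ((g * g₀ * (g₀ ^ j * g)⁻¹ : G) : V ≃ₗ[F] V) =
          (g : V ≃ₗ[F] V) * (g₀ : V ≃ₗ[F] V) * ((g₀ : V ≃ₗ[F] V) ^ j * (g : V ≃ₗ[F] V))⁻¹ := by
        push_cast
        rfl
      rw [e3]
      show (g : V ≃ₗ[F] V) ((g₀ : V ≃ₗ[F] V) ((((g₀ : V ≃ₗ[F] V) ^ j * (g : V ≃ₗ[F] V))⁻¹)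
        (((g₀ : V ≃ₗ[F] V) ^ j * (g : V ≃ₗ[F] V)) v))) = _
      congr 2
      exact LinearEquiv.symm_apply_apply _ v
    rw [e2] at e
    exact e
  have h3 : ∀ (n : ℕ) (w : V), ((g₀ : V ≃ₗ[F] V) ^ n) w = c ^ n • (ρ ^ n) w := by
    intro n
    induction n with
    | zero => intro w; rw [pow_zero, pow_zero, pow_zero, one_smul]
    | succ n ih =>
      intro w
      rw [pow_succ, pow_succ, pow_succ]
      show ((g₀ : V ≃ₗ[F] V) ^ n) ((g₀ : V ≃ₗ[F] V) w) = (c ^ n * c) • (ρ ^ n) (ρ w)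
      rw [hg₀, map_smul, ih, smul_smul, mul_comm]
  have h4 : ∀ v, (g : V ≃ₗ[F] V) (ρ v) = (c⁻¹ * (l * c ^ j)) • (ρ ^ j) ((g : V ≃ₗ[F] V) v) := by
    intro v
    have e := h2 v
    rw [hg₀, map_smul, h3, smul_smul] at e
    rw [mul_smul, ← e, smul_smul, inv_mul_cancel₀ hc, one_smul]
  set l' := c⁻¹ * (l * c ^ j) with hl'
  have h5 : ∀ (n : ℕ) (v : V), (g : V ≃ₗ[F] V) ((ρ ^ n) v) = l' ^ n • (ρ ^ (j * n)) ((g : V ≃ₗ[F] V) v) := by
    intro n
    induction n with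
    | zero => intro v; rw [pow_zero, pow_zero, mul_zero, pow_zero, one_smul]; rfl
    | succ n ih =>
      intro v
      rw [pow_succ, pow_succ, mul_add, mul_one, pow_add]
      show (g : V ≃ₗ[F] V) ((ρ ^ n) (ρ v)) = (l' ^ n * l') • (ρ ^ (j * n)) ((ρ ^ j) ((g : V ≃ₗ[F] V) v))
      rw [ih, h4, map_smul, smul_smul]
  obtain ⟨v0, hv0⟩ := G6_nz hS
  have h6 := h5 r v0
  have e1 : ρ ^ (j * r) = 1 := by rw [mul_comm, pow_mul, hρ.pow, one_pow]
  rw [hρ.pow, e1] at h6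
  have h7 : (g : V ≃ₗ[F] V) v0 = l' ^ r • (g : V ≃ₗ[F] V) v0 := h6
  have h8 : (g : V ≃ₗ[F] V) v0 ≠ 0 := by
    intro h0
    exact hv0 ((g : V ≃ₗ[F] V).injective (by rw [h0, map_zero]))
  have h9 : l' ^ r = 1 := by
    have : (l' ^ r - 1) • (g : V ≃ₗ[F] V) v0 = 0 := by rw [sub_smul, one_smul, ← h7, sub_self]
    rcases smul_eq_zero.1 this with h | h
    · exact sub_eq_zero.1 h
    · exact absurd h h8
  have h10 := G6_lam (G6_odd hρ.prime hρ.odd) hρ.dvd h9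
  intro v
  rw [h4 v, h10, one_smul]

/-- similarities commuting with `ρ` commute -/
private theorem G6_com (hS : Sys B M) {r : ℕ} {ρ : V ≃ₗ[F] V} (hρ : Rho B M r ρ) {g h : V ≃ₗ[F] V}
    (hg : ∃ μ, Simi B M μ g) (hh : ∃ μ, Simi B M μ h) (cg : ∀ v, g (ρ v) = ρ (g v))
    (ch : ∀ v, h (ρ v) = ρ (h v)) : g * h = h * g := by
  have mρ : (im ρ).map (ρ : V →ₗ[F] V) = im ρ := im_map hS hρ ρ (fun v => rfl)
  have mg := im_map hS hρ g cg
  have mh := im_map hS hρ h ch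
  have R := to_R8 hS hρ mρ
  refine G6_eq hS hρ (G6_mul hg hh) (G6_mul hh hg) (fun x hx => ?_)
  have e := R.com (a := (g.ofSubmodules (im ρ) (im ρ) mg : im ρ →ₗ[F] im ρ))
    (b := (h.ofSubmodules (im ρ) (im ρ) mh : im ρ →ₗ[F] im ρ))
    (fun y => Subtype.ext (cg y.1)) (fun y => Subtype.ext (ch y.1)) ⟨x, hx⟩
  exact congrArg Subtype.val e

omit [Fintype F] in
private theorem G6_smul_simi {μ c : F} {g h : V ≃ₗ[F] V} (hh : Simi B M μ h) (hc : c ≠ 0)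
    (e : ∀ v, g v = c • h v) : Simi B M (c * c * μ) g := by
  refine ⟨fun v w => ?_, fun π hπ => ?_⟩
  · have h1 : B (c • h v) (c • h w) = c * (c * B (h v) (h w)) := by
      rw [map_smul, map_smul, LinearMap.smul_apply, smul_eq_mul, smul_eq_mul]
    rw [e, e, h1, hh.sim]
    ring
  · have : π.map (g : V →ₗ[F] V) = π.map (h : V →ₗ[F] V) := by
      apply le_antisymm
      · rintro _ ⟨x, hx, rfl⟩
        refine ⟨c • x, π.smul_mem c hx, ?_⟩
        show h (c • x) = g x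
        rw [map_smul, e]
      · rintro _ ⟨x, hx, rfl⟩
        refine ⟨c⁻¹ • x, π.smul_mem c⁻¹ hx, ?_⟩
        show g (c⁻¹ • x) = h x
        rw [e, map_smul, smul_smul, mul_inv_cancel₀ hc, one_smul]
    rw [this]
    exact hh.pres π hπ

private theorem G6_factor (hS : Sys B M) {m : ℕ} (hm : Odd m) (hd : m ∣ Fintype.card F ^ 4 + 1) {μ : F}
    {g : V ≃ₗ[F] V} (hg : Simi B M μ g) (h1 : g ^ m = 1) : μ = 1 := by
  have h2 : ∀ (n : ℕ) (v w : V), B ((g ^ n) v) ((g ^ n) w) = μ ^ n * B v w := by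
    intro n
    induction n with
    | zero => intro v w; rw [pow_zero, pow_zero, one_mul]; rfl
    | succ n ih =>
      intro v w
      rw [pow_succ, pow_succ]
      show B ((g ^ n) (g v)) ((g ^ n) (g w)) = _
      rw [ih, hg.sim, mul_assoc]
  obtain ⟨v, hv⟩ := G6_nz hS
  have h3 : ∃ w, B v w ≠ 0 := by
    by_contra hcon
    push Not at hcon
    exact hv (hS.nondeg v hcon)
  obtain ⟨w, hw⟩ := h3
  have h4 := h2 m v w
  rw [h1] at h4
  have h5 : B v w = μ ^ m * B v w := h4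
  have h6 : μ ^ m = 1 := by
    have : (μ ^ m - 1) * B v w = 0 := by rw [sub_mul, one_mul, ← h5, sub_self]
    rcases mul_eq_zero.1 this with h | h
    · exact sub_eq_zero.1 h
    · exact absurd h hw
  exact G6_lam hm hd h6

private theorem G6_root {m : ℕ} (hm : Odd m) (hd : m ∣ Fintype.card F ^ 4 + 1) {ν : F} (hν : ν ≠ 0) :
    ∃ κ : F, κ ≠ 0 ∧ κ ^ m = ν := by
  have hinj : Function.Injective (powMonoidHom m : Fˣ →* Fˣ) := by
    rw [injective_iff_map_eq_one]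
    intro a ha
    have h1 : (a : F) ^ m = 1 := by
      have := congrArg (fun u : Fˣ => (u : F)) ha
      simpa using this
    exact Units.ext (G6_lam hm hd h1)
  obtain ⟨κ, hκ⟩ := Finite.surjective_of_injective hinj (Units.mk0 ν hν)
  refine ⟨κ, κ.ne_zero, ?_⟩
  have := congrArg (fun u : Fˣ => (u : F)) hκ
  simpa using this

/-- the elements of the lifted group -/
private def G6_P (M : Finset (Submodule F V)) (G : Subgroup (V ≃ₗ[F] V))
    (hG : ∀ g ∈ G, ∀ π ∈ M, π.map (g : V →ₗ[F] V) ∈ M) (N : Subgroup (Equiv.Perm {π // π ∈ M})) (m : ℕ)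
    (g : V ≃ₗ[F] V) : Prop :=
  g ^ m = 1 ∧ ∃ h : G, pm M G hG h ∈ N ∧ ∃ c : F, c ≠ 0 ∧ ∀ v, g v = c • (h : V ≃ₗ[F] V) v

omit [Fintype F] in
private theorem G6_P_simi {G : Subgroup (V ≃ₗ[F] V)} (hG : SGrp B M G)
    {N : Subgroup (Equiv.Perm {π // π ∈ M})} {m : ℕ} {g : V ≃ₗ[F] V} (hg : G6_P M G hG.pres N m g) :
    ∃ μ, Simi B M μ g := by
  obtain ⟨_, h, _, c, hc, e⟩ := hg
  obtain ⟨μ, hs⟩ := hG h.1 h.2
  exact ⟨_, G6_smul_simi hs hc e⟩

private theorem G6_P_com (hS : Sys B M) {G : Subgroup (V ≃ₗ[F] V)} (hG : SGrp B M G)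
    {N : Subgroup (Equiv.Perm {π // π ∈ M})} (hcomm : ∀ a ∈ N, ∀ b ∈ N, a * b = b * a) {r : ℕ}
    {ρ : V ≃ₗ[F] V} (hρ : Rho B M r ρ) (g₀ : G) (h₀ : pm M G hG.pres g₀ ∈ N) {c₀ : F} (hc : c₀ ≠ 0)
    (hg₀ : ∀ v, (g₀ : V ≃ₗ[F] V) v = c₀ • ρ v) {m : ℕ} {g : V ≃ₗ[F] V} (hg : G6_P M G hG.pres N m g) :
    ∀ v, g (ρ v) = ρ (g v) := by
  obtain ⟨_, h, hN, c, hc', e⟩ := hg
  have h1 := G6_rel hS hG h g₀ hρ hc hg₀ (j := 1) (by
    rw [pow_one]
    exact hcomm _ hN _ h₀)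
  intro v
  have h2 := h1 v
  rw [pow_one] at h2
  rw [e, e, map_smul, h2]

theorem lift_group (hS : Sys B M) {G : Subgroup (V ≃ₗ[F] V)} (hG : SGrp B M G)
    (N : Subgroup (Equiv.Perm {π // π ∈ M})) (hN : N ≤ (pm M G hG.pres).range) (hodd : Odd (Nat.card N))
    (hd : Nat.card N ∣ Fintype.card F ^ 4 + 1) (hcomm : ∀ a ∈ N, ∀ b ∈ N, a * b = b * a) {r : ℕ}
    {ρ : V ≃ₗ[F] V} (hρ : Rho B M r ρ) (g₀ : G) (h₀ : pm M G hG.pres g₀ ∈ N) {c₀ : F} (hc : c₀ ≠ 0)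
    (hg₀ : ∀ v, (g₀ : V ≃ₗ[F] V) v = c₀ • ρ v) :
    ∃ N' : Subgroup (V ≃ₗ[F] V), Nat.card N' = Nat.card N ∧
      ∀ g ∈ N', Simi B M 1 g ∧ ∀ v, g (ρ v) = ρ (g v) := by
  set m := Nat.card N with hm
  have hcom : ∀ {a b : V ≃ₗ[F] V}, G6_P M G hG.pres N m a → G6_P M G hG.pres N m b → a * b = b * a := by
    intro a b ha hb
    exact G6_com hS hρ (G6_P_simi hG ha) (G6_P_simi hG hb)
      (G6_P_com hS hG hcomm hρ g₀ h₀ hc hg₀ ha) (G6_P_com hS hG hcomm hρ g₀ h₀ hc hg₀ hb)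
  let N' : Subgroup (V ≃ₗ[F] V) :=
    { carrier := {g | G6_P M G hG.pres N m g}
      mul_mem' := by
        intro a b ha hb
        have hab := hcom ha hb
        obtain ⟨ha1, ha2, ha3, ca, hca, ea⟩ := ha
        obtain ⟨hb1, hb2, hb3, cb, hcb, eb⟩ := hb
        refine ⟨?_, ha2 * hb2, ?_, ca * cb, mul_ne_zero hca hcb, fun v => ?_⟩
        · rw [(show Commute a b from hab).mul_pow, ha1, hb1, one_mul]
        · rw [map_mul]
          exact N.mul_mem ha3 hb3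
        · show a (b v) = (ca * cb) • (ha2 : V ≃ₗ[F] V) ((hb2 : V ≃ₗ[F] V) v)
          rw [ea, eb, map_smul, smul_smul]
      one_mem' := by
        refine ⟨one_pow m, 1, ?_, 1, one_ne_zero, fun v => ?_⟩
        · rw [map_one]
          exact N.one_mem
        · rw [one_smul]
          rfl
      inv_mem' := by
        intro a ha
        obtain ⟨ha1, ha2, ha3, ca, hca, ea⟩ := ha
        refine ⟨?_, ha2⁻¹, ?_, ca⁻¹, inv_ne_zero hca, fun v => ?_⟩
        · rw [inv_pow, ha1, inv_one]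
        · rw [map_inv]
          exact N.inv_mem ha3
        · show a.symm v = ca⁻¹ • (ha2 : V ≃ₗ[F] V).symm v
          rw [LinearEquiv.symm_apply_eq, map_smul, ea, smul_smul, inv_mul_cancel₀ hca, one_smul,
            LinearEquiv.apply_symm_apply] }
  have memN' : ∀ g, g ∈ N' ↔ G6_P M G hG.pres N m g := fun g => Iff.rfl
  refine ⟨N', ?_, ?_⟩
  · have hch : ∀ g : N', ∃ h : G, pm M G hG.pres h ∈ N ∧ ∃ c : F, c ≠ 0 ∧
        ∀ v, (g : V ≃ₗ[F] V) v = c • (h : V ≃ₗ[F] V) v := fun g => ((memN' g.1).1 g.2).2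
    choose φ hφ1 hφ2 using hch
    let ψ : N' → N := fun g => ⟨pm M G hG.pres (φ g), hφ1 g⟩
    refine Nat.card_eq_of_bijective ψ ⟨?_, ?_⟩
    · intro a b hab
      have e1 : pm M G hG.pres (φ a) = pm M G hG.pres (φ b) := congrArg Subtype.val hab
      have e2 : pm M G hG.pres (φ a * (φ b)⁻¹) = 1 := by
        rw [map_mul, map_inv, e1, mul_inv_cancel]
      obtain ⟨l, hl⟩ := (scal_iff hS hG _).1 e2
      have e3 : ∀ v, (φ a : V ≃ₗ[F] V) v = l • (φ b : V ≃ₗ[F] V) v := by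
        intro v
        have e := hl ((φ b : V ≃ₗ[F] V) v)
        have e4 : ((φ a * (φ b)⁻¹ : G) : V ≃ₗ[F] V) ((φ b : V ≃ₗ[F] V) v) = (φ a : V ≃ₗ[F] V) v := by
          have e5 : ((φ a * (φ b)⁻¹ : G) : V ≃ₗ[F] V) =
              (φ a : V ≃ₗ[F] V) * (φ b : V ≃ₗ[F] V)⁻¹ := by
            push_cast
            rfl
          rw [e5]
          show (φ a : V ≃ₗ[F] V) (((φ b : V ≃ₗ[F] V)⁻¹) ((φ b : V ≃ₗ[F] V) v)) = _
          congr 1
          exact LinearEquiv.symm_apply_apply _ v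
        rw [e4] at e
        exact e
      obtain ⟨ca, hca, ea⟩ := hφ2 a
      obtain ⟨cb, hcb, eb⟩ := hφ2 b
      have e6 : ∀ v, (a : V ≃ₗ[F] V) v = (ca * l * cb⁻¹) • (b : V ≃ₗ[F] V) v := by
        intro v
        rw [ea, e3, eb, smul_smul, smul_smul, mul_assoc (ca * l), inv_mul_cancel₀ hcb, mul_one]
      set t := ca * l * cb⁻¹ with ht
      have e7 : ∀ (n : ℕ) (v : V), ((a : V ≃ₗ[F] V) ^ n) v = t ^ n • ((b : V ≃ₗ[F] V) ^ n) v := by
        intro n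
        induction n with
        | zero => intro v; rw [pow_zero, pow_zero, pow_zero, one_smul]
        | succ n ih =>
          intro v
          rw [pow_succ, pow_succ, pow_succ]
          show ((a : V ≃ₗ[F] V) ^ n) ((a : V ≃ₗ[F] V) v) =
            (t ^ n * t) • ((b : V ≃ₗ[F] V) ^ n) ((b : V ≃ₗ[F] V) v)
          rw [e6, map_smul, ih, smul_smul, mul_comm]
      obtain ⟨v0, hv0⟩ := G6_nz hS
      have e8 := e7 m v0
      rw [((memN' a.1).1 a.2).1, ((memN' b.1).1 b.2).1] at e8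
      have e9 : v0 = t ^ m • v0 := e8
      have e10 : t ^ m = 1 := by
        have : (t ^ m - 1) • v0 = 0 := by rw [sub_smul, one_smul, ← e9, sub_self]
        rcases smul_eq_zero.1 this with h | h
        · exact sub_eq_zero.1 h
        · exact absurd h hv0
      have e11 := G6_lam hodd hd e10
      apply Subtype.ext
      apply LinearEquiv.ext
      intro v
      rw [e6, e11, one_smul]
    · intro n
      obtain ⟨h, hh⟩ := hN n.2
      have e1 : pm M G hG.pres (h ^ m) = 1 := by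
        rw [map_pow, hh]
        exact congrArg Subtype.val (pow_card_eq_one' (x := n))
      obtain ⟨ν, hν⟩ := (scal_iff hS hG _).1 e1
      have hν' : ∀ v, ((h : V ≃ₗ[F] V) ^ m) v = ν • v := fun v => hν v
      have hν0 : ν ≠ 0 := by
        rintro rfl
        obtain ⟨v0, hv0⟩ := G6_nz hS
        have e := hν' v0
        rw [zero_smul] at e
        exact hv0 (((h : V ≃ₗ[F] V) ^ m).injective (by rw [e, map_zero]))
      obtain ⟨κ, hκ0, hκ⟩ := G6_root hodd hd hν0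
      let s : V ≃ₗ[F] V := LinearEquiv.smulOfNeZero F V κ⁻¹ (inv_ne_zero hκ0)
      have hs : ∀ v, s v = κ⁻¹ • v := fun v => rfl
      let g : V ≃ₗ[F] V := s * (h : V ≃ₗ[F] V)
      have hgv : ∀ v, g v = κ⁻¹ • (h : V ≃ₗ[F] V) v := fun v => rfl
      have e7 : ∀ (k : ℕ) (v : V), (g ^ k) v = κ⁻¹ ^ k • ((h : V ≃ₗ[F] V) ^ k) v := by
        intro k
        induction k with
        | zero => intro v; rw [pow_zero, pow_zero, pow_zero, one_smul]
        | succ k ih =>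
          intro v
          rw [pow_succ, pow_succ, pow_succ]
          show (g ^ k) (g v) = (κ⁻¹ ^ k * κ⁻¹) • ((h : V ≃ₗ[F] V) ^ k) ((h : V ≃ₗ[F] V) v)
          rw [hgv, map_smul, ih, smul_smul, mul_comm]
      have hgP : G6_P M G hG.pres N m g := by
        refine ⟨?_, h, ?_, κ⁻¹, inv_ne_zero hκ0, hgv⟩
        · apply LinearEquiv.ext
          intro v
          rw [e7, hν', smul_smul, ← hκ, ← mul_pow, inv_mul_cancel₀ hκ0, one_pow, one_smul]
          rfl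
        · rw [hh]
          exact n.2
      refine ⟨⟨g, hgP⟩, ?_⟩
      apply Subtype.ext
      show pm M G hG.pres (φ ⟨g, hgP⟩) = n
      rw [← hh]
      obtain ⟨c, hc0, ec⟩ := hφ2 ⟨g, hgP⟩
      have hsc : Scal ((φ ⟨g, hgP⟩ * h⁻¹ : G) : V ≃ₗ[F] V) := by
        refine ⟨c⁻¹ * κ⁻¹, fun v => ?_⟩
        have e5 : ((φ ⟨g, hgP⟩ * h⁻¹ : G) : V ≃ₗ[F] V) =
            (φ ⟨g, hgP⟩ : V ≃ₗ[F] V) * (h : V ≃ₗ[F] V)⁻¹ := by
          push_cast
          rfl
        rw [e5]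
        show (φ ⟨g, hgP⟩ : V ≃ₗ[F] V) (((h : V ≃ₗ[F] V)⁻¹) v) = _
        set w := ((h : V ≃ₗ[F] V)⁻¹) v with hw
        have hwv : (h : V ≃ₗ[F] V) w = v := LinearEquiv.apply_symm_apply _ v
        have e6 := ec w
        have e8 : g w = κ⁻¹ • v := by rw [hgv, hwv]
        have e9 : κ⁻¹ • v = c • (φ ⟨g, hgP⟩ : V ≃ₗ[F] V) w := by rw [← e8]; exact e6
        rw [mul_smul, e9, smul_smul, inv_mul_cancel₀ hc0, one_smul]
      have h4 := (scal_iff hS hG _).2 hsc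
      rw [map_mul, map_inv, mul_inv_eq_one] at h4
      exact h4
  · intro g hg
    obtain ⟨μ, hs⟩ := G6_P_simi hG hg
    have hμ := G6_factor hS hodd hd hs hg.1
    rw [hμ] at hs
    exact ⟨hs, G6_P_com hS hG hcomm hρ g₀ h₀ hc hg₀ hg⟩

end Pool.Agent.LibNT29
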