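import Pool.Agent.LibNT29.D5
import Pool.Agent.LibNT29.G2
import Pool.Agent.LibNT29.G5
import Pool.Agent.LibNT29.G6

set_option autoImplicit false

/-!
[NT29 G7] SHORT/MEDIUM. Linear groups. `few`, `|X| = q^4+1 = 2` mod 4 (`mod4`; `q` odd from `hS.two`). `lin4`: `not4`. `lin`: `struct` for `Γ = (pm M G _).range` gives `N ≤ Γ` (map it to a subgroup of `Equiv.Perm {π // π ∈ M}` by `Subgroup.map (Subgroup.subtype _)`), `ρ̄ ∈ N`, `lift_rho`, `lift_group`,
`m = |N|`, `k = (q^4+1)/m`, `orbits`: `(q + 3) m ≤ 2 k m = 2 (q^4+1)`, `|Γ| ≤ 2 m`.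
-/

namespace Pool.Agent.LibNT29

open Module Pool.Agent.LibBT65

variable {F V : Type*} [Field F] [Fintype F] [AddCommGroup V] [Module F V]
  {B : V →ₗ[F] V →ₗ[F] F} {M : Finset (Submodule F V)}

private theorem G7_odd (hS : Sys B M) : Odd (Fintype.card F) := by
  rw [Nat.odd_iff]
  apply FiniteField.odd_card_of_char_ne_two
  intro h
  apply hS.two
  have h1 := ringChar.Nat.cast_ringChar (R := F)
  rw [h] at h1
  exact_mod_cast h1

private theorem G7_card (hS : Sys B M) : Nat.card {π // π ∈ M} = Fintype.card F ^ 4 + 1 := by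
  rw [Nat.card_eq_fintype_card, Fintype.card_coe, hS.card]

theorem lin4 (hS : Sys B M) (hH : Hyp B) {G : Subgroup (V ≃ₗ[F] V)} (hG : SGrp B M G) :
    ¬ 4 ∣ Nat.card (pm M G hG.pres).range := by
  refine not4 (few hS hH hG) ?_
  rw [G7_card hS]
  exact mod4 (G7_odd hS)

theorem lin (hS : Sys B M) (hH : Hyp B) {G : Subgroup (V ≃ₗ[F] V)} (hG : SGrp B M G) {r : ℕ}
    (hr : r.Prime) (hr2 : r ≠ 2) (hd : r ∣ Fintype.card F ^ 4 + 1)
    (hdG : r ∣ Nat.card (pm M G hG.pres).range) :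
    Nat.card (pm M G hG.pres).range ∣ Fintype.card F ^ 4 + 1 ∧
      (Fintype.card F + 3) * Nat.card (pm M G hG.pres).range ≤ 4 * (Fintype.card F ^ 4 + 1) := by
  have hX4 : Nat.card {π // π ∈ M} % 4 = 2 := by
    rw [G7_card hS]
    exact mod4 (G7_odd hS)
  have hdX : r ∣ Nat.card {π // π ∈ M} := by
    rw [G7_card hS]
    exact hd
  obtain ⟨N, _, hNodd, hNc, _, ⟨⟨ρ, hρG⟩, hρN, hρ1, hρr⟩, hNX, hGX, hGN⟩ :=
    struct (few hS hH hG) hX4 hr hr2 hdX hdG
  rw [G7_card hS] at hNX hGX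
  refine ⟨hGX, ?_⟩
  obtain ⟨g₀, rfl⟩ := hρG
  have h1 : pm M G hG.pres g₀ ≠ 1 := fun h => hρ1 (Subtype.ext h)
  have hp : (pm M G hG.pres g₀) ^ r = 1 := by
    have h := congrArg Subtype.val hρr
    rw [Subgroup.coe_pow, Subgroup.coe_one] at h
    exact h
  obtain ⟨c, ρ', hc, hg₀, hRho⟩ := lift_rho hS hG g₀ hr hr2 hd h1 hp
  have hcard : Nat.card (N.map (Subgroup.subtype _)) = Nat.card N :=
    (Nat.card_congr (N.equivMapOfInjective _ (Subgroup.subtype_injective _)).toEquiv).symm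
  obtain ⟨N', hN'c, hN'⟩ := lift_group hS hG (N.map (Subgroup.subtype _))
    (by
      rintro _ ⟨x, _, rfl⟩
      exact x.2)
    (by rw [hcard]; exact hNodd) (by rw [hcard]; exact hNX)
    (by
      rintro _ ⟨a, ha, rfl⟩ _ ⟨b, hb, rfl⟩
      have h := congrArg Subtype.val (hNc a ha b hb)
      exact h)
    hRho g₀ ⟨_, hρN, rfl⟩ hc hg₀
  rw [hcard] at hN'c
  obtain ⟨k, hk⟩ := hNX
  have hq := orbits hS hH hRho N' hN' (by rw [hN'c]; exact hNodd) (k := k) (by rw [hN'c]; exact hk.symm)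
  calc (Fintype.card F + 3) * Nat.card (pm M G hG.pres).range
      ≤ (2 * k) * (2 * Nat.card N) := Nat.mul_le_mul hq hGN
    _ = 4 * (Fintype.card F ^ 4 + 1) := by
      rw [hk]
      ring

end Pool.Agent.LibNT29
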