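import Pool.Agent.LibNT29.G7
import Pool.Agent.LibNT29.A4
import Pool.Agent.LibNT29.D6
import Pool.Agent.LibBT65.D3

set_option autoImplicit false

/-!
The first theorem: no group of semilinear similarities is transitive on the members.

`lp`: the permutation of a linear map. `lg G`: the linear elements of `G`. `S : G →* (F ≃+* F)` sends
`g` to its automorphism; its kernel `L` has index dividing `h`, `q = p^h`. The orbit of `L` on a member
has `s` elements, `s ∣ q^4 + 1`, `q^4 + 1 ≤ h s` (`trans_normal`), and `s ∣ |Γ|` where `Γ` is the group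
of permutations of the members induced by `L`. As `s > 2`, an odd prime divides `s`, so `lin` gives
`(q + 3) |Γ| ≤ 4 (q^4 + 1)`, and `(q + 3) ≤ 4 h`, contradiction.
-/

namespace Pool.Agent.LibNT29

open Module Pool.Agent.LibBT65

variable {F : Type*} [Field F]

/-- the automorphism of a semilinear map is unique -/
theorem semi_uniq (g : Equiv.Perm (Sp F))
    (hadd : ∀ v w, g (v + w) = g v + g w) {f f' : F → F}
    (h : ∀ (a : F) (v : Sp F), g (a • v) = f a • g v)
    (h' : ∀ (a : F) (v : Sp F), g (a • v) = f' a • g v) (a : F) : f a = f' a := by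
  have h0 : g 0 = 0 := by
    have h1 := hadd 0 0
    rw [add_zero] at h1
    have h2 : g 0 + g 0 = g 0 + 0 := by rw [add_zero]; exact h1.symm
    exact add_left_cancel h2
  obtain ⟨v, hv⟩ : ∃ v : Sp F, v ≠ 0 := exists_ne 0
  have hgv : g v ≠ 0 := by
    intro h1
    rw [← h0] at h1
    exact hv (g.injective h1)
  have h1 : (f a - f' a) • g v = 0 := by
    rw [sub_smul, ← h a v, ← h' a v, sub_self]
  rcases smul_eq_zero.1 h1 with h2 | h2
  · exact sub_eq_zero.1 h2
  · exact absurd h2 hgv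

/-- the permutation of a linear automorphism -/
def lp (F : Type*) [Field F] : (Sp F ≃ₗ[F] Sp F) →* Equiv.Perm (Sp F) where
  toFun φ := φ.toEquiv
  map_one' := rfl
  map_mul' _ _ := rfl

/-- the linear elements of `G` -/
def lg (G : Subgroup (Equiv.Perm (Sp F))) : Subgroup (Sp F ≃ₗ[F] Sp F) := G.comap (lp F)

/-- the target of a member under a symmetry is unique -/
theorem target_uniq (g : Equiv.Perm (Sp F)) {π π' π'' : Submodule F (Sp F)}
    (h : ∀ v, v ∈ π ↔ g v ∈ π') (h' : ∀ v, v ∈ π ↔ g v ∈ π'') : π' = π'' := by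
  ext w
  have h1 : g (g.symm w) = w := g.apply_symm_apply w
  have h2 := h (g.symm w)
  have h3 := h' (g.symm w)
  rw [h1] at h2 h3
  exact h2.symm.trans h3

/-- the image of a submodule under the linear map of a permutation -/
theorem map_lp (φ : Sp F ≃ₗ[F] Sp F) {π π' : Submodule F (Sp F)}
    (h : ∀ v, v ∈ π ↔ lp F φ v ∈ π') : π.map (φ : Sp F →ₗ[F] Sp F) = π' := by
  ext w
  constructor
  · rintro ⟨v, hv, rfl⟩
    exact (h v).1 hv
  · intro hw
    refine ⟨φ.symm w, ?_, φ.apply_symm_apply w⟩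
    have h2 : lp F φ (φ.symm w) = w := φ.apply_symm_apply w
    exact (h _).2 (by rw [h2]; exact hw)

theorem simi_of {M : Finset (Submodule F (Sp F))} {φ : Sp F ≃ₗ[F] Sp F}
    (h1 : Symmetry M (lp F φ)) : ∃ μ : F, Simi (bil F) M μ φ := by
  obtain ⟨σ, hσ, c, hc⟩ := h1.semi
  have h2 : ∀ a, σ a = a := fun a =>
    semi_uniq (lp F φ) h1.add (f := σ) (f' := fun a => a) hσ (fun a v => φ.map_smul a v) a
  have h3 : ∀ v, Q (φ v) = c * Q v := by
    intro v
    have h4 := hc v
    rw [h2] at h4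
    exact h4
  refine ⟨c, ⟨fun v w => ?_, fun π hπ => ?_⟩⟩
  · rw [bil_apply, bil_apply, polar_eq, polar_eq, ← map_add, h3, h3, h3]
    ring
  · obtain ⟨π', hπ', h⟩ := h1.pres π hπ
    rw [map_lp φ h]
    exact hπ'

theorem lg_sgrp {M : Finset (Submodule F (Sp F))} {G : Subgroup (Equiv.Perm (Sp F))}
    (hG : ∀ g ∈ G, Symmetry M g) : SGrp (bil F) M (lg G) :=
  fun _ hφ => simi_of (hG _ hφ)

/-- a number `> 2` not divisible by 4 has an odd prime divisor -/
theorem odd_prime_dvd {s : ℕ} (hs : 2 < s) (h4 : ¬ 4 ∣ s) : ∃ r, r.Prime ∧ r ≠ 2 ∧ r ∣ s := by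
  by_cases h2 : 2 ∣ s
  · obtain ⟨m, rfl⟩ := h2
    have hm1 : m ≠ 1 := by omega
    refine ⟨m.minFac, Nat.minFac_prime hm1, ?_, (Nat.minFac_dvd m).trans (dvd_mul_left m 2)⟩
    intro h
    have h5 : 2 ∣ m := by
      rw [← h]
      exact Nat.minFac_dvd m
    obtain ⟨k, rfl⟩ := h5
    exact h4 ⟨k, by ring⟩
  · refine ⟨s.minFac, Nat.minFac_prime (by omega), ?_, Nat.minFac_dvd s⟩
    intro h
    apply h2
    rw [← h]
    exact Nat.minFac_dvd s

private theorem G8_num {p h : ℕ} (hp : 3 ≤ p) (hh : 0 < h) : 4 * h < p ^ h + 3 := by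
  have h1 : 4 * h < 3 ^ h + 3 := by
    obtain ⟨k, rfl⟩ : ∃ k, h = k + 1 := ⟨h - 1, by omega⟩
    clear hh
    induction k with
    | zero => norm_num
    | succ k ih =>
      have h2 : 3 ≤ 3 ^ (k + 1) := by
        calc 3 = 3 ^ 1 := (pow_one 3).symm
          _ ≤ 3 ^ (k + 1) := Nat.pow_le_pow_right (by norm_num) (by omega)
      have h3 : 3 ^ (k + 1 + 1) = 3 * 3 ^ (k + 1) := by rw [pow_succ]; ring
      omega
  have h2 : 3 ^ h ≤ p ^ h := Nat.pow_le_pow_left hp h
  omega

theorem no_transitive [Fintype F] (two : (2 : F) ≠ 0) {M : Finset (Submodule F (Sp F))}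
    (hM : BLTSystem M) (G : Subgroup (Equiv.Perm (Sp F))) (hG : ∀ g ∈ G, Symmetry M g)
    (htr : ∀ π ∈ M, ∀ π' ∈ M, ∃ g ∈ G, ∀ v, v ∈ π ↔ g v ∈ π') : False := by
  classical
  obtain ⟨p, hchar⟩ := CharP.exists F
  obtain ⟨h, hpp, hq⟩ := FiniteField.card F p
  have hfact : Fact p.Prime := ⟨hpp⟩
  have hp2 : p ≠ 2 := by
    intro h2
    subst h2
    apply two
    have h1 : ((2 : ℕ) : F) = 0 := CharP.cast_eq_zero F 2
    exact_mod_cast h1
  have hp3 : 3 ≤ p := by
    have := hpp.two_le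
    omega
  have hSys := sys two hM
  have hHyp := hyp_bil (F := F) two
  have hodd : Odd (Fintype.card F) := by
    rw [hq]
    exact (hpp.odd_of_ne_two hp2).pow
  have hXcard : Nat.card {π // π ∈ M} = Fintype.card F ^ 4 + 1 := by
    rw [Nat.card_eq_fintype_card, Fintype.card_coe, hM.card]
  have h42 : (Fintype.card F ^ 4 + 1) % 4 = 2 := mod4 hodd
  -- the automorphisms
  choose s hs using fun g : G => (hG g.1 g.2).semi
  have hmul : ∀ g g' : G, s (g * g') = s g * s g' := by
    intro g g'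
    ext a
    refine semi_uniq ((g * g' : G) : Equiv.Perm (Sp F)) (hG _ (g * g').2).add
      (f := fun b => s (g * g') b) (f' := fun b => (s g * s g') b) (hs (g * g')).1 ?_ a
    intro a v
    change (g : Equiv.Perm (Sp F)) ((g' : Equiv.Perm (Sp F)) (a • v)) =
      s g (s g' a) • (g : Equiv.Perm (Sp F)) ((g' : Equiv.Perm (Sp F)) v)
    rw [(hs g').1, (hs g).1]
  let S : G →* (F ≃+* F) := MonoidHom.mk' s hmul
  have hSv : ∀ g, S g = s g := fun g => rfl
  have hidx : S.ker.index ≤ h := by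
    rw [Subgroup.index_ker]
    refine Nat.le_of_dvd h.pos ?_
    rw [← card_ringAut p hq]
    exact Subgroup.card_subgroup_dvd_card _
  -- the action on the members
  choose f hf hf' using fun (g : G) (π : {π // π ∈ M}) => (hG g.1 g.2).pres π.1 π.2
  let act : MulAction G {π // π ∈ M} :=
    { smul := fun g π => ⟨f g π, hf g π⟩
      one_smul := fun π => Subtype.ext
        (target_uniq (1 : Equiv.Perm (Sp F)) (hf' 1 π) (fun v => Iff.rfl))
      mul_smul := fun g g' π => Subtype.ext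
        (target_uniq ((g * g' : G) : Equiv.Perm (Sp F)) (hf' (g * g') π)
          (fun v => (hf' g' π v).trans (hf' g ⟨f g' π, hf g' π⟩ _))) }
  have hsm : ∀ (g : G) (π : {π // π ∈ M}) (v : Sp F), v ∈ π.1 ↔ (g : Equiv.Perm (Sp F)) v ∈ (g • π).1 :=
    fun g π v => hf' g π v
  have htrans : MulAction.IsPretransitive G {π // π ∈ M} := by
    refine ⟨fun x y => ?_⟩
    obtain ⟨g, hg, h1⟩ := htr x.1 x.2 y.1 y.2
    exact ⟨⟨g, hg⟩, Subtype.ext (target_uniq g (hsm ⟨g, hg⟩ x) h1)⟩
  have hne : Nonempty {π // π ∈ M} := by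
    have h1 : 0 < Nat.card {π // π ∈ M} := by
      rw [hXcard]
      omega
    exact (Nat.card_pos_iff.1 h1).1
  obtain ⟨x⟩ := hne
  obtain ⟨hd, hle⟩ := trans_normal S.ker x
  rw [hXcard] at hd hle
  -- the linear part
  have hSG := lg_sgrp hG
  have hker : ∀ g : G, g ∈ S.ker ↔ ∃ φ ∈ lg G, lp F φ = g := by
    intro g
    constructor
    · intro hg
      have h1 : s g = 1 := hg
      let φ : Sp F ≃ₗ[F] Sp F :=
        { (g : Equiv.Perm (Sp F)) with
          map_add' := (hG g.1 g.2).add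
          map_smul' := fun a v => by
            have h2 := (hs g).1 a v
            rw [h1] at h2
            exact h2 }
      have hφ : lp F φ = g := by
        ext1 v
        rfl
      refine ⟨φ, ?_, hφ⟩
      show lp F φ ∈ G
      rw [hφ]
      exact g.2
    · rintro ⟨φ, _, hφ⟩
      show s g = 1
      ext a
      refine semi_uniq (g : Equiv.Perm (Sp F)) (hG g.1 g.2).add
        (f := fun b => s g b) (f' := fun b => b) (hs g).1 ?_ a
      intro b v
      rw [← hφ]
      exact φ.map_smul b v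
  have horb : (MulAction.orbit S.ker x : Set {π // π ∈ M}) =
      MulAction.orbit (pm M (lg G) hSG.pres).range x := by
    ext y
    rw [MulAction.mem_orbit_iff, MulAction.mem_orbit_iff]
    constructor
    · rintro ⟨⟨g, hg⟩, rfl⟩
      obtain ⟨φ, hφ, hφg⟩ := (hker g).1 hg
      refine ⟨⟨pm M (lg G) hSG.pres ⟨φ, hφ⟩, ⟨_, rfl⟩⟩, ?_⟩
      apply Subtype.ext
      show x.1.map (φ : Sp F →ₗ[F] Sp F) = (g • x).1
      refine map_lp φ ?_
      rw [hφg]
      exact hsm g x
    · rintro ⟨⟨_, ⟨⟨φ, hφ⟩, rfl⟩⟩, rfl⟩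
      refine ⟨⟨⟨lp F φ, hφ⟩, (hker _).2 ⟨φ, hφ, rfl⟩⟩, ?_⟩
      apply Subtype.ext
      show ((⟨lp F φ, hφ⟩ : G) • x).1 = x.1.map (φ : Sp F →ₗ[F] Sp F)
      exact (map_lp φ (hsm ⟨lp F φ, hφ⟩ x)).symm
  have hsd : Nat.card (MulAction.orbit S.ker x) ∣ Nat.card (pm M (lg G) hSG.pres).range := by
    rw [horb, Nat.card_coe_set_eq, ← MulAction.index_stabilizer]
    exact Subgroup.index_dvd_card _
  set t := Nat.card (MulAction.orbit S.ker x) with ht
  have hlt : (h : ℕ) < p ^ (h : ℕ) := Nat.lt_pow_self hpp.one_lt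
  have ht2 : 2 < t := by
    by_contra hc
    have h1 : t ≤ 2 := by omega
    have h2 : Fintype.card F ^ 4 + 1 ≤ h * 2 := hle.trans (Nat.mul_le_mul hidx h1)
    have h3 : (Fintype.card F) ≤ Fintype.card F ^ 4 := Nat.le_self_pow (by norm_num) _
    have h4 : 3 * Fintype.card F ≤ Fintype.card F ^ 4 := by
      have h5 : 3 ≤ Fintype.card F := by
        rw [hq]
        calc 3 ≤ p := hp3
          _ ≤ p ^ (h : ℕ) := Nat.le_self_pow h.ne_zero p
      calc 3 * Fintype.card F ≤ Fintype.card F * Fintype.card F := Nat.mul_le_mul_right _ h5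
        _ = Fintype.card F ^ 2 := by ring
        _ ≤ Fintype.card F ^ 4 := Nat.pow_le_pow_right (by omega) (by norm_num)
    rw [← hq] at hlt
    omega
  have ht4 : ¬ 4 ∣ t := by
    intro h4
    have := h4.trans hd
    omega
  obtain ⟨r, hr, hr2, hrt⟩ := odd_prime_dvd ht2 ht4
  obtain ⟨_, hbound⟩ := lin hSys hHyp hSG hr hr2 (hrt.trans hd) (hrt.trans hsd)
  have h1 : t ≤ Nat.card (pm M (lg G) hSG.pres).range := Nat.le_of_dvd Nat.card_pos hsd
  have h2 : (Fintype.card F + 3) * (Fintype.card F ^ 4 + 1) ≤ (4 * h) * (Fintype.card F ^ 4 + 1) := by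
    calc (Fintype.card F + 3) * (Fintype.card F ^ 4 + 1)
        ≤ (Fintype.card F + 3) * (h * Nat.card (pm M (lg G) hSG.pres).range) :=
          Nat.mul_le_mul_left _ (hle.trans (Nat.mul_le_mul hidx h1))
      _ = h * ((Fintype.card F + 3) * Nat.card (pm M (lg G) hSG.pres).range) := by ring
      _ ≤ h * (4 * (Fintype.card F ^ 4 + 1)) := Nat.mul_le_mul_left _ hbound
      _ = (4 * h) * (Fintype.card F ^ 4 + 1) := by ring
  have h3 := Nat.le_of_mul_le_mul_right h2 (by omega)
  have h4 := G8_num hp3 h.pos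
  rw [← hq] at h4
  omega

end Pool.Agent.LibNT29
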