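import Pool.Agent.LibNT29.G8
import Pool.Agent.LibNT29.D7
import Pool.Agent.LibBT65.R8
import Pool.Agent.LibBT65.D5
import Pool.Agent.LibBT65.Q9

set_option autoImplicit false

/-!
The second theorem: linear groups `G`. An element fixing three members is scalar. Let `n` be the index
of the scalars in `G`, the order of the group `Γ` of permutations of the members. `4` does not divide
`n`. If an odd prime divides `n` and `q^4 + 1` then `n ∣ q^4 + 1`, `(q + 3) n ≤ 4 (q^4 + 1)` (`lin`).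
Otherwise let `n = p^a m`, `p` not dividing `m`; every prime power dividing `m` divides `q^2 - 1`:
`sylow_two` and `coprime_bound`.
-/

namespace Pool.Agent.LibNT29

open Module Pool.Agent.LibBT65

variable {F : Type*} [Field F] [Fintype F]

theorem two_ne (p : ℕ) [CharP F p] (hp2 : p ≠ 2) : (2 : F) ≠ 0 := by
  obtain ⟨n, hp, hq⟩ := FiniteField.card F p
  intro h
  have h1 : ((2 : ℕ) : F) = 0 := by exact_mod_cast h
  rw [CharP.cast_eq_zero_iff F p] at h1
  exact hp2 ((Nat.prime_dvd_prime_iff_eq hp Nat.prime_two).1 h1)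

omit [Fintype F] in
theorem exists_lp {M : Finset (Submodule F (Sp F))} {g : Equiv.Perm (Sp F)} (hg : Symmetry M g)
    (hlin : ∀ (a : F) (v : Sp F), g (a • v) = a • g v) : ∃ φ : Sp F ≃ₗ[F] Sp F, lp F φ = g := by
  let φ : Sp F ≃ₗ[F] Sp F :=
    { g with
      map_add' := hg.add
      map_smul' := fun a v => hlin a v }
  refine ⟨φ, ?_⟩
  ext1 v
  rfl

omit [Fintype F] in
theorem lp_inj {φ ψ : Sp F ≃ₗ[F] Sp F} (h : lp F φ = lp F ψ) : φ = ψ := by
  ext1 v
  exact Equiv.congr_fun h v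

omit [Fintype F] in
theorem card_lg {M : Finset (Submodule F (Sp F))} (G : Subgroup (Equiv.Perm (Sp F)))
    (hG : ∀ g ∈ G, Symmetry M g) (hlin : ∀ g ∈ G, ∀ (a : F) (v : Sp F), g (a • v) = a • g v) :
    Nat.card (lg G) = Nat.card G := by
  refine Nat.card_eq_of_bijective (fun φ : lg G => (⟨lp F φ.1, φ.2⟩ : G)) ⟨?_, ?_⟩
  · intro φ ψ h
    exact Subtype.ext (lp_inj (congrArg Subtype.val h))
  · rintro ⟨g, hg⟩
    obtain ⟨φ, hφ⟩ := exists_lp (hG g hg) (hlin g hg)
    exact ⟨⟨φ, by show lp F φ ∈ G; rw [hφ]; exact hg⟩, Subtype.ext hφ⟩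

theorem fixed_three (two : (2 : F) ≠ 0) {M : Finset (Submodule F (Sp F))} (hM : BLTSystem M)
    {g : Equiv.Perm (Sp F)} (hg : Symmetry M g)
    (hlin : ∀ (a : F) (v : Sp F), g (a • v) = a • g v) {a b c : Submodule F (Sp F)} (ha : a ∈ M)
    (hb : b ∈ M) (hc : c ∈ M) (hab : a ≠ b) (hac : a ≠ c) (hbc : b ≠ c) (h1 : ∀ v, v ∈ a ↔ g v ∈ a)
    (h2 : ∀ v, v ∈ b ↔ g v ∈ b) (h3 : ∀ v, v ∈ c ↔ g v ∈ c) : ∃ t : F, ∀ v, g v = t • v := by
  classical
  obtain ⟨φ, rfl⟩ := exists_lp hg hlin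
  obtain ⟨μ, hμ⟩ := simi_of hg
  have hsub : ({a, b, c} : Finset (Submodule F (Sp F))) ⊆ fx M φ := by
    intro π hπ
    rw [Finset.mem_insert, Finset.mem_insert, Finset.mem_singleton] at hπ
    unfold fx
    rw [Finset.mem_filter]
    rcases hπ with rfl | rfl | rfl
    · exact ⟨ha, map_lp φ h1⟩
    · exact ⟨hb, map_lp φ h2⟩
    · exact ⟨hc, map_lp φ h3⟩
  have hcard : ({a, b, c} : Finset (Submodule F (Sp F))).card = 3 := by
    rw [Finset.card_insert_of_notMem, Finset.card_pair hbc]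
    rw [Finset.mem_insert, Finset.mem_singleton]
    rintro (h | h)
    · exact hab h
    · exact hac h
  have h4 := Finset.card_le_card hsub
  rw [hcard] at h4
  exact three_fixed (sys two hM) hμ h4

/-- an element with scalar square is scalar or fixes no member -/
theorem square_scalar (two : (2 : F) ≠ 0) {M : Finset (Submodule F (Sp F))} (hM : BLTSystem M)
    {g : Equiv.Perm (Sp F)} (hg : Symmetry M g)
    (hlin : ∀ (a : F) (v : Sp F), g (a • v) = a • g v) (hsq : ∃ t : F, ∀ v, (g * g) v = t • v) :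
    (∃ t : F, ∀ v, g v = t • v) ∨ ∀ π ∈ M, ¬ ∀ v, v ∈ π ↔ g v ∈ π := by
  obtain ⟨φ, rfl⟩ := exists_lp hg hlin
  obtain ⟨μ, hμ⟩ := simi_of hg
  obtain ⟨t, ht⟩ := hsq
  by_cases hs : Scal φ
  · left
    exact hs
  · right
    intro π hπ h
    have h1 : fx M φ = ∅ := inv_free (sys two hM) (hyp_bil two) hμ ht hs
    have h2 : π ∈ fx M φ := by
      classical
      unfold fx
      rw [Finset.mem_filter]
      exact ⟨hπ, map_lp φ h⟩
    rw [h1] at h2
    exact absurd h2 (Finset.notMem_empty π)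

/-- the order of the group of permutations of the members is the index of the scalars -/
theorem card_pm (two : (2 : F) ≠ 0) {M : Finset (Submodule F (Sp F))} (hM : BLTSystem M)
    (G : Subgroup (Equiv.Perm (Sp F))) (hG : ∀ g ∈ G, Symmetry M g)
    (hlin : ∀ g ∈ G, ∀ (a : F) (v : Sp F), g (a • v) = a • g v) :
    Nat.card (pm M (lg G) (lg_sgrp hG).pres).range *
      Nat.card {g : Equiv.Perm (Sp F) // g ∈ G ∧ ∃ c : F, ∀ v, g v = c • v} = Nat.card G := by
  have hSys := sys two hM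
  have hSG := lg_sgrp hG
  have h1 : Nat.card {g : Equiv.Perm (Sp F) // g ∈ G ∧ ∃ c : F, ∀ v, g v = c • v} =
      Nat.card (pm M (lg G) hSG.pres).ker := by
    symm
    refine Nat.card_eq_of_bijective
      (fun φ : (pm M (lg G) hSG.pres).ker =>
        (⟨lp F φ.1.1, φ.1.2, (scal_iff hSys hSG φ.1).1 φ.2⟩ :
          {g : Equiv.Perm (Sp F) // g ∈ G ∧ ∃ c : F, ∀ v, g v = c • v})) ⟨?_, ?_⟩
    · intro φ ψ h
      exact Subtype.ext (Subtype.ext (lp_inj (congrArg Subtype.val h)))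
    · rintro ⟨g, hg, hc⟩
      obtain ⟨φ, hφ⟩ := exists_lp (hG g hg) (hlin g hg)
      have hφG : φ ∈ lg G := by
        show lp F φ ∈ G
        rw [hφ]
        exact hg
      have hscal : Scal φ := by
        obtain ⟨c, hc⟩ := hc
        refine ⟨c, fun v => ?_⟩
        rw [← hφ] at hc
        exact hc v
      exact ⟨⟨⟨φ, hφG⟩, (scal_iff hSys hSG ⟨φ, hφG⟩).2 hscal⟩, Subtype.ext hφ⟩
  rw [h1, ← Subgroup.index_ker, mul_comm, Subgroup.card_mul_index, card_lg G hG hlin]

/-- powers of the characteristic -/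
theorem p_part (p : ℕ) [CharP F p] (hp2 : p ≠ 2) {M : Finset (Submodule F (Sp F))}
    (hM : BLTSystem M) (G : Subgroup (Equiv.Perm (Sp F))) (hG : ∀ g ∈ G, Symmetry M g)
    (hlin : ∀ g ∈ G, ∀ (a : F) (v : Sp F), g (a • v) = a • g v) (k : ℕ) (hk : p ^ k ∣ Nat.card G) :
    (p ^ k) ^ 2 ≤ Fintype.card F ^ 7 ∧
      (p ≠ 3 ∨ Fintype.card F = 3 → p ^ k ∣ Fintype.card F ^ 3) := by
  obtain ⟨n, hp, hq⟩ := FiniteField.card F p
  have hfact : Fact p.Prime := ⟨hp⟩
  have hq1 : 1 < Fintype.card F := Fintype.one_lt_card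
  have h76 : ∀ m : ℕ, m ∣ Fintype.card F ^ 3 → m ^ 2 ≤ Fintype.card F ^ 7 := by
    intro m hm
    have h2 := Nat.le_of_dvd (pow_pos (by omega) 3) hm
    calc m ^ 2 ≤ (Fintype.card F ^ 3) ^ 2 := Nat.pow_le_pow_left h2 2
      _ = Fintype.card F ^ 6 := by rw [← pow_mul]
      _ ≤ Fintype.card F ^ 7 := Nat.pow_le_pow_right (by omega) (by norm_num)
  by_cases h5 : 5 ≤ p
  · have h1 := main1 p h5 hM G hG hlin k hk
    exact ⟨h76 _ h1, fun _ => h1⟩
  · have h3 : p = 3 := by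
      have h2 := hp.two_le
      have h4 : p ≠ 4 := by
        rintro rfl
        exact absurd hp (by norm_num)
      omega
    subst h3
    by_cases hq3 : Fintype.card F = 3
    · have h1 := main1_three hq3 hM G hG k hk
      have h2 : 3 ^ k ∣ Fintype.card F ^ 3 := by
        rw [hq3]
        exact h1
      exact ⟨h76 _ h2, fun _ => h2⟩
    · have h9 : 9 ≤ Fintype.card F := by
        rw [hq] at hq3 ⊢
        have hn : (n : ℕ) ≠ 1 := by
          intro h
          rw [h] at hq3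
          exact hq3 (by norm_num)
        have hn0 := n.pos
        calc 9 = 3 ^ 2 := by norm_num
          _ ≤ 3 ^ (n : ℕ) := Nat.pow_le_pow_right (by norm_num) (by omega)
      refine ⟨main1_3 h9 hM G hG hlin k hk, fun h => ?_⟩
      rcases h with h | h
      · exact absurd rfl h
      · exact absurd h hq3

private theorem G9_fac {q : ℕ} (hq : 1 ≤ q) : q ^ 4 + 1 - 2 = (q ^ 2 - 1) * (q ^ 2 + 1) := by
  obtain ⟨k, hk⟩ : ∃ k, q ^ 2 = k + 1 := ⟨q ^ 2 - 1, by
    have : 1 ≤ q ^ 2 := Nat.one_le_pow 2 q hq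
    omega⟩
  have h1 : q ^ 4 = (q ^ 2) ^ 2 := by rw [← pow_mul]
  rw [h1, hk]
  have h2 : (k + 1) ^ 2 + 1 = k * (k + 1 + 1) + 2 := by ring
  rw [h2, Nat.add_sub_cancel, Nat.add_sub_cancel]

theorem order_lin (p : ℕ) [CharP F p] (hp2 : p ≠ 2) {M : Finset (Submodule F (Sp F))}
    (hM : BLTSystem M) (G : Subgroup (Equiv.Perm (Sp F))) (hG : ∀ g ∈ G, Symmetry M g)
    (hlin : ∀ g ∈ G, ∀ (a : F) (v : Sp F), g (a • v) = a • g v) {n : ℕ}
    (hn : n * Nat.card {g : Equiv.Perm (Sp F) // g ∈ G ∧ ∃ c : F, ∀ v, g v = c • v} = Nat.card G) :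
    ¬ 4 ∣ n ∧
      ((n ∣ Fintype.card F ^ 4 + 1 ∧ (Fintype.card F + 3) * n ≤ 4 * (Fintype.card F ^ 4 + 1)) ∨
        ∃ a : ℕ, n ∣ p ^ a * (Fintype.card F ^ 2 - 1) ∧ (p ^ a) ^ 2 ≤ Fintype.card F ^ 7 ∧
          (p ≠ 3 ∨ Fintype.card F = 3 → p ^ a ∣ Fintype.card F ^ 3)) := by
  have two := two_ne (F := F) p hp2
  have hSys := sys two hM
  have hHyp := hyp_bil (F := F) two
  have hSG := lg_sgrp hG
  obtain ⟨h, hp, hq⟩ := FiniteField.card F p
  have hodd : Odd (Fintype.card F) := by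
    rw [hq]
    exact (hp.odd_of_ne_two hp2).pow
  have hXcard : Nat.card {π // π ∈ M} = Fintype.card F ^ 4 + 1 := by
    rw [Nat.card_eq_fintype_card, Fintype.card_coe, hM.card]
  have hpm := card_pm two hM G hG hlin
  have hspos : 0 < Nat.card {g : Equiv.Perm (Sp F) // g ∈ G ∧ ∃ c : F, ∀ v, g v = c • v} := by
    rcases Nat.eq_zero_or_pos
      (Nat.card {g : Equiv.Perm (Sp F) // g ∈ G ∧ ∃ c : F, ∀ v, g v = c • v}) with h0 | h0
    · rw [h0, mul_zero] at hpm
      exact absurd hpm.symm Nat.card_pos.ne'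
    · exact h0
  have hnΓ : n = Nat.card (pm M (lg G) hSG.pres).range :=
    Nat.eq_of_mul_eq_mul_right hspos (hn.trans hpm.symm)
  have hn0 : n ≠ 0 := by
    rw [hnΓ]
    exact Nat.card_pos.ne'
  have hnG : n ∣ Nat.card G := ⟨_, hn.symm⟩
  have hn4 : ¬ 4 ∣ n := by
    rw [hnΓ]
    exact lin4 hSys hHyp hSG
  refine ⟨hn4, ?_⟩
  by_cases hr : ∃ r, r.Prime ∧ r ≠ 2 ∧ r ∣ Fintype.card F ^ 4 + 1 ∧ r ∣ n
  · obtain ⟨r, hr, hr2, hrd, hrn⟩ := hr
    left
    rw [hnΓ] at hrn ⊢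
    exact lin hSys hHyp hSG hr hr2 hrd hrn
  · right
    push Not at hr
    obtain ⟨a, m, hm, ham⟩ := Nat.exists_eq_pow_mul_and_not_dvd hn0 p hp.ne_one
    have hpa : p ^ a ∣ n := ⟨m, ham⟩
    have hmn : m ∣ n := ⟨p ^ a, by rw [ham, mul_comm]⟩
    obtain ⟨hP1, hP2⟩ := p_part p hp2 hM G hG hlin a (hpa.trans hnG)
    refine ⟨a, ?_, hP1, hP2⟩
    rw [ham]
    refine mul_dvd_mul_left _ ?_
    have hq1 : 1 ≤ Fintype.card F := Fintype.card_pos
    rw [Nat.dvd_iff_prime_pow_dvd_dvd]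
    intro s k hs hk
    rcases Nat.eq_zero_or_pos k with rfl | hk0
    · rw [pow_zero]
      exact one_dvd _
    have hsm : s ∣ m := (dvd_pow_self s hk0.ne').trans hk
    have hsn : s ∣ n := hsm.trans hmn
    have hsp : s ≠ p := by
      rintro rfl
      exact hm hsm
    by_cases hs2 : s = 2
    · subst hs2
      have hk1 : k = 1 := by
        by_contra hk1
        apply hn4
        have h1 : 2 ^ 2 ∣ n := (pow_dvd_pow 2 (by omega)).trans (hk.trans hmn)
        exact h1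
      subst hk1
      rw [pow_one]
      obtain ⟨c, hc⟩ := hodd
      rw [hc]
      have h1 : (2 * c + 1) ^ 2 - 1 = 2 * (2 * c ^ 2 + 2 * c) := by
        have h2 : (2 * c + 1) ^ 2 = 2 * (2 * c ^ 2 + 2 * c) + 1 := by ring
        omega
      rw [h1]
      exact dvd_mul_right _ _
    · have hsX : ¬ s ∣ Fintype.card F ^ 4 + 1 := fun hd => hr s hs hs2 hd hsn
      have hsq : ¬ s ∣ Fintype.card F := by
        intro hd
        rw [hq] at hd
        exact hsp ((Nat.prime_dvd_prime_iff_eq hs hp).1 (hs.dvd_of_dvd_pow hd))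
      have hsq1 : s ∣ Fintype.card F ^ 2 - 1 := by
        by_contra hd
        apply hsX
        have hco : Nat.Coprime (s ^ k) (Fintype.card F * (Fintype.card F ^ 2 - 1)) := by
          apply Nat.Coprime.pow_left
          apply Nat.Coprime.mul_right
          · exact (Nat.Prime.coprime_iff_not_dvd hs).2 hsq
          · exact (Nat.Prime.coprime_iff_not_dvd hs).2 hd
        exact (dvd_pow_self s hk0.ne').trans
          (coprime_bound two hM G hG hlin (hk.trans (hmn.trans hnG)) hco)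
      have h1 : s ^ k ∣ Nat.card {π // π ∈ M} - 2 := by
        refine sylow_two (few hSys hHyp hSG) hs hs2 ?_ ?_ ?_
        · rw [← hnΓ]
          exact hk.trans hmn
        · rw [hXcard]
          exact hsX
        · rw [hXcard, Nat.add_sub_cancel]
          intro hd
          exact hsq (hs.dvd_of_dvd_pow hd)
      rw [hXcard, G9_fac hq1] at h1
      have hs3 : ¬ s ∣ Fintype.card F ^ 2 + 1 := by
        intro hd
        have h2 : s ∣ (Fintype.card F ^ 2 + 1) - (Fintype.card F ^ 2 - 1) := Nat.dvd_sub hd hsq1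
        have h3 : 1 ≤ Fintype.card F ^ 2 := Nat.one_le_pow 2 _ hq1
        have h4 : (Fintype.card F ^ 2 + 1) - (Fintype.card F ^ 2 - 1) = 2 := by omega
        rw [h4] at h2
        exact hs2 ((Nat.prime_dvd_prime_iff_eq hs Nat.prime_two).1 h2)
      have hco : Nat.Coprime (s ^ k) (Fintype.card F ^ 2 + 1) :=
        Nat.Coprime.pow_left k ((Nat.Prime.coprime_iff_not_dvd hs).2 hs3)
      exact hco.dvd_of_dvd_mul_right h1

end Pool.Agent.LibNT29
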